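import Mathlib
import Pool.Agent.RSG.Defs
import Pool.Agent.CSG.FunBasic
import Pool.Agent.KNT.Defs

/-!
# NHP/Defs: charts, pushes (compactly supported isotopies), the equivalence relation `LEqN` on subsets of a 3-manifold, chords

`N` is a Hausdorff smooth 3-manifold, `E = ℂ × ℝ` is the model of the charts.

* `Cht O β`: `β` is a chart with domain `O ⊆ E`.
* `Push O V`: `V s`, `s ∈ ℝ`, is a smooth isotopy of `N`, `V 0 = id`, supported in a compact subset of `O`; `PushE`: the same in `E`.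
* `LEqN`: the equivalence relation on subsets of `N` generated by pushes, 4-moves and homotopies of one ribbon (as `KNT.LEq`).
* `LEqO O`: the same relation in `E`, all moves inside the open set `O` (transported to `N` by charts).
* `Rep f c`: the function `f` (restricted to `[0, 1]`) is a path in `Y` homotopic to `c`.
* `TD, TS, TF`: the model of a chord: the tube `‖w‖ < 1`, `-1/4 < x < 5/4`; two strands (foot `x = 0`, `w` real; tip `x = 1`,
  `w` imaginary); the finger along the core `w = 0` which passes the tip strand.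
* `Chd K T`: the chart `T` is a chord of `K`; `kn K T`: the knot `K` with the finger; `StdE`: standard ends in the thick knot `κ`.
-/

open scoped Manifold ContDiff Topology
open Set Filter
open Pool.Agent.CSG (stp)
open Pool.Agent.RSG (E3 ex Thick)
open Pool.Agent.KNT (Dom Str Str2 BalC bmp)

namespace Pool.Agent.NHP

/-- the model space of the charts -/
abbrev E := ℂ × ℝ

section
variable {N : Type*} [TopologicalSpace N] [ChartedSpace E3 N]

/-- `β` is a chart with domain `O` -/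
structure Cht (O : Set E) (β : E → N) : Prop where
  opn : IsOpen O
  loc : ∀ q ∈ O, IsLocalDiffeomorphAt 𝓘(ℝ, ℂ × ℝ) (𝓡 3) ∞ β q
  inj : InjOn β O

/-- compactly supported isotopy -/
structure Push (O : Set N) (V : ℝ → Equiv.Perm N) : Prop where
  smooth : ContMDiff (𝓘(ℝ, ℝ).prod (𝓡 3)) (𝓡 3) ∞ fun q : ℝ × N => V q.1 q.2
  smooth_symm : ContMDiff (𝓘(ℝ, ℝ).prod (𝓡 3)) (𝓡 3) ∞ fun q : ℝ × N => (V q.1).symm q.2
  zero : V 0 = Equiv.refl N
  supp : ∃ C : Set N, IsCompact C ∧ C ⊆ O ∧ ∀ s, ∀ x ∉ C, V s x = x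

/-- compactly supported isotopy of `E` -/
structure PushE (O : Set E) (V : ℝ → Equiv.Perm E) : Prop where
  smooth : ContDiff ℝ ∞ fun q : ℝ × E => V q.1 q.2
  smooth_symm : ContDiff ℝ ∞ fun q : ℝ × E => (V q.1).symm q.2
  zero : V 0 = Equiv.refl E
  supp : ∃ C : Set E, IsCompact C ∧ C ⊆ O ∧ ∀ s, ∀ x ∉ C, V s x = x

/-- `b l`, `0 ≤ l ≤ 1`, is a family of immersed balls, fixed for `1/2 ≤ |s|`, embedded for `l = 0` and `l = 1`; the
moving part does not meet the end pieces `3/4 ≤ |s|` (`KNT.Tubes` in `N`). -/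
structure TubesN (b : ℝ → E → N) : Prop where
  smooth : ∀ l ∈ Icc (0 : ℝ) 1, ∀ q ∈ Dom,
    ContMDiffAt 𝓘(ℝ, ℝ × (ℂ × ℝ)) (𝓡 3) ∞ (fun p : ℝ × (ℂ × ℝ) => b p.1 p.2) (l, q)
  loc : ∀ l ∈ Icc (0 : ℝ) 1, ∀ q ∈ Dom, IsLocalDiffeomorphAt 𝓘(ℝ, ℂ × ℝ) (𝓡 3) ∞ (b l) q
  ends : ∀ l ∈ Icc (0 : ℝ) 1, ∀ q ∈ Dom, 1 / 2 ≤ |q.2| → b l q = b 0 q
  inj0 : InjOn (b 0) Dom
  inj1 : InjOn (b 1) Dom
  sep : ∀ l ∈ Icc (0 : ℝ) 1, ∀ q ∈ Dom, |q.2| ≤ 1 / 2 → ∀ q' ∈ Dom, 3 / 4 ≤ |q'.2| → b l q ≠ b 0 q'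

/-- the equivalence relation on subsets of `N` -/
inductive LEqN : Set N → Set N → Prop
  | refl (K : Set N) : LEqN K K
  | symm {K K' : Set N} : LEqN K K' → LEqN K' K
  | trans {K K' K'' : Set N} : LEqN K K' → LEqN K' K'' → LEqN K K''
  | diff (K : Set N) {V : ℝ → Equiv.Perm N} : Push univ V → LEqN K (V 1 '' K)
  | four {Z : Set N} {b : E → N} : Cht Dom b → Disjoint Z (b '' Dom) → LEqN (Z ∪ b '' Str) (Z ∪ b '' Str2)
  | rib {Z : Set N} {b : ℝ → E → N} : TubesN b → (∀ l ∈ Icc (0 : ℝ) 1, Disjoint Z (b l '' Dom)) →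
      LEqN (Z ∪ b 0 '' Str) (Z ∪ b 1 '' Str)

end

/-- the relation in `E`, all moves inside the open set `O` -/
inductive LEqO (O : Set E) : Set E → Set E → Prop
  | refl (S : Set E) : LEqO O S S
  | symm {S S' : Set E} : LEqO O S S' → LEqO O S' S
  | trans {S S' S'' : Set E} : LEqO O S S' → LEqO O S' S'' → LEqO O S S''
  | diff (S : Set E) {V : ℝ → Equiv.Perm E} : PushE O V → LEqO O S (V 1 '' S)
  | four {Z : Set E} {b : E → E} : BalC b → b '' Dom ⊆ O → Disjoint Z (b '' Dom) →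
      LEqO O (Z ∪ b '' Str) (Z ∪ b '' Str2)
  | rib {Z : Set E} {b : ℝ → E → E} : KNT.Tubes b → (∀ l ∈ Icc (0 : ℝ) 1, b l '' Dom ⊆ O) →
      (∀ l ∈ Icc (0 : ℝ) 1, Disjoint Z (b l '' Dom)) → LEqO O (Z ∪ b 0 '' Str) (Z ∪ b 1 '' Str)

/-! ## paths -/

/-- the function `f`, restricted to `[0, 1]`, is a path of `Y` from `y` to `y'`, homotopic to `c` in `Y` -/
def Rep {N : Type*} [TopologicalSpace N] {Y : Set N} {y y' : Y} (f : ℝ → N) (c : Path y y') : Prop :=
  ∃ γ : Path y y', (∀ t : unitInterval, (γ t : N) = f t) ∧ γ.Homotopic c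

/-- the push moves the point `y` along the path `c` -/
def Follows {N : Type*} [TopologicalSpace N] {Y : Set N} {y y' : Y} (V : ℝ → Equiv.Perm N) (c : Path y y') : Prop :=
  Rep (fun t => V t (y : N)) c

/-! ## chords -/

/-- domain of chord tubes: `(w, x)`, `x` along the core -/
def TD : Set E := {q | ‖q.1‖ < 1 ∧ -(1 / 4) < q.2 ∧ q.2 < 5 / 4}

/-- the two strands -/
def TS : Set E := {q | q ∈ TD ∧ ((q.2 = 0 ∧ q.1.im = 0) ∨ (q.2 = 1 ∧ q.1.re = 0))}

/-- the foot strand with a finger which passes the tip strand -/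
def TF : Set E := {q | q ∈ TD ∧ ((q.1.im = 0 ∧ q.2 = 9 / 8 * bmp q.1.re) ∨ (q.2 = 1 ∧ q.1.re = 0))}

section
variable {N : Type*} [TopologicalSpace N] [ChartedSpace E3 N]

/-- `T` is a chord of `K` -/
structure Chd (K : Set N) (T : E → N) : Prop where
  cht : Cht TD T
  hit : K ∩ T '' TD = T '' TS

/-- the knot with the finger along the chord -/
def kn (K : Set N) (T : E → N) : Set N := (K \ T '' TD) ∪ T '' TF

/-- crossing change -/
def Cross (K K' : Set N) : Prop := ∃ T : E → N, Chd K T ∧ K' = kn K T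

/-- the core of a thick knot -/
def core (κ : ℝ × ℂ → N) : Set N := range fun l : ℝ => κ (l, 0)

/-- the foot tube: `x` is the radius, `re w` the direction of the knot -/
def footT (κ : ℝ × ℂ → N) (p ε : ℝ) (q : E) : N := κ (p + ε * q.1.re, (ε : ℂ) * ⟨q.2, q.1.im⟩)

/-- the tip tube (`σ = ±1`) -/
def tipT (κ : ℝ × ℂ → N) (p ε σ : ℝ) (q : E) : N := κ (p + σ * ε * q.1.im, (ε : ℂ) * ⟨1 - q.2, q.1.re⟩)

/-- `T` has standard ends: foot at `κ (p, 0)`, tip at `κ (p', 0)` -/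
structure StdE (κ : ℝ × ℂ → N) (p p' ε σ : ℝ) (T : E → N) : Prop where
  foot : ∀ q ∈ TD, q.2 < 1 / 4 → T q = footT κ p ε q
  tip : ∀ q ∈ TD, 3 / 4 < q.2 → T q = tipT κ p' ε σ q

/-- the parameters are admissible: the ends do not meet -/
structure Adm (p p' ε : ℝ) : Prop where
  pos : 0 < ε
  lt : ε < 1 / 4
  far : ∀ k : ℤ, 2 * ε < |p - p' + k|

end

end Pool.Agent.NHP
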