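import Pool.Agent.NHP.Defs

/-!
# NHP/Grp: the group of pushes (difficulty 2)

Elementary operations with pushes.  `comp`: pointwise composition, `ContMDiff.comp` with `(s, x) ↦ (s, V s x)`; the support is the union of the
two compact sets.  `inv`: smoothness is exchanged; `V s` permutes `C` (it is the identity off `C`), so `(V s).symm x = x` off `C`.
`rep`: composition with `(s, x) ↦ (φ s, x)`.  `mem`, `out`: `V s` is the identity off `C ⊆ O`, so it maps `O` onto `O` (if `x ∈ O` and `V s x ∉ O` then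
`V s (V s x) = V s x`, `V s x = x`).  `loc`: `V s` is a diffeomorphism (smooth with smooth inverse: `contMDiff` of `x ↦ V s x`, compose with `x ↦ (s, x)`; then
a `Diffeomorph` and `Diffeomorph.isLocalDiffeomorph`).  `Cht.push`: composition of local diffeomorphisms.
`Cht.img`: the image of an open subset of the domain is open (`IsLocalDiffeomorphAt` gives local homeomorphisms).
-/

open scoped Manifold ContDiff Topology
open Set Filter
open Pool.Agent.CSG (stp)
open Pool.Agent.RSG (E3 ex Thick)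
open Pool.Agent.KNT (Dom Str Str2 BalC bmp)

namespace Pool.Agent.NHP

section
variable {N : Type*} [TopologicalSpace N] [ChartedSpace E3 N]

theorem push_refl (O : Set N) : Push O fun _ => Equiv.refl N := by
  refine ⟨contMDiff_snd, contMDiff_snd, rfl, ∅, isCompact_empty, empty_subset _, fun s x _ => rfl⟩

theorem Push.mono {O O' : Set N} {V : ℝ → Equiv.Perm N} (h : Push O V) (hO : O ⊆ O') : Push O' V := by
  obtain ⟨h1, h2, h3, C, hC1, hC2, hC3⟩ := h
  exact ⟨h1, h2, h3, C, hC1, hC2.trans hO, hC3⟩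

theorem Push.comp {O : Set N} {V W : ℝ → Equiv.Perm N} (h : Push O V) (h' : Push O W) :
    Push O fun s => (V s).trans (W s) := by
  obtain ⟨h1, h2, h3, C, hC1, hC2, hC3⟩ := h
  obtain ⟨k1, k2, k3, D, hD1, hD2, hD3⟩ := h'
  refine ⟨k1.comp (contMDiff_fst.prodMk h1), h2.comp (contMDiff_fst.prodMk k2), ?_, C ∪ D, hC1.union hD1,
    union_subset hC2 hD2, fun s x hx => ?_⟩
  · show (V 0).trans (W 0) = Equiv.refl N
    rw [h3, k3]
    rfl
  · rw [mem_union, not_or] at hx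
    show W s (V s x) = x
    rw [hC3 s x hx.1, hD3 s x hx.2]

theorem Push.inv {O : Set N} {V : ℝ → Equiv.Perm N} (h : Push O V) : Push O fun s => (V s).symm := by
  obtain ⟨h1, h2, h3, C, hC1, hC2, hC3⟩ := h
  refine ⟨h2, h1, ?_, C, hC1, hC2, fun s x hx => ?_⟩
  · show (V 0).symm = Equiv.refl N
    rw [h3]
    rfl
  · show (V s).symm x = x
    rw [Equiv.symm_apply_eq, hC3 s x hx]

theorem Push.rep {O : Set N} {V : ℝ → Equiv.Perm N} (h : Push O V) {φ : ℝ → ℝ} (hφ : ContDiff ℝ ∞ φ) (h0 : φ 0 = 0) :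
    Push O fun s => V (φ s) := by
  obtain ⟨h1, h2, h3, C, hC1, hC2, hC3⟩ := h
  have hf : ContMDiff (𝓘(ℝ, ℝ).prod (𝓡 3)) (𝓘(ℝ, ℝ).prod (𝓡 3)) ∞ fun q : ℝ × N => (φ q.1, q.2) :=
    (hφ.contMDiff.comp contMDiff_fst).prodMk contMDiff_snd
  refine ⟨h1.comp hf, h2.comp hf, ?_, C, hC1, hC2, fun s x hx => hC3 (φ s) x hx⟩
  show V (φ 0) = Equiv.refl N
  rw [h0, h3]

theorem Push.out {O : Set N} {V : ℝ → Equiv.Perm N} (h : Push O V) (s : ℝ) {x : N} (hx : x ∉ O) : V s x = x := by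
  obtain ⟨C, _, hC2, hC3⟩ := h.supp
  exact hC3 s x fun hx' => hx (hC2 hx')

theorem Push.mem {O : Set N} {V : ℝ → Equiv.Perm N} (h : Push O V) (s : ℝ) {x : N} (hx : x ∈ O) : V s x ∈ O := by
  by_contra hcon
  have h1 := h.out s hcon
  have h2 := (V s).injective h1
  rw [h2] at hcon
  exact hcon hx

theorem Push.image {O : Set N} {V : ℝ → Equiv.Perm N} (h : Push O V) (s : ℝ) : V s '' O = O := by
  ext x
  constructor
  · rintro ⟨y, hy, rfl⟩
    exact h.mem s hy
  · intro hx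
    exact ⟨(V s).symm x, h.inv.mem s hx, (V s).apply_symm_apply x⟩

theorem Push.cont {O : Set N} {V : ℝ → Equiv.Perm N} (h : Push O V) : Continuous fun q : ℝ × N => V q.1 q.2 :=
  h.smooth.continuous

theorem Push.loc {O : Set N} {V : ℝ → Equiv.Perm N} (h : Push O V) (s : ℝ) (x : N) :
    IsLocalDiffeomorphAt (𝓡 3) (𝓡 3) ∞ (V s) x := by
  have h1 : ContMDiff (𝓡 3) (𝓡 3) ∞ (V s) := h.smooth.comp (contMDiff_const.prodMk contMDiff_id)
  have h2 : ContMDiff (𝓡 3) (𝓡 3) ∞ (V s).symm := h.smooth_symm.comp (contMDiff_const.prodMk contMDiff_id)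
  exact (Diffeomorph.isLocalDiffeomorph (I := 𝓡 3) (J := 𝓡 3) (n := ∞) ⟨V s, h1, h2⟩) x

theorem Cht.mono {O O' : Set E} {β : E → N} (h : Cht O β) (hO' : IsOpen O') (hO : O' ⊆ O) : Cht O' β :=
  ⟨hO', fun q hq => h.loc q (hO hq), h.inj.mono hO⟩

theorem Cht.push {O : Set E} {β : E → N} (h : Cht O β) {O' : Set N} {V : ℝ → Equiv.Perm N} (hV : Push O' V) (s : ℝ) :
    Cht O fun q => V s (β q) := by
  refine ⟨h.opn, fun q hq => ?_, fun q hq q' hq' he => h.inj hq hq' ((V s).injective he)⟩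
  exact IsLocalDiffeomorphAt.comp (hf := h.loc q hq) (hg := hV.loc s (β q))

/-- composition with a local diffeomorphism of `E` -/
theorem Cht.comp {O O' : Set E} {β : E → N} (h : Cht O β) {f : E → E} (hO' : IsOpen O') (hf : ∀ q ∈ O', ContDiffAt ℝ ∞ f q)
    (hf' : ∀ q ∈ O', Function.Bijective (fderiv ℝ f q)) (hi : InjOn f O') (hm : ∀ q ∈ O', f q ∈ O) : Cht O' fun q => β (f q) := by
  refine ⟨hO', fun q hq => ?_, fun q hq q' hq' he => hi hq hq' (h.inj (hm q hq) (hm q' hq') he)⟩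
  have h1 : IsLocalDiffeomorphAt 𝓘(ℝ, E) 𝓘(ℝ, E) ∞ f q := by
    refine CSG.ld_of_fderiv ?_ rfl fun v hv => ?_
    · filter_upwards [hO'.mem_nhds hq] with y hy
      exact hf y hy
    · exact (hf' q hq).1 (by rw [hv, map_zero])
  exact IsLocalDiffeomorphAt.comp (hf := h1) (hg := h.loc (f q) (hm q hq))

theorem Cht.img {O O' : Set E} {β : E → N} (h : Cht O β) (hO' : IsOpen O') (hO : O' ⊆ O) : IsOpen (β '' O') := by
  rw [isOpen_iff_mem_nhds]
  rintro _ ⟨q, hq, rfl⟩
  exact CSG.ld_image_nhds (h.loc q (hO hq)) (hO'.mem_nhds hq)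

theorem Cht.contOn {O : Set E} {β : E → N} (h : Cht O β) : ContinuousOn β O :=
  fun q hq => (CSG.ld_continuousAt (h.loc q hq)).continuousWithinAt

/-- the inverse of the chart is smooth -/
theorem Cht.inv {O : Set E} {β : E → N} (h : Cht O β) : ∃ g : N → E, (∀ q ∈ O, g (β q) = q) ∧
    ∀ x ∈ β '' O, ContMDiffAt (𝓡 3) 𝓘(ℝ, ℂ × ℝ) ∞ g x := by
  classical
  have hl : ∀ q ∈ O, Function.invFunOn β O (β q) = q := fun q hq => h.inj.leftInvOn_invFunOn hq
  refine ⟨Function.invFunOn β O, hl, ?_⟩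
  rintro _ ⟨q, hq, rfl⟩
  have hloc := h.loc q hq
  have h1 := hloc.localInverse_contMDiffAt
  refine h1.congr_of_eventuallyEq ?_
  have h2 : hloc.localInverse (β q) = q := hloc.localInverse_left_inv hloc.localInverse_mem_target
  have h3 : ∀ᶠ y in 𝓝 (β q), hloc.localInverse y ∈ O := by
    apply h1.continuousAt.eventually
    rw [h2]
    exact h.opn.mem_nhds hq
  filter_upwards [h3, hloc.localInverse_eventuallyEq_right] with y hy hy'
  have h4 : β (hloc.localInverse y) = y := hy'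
  rw [← h4, hl _ hy, h4]

end

section
theorem pushE_refl (O : Set E) : PushE O fun _ => Equiv.refl E :=
  ⟨contDiff_snd, contDiff_snd, rfl, ∅, isCompact_empty, empty_subset _, fun s x _ => rfl⟩

theorem PushE.mono {O O' : Set E} {V : ℝ → Equiv.Perm E} (h : PushE O V) (hO : O ⊆ O') : PushE O' V := by
  obtain ⟨h1, h2, h3, C, hC1, hC2, hC3⟩ := h
  exact ⟨h1, h2, h3, C, hC1, hC2.trans hO, hC3⟩

theorem PushE.comp {O : Set E} {V W : ℝ → Equiv.Perm E} (h : PushE O V) (h' : PushE O W) :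
    PushE O fun s => (V s).trans (W s) := by
  obtain ⟨h1, h2, h3, C, hC1, hC2, hC3⟩ := h
  obtain ⟨k1, k2, k3, D, hD1, hD2, hD3⟩ := h'
  refine ⟨k1.comp (contDiff_fst.prodMk h1), h2.comp (contDiff_fst.prodMk k2), ?_, C ∪ D, hC1.union hD1,
    union_subset hC2 hD2, fun s x hx => ?_⟩
  · show (V 0).trans (W 0) = Equiv.refl E
    rw [h3, k3]
    rfl
  · rw [mem_union, not_or] at hx
    show W s (V s x) = x
    rw [hC3 s x hx.1, hD3 s x hx.2]

theorem PushE.inv {O : Set E} {V : ℝ → Equiv.Perm E} (h : PushE O V) : PushE O fun s => (V s).symm := by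
  obtain ⟨h1, h2, h3, C, hC1, hC2, hC3⟩ := h
  refine ⟨h2, h1, ?_, C, hC1, hC2, fun s x hx => ?_⟩
  · show (V 0).symm = Equiv.refl E
    rw [h3]
    rfl
  · show (V s).symm x = x
    rw [Equiv.symm_apply_eq, hC3 s x hx]

theorem PushE.rep {O : Set E} {V : ℝ → Equiv.Perm E} (h : PushE O V) {φ : ℝ → ℝ} (hφ : ContDiff ℝ ∞ φ) (h0 : φ 0 = 0) :
    PushE O fun s => V (φ s) := by
  obtain ⟨h1, h2, h3, C, hC1, hC2, hC3⟩ := h
  have hf : ContDiff ℝ ∞ fun q : ℝ × E => (φ q.1, q.2) := (hφ.comp contDiff_fst).prodMk contDiff_snd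
  refine ⟨h1.comp hf, h2.comp hf, ?_, C, hC1, hC2, fun s x hx => hC3 (φ s) x hx⟩
  show V (φ 0) = Equiv.refl E
  rw [h0, h3]

theorem PushE.out {O : Set E} {V : ℝ → Equiv.Perm E} (h : PushE O V) (s : ℝ) {x : E} (hx : x ∉ O) : V s x = x := by
  obtain ⟨C, _, hC2, hC3⟩ := h.supp
  exact hC3 s x fun hx' => hx (hC2 hx')

theorem PushE.mem {O : Set E} {V : ℝ → Equiv.Perm E} (h : PushE O V) (s : ℝ) {x : E} (hx : x ∈ O) : V s x ∈ O := by
  by_contra hcon
  have h1 := h.out s hcon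
  have h2 := (V s).injective h1
  rw [h2] at hcon
  exact hcon hx

end

end Pool.Agent.NHP
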