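import Pool.Agent.NHP.Smo

/-!
# NHP/SmH: smooth homotopies (difficulty 3)

`F` the homotopy of paths.  `σ s = stp (1/4) (3/4) s`, `τ t = stp (3/16) (13/16) t`, `μ s` smooth, `0` for `s ≤ 3/16` and `s ≥ 13/16`, `1` on `[1/4, 3/4]`.
`H₀ (s, t) = F (σ s, (1 - μ s) t + μ s τ t)` (second argument clipped to `[0, 1]`, where `c`, `c'` are constant anyway): continuous, in `Y`; `= c ((1 - μ s) t + μ s τ t)` for `s ≤ 1/4` (smooth), similarly `c'` for
`s ≥ 3/4`; constant for `t ≤ 1/8` and for `t ≥ 7/8`, and for `1/4 ≤ s ≤ 3/4` also for `t ≤ 3/16`, `t ≥ 13/16`.  So `H₀` is smooth on the open set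
`A = {s < 1/4} ∪ {s > 3/4} ∪ {t < 3/16} ∪ {t > 13/16}` (for `t < 3/16` and `s` near `1/4`: both descriptions give the constant or `c ∘ smooth`).  The rest `R = [1/4, 3/4] × [3/16, 13/16]` is compact.
Every point of `N` has a chart `Cht (ball 0 1)` (from the charted space: compose with a translation and a homothety, image in `Y`).  Lebesgue: `R` is a finite union of compact squares
`Q_j` with `H₀ '' Q_j ⊆ β_j '' ball 0 1 ⊆ Y`.  Apply `smooth_step` for `j = 1, .., m` with the family `P`: all squares `Q_i`, with `O i = β_i '' ball 0 1`, and one compact `P₀ = [0,1]²` with `O = Y`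
(`Y` open), `U = (1/8, 7/8)²`.
The result `H` is smooth everywhere, `= H₀` off `(1/8, 7/8)²`.
-/

open scoped Manifold ContDiff Topology
open Set Filter
open Pool.Agent.CSG (stp)
open Pool.Agent.RSG (E3 ex Thick)
open Pool.Agent.KNT (Dom Str Str2 BalC bmp)

namespace Pool.Agent.NHP

variable {N : Type*} [TopologicalSpace N] [ChartedSpace E3 N] [IsManifold (𝓡 3) ∞ N] [T2Space N]

theorem exists_chart {Y : Set N} (hY : IsOpen Y) {y : N} (hy : y ∈ Y) : ∃ β : E → N, Cht (Metric.ball 0 2) β ∧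
    β '' Metric.ball 0 2 ⊆ Y ∧ β 0 = y := by
  classical
  obtain ⟨φ, hφ⟩ : ∃ φ : OpenPartialHomeomorph N E3, φ = chartAt E3 y := ⟨_, rfl⟩
  have hys : y ∈ φ.source := by
    rw [hφ]
    exact mem_chart_source E3 y
  have hφs : ContMDiffOn (𝓡 3) (𝓡 3) ∞ φ φ.source := by
    rw [hφ]
    exact contMDiffOn_chart
  have hφt : ContMDiffOn (𝓡 3) (𝓡 3) ∞ φ.symm φ.target := by
    rw [hφ]
    exact contMDiffOn_chart_symm
  have hfr : Module.finrank ℝ (ℂ × ℝ) = Module.finrank ℝ E3 := by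
    rw [Module.finrank_prod, Complex.finrank_real_complex, Module.finrank_self,
      finrank_euclideanSpace, Fintype.card_fin]
  obtain ⟨e⟩ : Nonempty ((ℂ × ℝ) ≃L[ℝ] E3) := ⟨ContinuousLinearEquiv.ofFinrankEq hfr⟩
  have hO : IsOpen (φ.target ∩ φ.symm ⁻¹' Y) := φ.symm.isOpen_inter_preimage hY
  have hyO : φ y ∈ φ.target ∩ φ.symm ⁻¹' Y := by
    refine ⟨φ.map_source hys, ?_⟩
    show φ.symm (φ y) ∈ Y
    rw [φ.left_inv hys]
    exact hy
  obtain ⟨ε, hε, hε2⟩ := Metric.isOpen_iff.1 hO _ hyO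
  obtain ⟨δ, hδ, hδ2⟩ : ∃ δ : ℝ, 0 < δ ∧ ∀ q ∈ Metric.ball (0 : E) 2,
      φ y + δ • e q ∈ φ.target ∩ φ.symm ⁻¹' Y := by
    have h1 : 0 ≤ ‖(e : (ℂ × ℝ) →L[ℝ] E3)‖ := norm_nonneg _
    refine ⟨ε / (2 * ‖(e : (ℂ × ℝ) →L[ℝ] E3)‖ + 1), by positivity, ?_⟩
    intro q hq
    refine hε2 ?_
    rw [Metric.mem_ball, dist_eq_norm, add_sub_cancel_left, norm_smul, Real.norm_eq_abs,
      abs_of_pos (by positivity)]
    have h2 : ‖e q‖ ≤ ‖(e : (ℂ × ℝ) →L[ℝ] E3)‖ * ‖q‖ :=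
      (e : (ℂ × ℝ) →L[ℝ] E3).le_opNorm q
    have h3 : ‖q‖ < 2 := by simpa using hq
    have h4 : ‖e q‖ ≤ ‖(e : (ℂ × ℝ) →L[ℝ] E3)‖ * 2 :=
      h2.trans (mul_le_mul_of_nonneg_left h3.le h1)
    rw [div_mul_eq_mul_div, div_lt_iff₀ (by positivity)]
    nlinarith
  have hinv : ∀ q : E, e.symm (δ⁻¹ • ((φ y + δ • e q) - φ y)) = q := by
    intro q
    rw [add_sub_cancel_left, smul_smul, inv_mul_cancel₀ hδ.ne', one_smul,
      ContinuousLinearEquiv.symm_apply_apply]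
  have hinv2 : ∀ w : E3, φ y + δ • e (e.symm (δ⁻¹ • (w - φ y))) = w := by
    intro w
    rw [ContinuousLinearEquiv.apply_symm_apply, smul_smul, mul_inv_cancel₀ hδ.ne', one_smul,
      add_sub_cancel]
  have haff : ContDiff ℝ ∞ fun q : E => φ y + δ • e q :=
    contDiff_const.add (e.contDiff.const_smul δ)
  have haff2 : ContDiff ℝ ∞ fun w : E3 => e.symm (δ⁻¹ • (w - φ y)) :=
    e.symm.contDiff.comp ((contDiff_id.sub contDiff_const).const_smul δ⁻¹)
  let Φ : PartialDiffeomorph 𝓘(ℝ, ℂ × ℝ) (𝓡 3) E N ∞ :=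
    { toFun := fun q => φ.symm (φ y + δ • e q)
      invFun := fun x => e.symm (δ⁻¹ • (φ x - φ y))
      source := Metric.ball 0 2
      target := φ.source ∩ φ ⁻¹' {w | e.symm (δ⁻¹ • (w - φ y)) ∈ Metric.ball (0 : E) 2}
      map_source' := by
        intro q hq
        refine ⟨φ.map_target (hδ2 q hq).1, ?_⟩
        show e.symm (δ⁻¹ • (φ (φ.symm (φ y + δ • e q)) - φ y)) ∈ Metric.ball (0 : E) 2
        rw [φ.right_inv (hδ2 q hq).1, hinv]
        exact hq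
      map_target' := by
        intro x hx
        exact hx.2
      left_inv' := by
        intro q hq
        show e.symm (δ⁻¹ • (φ (φ.symm (φ y + δ • e q)) - φ y)) = q
        rw [φ.right_inv (hδ2 q hq).1, hinv]
      right_inv' := by
        intro x hx
        show φ.symm (φ y + δ • e (e.symm (δ⁻¹ • (φ x - φ y)))) = x
        rw [hinv2, φ.left_inv hx.1]
      open_source := Metric.isOpen_ball
      open_target := φ.isOpen_inter_preimage (Metric.isOpen_ball.preimage haff2.continuous)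
      contMDiffOn_toFun := by
        intro q hq
        have h1 : ContMDiffAt (𝓡 3) (𝓡 3) ∞ φ.symm (φ y + δ • e q) :=
          hφt.contMDiffAt (φ.open_target.mem_nhds (hδ2 q hq).1)
        exact (ContMDiffAt.comp (g := φ.symm) (f := fun q : E => φ y + δ • e q) q h1
          haff.contMDiff.contMDiffAt).contMDiffWithinAt
      contMDiffOn_invFun := by
        intro x hx
        have h1 : ContMDiffAt (𝓡 3) (𝓡 3) ∞ φ x := hφs.contMDiffAt (φ.open_source.mem_nhds hx.1)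
        exact (ContMDiffAt.comp (g := fun w : E3 => e.symm (δ⁻¹ • (w - φ y))) (f := φ) x
          haff2.contMDiff.contMDiffAt h1).contMDiffWithinAt }
  refine ⟨fun q => φ.symm (φ y + δ • e q), ⟨Metric.isOpen_ball, ?_, ?_⟩, ?_, ?_⟩
  · intro q hq
    exact ⟨Φ, hq, fun _ _ => rfl⟩
  · exact Φ.toPartialEquiv.injOn
  · rintro _ ⟨q, hq, rfl⟩
    exact (hδ2 q hq).2
  · show φ.symm (φ y + δ • e 0) = y
    rw [map_zero, smul_zero, add_zero, φ.left_inv hys]

theorem SmH_clip {Y : Set N} {y y' : N} {c : ℝ → N} (hc : SPth Y y y' c) (r : ℝ) :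
    c (projIcc (0 : ℝ) 1 zero_le_one r : ℝ) = c r := by
  rcases le_total r 0 with h | h
  · rw [projIcc_of_le_left _ h, hc.start 0 (by norm_num), hc.start r (by linarith)]
  · rcases le_total 1 r with h' | h'
    · rw [projIcc_of_right_le _ h', hc.stop 1 (by norm_num), hc.stop r (by linarith)]
    · rw [projIcc_of_mem _ ⟨h, h'⟩]

/-- the preliminary homotopy, smooth off a compact rectangle -/
theorem SmH_pre {Y : Set N} {y y' : Y} {c c' : ℝ → N} (hc : SPth Y y y' c)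
    (hc' : SPth Y y y' c') {γ γ' : Path y y'} (hγ : ∀ t : unitInterval, (γ t : N) = c t)
    (hγ' : ∀ t : unitInterval, (γ' t : N) = c' t) (h : γ.Homotopic γ') :
    ∃ H : ℝ × ℝ → N, Continuous H ∧
      (∀ p : ℝ × ℝ, (p.1 < 1 / 4 ∨ 3 / 4 < p.1 ∨ p.2 < 3 / 16 ∨ 13 / 16 < p.2) →
        ContMDiffAt 𝓘(ℝ, ℝ × ℝ) (𝓡 3) ∞ H p) ∧
      (∀ t, H (0, t) = c t) ∧ (∀ t, H (1, t) = c' t) ∧
      (∀ s, ∀ t ≤ 1 / 8, H (s, t) = y) ∧ (∀ s t, 7 / 8 ≤ t → H (s, t) = y') ∧ ∀ p, H p ∈ Y := by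
  obtain ⟨F⟩ := h
  obtain ⟨μ, hμ⟩ : ∃ μ : ℝ → ℝ, μ = fun s => stp (3 / 16) (1 / 4) s * (1 - stp (3 / 4) (13 / 16) s) :=
    ⟨_, rfl⟩
  obtain ⟨τ, hτ⟩ : ∃ τ : ℝ → ℝ, τ = stp (3 / 16) (13 / 16) := ⟨_, rfl⟩
  obtain ⟨θ, hθ⟩ : ∃ θ : ℝ × ℝ → ℝ, θ = fun p => (1 - μ p.1) * p.2 + μ p.1 * τ p.2 := ⟨_, rfl⟩
  have hμs : ContDiff ℝ ∞ μ := by
    rw [hμ]
    exact (CSG.stp_smooth _ _).mul (contDiff_const.sub (CSG.stp_smooth _ _))
  have hτs : ContDiff ℝ ∞ τ := by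
    rw [hτ]
    exact CSG.stp_smooth _ _
  have hθs : ContDiff ℝ ∞ θ := by
    rw [hθ]
    exact ((contDiff_const.sub (hμs.comp contDiff_fst)).mul contDiff_snd).add
      ((hμs.comp contDiff_fst).mul (hτs.comp contDiff_snd))
  have hμ0 : ∀ s, 0 ≤ μ s := by
    intro s
    rw [hμ]
    exact mul_nonneg (CSG.stp_nonneg _ _ _) (sub_nonneg.2 (CSG.stp_le_one _ _ _))
  have hμ1 : ∀ s, μ s ≤ 1 := by
    intro s
    rw [hμ]
    have h1 := CSG.stp_nonneg (3 / 4) (13 / 16) s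
    have h2 := CSG.stp_le_one (3 / 16) (1 / 4) s
    have h3 := CSG.stp_nonneg (3 / 16) (1 / 4) s
    have h4 := CSG.stp_le_one (3 / 4) (13 / 16) s
    show stp (3 / 16) (1 / 4) s * (1 - stp (3 / 4) (13 / 16) s) ≤ 1
    nlinarith
  have hμmid : ∀ s, 1 / 4 ≤ s → s ≤ 3 / 4 → μ s = 1 := by
    intro s h1 h2
    rw [hμ]
    show stp (3 / 16) (1 / 4) s * (1 - stp (3 / 4) (13 / 16) s) = 1
    rw [CSG.stp_one (by norm_num) h1, CSG.stp_zero (by norm_num) h2]
    norm_num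
  have hτ0 : ∀ t ≤ 3 / 16, τ t = 0 := by
    intro t ht
    rw [hτ]
    exact CSG.stp_zero (by norm_num) ht
  have hτ1 : ∀ t, 13 / 16 ≤ t → τ t = 1 := by
    intro t ht
    rw [hτ]
    exact CSG.stp_one (by norm_num) ht
  obtain ⟨H, hH⟩ : ∃ H : ℝ × ℝ → N, H = fun p =>
      ((F (projIcc (0 : ℝ) 1 zero_le_one (stp (1 / 4) (3 / 4) p.1),
        projIcc (0 : ℝ) 1 zero_le_one (θ p)) : Y) : N) := ⟨_, rfl⟩
  have hHc : Continuous H := by
    rw [hH]
    refine continuous_subtype_val.comp (F.continuous.comp (Continuous.prodMk ?_ ?_))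
    · exact continuous_projIcc.comp ((CSG.stp_smooth _ _).continuous.comp continuous_fst)
    · exact continuous_projIcc.comp hθs.continuous
  have hHY : ∀ p, H p ∈ Y := by
    intro p
    rw [hH]
    exact Subtype.coe_prop _
  have hA : ∀ p : ℝ × ℝ, p.1 ≤ 1 / 4 → H p = c (θ p) := by
    intro p hp
    rw [hH]
    show ((F (projIcc (0 : ℝ) 1 zero_le_one (stp (1 / 4) (3 / 4) p.1),
        projIcc (0 : ℝ) 1 zero_le_one (θ p)) : Y) : N) = c (θ p)
    rw [CSG.stp_zero (by norm_num) hp, projIcc_of_le_left _ (le_refl (0 : ℝ))]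
    have h1 : F ((⟨0, left_mem_Icc.2 zero_le_one⟩ : unitInterval), projIcc (0 : ℝ) 1 zero_le_one (θ p)) =
        γ (projIcc (0 : ℝ) 1 zero_le_one (θ p)) := F.apply_zero _
    rw [h1, hγ]
    exact SmH_clip hc (θ p)
  have hB : ∀ p : ℝ × ℝ, 3 / 4 ≤ p.1 → H p = c' (θ p) := by
    intro p hp
    rw [hH]
    show ((F (projIcc (0 : ℝ) 1 zero_le_one (stp (1 / 4) (3 / 4) p.1),
        projIcc (0 : ℝ) 1 zero_le_one (θ p)) : Y) : N) = c' (θ p)
    rw [CSG.stp_one (by norm_num) hp, projIcc_of_right_le _ (le_refl (1 : ℝ))]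
    have h1 : F ((⟨1, right_mem_Icc.2 zero_le_one⟩ : unitInterval), projIcc (0 : ℝ) 1 zero_le_one (θ p)) =
        γ' (projIcc (0 : ℝ) 1 zero_le_one (θ p)) := F.apply_one _
    rw [h1, hγ']
    exact SmH_clip hc' (θ p)
  have hC0 : ∀ p : ℝ × ℝ, θ p = 0 → H p = y := by
    intro p hp
    rw [hH]
    show ((F (projIcc (0 : ℝ) 1 zero_le_one (stp (1 / 4) (3 / 4) p.1),
        projIcc (0 : ℝ) 1 zero_le_one (θ p)) : Y) : N) = y
    rw [hp, projIcc_of_le_left _ (le_refl (0 : ℝ))]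
    have h1 : F (projIcc (0 : ℝ) 1 zero_le_one (stp (1 / 4) (3 / 4) p.1),
        (⟨0, left_mem_Icc.2 zero_le_one⟩ : unitInterval)) = y := F.source _
    rw [h1]
  have hC1 : ∀ p : ℝ × ℝ, θ p = 1 → H p = y' := by
    intro p hp
    rw [hH]
    show ((F (projIcc (0 : ℝ) 1 zero_le_one (stp (1 / 4) (3 / 4) p.1),
        projIcc (0 : ℝ) 1 zero_le_one (θ p)) : Y) : N) = y'
    rw [hp, projIcc_of_right_le _ (le_refl (1 : ℝ))]
    have h1 : F (projIcc (0 : ℝ) 1 zero_le_one (stp (1 / 4) (3 / 4) p.1),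
        (⟨1, right_mem_Icc.2 zero_le_one⟩ : unitInterval)) = y' := F.target _
    rw [h1]
  have hθ0 : ∀ p : ℝ × ℝ, 1 / 4 ≤ p.1 → p.1 ≤ 3 / 4 → p.2 ≤ 3 / 16 → θ p = 0 := by
    intro p h1 h2 h3
    rw [hθ]
    show (1 - μ p.1) * p.2 + μ p.1 * τ p.2 = 0
    rw [hμmid _ h1 h2, hτ0 _ h3]
    ring
  have hθ1 : ∀ p : ℝ × ℝ, 1 / 4 ≤ p.1 → p.1 ≤ 3 / 4 → 13 / 16 ≤ p.2 → θ p = 1 := by
    intro p h1 h2 h3
    rw [hθ]
    show (1 - μ p.1) * p.2 + μ p.1 * τ p.2 = 1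
    rw [hμmid _ h1 h2, hτ1 _ h3]
    ring
  -- values where the second coordinate is small or large
  have hlow : ∀ p : ℝ × ℝ, p.2 ≤ 3 / 16 → θ p ≤ 1 / 8 → H p = y := by
    intro p h1 h2
    rcases le_total p.1 (1 / 4) with h3 | h3
    · rw [hA p h3, hc.start _ h2]
    · rcases le_total (3 / 4) p.1 with h4 | h4
      · rw [hB p h4, hc'.start _ h2]
      · exact hC0 p (hθ0 p h3 h4 h1)
  have hhigh : ∀ p : ℝ × ℝ, 13 / 16 ≤ p.2 → 7 / 8 ≤ θ p → H p = y' := by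
    intro p h1 h2
    rcases le_total p.1 (1 / 4) with h3 | h3
    · rw [hA p h3, hc.stop _ h2]
    · rcases le_total (3 / 4) p.1 with h4 | h4
      · rw [hB p h4, hc'.stop _ h2]
      · exact hC1 p (hθ1 p h3 h4 h1)
  refine ⟨H, hHc, ?_, ?_, ?_, ?_, ?_, hHY⟩
  · intro p hp
    by_cases h1 : p.1 < 1 / 4
    · have h2 : H =ᶠ[𝓝 p] fun x => c (θ x) := by
        filter_upwards [(isOpen_lt continuous_fst continuous_const).mem_nhds h1] with x hx
        exact hA x (le_of_lt hx)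
      refine ContMDiffAt.congr_of_eventuallyEq ?_ h2
      exact ContMDiffAt.comp (g := c) (f := θ) p hc.smooth.contMDiffAt hθs.contMDiff.contMDiffAt
    · by_cases h2 : 3 / 4 < p.1
      · have h3 : H =ᶠ[𝓝 p] fun x => c' (θ x) := by
          filter_upwards [(isOpen_lt continuous_const continuous_fst).mem_nhds h2] with x hx
          exact hB x (le_of_lt hx)
        refine ContMDiffAt.congr_of_eventuallyEq ?_ h3
        exact ContMDiffAt.comp (g := c') (f := θ) p hc'.smooth.contMDiffAt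
          hθs.contMDiff.contMDiffAt
      · rcases hp with hp | hp | hp | hp
        · exact absurd hp h1
        · exact absurd hp h2
        · have h3 : θ p < 1 / 8 := by
            rw [hθ0 p (not_lt.1 h1) (not_lt.1 h2) hp.le]
            norm_num
          have h4 : H =ᶠ[𝓝 p] fun _ => (y : N) := by
            filter_upwards [(isOpen_lt continuous_snd continuous_const).mem_nhds hp,
              (isOpen_lt hθs.continuous continuous_const).mem_nhds h3] with x hx hx2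
            exact hlow x (le_of_lt hx) (le_of_lt hx2)
          exact ContMDiffAt.congr_of_eventuallyEq contMDiffAt_const h4
        · have h3 : 7 / 8 < θ p := by
            rw [hθ1 p (not_lt.1 h1) (not_lt.1 h2) hp.le]
            norm_num
          have h4 : H =ᶠ[𝓝 p] fun _ => (y' : N) := by
            filter_upwards [(isOpen_lt continuous_const continuous_snd).mem_nhds hp,
              (isOpen_lt continuous_const hθs.continuous).mem_nhds h3] with x hx hx2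
            exact hhigh x (le_of_lt hx) (le_of_lt hx2)
          exact ContMDiffAt.congr_of_eventuallyEq contMDiffAt_const h4
  · intro t
    rw [hA (0, t) (by norm_num)]
    have h1 : μ 0 = 0 := by
      rw [hμ]
      show stp (3 / 16) (1 / 4) 0 * (1 - stp (3 / 4) (13 / 16) 0) = 0
      rw [CSG.stp_zero (by norm_num) (by norm_num), zero_mul]
    have h2 : θ (0, t) = t := by
      rw [hθ]
      show (1 - μ 0) * t + μ 0 * τ t = t
      rw [h1]
      ring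
    rw [h2]
  · intro t
    rw [hB (1, t) (by norm_num)]
    have h1 : μ 1 = 0 := by
      rw [hμ]
      show stp (3 / 16) (1 / 4) 1 * (1 - stp (3 / 4) (13 / 16) 1) = 0
      rw [CSG.stp_one (by norm_num) (by norm_num : (13 : ℝ) / 16 ≤ 1), sub_self, mul_zero]
    have h2 : θ (1, t) = t := by
      rw [hθ]
      show (1 - μ 1) * t + μ 1 * τ t = t
      rw [h1]
      ring
    rw [h2]
  · intro s t ht
    refine hlow (s, t) (by show t ≤ 3 / 16; linarith) ?_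
    rw [hθ]
    show (1 - μ s) * t + μ s * τ t ≤ 1 / 8
    rw [hτ0 t (by linarith)]
    have h1 := hμ0 s
    have h2 := hμ1 s
    nlinarith
  · intro s t ht
    refine hhigh (s, t) (by show 13 / 16 ≤ t; linarith) ?_
    rw [hθ]
    show 7 / 8 ≤ (1 - μ s) * t + μ s * τ t
    rw [hτ1 t (by linarith)]
    have h1 := hμ0 s
    have h2 := hμ1 s
    nlinarith

theorem exists_smooth_homotopy {Y : Set N} (hY : IsOpen Y) {y y' : Y} {c c' : ℝ → N} (hc : SPth Y y y' c) (hc' : SPth Y y y' c')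
    {γ γ' : Path y y'} (hγ : Rep c γ) (hγ' : Rep c' γ') (h : γ.Homotopic γ') :
    ∃ H : ℝ × ℝ → N, ContMDiff 𝓘(ℝ, ℝ × ℝ) (𝓡 3) ∞ H ∧ (∀ t, H (0, t) = c t) ∧ (∀ t, H (1, t) = c' t) ∧
      (∀ s, ∀ t ≤ 1 / 8, H (s, t) = y) ∧ (∀ s t, 7 / 8 ≤ t → H (s, t) = y') ∧ ∀ p, H p ∈ Y := by
  classical
  obtain ⟨γ₀, h1, h2⟩ := hγ
  obtain ⟨γ₁, h3, h4⟩ := hγ'
  have h5 : γ₀.Homotopic γ₁ := (h2.trans h).trans h4.symm
  obtain ⟨H₀, hc0, hs0, hH0, hH1, hlo, hhi, hY0⟩ := SmH_pre hc hc' h1 h3 h5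
  obtain ⟨R, hR⟩ : ∃ R : Set (ℝ × ℝ), R = Icc (1 / 4) (3 / 4) ×ˢ Icc (3 / 16) (13 / 16) :=
    ⟨_, rfl⟩
  have hRc : IsCompact R := by
    rw [hR]
    exact isCompact_Icc.prod isCompact_Icc
  obtain ⟨U, hU⟩ : ∃ U : Set (ℝ × ℝ), U = Ioo (1 / 8) (7 / 8) ×ˢ Ioo (1 / 8) (7 / 8) := ⟨_, rfl⟩
  have hUo : IsOpen U := by
    rw [hU]
    exact isOpen_Ioo.prod isOpen_Ioo
  have hRU : R ⊆ U := by
    rw [hR, hU]
    rintro ⟨a, b⟩ ⟨⟨ha1, ha2⟩, hb1, hb2⟩
    dsimp only at ha1 ha2 hb1 hb2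
    refine ⟨⟨?_, ?_⟩, ?_, ?_⟩ <;> dsimp only <;> linarith
  have hch : ∀ p : ℝ × ℝ, ∃ β : E → N, Cht (Metric.ball 0 2) β ∧
      β '' Metric.ball 0 2 ⊆ Y ∧ β 0 = H₀ p := fun p => exists_chart hY (hY0 p)
  choose β hβ1 hβ2 hβ3 using hch
  have hβ' : ∀ p, Cht (Metric.ball 0 1) (β p) := fun p =>
    (hβ1 p).mono Metric.isOpen_ball (Metric.ball_subset_ball (by norm_num))
  have hβo : ∀ p, IsOpen (β p '' Metric.ball (0 : E) 1) := fun p =>
    (hβ' p).img Metric.isOpen_ball subset_rfl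
  have hK : ∀ p : ℝ × ℝ, ∃ K : Set (ℝ × ℝ), IsCompact K ∧ p ∈ interior K ∧
      K ⊆ H₀ ⁻¹' (β p '' Metric.ball (0 : E) 1) := by
    intro p
    refine exists_compact_subset ((hβo p).preimage hc0) ?_
    refine ⟨0, Metric.mem_ball_self one_pos, hβ3 p⟩
  choose K hK1 hK2 hK3 using hK
  obtain ⟨T, _, hT2⟩ := hRc.elim_nhds_subcover K
    (fun p _ => mem_interior_iff_mem_nhds.1 (hK2 p))
  let P : Option {x // x ∈ T} → Set (ℝ × ℝ) := fun o =>
    o.elim (Icc 0 1 ×ˢ Icc 0 1) (fun x => K x.1 ∩ R)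
  let O : Option {x // x ∈ T} → Set N := fun o =>
    o.elim Y (fun x => β x.1 '' Metric.ball (0 : E) 1)
  have hPc : ∀ i, IsCompact (P i) := by
    intro i
    cases i with
    | none => exact isCompact_Icc.prod isCompact_Icc
    | some x => exact (hK1 x.1).inter hRc
  have hOo : ∀ i, IsOpen (O i) := by
    intro i
    cases i with
    | none => exact hY
    | some x => exact hβo x.1
  have key : ∀ s : Finset (ℝ × ℝ), s ⊆ T → ∃ (H : ℝ × ℝ → N) (A : Set (ℝ × ℝ)), Continuous H ∧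
      (∀ i, ∀ p ∈ P i, H p ∈ O i) ∧ IsOpen A ∧
      {p : ℝ × ℝ | p.1 < 1 / 4 ∨ 3 / 4 < p.1 ∨ p.2 < 3 / 16 ∨ 13 / 16 < p.2} ⊆ A ∧
      (∀ i ∈ s, K i ∩ R ⊆ A) ∧ (∀ p ∈ A, ContMDiffAt 𝓘(ℝ, ℝ × ℝ) (𝓡 3) ∞ H p) ∧
      ∀ p ∉ U, H p = H₀ p := by
    intro s
    induction s using Finset.induction_on with
    | empty =>
      intro _
      refine ⟨H₀, {p : ℝ × ℝ | p.1 < 1 / 4 ∨ 3 / 4 < p.1 ∨ p.2 < 3 / 16 ∨ 13 / 16 < p.2}, hc0,
        ?_, ?_, subset_rfl, ?_, hs0, fun _ _ => rfl⟩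
      · intro i p hp
        cases i with
        | none => exact hY0 p
        | some x => exact hK3 x.1 hp.1
      · exact (isOpen_lt continuous_fst continuous_const).union
          ((isOpen_lt continuous_const continuous_fst).union
            ((isOpen_lt continuous_snd continuous_const).union
              (isOpen_lt continuous_const continuous_snd)))
      · intro i hi
        exact absurd hi (Finset.notMem_empty i)
    | insert j s hj ih =>
      intro hsT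
      obtain ⟨H, A, k1, k2, k3, k4, k5, k6, k7⟩ := ih (fun x hx => hsT (Finset.mem_insert_of_mem hx))
      have hjT : j ∈ T := hsT (Finset.mem_insert_self j s)
      obtain ⟨H', A', l1, l2, l3, l4, l5, l6, l7⟩ := smooth_step hPc hOo k1 k2 k3 k6
        ((hK1 j).inter hRc) hUo (fun p hp => hRU hp.2) (hβ' j) (k2 (some ⟨j, hjT⟩))
      refine ⟨H', A', l1, l2, l3, k4.trans l4, ?_, l6, fun p hp => (l7 p hp).trans (k7 p hp)⟩
      intro i hi
      rcases Finset.mem_insert.1 hi with rfl | hi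
      · exact l5
      · exact (k5 i hi).trans l4
  obtain ⟨H, A, k1, k2, _, k4, k5, k6, k7⟩ := key T subset_rfl
  have hAll : ∀ p, p ∈ A := by
    intro p
    by_cases hp : p.1 < 1 / 4 ∨ 3 / 4 < p.1 ∨ p.2 < 3 / 16 ∨ 13 / 16 < p.2
    · exact k4 hp
    · have hpR : p ∈ R := by
        rw [hR]
        push Not at hp
        exact ⟨⟨hp.1, hp.2.1⟩, hp.2.2.1, hp.2.2.2⟩
      obtain ⟨i, hi, hi2⟩ := mem_iUnion₂.1 (hT2 hpR)
      exact k5 i hi ⟨hi2, hpR⟩
  have hout : ∀ p : ℝ × ℝ, (p.1 ≤ 1 / 8 ∨ 7 / 8 ≤ p.1 ∨ p.2 ≤ 1 / 8 ∨ 7 / 8 ≤ p.2) → p ∉ U := by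
    intro p hp hpU
    rw [hU] at hpU
    obtain ⟨⟨h6, h7⟩, h8, h9⟩ := hpU
    rcases hp with h | h | h | h <;> linarith
  refine ⟨H, fun p => k6 p (hAll p), ?_, ?_, ?_, ?_, ?_⟩
  · intro t
    rw [k7 (0, t) (hout _ (Or.inl (by norm_num)))]
    exact hH0 t
  · intro t
    rw [k7 (1, t) (hout _ (Or.inr (Or.inl (by norm_num))))]
    exact hH1 t
  · intro s t ht
    rw [k7 (s, t) (hout _ (Or.inr (Or.inr (Or.inl ht))))]
    exact hlo s t ht
  · intro s t ht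
    rw [k7 (s, t) (hout _ (Or.inr (Or.inr (Or.inr ht))))]
    exact hhi s t ht
  · intro p
    by_cases hp : p ∈ U
    · refine k2 none p ?_
      rw [hU] at hp
      obtain ⟨⟨h6, h7⟩, h8, h9⟩ := hp
      exact ⟨⟨by linarith, by linarith⟩, by linarith, by linarith⟩
    · rw [k7 p hp]
      exact hY0 p

end Pool.Agent.NHP
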