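import Pool.Agent.NHP.Fol
import Pool.Agent.NHP.SmH

/-!
# NHP/Flw: a push which follows a given path (difficulty 3)

(1) Inside a ball: `β` chart, `β '' ball 0 2 ⊆ Y`, `y = β u`, `y' = β v`, `‖u‖, ‖v‖ < 1`: the push `s ↦ Θ u (u + stp 0 1 s (v - u))` transported by `β` follows every path from `y` to `y'` with values in `β '' ball 0 1`
(the two paths are homotopic in `β '' ball 0 1`: straight lines in the ball, the inverse chart is continuous).
(2) `S = {t ∈ [0, 1] | for every path c' from c t₀ ... }`: simplest: choose `n` such that `c` maps `[j/n, (j+1)/n]` into `β_j '' ball 0 1` (`exists_chart`, Lebesgue), and show by induction on `j` that there is a push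
following the path `c` restricted to `[0, j/n]` (reparametrised: the path `t ↦ c (t j / n)`), using `follows_comp` and the fact that `t ↦ c (t (j+1)/n)` is homotopic to (`t ↦ c (t j/n)`).trans (`t ↦ c ((j + t)/n)`)
(both are `c` composed with paths of `[0, 1]`, convex).
-/

open scoped Manifold ContDiff Topology
open Set Filter
open Pool.Agent.CSG (stp)
open Pool.Agent.RSG (E3 ex Thick)
open Pool.Agent.KNT (Dom Str Str2 BalC bmp)

namespace Pool.Agent.NHP

variable {N : Type*} [TopologicalSpace N] [ChartedSpace E3 N] [IsManifold (𝓡 3) ∞ N] [T2Space N]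

omit [ChartedSpace E3 N] [IsManifold (𝓡 3) ∞ N] [T2Space N] in
theorem Flw_cast {Y : Set N} {V : ℝ → Equiv.Perm N} {y y' : Y} (c : Path y y') {z z' : Y} (p : Path z z')
    (hz : z = y) (hz' : z' = y') (h : ∀ t, p t = c t) (hf : Follows V p) : Follows V c := by
  subst hz hz'
  have h1 : p = c := by
    ext t
    exact congrArg Subtype.val (h t)
  rw [← h1]
  exact hf

omit [ChartedSpace E3 N] [IsManifold (𝓡 3) ∞ N] [T2Space N] in
theorem Flw_aux {Y : Set N} {V : ℝ → Equiv.Perm N} {B : Type*} [TopologicalSpace B] [SimplyConnectedSpace B]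
    (f : C(B, Y)) {z z' : Y} (p : Path z z') {u v : B} (hu : f u = z) (hv : f v = z') (p1 p2 : Path u v)
    (h1 : ∀ t, (f (p1 t) : N) = V t (z : N)) (h2 : ∀ t, f (p2 t) = p t) : Follows V p := by
  subst hu hv
  refine ⟨p1.map f.continuous, h1, ?_⟩
  have h3 : p = p2.map f.continuous := by
    ext t
    exact congrArg Subtype.val (h2 t).symm
  rw [h3]
  exact Path.Homotopic.map (SimplyConnectedSpace.paths_homotopic p1 p2) f

/-- the line from `a` to `b` -/
def Flw_L (a b : ℝ) : Path a b where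
  toFun t := (1 - (t : ℝ)) * a + (t : ℝ) * b
  continuous_toFun := by fun_prop
  source' := by simp
  target' := by simp

theorem Flw_L_apply (a b : ℝ) (t : unitInterval) : Flw_L a b t = (1 - (t : ℝ)) * a + (t : ℝ) * b := rfl

/-- inside a ball -/
theorem Flw_loc {Y : Set N} {β : E → N} (hβ : Cht (Metric.ball 0 2) β) (hβY : β '' Metric.ball 0 2 ⊆ Y)
    {γ : ℝ → Y} (hγ : Continuous γ) {a b : ℝ}
    (h : ∀ t : unitInterval, (γ (Flw_L a b t) : N) ∈ β '' Metric.ball 0 1) :
    ∃ V : ℝ → Equiv.Perm N, Push Y V ∧ Follows V ((Flw_L a b).map hγ) := by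
  obtain ⟨Θ, hΘ1, hΘ2, hΘ0, hΘm, C, hC, hCb, hCs⟩ := exists_theta (r := 1) (R := 2) one_pos one_lt_two
  have ha : (γ a : N) ∈ β '' Metric.ball 0 1 := by
    have := h 0
    rwa [(Flw_L a b).source] at this
  have hb : (γ b : N) ∈ β '' Metric.ball 0 1 := by
    have := h 1
    rwa [(Flw_L a b).target] at this
  obtain ⟨u, hu, hua⟩ := ha
  obtain ⟨v, hv, hvb⟩ := hb
  obtain ⟨g, hg, hgc⟩ := hβ.inv
  have hsub : Metric.ball (0 : E) 1 ⊆ Metric.ball 0 2 := Metric.ball_subset_ball (by norm_num)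
  have hpt : ∀ s : ℝ, u + stp 0 1 s • (v - u) ∈ Metric.ball (0 : E) 1 := by
    intro s
    have h1 := (convex_ball (0 : E) 1) hu hv (sub_nonneg.mpr (Pool.Agent.CSG.stp_le_one 0 1 s))
      (Pool.Agent.CSG.stp_nonneg 0 1 s) (by ring)
    have h2 : u + stp 0 1 s • (v - u) = (1 - stp 0 1 s) • u + stp 0 1 s • v := by
      rw [smul_sub, sub_smul, one_smul]; abel
    rw [h2]
    exact h1
  have hsm : ContDiff ℝ ∞ (fun q : ℝ × E => ((u, u + stp 0 1 q.1 • (v - u)), q.2)) := by
    have := (Pool.Agent.CSG.stp_smooth 0 1).comp (contDiff_fst (𝕜 := ℝ) (E := ℝ) (F := E) (n := ∞))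
    exact (contDiff_const.prodMk (contDiff_const.add (this.smul contDiff_const))).prodMk contDiff_snd
  have hP : PushE (Metric.ball 0 2) fun s => Θ u (u + stp 0 1 s • (v - u)) := by
    refine ⟨hΘ1.comp hsm, hΘ2.comp hsm, ?_, C, hC, hCb, fun s q hq => hCs _ _ q hq⟩
    rw [Pool.Agent.CSG.stp_zero zero_lt_one le_rfl, zero_smul, add_zero]
    exact hΘ0 u
  obtain ⟨V, hV, hV1, hV2⟩ := push_chart hβ hP
  refine ⟨V, hV.mono hβY, ?_⟩
  have : ContractibleSpace (Metric.ball (0 : E) 1) :=
    (convex_ball (0 : E) 1).contractibleSpace ⟨0, Metric.mem_ball_self one_pos⟩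
  have : SimplyConnectedSpace (Metric.ball (0 : E) 1) := SimplyConnectedSpace.ofContractible _
  have hcb : Continuous fun q : Metric.ball (0 : E) 1 => β q := by
    have h1 := hβ.contOn.mono hsub
    exact continuousOn_iff_continuous_domRestrict.mp h1
  let f : C(Metric.ball (0 : E) 1, Y) :=
    ⟨fun q => ⟨β q, hβY ⟨q, hsub q.2, rfl⟩⟩, hcb.subtype_mk _⟩
  have hgm : ∀ x ∈ β '' Metric.ball 0 1, g x ∈ Metric.ball (0 : E) 1 ∧ β (g x) = x := by
    rintro x ⟨q, hq, rfl⟩
    rw [hg q (hsub hq)]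
    exact ⟨hq, rfl⟩
  let p1 : Path (⟨u, hu⟩ : Metric.ball (0 : E) 1) ⟨v, hv⟩ :=
    { toFun := fun t => ⟨u + stp 0 1 (t : ℝ) • (v - u), hpt t⟩
      continuous_toFun := by
        refine Continuous.subtype_mk ?_ _
        have h1 : Continuous (stp 0 1) := (Pool.Agent.CSG.stp_smooth 0 1).continuous
        fun_prop
      source' := by
        apply Subtype.ext
        show u + stp 0 1 (0 : ℝ) • (v - u) = u
        rw [Pool.Agent.CSG.stp_zero zero_lt_one le_rfl, zero_smul, add_zero]
      target' := by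
        apply Subtype.ext
        show u + stp 0 1 (1 : ℝ) • (v - u) = v
        rw [Pool.Agent.CSG.stp_one zero_lt_one le_rfl, one_smul]
        abel }
  let p2 : Path (⟨u, hu⟩ : Metric.ball (0 : E) 1) ⟨v, hv⟩ :=
    { toFun := fun t => ⟨g (γ (Flw_L a b t)), (hgm _ (h t)).1⟩
      continuous_toFun := by
        refine Continuous.subtype_mk ?_ _
        rw [continuous_iff_continuousAt]
        intro t
        have h1 : ContinuousAt g (γ (Flw_L a b t) : N) :=
          (hgc _ (image_mono hsub (h t))).continuousAt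
        have h2 : ContinuousAt (fun t => (γ (Flw_L a b t) : N)) t :=
          (continuous_subtype_val.comp (hγ.comp (Flw_L a b).continuous)).continuousAt
        exact ContinuousAt.comp (f := fun t => (γ (Flw_L a b t) : N)) h1 h2
      source' := by
        apply Subtype.ext
        show g (γ (Flw_L a b 0) : N) = u
        rw [(Flw_L a b).source, ← hua, hg u (hsub hu)]
      target' := by
        apply Subtype.ext
        show g (γ (Flw_L a b 1) : N) = v
        rw [(Flw_L a b).target, ← hvb, hg v (hsub hv)] }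
  refine Flw_aux f ((Flw_L a b).map hγ) (u := ⟨u, hu⟩) (v := ⟨v, hv⟩) (Subtype.ext hua) (Subtype.ext hvb) p1 p2 ?_ ?_
  · intro t
    show β (u + stp 0 1 (t : ℝ) • (v - u)) = V t (γ a : N)
    rw [← hua, hV1 t u (hsub hu)]
    congr 1
    refine (hΘm u _ ?_ ?_).symm
    · simpa using hu
    · simpa using hpt t
  · intro t
    apply Subtype.ext
    exact (hgm _ (h t)).2

theorem exists_follow {Y : Set N} (hY : IsOpen Y) {y y' : Y} (c : Path y y') : ∃ V : ℝ → Equiv.Perm N, Push Y V ∧ Follows V c := by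
  let γ : ℝ → Y := c.extend
  have hγ : Continuous γ := c.continuous_extend
  choose β hβ hβY hβ0 using fun t : ℝ => exists_chart hY (γ t).2
  have hsub : Metric.ball (0 : E) 1 ⊆ Metric.ball 0 2 := Metric.ball_subset_ball (by norm_num)
  obtain ⟨δ, hδ, hL⟩ := lebesgue_number_lemma_of_metric (s := Icc (0 : ℝ) 1)
    (c := fun t : ℝ => {x : ℝ | (γ x : N) ∈ β t '' Metric.ball 0 1}) isCompact_Icc
    (fun t => ((hβ t).img Metric.isOpen_ball hsub).preimage (continuous_subtype_val.comp hγ))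
    (fun t _ => mem_iUnion.mpr ⟨t, ⟨0, Metric.mem_ball_self one_pos, hβ0 t⟩⟩)
  have hstep : ∀ a ∈ Icc (0 : ℝ) 1, ∀ b : ℝ, |b - a| < δ →
      ∃ V : ℝ → Equiv.Perm N, Push Y V ∧ Follows V ((Flw_L a b).map hγ) := by
    intro a ha b hab
    obtain ⟨i, hi⟩ := hL a ha
    refine Flw_loc (hβ i) (hβY i) hγ (fun t => hi ?_)
    rw [Metric.mem_ball, Real.dist_eq, Flw_L_apply]
    have h1 : (1 - (t : ℝ)) * a + (t : ℝ) * b - a = (t : ℝ) * (b - a) := by ring
    rw [h1, abs_mul, abs_of_nonneg t.2.1]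
    calc (t : ℝ) * |b - a| ≤ 1 * |b - a| := mul_le_mul_of_nonneg_right t.2.2 (abs_nonneg _)
      _ < δ := by rw [one_mul]; exact hab
  obtain ⟨n, hn⟩ := exists_nat_one_div_lt hδ
  have hn1 : (0 : ℝ) < (n : ℝ) + 1 := by positivity
  have hind : ∀ j : ℕ, j ≤ n + 1 →
      ∃ V : ℝ → Equiv.Perm N, Push Y V ∧ Follows V ((Flw_L 0 ((j : ℝ) / (n + 1))).map hγ) := by
    intro j
    induction j with
    | zero =>
      intro _
      exact hstep 0 ⟨le_rfl, zero_le_one⟩ _ (by simpa using hδ)
    | succ j ih =>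
      intro hj
      obtain ⟨V, hV, hV1⟩ := ih (by omega)
      have hj1 : ((j : ℝ) / (n + 1)) ∈ Icc (0 : ℝ) 1 := by
        refine ⟨by positivity, ?_⟩
        rw [div_le_one hn1]
        have : j ≤ n + 1 := by omega
        exact_mod_cast this
      obtain ⟨W, hW, hW1⟩ := hstep _ hj1 (((j + 1 : ℕ) : ℝ) / (n + 1)) (by
        have h1 : ((j + 1 : ℕ) : ℝ) / (n + 1) - (j : ℝ) / (n + 1) = 1 / ((n : ℝ) + 1) := by
          push_cast
          field_simp
          ring
        rw [h1, abs_of_pos (by positivity)]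
        exact hn)
      refine ⟨fun s => (V s).trans (W s), hV.comp hW, ?_⟩
      have h2 := follows_comp hV hW hV1 hW1
      rw [← Path.map_trans] at h2
      unfold Follows at h2 ⊢
      exact (rep_iff h2).mpr (Path.Homotopic.map (SimplyConnectedSpace.paths_homotopic _ _) ⟨γ, hγ⟩)
  obtain ⟨V, hV, hV1⟩ := hind (n + 1) le_rfl
  refine ⟨V, hV, ?_⟩
  have hone : (((n + 1 : ℕ) : ℝ) / (n + 1)) = 1 := by
    push_cast
    exact div_self hn1.ne'
  rw [hone] at hV1
  refine Flw_cast c _ c.extend_zero c.extend_one ?_ hV1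
  intro t
  show c.extend (Flw_L 0 1 t) = c t
  rw [Flw_L_apply]
  have h1 : (1 - (t : ℝ)) * 0 + (t : ℝ) * 1 = (t : ℝ) := by ring
  rw [h1, Path.extend_apply c t.2]

end Pool.Agent.NHP
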