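import Pool.Agent.NHP.Grp

/-!
# NHP/Fol: paths traced by pushes (difficulty 3)

`Y` is a subset of `N`, paths are paths of the subtype.
(comp) the path `t ↦ W t (V t y)`; homotopy to `c.trans c'`: the square `(a, b) ↦ W b (V a y)` of `Y` (`Push.mem`, continuity `Push.cont`): the diagonal is homotopic
to the lower side `a ↦ W 0 (V a y) = V a y` followed by the right side `b ↦ W b (V 1 y)`: in the convex set `[0,1]²` the two paths are homotopic (straight line), compose with the
continuous map of the square into `Y` (`Path.Homotopic.map`).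
(inv) `t ↦ (V t).symm y'`, `y' = V 1 y`: the square `(a, b) ↦ (V a).symm (V b y)`; the diagonal is constant; the upper side `b = 1` is the path to be computed; the left side
`a = 0` is `b ↦ V b y`. So (left side)(upper side) is homotopic to the constant path.
(rep) `t ↦ V (φ t) y` is the composition of `V · y : ℝ → Y` with the path `φ` of `ℝ` from `0` to `1`, which is homotopic to `id` in `ℝ` (convex).
-/

open scoped Manifold ContDiff Topology
open Set Filter
open Pool.Agent.CSG (stp)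
open Pool.Agent.RSG (E3 ex Thick)
open Pool.Agent.KNT (Dom Str Str2 BalC bmp)

namespace Pool.Agent.NHP

variable {N : Type*} [TopologicalSpace N] [ChartedSpace E3 N]

theorem Fol_sq {Z : Type*} [TopologicalSpace Z] (S : ℝ × ℝ → Z) (hS : Continuous S) {z z' z'' : Z}
    (h00 : S (0, 0) = z) (h10 : S (1, 0) = z') (h11 : S (1, 1) = z'') (δ : Path z z'') (γ : Path z z')
    (γ' : Path z' z'') (hδ : ∀ t : unitInterval, δ t = S (t, t)) (hγ : ∀ t : unitInterval, γ t = S (t, 0))
    (hγ' : ∀ t : unitInterval, γ' t = S (1, t)) : δ.Homotopic (γ.trans γ') := by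
  subst h00 h10 h11
  let p : Path ((0, 0) : ℝ × ℝ) (1, 1) :=
    ⟨⟨fun t => ((t : ℝ), (t : ℝ)), continuous_subtype_val.prodMk continuous_subtype_val⟩, by simp, by simp⟩
  let q : Path ((0, 0) : ℝ × ℝ) (1, 0) :=
    ⟨⟨fun t => ((t : ℝ), 0), continuous_subtype_val.prodMk continuous_const⟩, by simp, by simp⟩
  let r : Path ((1, 0) : ℝ × ℝ) (1, 1) :=
    ⟨⟨fun t => (1, (t : ℝ)), continuous_const.prodMk continuous_subtype_val⟩, by simp, by simp⟩
  have h1 : p.Homotopic (q.trans r) := SimplyConnectedSpace.paths_homotopic p (q.trans r)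
  have h2 := h1.map ⟨S, hS⟩
  have e1 : p.map (ContinuousMap.mk S hS).continuous = δ := by
    ext t
    exact (hδ t).symm
  have e2 : q.map (ContinuousMap.mk S hS).continuous = γ := by
    ext t
    exact (hγ t).symm
  have e3 : r.map (ContinuousMap.mk S hS).continuous = γ' := by
    ext t
    exact (hγ' t).symm
  rw [Path.map_trans, e1, e2, e3] at h2
  exact h2

theorem Fol_ln {Z : Type*} [TopologicalSpace Z] (S : ℝ → Z) (hS : Continuous S) {z z' : Z}
    (h00 : S 0 = z) (h11 : S 1 = z') {φ : ℝ → ℝ} (hφ : Continuous φ) (h0 : φ 0 = 0) (h1 : φ 1 = 1)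
    (δ : Path z z') (γ : Path z z') (hδ : ∀ t : unitInterval, δ t = S (φ t))
    (hγ : ∀ t : unitInterval, γ t = S t) : δ.Homotopic γ := by
  subst h00 h11
  let p : Path (0 : ℝ) 1 := ⟨⟨fun t => φ t, hφ.comp continuous_subtype_val⟩, h0, h1⟩
  let q : Path (0 : ℝ) 1 := ⟨⟨fun t => (t : ℝ), continuous_subtype_val⟩, by simp, by simp⟩
  have h2 := (SimplyConnectedSpace.paths_homotopic p q).map ⟨S, hS⟩
  have e1 : p.map (ContinuousMap.mk S hS).continuous = δ := by
    ext t
    exact (hδ t).symm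
  have e2 : q.map (ContinuousMap.mk S hS).continuous = γ := by
    ext t
    exact (hγ t).symm
  rw [e1, e2] at h2
  exact h2

theorem Fol_inv {Z : Type*} [TopologicalSpace Z] {z z' : Z} {γ : Path z z'} {η : Path z' z}
    (h : (Path.refl z).Homotopic (γ.trans η)) : η.Homotopic γ.symm := by
  have h1 : η.Homotopic ((Path.refl z').trans η) := ⟨(Path.Homotopy.reflTrans η).symm⟩
  have h2 : ((Path.refl z').trans η).Homotopic ((γ.symm.trans γ).trans η) :=
    Path.Homotopic.hcomp ⟨Path.Homotopy.reflSymmTrans γ⟩ (Path.Homotopic.refl η)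
  have h3 : ((γ.symm.trans γ).trans η).Homotopic (γ.symm.trans (γ.trans η)) :=
    ⟨Path.Homotopy.transAssoc γ.symm γ η⟩
  have h4 : (γ.symm.trans (γ.trans η)).Homotopic (γ.symm.trans (Path.refl z)) :=
    Path.Homotopic.hcomp (Path.Homotopic.refl _) h.symm
  have h5 : (γ.symm.trans (Path.refl z)).Homotopic γ.symm := ⟨Path.Homotopy.transRefl γ.symm⟩
  exact h1.trans (h2.trans (h3.trans (h4.trans h5)))

theorem rep_iff {Y : Set N} {y y' : Y} {f : ℝ → N} {c c' : Path y y'} (h : Rep f c) : Rep f c' ↔ c.Homotopic c' := by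
  obtain ⟨γ, hγ, hc⟩ := h
  constructor
  · rintro ⟨γ', hγ', hc'⟩
    have he : γ = γ' := by
      ext t
      rw [hγ t, hγ' t]
    rw [← he] at hc'
    exact hc.symm.trans hc'
  · intro hcc
    exact ⟨γ, hγ, hc.trans hcc⟩

theorem rep_congr {Y : Set N} {y y' : Y} {f g : ℝ → N} {c : Path y y'} (h : Rep f c) (hfg : ∀ t ∈ Icc (0 : ℝ) 1, g t = f t) :
    Rep g c := by
  obtain ⟨γ, hγ, hc⟩ := h
  exact ⟨γ, fun t => (hγ t).trans (hfg t t.2).symm, hc⟩

theorem rep_of {Y : Set N} {y y' : Y} {f : ℝ → N} (hf : ContinuousOn f (Icc 0 1)) (hY : ∀ t ∈ Icc (0 : ℝ) 1, f t ∈ Y)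
    (h0 : f 0 = y) (h1 : f 1 = y') : ∃ c : Path y y', Rep f c := by
  refine ⟨⟨⟨fun t => ⟨f t, hY t t.2⟩, ?_⟩, Subtype.ext h0, Subtype.ext h1⟩, ?_⟩
  · exact Continuous.subtype_mk (hf.comp_continuous continuous_subtype_val fun t => t.2) _
  · exact ⟨_, fun t => rfl, Path.Homotopic.refl _⟩

theorem Follows.endpt {Y : Set N} {y y' : Y} {V : ℝ → Equiv.Perm N} {c : Path y y'} (h : Follows V c) : V 1 (y : N) = y' := by
  obtain ⟨γ, hγ, _⟩ := h
  have h1 := hγ 1
  rw [γ.target] at h1
  exact h1.symm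

theorem exists_follows {O Y : Set N} (hOY : O ⊆ Y) {V : ℝ → Equiv.Perm N} (hV : Push O V) (y : Y) (y' : Y) (h : V 1 (y : N) = y') :
    ∃ c : Path y y', Follows V c := by
  refine rep_of (f := fun t => V t (y : N)) ?_ (fun t _ => ?_) ?_ h
  · exact (hV.cont.comp (continuous_id.prodMk continuous_const)).continuousOn
  · by_cases hy : (y : N) ∈ O
    · exact hOY (hV.mem t hy)
    · rw [hV.out t hy]
      exact y.2
  · show V 0 (y : N) = y
    rw [hV.zero]
    rfl

theorem follows_comp {Y : Set N} {V W : ℝ → Equiv.Perm N} (hV : Push Y V) (hW : Push Y W) {y y' y'' : Y}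
    {c : Path y y'} {c' : Path y' y''} (h : Follows V c) (h' : Follows W c') :
    Follows (fun s => (V s).trans (W s)) (c.trans c') := by
  obtain ⟨γ, hγ, hc⟩ := h
  obtain ⟨γ', hγ', hc'⟩ := h'
  have hV0 : ∀ x, V 0 x = x := fun x => by rw [hV.zero]; rfl
  have hW0 : ∀ x, W 0 x = x := fun x => by rw [hW.zero]; rfl
  have hy' : V 1 (y : N) = y' := by
    have h1 := hγ 1
    rw [γ.target] at h1
    exact h1.symm
  have hy'' : W 1 (y' : N) = y'' := by
    have h1 := hγ' 1
    rw [γ'.target] at h1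
    exact h1.symm
  let S : ℝ × ℝ → Y := fun q => ⟨W q.2 (V q.1 y), hW.mem _ (hV.mem _ y.2)⟩
  have hS : Continuous S := by
    refine Continuous.subtype_mk ?_ _
    exact hW.cont.comp (continuous_snd.prodMk (hV.cont.comp (continuous_fst.prodMk continuous_const)))
  let δ : Path y y'' := ⟨⟨fun t => S (t, t), hS.comp (continuous_subtype_val.prodMk continuous_subtype_val)⟩,
    Subtype.ext (by show W 0 (V 0 y) = y; rw [hV0, hW0]), Subtype.ext (by show W 1 (V 1 y) = y''; rw [hy', hy''])⟩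
  have h00 : S (0, 0) = y := Subtype.ext (by show W 0 (V 0 y) = y; rw [hV0, hW0])
  have h10 : S (1, 0) = y' := Subtype.ext (by show W 0 (V 1 y) = y'; rw [hW0, hy'])
  have h11 : S (1, 1) = y'' := Subtype.ext (by show W 1 (V 1 y) = y''; rw [hy', hy''])
  have hd : δ.Homotopic (γ.trans γ') := by
    refine Fol_sq S hS h00 h10 h11 δ γ γ' (fun t => rfl) (fun t => Subtype.ext ?_) (fun t => Subtype.ext ?_)
    · rw [hγ t]
      show V t y = W 0 (V t y)
      rw [hW0]
    · rw [hγ' t]
      show W t y' = W t (V 1 y)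
      rw [hy']
  exact ⟨δ, fun t => rfl, hd.trans (hc.hcomp hc')⟩

theorem follows_inv {Y : Set N} {V : ℝ → Equiv.Perm N} (hV : Push Y V) {y y' : Y} {c : Path y y'} (h : Follows V c) :
    Follows (fun s => (V s).symm) c.symm := by
  obtain ⟨γ, hγ, hc⟩ := h
  have hV0 : ∀ x, V 0 x = x := fun x => by rw [hV.zero]; rfl
  have hV0' : ∀ x, (V 0).symm x = x := fun x => by rw [hV.zero]; rfl
  have hy' : V 1 (y : N) = y' := by
    have h1 := hγ 1
    rw [γ.target] at h1
    exact h1.symm
  let S : ℝ × ℝ → Y := fun q => ⟨(V q.2).symm (V q.1 y), hV.inv.mem _ (hV.mem _ y.2)⟩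
  have hS : Continuous S := by
    refine Continuous.subtype_mk ?_ _
    exact hV.inv.cont.comp (continuous_snd.prodMk (hV.cont.comp (continuous_fst.prodMk continuous_const)))
  have h00 : S (0, 0) = y := Subtype.ext (by show (V 0).symm (V 0 y) = y; rw [hV0, hV0'])
  have h10 : S (1, 0) = y' := Subtype.ext (by show (V 0).symm (V 1 y) = y'; rw [hV0', hy'])
  have h11 : S (1, 1) = y := Subtype.ext (by show (V 1).symm (V 1 y) = y; rw [Equiv.symm_apply_apply])
  let η : Path y' y := ⟨⟨fun t => S (1, t), hS.comp (continuous_const.prodMk continuous_subtype_val)⟩, h10, h11⟩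
  have hd : (Path.refl y).Homotopic (γ.trans η) := by
    refine Fol_sq S hS h00 h10 h11 (Path.refl y) γ η (fun t => Subtype.ext ?_) (fun t => Subtype.ext ?_)
      (fun t => rfl)
    · show (y : N) = (V t).symm (V t y)
      rw [Equiv.symm_apply_apply]
    · rw [hγ t]
      show V t y = (V 0).symm (V t y)
      rw [hV0']
  refine ⟨η, fun t => ?_, (Fol_inv hd).trans ?_⟩
  · show (V t).symm (V 1 y) = (V t).symm y'
    rw [hy']
  · obtain ⟨F⟩ := hc
    exact ⟨F.symm₂⟩

theorem follows_rep {Y : Set N} {V : ℝ → Equiv.Perm N} (hV : Push Y V) {φ : ℝ → ℝ} (hφ : Continuous φ) (h0 : φ 0 = 0) (h1 : φ 1 = 1)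
    {y y' : Y} {c : Path y y'} (h : Follows V c) : Follows (fun s => V (φ s)) c := by
  obtain ⟨γ, hγ, hc⟩ := h
  have hV0 : ∀ x, V 0 x = x := fun x => by rw [hV.zero]; rfl
  have hy' : V 1 (y : N) = y' := by
    have h1 := hγ 1
    rw [γ.target] at h1
    exact h1.symm
  let S : ℝ → Y := fun q => ⟨V q y, hV.mem _ y.2⟩
  have hS : Continuous S := by
    refine Continuous.subtype_mk ?_ _
    exact hV.cont.comp (continuous_id.prodMk continuous_const)
  have h00 : S 0 = y := Subtype.ext (by show V 0 y = y; rw [hV0])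
  have h11 : S 1 = y' := Subtype.ext (by show V 1 y = y'; rw [hy'])
  let δ : Path y y' := ⟨⟨fun t => S (φ t), hS.comp (hφ.comp continuous_subtype_val)⟩,
    (congrArg S h0).trans h00, (congrArg S h1).trans h11⟩
  have hd : δ.Homotopic γ := by
    refine Fol_ln S hS h00 h11 hφ h0 h1 δ γ (fun t => rfl) (fun t => Subtype.ext ?_)
    rw [hγ t]
  exact ⟨δ, fun t => rfl, hd.trans hc⟩

theorem follows_refl {Y : Set N} {V : ℝ → Equiv.Perm N} (y : Y) (h : ∀ t ∈ Icc (0 : ℝ) 1, V t (y : N) = y) :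
    Follows V (Path.refl y) :=
  ⟨Path.refl y, fun t => (h t t.2).symm, Path.Homotopic.refl _⟩

end Pool.Agent.NHP
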