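import Pool.Agent.NHP.Nea

/-!
# NHP/Gll: lifts of paths of linear maps exist
-/

open scoped Manifold ContDiff Topology
open Set Filter
open Pool.Agent.CSG (stp)
open Pool.Agent.RSG (E3 ex Thick)
open Pool.Agent.KNT (Dom Str Str2 BalC bmp)

namespace Pool.Agent.NHP

theorem gll_inv {A : E →L[ℝ] E} (h : Function.Bijective A) :
    (∀ v, A.inverse (A v) = v) ∧ (∀ v, A (A.inverse v) = v) ∧
      ContDiffAt ℝ ∞ (ContinuousLinearMap.inverse : (E →L[ℝ] E) → (E →L[ℝ] E)) A := by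
  have hk : LinearMap.ker A.toLinearMap = ⊥ := LinearMap.ker_eq_bot.2 h.1
  have hr : LinearMap.range A.toLinearMap = ⊤ := LinearMap.range_eq_top.2 h.2
  have he : ((ContinuousLinearEquiv.ofBijective A hk hr : E ≃L[ℝ] E) : E →L[ℝ] E) = A :=
    ContinuousLinearEquiv.coe_ofBijective A hk hr
  generalize ContinuousLinearEquiv.ofBijective A hk hr = e at he
  subst he
  refine ⟨fun v => ?_, fun v => ?_, contDiffAt_map_inverse e⟩
  · rw [ContinuousLinearMap.inverse_equiv]; simp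
  · rw [ContinuousLinearMap.inverse_equiv]; simp

theorem gll_step {ε₀ : ℝ} (hnear : ∀ (A : ℝ → E →L[ℝ] E), ContDiff ℝ ∞ A →
    (∀ s, ‖A s - ContinuousLinearMap.id ℝ E‖ ≤ ε₀) → ∀ δ : ℝ, 0 < δ → ∃ L : ℝ → Equiv.Perm E,
      ContDiff ℝ ∞ (fun p : ℝ × E => L p.1 p.2) ∧ ContDiff ℝ ∞ (fun p : ℝ × E => (L p.1).symm p.2) ∧
      ∀ s q, L s q = q + bum δ q • (A s q - q)) (hε : 0 < ε₀)
    {D D' : ℝ → E →L[ℝ] E} (hD : ContDiff ℝ ∞ D) (hD' : ContDiff ℝ ∞ D') (hb : ∀ s, Function.Bijective (D s))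
    (h0 : D' 0 = D 0) {B : ℝ} (hB : 0 < B) (hDB : ∀ s, ‖D s‖ ≤ B)
    (hn : ∀ s v, ‖D' s v - D s v‖ ≤ ε₀ * ‖D s v‖) {δ : ℝ} (hδ : 0 < δ) {L : ℝ → Equiv.Perm E}
    (hL : PushE (Bl δ) L) (hg : ∃ ρ : ℝ, 0 < ρ ∧ ∀ s, ∀ q ∈ Bl ρ, L s q = D s q) :
    ∃ L' : ℝ → Equiv.Perm E, PushE (Bl δ) L' ∧ (∃ ρ : ℝ, 0 < ρ ∧ ∀ s, ∀ q ∈ Bl ρ, L' s q = D' s q) ∧
      ∀ s, D' s = D s → L' s = L s := by
  set A : ℝ → E →L[ℝ] E := fun s => (D' s).comp (D s).inverse with hA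
  have hAs : ContDiff ℝ ∞ A := by
    refine ContDiff.clm_comp hD' ?_
    rw [contDiff_iff_contDiffAt]
    intro s
    exact (gll_inv (hb s)).2.2.comp s hD.contDiffAt
  have hAD : ∀ s v, A s (D s v) = D' s v := by
    intro s v
    simp only [hA, ContinuousLinearMap.comp_apply, (gll_inv (hb s)).1]
  have hAn : ∀ s, ‖A s - ContinuousLinearMap.id ℝ E‖ ≤ ε₀ := by
    intro s
    refine ContinuousLinearMap.opNorm_le_bound _ hε.le fun v => ?_
    obtain ⟨u, rfl⟩ := (hb s).2 v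
    have := hn s u
    simpa [hAD] using this
  obtain ⟨M, hM1, hM2, hM3⟩ := hnear A hAs hAn δ hδ
  have hMid : ∀ s, D' s = D s → M s = Equiv.refl E := by
    intro s hs
    ext1 q
    obtain ⟨u, rfl⟩ := (hb s).2 q
    rw [hM3, hAD, hs]
    simp
  obtain ⟨ρ, hρ, hρL⟩ := hg
  obtain ⟨C, hC, hCO, hCL⟩ := hL.supp
  refine ⟨fun s => (L s).trans (M s), ⟨?_, ?_, ?_, ?_⟩, ?_, ?_⟩
  · exact hM1.comp (contDiff_fst.prodMk hL.smooth)
  · exact hL.smooth_symm.comp (contDiff_fst.prodMk hM2)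
  · show (L 0).trans (M 0) = _
    rw [hMid 0 h0, hL.zero]
    rfl
  · refine ⟨C ∪ {q : E | nr q ≤ (δ / 2) ^ 2}, hC.union (isCompact_Bl (δ / 2)), ?_, ?_⟩
    · refine union_subset hCO fun q hq => ?_
      have hq' : nr q ≤ (δ / 2) ^ 2 := hq
      show nr q < δ ^ 2
      nlinarith [sq_pos_of_pos hδ]
    · intro s x hx
      rw [mem_union, not_or] at hx
      have hx2 : ¬ nr x ≤ (δ / 2) ^ 2 := hx.2
      show M s (L s x) = x
      rw [hCL s x hx.1, hM3, bum_zero hδ (by nlinarith [not_le.1 hx2])]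
      simp
  · refine ⟨min ρ (δ / (8 * B)), lt_min hρ (by positivity), fun s q hq => ?_⟩
    have h1 : q ∈ Bl ρ := Bl_mono (lt_min hρ (by positivity)) (min_le_left _ _) hq
    have h2 : q ∈ Bl (δ / (8 * B)) := Bl_mono (lt_min hρ (by positivity)) (min_le_right _ _) hq
    have h3 : nr q < (δ / (8 * B)) ^ 2 := h2
    show M s (L s q) = D' s q
    rw [hρL s q h1, hM3, hAD]
    have h4 : nr (D s q) ≤ δ ^ 2 / 16 := by
      have h5 := (nr_le (D s q)).2
      have h6 := (nr_le q).1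
      have h7 : ‖D s q‖ ≤ B * ‖q‖ := (D s).le_of_opNorm_le (hDB s) q
      have h8 : ‖D s q‖ ^ 2 ≤ (B * ‖q‖) ^ 2 := pow_le_pow_left₀ (norm_nonneg _) h7 2
      have h9 : B ^ 2 * (δ / (8 * B)) ^ 2 = δ ^ 2 / 64 := by
        field_simp
        norm_num
      have h10 : B ^ 2 * ‖q‖ ^ 2 ≤ B ^ 2 * (δ / (8 * B)) ^ 2 :=
        mul_le_mul_of_nonneg_left (h6.trans h3.le) (sq_nonneg B)
      nlinarith [sq_nonneg δ]
    rw [bum_one hδ h4]
    simp
  · intro s hs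
    show (L s).trans (M s) = L s
    rw [hMid s hs]
    rfl

theorem gll_bdd {D : ℝ → E →L[ℝ] E} (hD : GLp D) : ∃ B : ℝ, 0 < B ∧ ∀ s, ‖D s‖ ≤ B := by
  obtain ⟨B, hB⟩ := (isCompact_Icc (a := (0 : ℝ)) (b := 1)).exists_bound_of_continuousOn
    (f := D) hD.smooth.continuous.continuousOn
  refine ⟨max B 1, by positivity, fun s => ?_⟩
  rcases le_total s (1 / 8) with h | h
  · rw [hD.start s h, ← hD.start 0 (by norm_num)]
    exact (hB 0 ⟨le_rfl, by norm_num⟩).trans (le_max_left _ _)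
  · rcases le_total s (7 / 8) with h' | h'
    · exact (hB s ⟨by linarith, by linarith⟩).trans (le_max_left _ _)
    · rw [hD.stop s h']
      exact (hB 1 ⟨by norm_num, le_rfl⟩).trans (le_max_left _ _)


/-- a smooth clamp -/
theorem gll_clamp : ∃ φ : ℝ → ℝ, ContDiff ℝ ∞ φ ∧ φ 0 = 0 ∧ (∀ s, φ s ∈ Icc (0 : ℝ) 1) ∧ (∀ s ≤ 1 / 8, φ s ≤ 1 / 8) ∧
    (∀ s, 7 / 8 ≤ s → 7 / 8 ≤ φ s) ∧ ∀ s ∈ Icc (1 / 8 : ℝ) (7 / 8), φ s = s := by
  have e1 : (0 : ℝ) < 1 / 16 := by norm_num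
  have e2 : (15 / 16 : ℝ) < 1 := by norm_num
  refine ⟨fun s => s * stp 0 (1 / 16) s * (1 - stp (15 / 16) 1 s) + stp (15 / 16) 1 s, ?_, ?_, ?_, ?_, ?_, ?_⟩
  · exact ((contDiff_id.mul (CSG.stp_smooth _ _)).mul (contDiff_const.sub (CSG.stp_smooth _ _))).add (CSG.stp_smooth _ _)
  · simp [CSG.stp_zero e2 (show (0 : ℝ) ≤ 15 / 16 by norm_num)]
  · intro s
    show s * stp 0 (1 / 16) s * (1 - stp (15 / 16) 1 s) + stp (15 / 16) 1 s ∈ Icc (0 : ℝ) 1
    have a1 := CSG.stp_nonneg 0 (1 / 16) s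
    have a2 := CSG.stp_le_one 0 (1 / 16) s
    have a3 := CSG.stp_nonneg (15 / 16) 1 s
    have a4 := CSG.stp_le_one (15 / 16) 1 s
    rcases le_total s 0 with h | h
    · rw [CSG.stp_zero e1 h, CSG.stp_zero e2 (by linarith)]
      norm_num
    · rcases le_total 1 s with h' | h'
      · rw [CSG.stp_one e2 h']
        norm_num
      · constructor
        · have := mul_nonneg (mul_nonneg h a1) (sub_nonneg.2 a4)
          linarith
        · have h1 : s * stp 0 (1 / 16) s ≤ 1 := mul_le_one₀ h' a1 a2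
          have h2 := mul_le_mul_of_nonneg_right h1 (sub_nonneg.2 a4)
          linarith
  · intro s hs
    simp only
    rw [CSG.stp_zero e2 (by linarith)]
    have a1 := CSG.stp_nonneg 0 (1 / 16) s
    have a2 := CSG.stp_le_one 0 (1 / 16) s
    rcases le_total s 0 with h | h
    · rw [CSG.stp_zero e1 h]
      norm_num
    · have := mul_le_mul_of_nonneg_left a2 h
      linarith
  · intro s hs
    simp only
    rw [CSG.stp_one e1 (by linarith)]
    have a3 := CSG.stp_nonneg (15 / 16) 1 s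
    have a4 := CSG.stp_le_one (15 / 16) 1 s
    rcases le_total 1 s with h' | h'
    · rw [CSG.stp_one e2 h']
      norm_num
    · have := mul_nonneg a3 (sub_nonneg.2 h')
      linarith
  · intro s hs
    simp only
    rw [CSG.stp_one e1 (by linarith [hs.1]), CSG.stp_zero e2 (by linarith [hs.2])]
    ring

theorem exists_lift {D : ℝ → E →L[ℝ] E} (hD : GLp D) {δ : ℝ} (hδ : 0 < δ) : ∃ L : ℝ → Equiv.Perm E, Lif D δ L := by
  obtain ⟨ε₀, hε, hnear⟩ := near_lin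
  obtain ⟨B, hB, hDB⟩ := gll_bdd hD
  obtain ⟨φ, hφ, hφ0, hφI, hφ1, hφ2, hφ3⟩ := gll_clamp
  have hDφ : ∀ s, D (φ s) = D s := by
    intro s
    rcases le_total s (1 / 8) with h | h
    · rw [hD.start s h, hD.start _ (hφ1 s h)]
    · rcases le_total s (7 / 8) with h' | h'
      · rw [hφ3 s ⟨h, h'⟩]
      · rw [hD.stop s h', hD.stop _ (hφ2 s h')]
  -- bound of the inverses
  obtain ⟨B', hB', hDB'⟩ : ∃ B' : ℝ, 0 < B' ∧ ∀ t ∈ Icc (0 : ℝ) 1, ‖(D t).inverse‖ ≤ B' := by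
    have hc : ContinuousOn (fun t => (D t).inverse) (Icc (0 : ℝ) 1) := by
      intro t _
      exact (((gll_inv (hD.bij t)).2.2.continuousAt).comp
        hD.smooth.continuous.continuousAt).continuousWithinAt
    obtain ⟨B', hB'⟩ := (isCompact_Icc (a := (0 : ℝ)) (b := 1)).exists_bound_of_continuousOn hc
    exact ⟨max B' 1, by positivity, fun t ht => (hB' t ht).trans (le_max_left _ _)⟩
  -- uniform continuity
  obtain ⟨N, hN, hDN⟩ : ∃ N : ℕ, 0 < N ∧ ∀ a ∈ Icc (0 : ℝ) 1, ∀ b ∈ Icc (0 : ℝ) 1, |a - b| ≤ 1 / N →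
      ‖D a - D b‖ ≤ ε₀ / B' := by
    have hu := (isCompact_Icc (a := (0 : ℝ)) (b := 1)).uniformContinuousOn_of_continuous
      hD.smooth.continuous.continuousOn
    rw [Metric.uniformContinuousOn_iff_le] at hu
    obtain ⟨η, hη, hη2⟩ := hu (ε₀ / B') (by positivity)
    obtain ⟨N, hN⟩ := exists_nat_gt (1 / η)
    have hN0 : (0 : ℝ) < N := lt_trans (by positivity) hN
    refine ⟨N, by exact_mod_cast hN0, fun a ha b hb hab => ?_⟩
    have h1 : 1 / (N : ℝ) ≤ η := by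
      rw [div_le_iff₀ hN0]
      rw [div_lt_iff₀ hη] at hN
      linarith
    have := hη2 a ha b hb (by rw [Real.dist_eq]; exact hab.trans h1)
    rwa [dist_eq_norm] at this
  have hN0 : (0 : ℝ) < N := by exact_mod_cast hN
  have hI : ∀ n : ℕ, n ≤ N → ∀ s, (n : ℝ) * φ s / N ∈ Icc (0 : ℝ) 1 := by
    intro n hn s
    have h1 := (hφI s).1
    have h2 := (hφI s).2
    have hn' : (n : ℝ) ≤ N := by exact_mod_cast hn
    have hn0 : (0 : ℝ) ≤ n := Nat.cast_nonneg n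
    constructor
    · positivity
    · rw [div_le_one hN0]
      calc (n : ℝ) * φ s ≤ n * 1 := mul_le_mul_of_nonneg_left h2 hn0
        _ ≤ N := by linarith
  have key : ∀ n : ℕ, n ≤ N → ∃ L : ℝ → Equiv.Perm E, PushE (Bl δ) L ∧
      ∃ ρ : ℝ, 0 < ρ ∧ ∀ s, ∀ q ∈ Bl ρ, L s q = D ((n : ℝ) * φ s / N) q := by
    intro n
    induction n with
    | zero =>
      intro _
      refine ⟨fun _ => Equiv.refl E, ⟨contDiff_snd, contDiff_snd, rfl, ∅, isCompact_empty, empty_subset _,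
        fun _ _ _ => rfl⟩, 1, one_pos, fun s q _ => ?_⟩
      have : (((0 : ℕ) : ℝ) * φ s / N) = 0 := by simp
      rw [this, hD.start 0 (by norm_num)]
      rfl
    | succ n ih =>
      intro hn
      obtain ⟨L, hL, hg⟩ := ih (by omega)
      have hbd : ∀ s v, ‖D (((n + 1 : ℕ) : ℝ) * φ s / N) v - D ((n : ℝ) * φ s / N) v‖ ≤
          ε₀ * ‖D ((n : ℝ) * φ s / N) v‖ := by
        intro s v
        have ha := hI (n + 1) hn s
        have hb := hI n (by omega) s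
        have hab : |((n + 1 : ℕ) : ℝ) * φ s / N - (n : ℝ) * φ s / N| ≤ 1 / N := by
          have : ((n + 1 : ℕ) : ℝ) * φ s / N - (n : ℝ) * φ s / N = φ s / N := by
            push_cast
            ring
          rw [this, abs_of_nonneg (div_nonneg (hφI s).1 hN0.le)]
          exact div_le_div_of_nonneg_right (hφI s).2 hN0.le
        have h3 := hDN _ ha _ hb hab
        have h4 : ‖v‖ ≤ B' * ‖D ((n : ℝ) * φ s / N) v‖ := by
          have h5 := (gll_inv (hD.bij ((n : ℝ) * φ s / N))).1 v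
          calc ‖v‖ = ‖(D ((n : ℝ) * φ s / N)).inverse (D ((n : ℝ) * φ s / N) v)‖ := by rw [h5]
            _ ≤ B' * ‖D ((n : ℝ) * φ s / N) v‖ := ContinuousLinearMap.le_of_opNorm_le _ (hDB' _ hb) _
        calc ‖D (((n + 1 : ℕ) : ℝ) * φ s / N) v - D ((n : ℝ) * φ s / N) v‖
            = ‖(D (((n + 1 : ℕ) : ℝ) * φ s / N) - D ((n : ℝ) * φ s / N)) v‖ := rfl
          _ ≤ (ε₀ / B') * ‖v‖ := ContinuousLinearMap.le_of_opNorm_le _ h3 _
          _ ≤ (ε₀ / B') * (B' * ‖D ((n : ℝ) * φ s / N) v‖) :=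
            mul_le_mul_of_nonneg_left h4 (by positivity)
          _ = ε₀ * ‖D ((n : ℝ) * φ s / N) v‖ := by
            rw [← mul_assoc, div_mul_cancel₀ _ hB'.ne']
      obtain ⟨L', h1, h2, -⟩ := gll_step (D := fun s => D ((n : ℝ) * φ s / N))
        (D' := fun s => D (((n + 1 : ℕ) : ℝ) * φ s / N)) hnear hε
        (hD.smooth.comp ((contDiff_const.mul hφ).div_const _))
        (hD.smooth.comp ((contDiff_const.mul hφ).div_const _)) (fun s => hD.bij _)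
        (by simp [hφ0]) hB (fun s => hDB _) hbd hδ hL hg
      exact ⟨L', h1, h2⟩
  obtain ⟨L, hL, ρ, hρ, hg⟩ := key N le_rfl
  refine ⟨L, hL, ρ, hρ, fun s q hq => ?_⟩
  rw [hg s q hq, mul_div_cancel_left₀ _ hN0.ne', hDφ]

end Pool.Agent.NHP
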