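import Pool.Agent.NHP.Glq
import Pool.Agent.NHP.Gll

/-!
# NHP/Ger: matching of germs (difficulty 3)

`A = fderiv ψ 0`, `D` from `gl_path`, `L` from `exists_lift` (radius `δ`), `M u q = q + stp 0 1 u • bum δ' q • (A⁻¹ (ψ q) - q)` by `small_fam` (`δ'` small, as in `Nlc`), `PushE (Bl δ')`; `M u 0 = 0`.
Case `D 1 = A`: `U s = (L s).symm.trans (M s).symm`: near `0`: `L 1 (M 1 q) = A (A⁻¹ (ψ q)) = ψ q`, so `U 1 (ψ q) = q`.
Case `D 1 = A ∘ refL`: `M' s = refL ∘ M s ∘ refL` (a permutation, `PushE (Bl δ')`), `U s = (L s).symm.trans (M' s).symm`: `L 1 (M' 1 (refL q)) = A (refL (refL (M 1 q))) = A (M 1 q) = ψ q`, so `U 1 (ψ q) = refL q`.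
`U s 0 = 0` since `L s 0 = D s 0 = 0`, `M s 0 = 0`.
-/

open scoped Manifold ContDiff Topology
open Set Filter
open Pool.Agent.CSG (stp)
open Pool.Agent.RSG (E3 ex Thick)
open Pool.Agent.KNT (Dom Str Str2 BalC bmp)

namespace Pool.Agent.NHP

theorem ger_fam {r : E → E} (hr : ∀ᶠ q in 𝓝 (0 : E), ContDiffAt ℝ ∞ r q) (h0 : r 0 = 0)
    (hd : fderiv ℝ r 0 = 0) {δ : ℝ} (hδ : 0 < δ) : ∃ δ' : ℝ, 0 < δ' ∧ δ' ≤ δ ∧ ∃ M : ℝ → Equiv.Perm E,
      ContDiff ℝ ∞ (fun p : ℝ × E => M p.1 p.2) ∧ ContDiff ℝ ∞ (fun p : ℝ × E => (M p.1).symm p.2) ∧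
      ∀ u q, M u q = q + stp 0 1 u • bum δ' q • r q := by
  obtain ⟨C, hC, hb⟩ := exists_bum_bound
  set ε : ℝ := 1 / (2 * (C + 1)) with hε
  have hε0 : 0 < ε := by positivity
  have hr0 : ContDiffAt ℝ ∞ r 0 := hr.self_of_nhds
  have hcf : ContinuousAt (fderiv ℝ r) 0 := (hr0.fderiv_right (m := 0) (by simp)).continuousAt
  have h1 : ∀ᶠ q in 𝓝 (0 : E), ‖fderiv ℝ r q‖ < ε := by
    have h2 : ‖fderiv ℝ r 0‖ < ε := by rw [hd, norm_zero]; exact hε0
    exact hcf.norm.eventually (gt_mem_nhds h2)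
  obtain ⟨ρ, hρ, hball⟩ := Metric.eventually_nhds_iff_ball.mp (h1.and hr)
  obtain ⟨δ1, hδ1, hsub⟩ := exists_Bl (Metric.ball_mem_nhds (0 : E) hρ)
  set δ' := min δ δ1 with hδ'
  have hδ'0 : 0 < δ' := lt_min hδ hδ1
  have hsub' : ∀ q : E, nr q ≤ δ' ^ 2 → q ∈ Metric.ball (0 : E) ρ := by
    intro q hq
    apply hsub
    have h2 : δ' ^ 2 ≤ δ1 ^ 2 := by
      have := min_le_right δ δ1
      nlinarith
    exact le_trans hq h2
  have hrle : ∀ q ∈ Metric.ball (0 : E) ρ, ‖r q‖ ≤ ε * ‖q‖ := by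
    intro q hq
    have h2 := (convex_ball (0 : E) ρ).norm_image_sub_le_of_norm_fderiv_le (𝕜 := ℝ) (f := r) (C := ε)
      (fun x hx => (hball x hx).2.differentiableAt (by simp)) (fun x hx => (hball x hx).1.le)
      (Metric.mem_ball_self hρ) hq
    simpa [h0] using h2
  set h : E → E := fun q => bum δ' q • r q with hh
  have hzero : ∀ q : E, δ' ^ 2 / 4 < nr q → h =ᶠ[𝓝 q] fun _ => 0 := by
    intro q hq
    have h2 : ∀ᶠ x in 𝓝 q, δ' ^ 2 / 4 < nr x := nr_smooth.continuous.continuousAt.eventually (lt_mem_nhds hq)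
    filter_upwards [h2] with x hx
    show bum δ' x • r x = 0
    rw [bum_zero hδ'0 hx.le, zero_smul]
  have hdich : ∀ q : E, nr q ≤ δ' ^ 2 ∨ δ' ^ 2 / 4 < nr q := by
    intro q
    rcases le_or_gt (nr q) (δ' ^ 2) with h2 | h2
    · exact Or.inl h2
    · exact Or.inr (by nlinarith [sq_nonneg δ'])
  have hsm : ContDiff ℝ ∞ h := by
    rw [contDiff_iff_contDiffAt]
    intro q
    rcases hdich q with h2 | h2
    · exact (bum_smooth δ').contDiffAt.smul (hball q (hsub' q h2)).2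
    · exact contDiffAt_const.congr_of_eventuallyEq (hzero q h2)
  have hder : ∀ q, ‖fderiv ℝ h q‖ ≤ 1 / 2 := by
    intro q
    rcases hdich q with h2 | h2
    · have h3 := hball q (hsub' q h2)
      have hdb : DifferentiableAt ℝ (bum δ') q := (bum_smooth δ').differentiable (by simp) q
      have hdr : DifferentiableAt ℝ r q := h3.2.differentiableAt (by simp)
      have h4 : fderiv ℝ h q = bum δ' q • fderiv ℝ r q + (fderiv ℝ (bum δ') q).smulRight (r q) :=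
        (hdb.hasFDerivAt.smul hdr.hasFDerivAt).fderiv
      rw [h4]
      have h5 := bum_mem δ' q
      have h6 : ‖bum δ' q • fderiv ℝ r q‖ ≤ ε := by
        rw [norm_smul, Real.norm_of_nonneg h5.1]
        calc bum δ' q * ‖fderiv ℝ r q‖ ≤ 1 * ε :=
              mul_le_mul h5.2 h3.1.le (norm_nonneg _) zero_le_one
          _ = ε := one_mul _
      have h7 : ‖(fderiv ℝ (bum δ') q).smulRight (r q)‖ ≤ C * ε := by
        rw [ContinuousLinearMap.norm_smulRight_apply]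
        calc ‖fderiv ℝ (bum δ') q‖ * ‖r q‖ ≤ ‖fderiv ℝ (bum δ') q‖ * (ε * ‖q‖) :=
              mul_le_mul_of_nonneg_left (hrle q (hsub' q h2)) (norm_nonneg _)
          _ = (‖q‖ * ‖fderiv ℝ (bum δ') q‖) * ε := by ring
          _ ≤ C * ε := mul_le_mul_of_nonneg_right (hb δ' hδ'0 q) hε0.le
      calc ‖bum δ' q • fderiv ℝ r q + (fderiv ℝ (bum δ') q).smulRight (r q)‖ ≤ ε + C * ε :=
            (norm_add_le _ _).trans (add_le_add h6 h7)
        _ = 1 / 2 := by rw [hε]; field_simp; ring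
    · rw [(hzero q h2).fderiv_eq]
      simp
  set G : ℝ × E → E := fun p => stp 0 1 p.1 • h p.2 with hG
  have hGs : ContDiff ℝ ∞ G :=
    ((Pool.Agent.CSG.stp_smooth 0 1).comp contDiff_fst).smul (hsm.comp contDiff_snd)
  obtain ⟨F, hF1, hF2, hF3⟩ := small_fam hGs (fun p => by
    have e1 : HasFDerivAt (fun q => G (p.1, q)) ((fderiv ℝ G p).comp (ContinuousLinearMap.inr ℝ ℝ E)) p.2 :=
      HasFDerivAt.comp (g := G) p.2 (f := fun q => (p.1, q))
        (show HasFDerivAt G (fderiv ℝ G p) (p.1, p.2) from (hGs.differentiable (by simp) p).hasFDerivAt)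
        (hasFDerivAt_prodMk_right p.1 p.2)
    have e2 : HasFDerivAt (fun q => G (p.1, q)) (stp 0 1 p.1 • fderiv ℝ h p.2) p.2 :=
      (hsm.differentiable (by simp) p.2).hasFDerivAt.const_smul (stp 0 1 p.1)
    rw [e1.unique e2, norm_smul, Real.norm_of_nonneg (Pool.Agent.CSG.stp_nonneg _ _ _)]
    calc stp 0 1 p.1 * ‖fderiv ℝ h p.2‖ ≤ 1 * (1 / 2) :=
          mul_le_mul (Pool.Agent.CSG.stp_le_one _ _ _) (hder p.2) (norm_nonneg _) zero_le_one
      _ = 1 / 2 := one_mul _)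
  exact ⟨δ', hδ'0, min_le_left _ _, F, hF1, hF2, hF3⟩

theorem ger_nr_refL (q : E) : nr (refL q) = nr q := by
  rw [refL_apply]
  unfold nr
  simp

theorem ger_refL_refL (q : E) : refL (refL q) = q := by
  rw [refL_apply, refL_apply]
  simp

/-- conjugation of a family of permutations by the reflection -/
noncomputable def gerR : Equiv.Perm E := ⟨refL, refL, ger_refL_refL, ger_refL_refL⟩

theorem germ_match {ψ : E → E} (h0 : ψ 0 = 0) (hs : ∀ᶠ q in 𝓝 (0 : E), ContDiffAt ℝ ∞ ψ q)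
    (hb : Function.Bijective (fderiv ℝ ψ 0)) {δ : ℝ} (hδ : 0 < δ) :
    ∃ U : ℝ → Equiv.Perm E, PushE (Bl δ) U ∧ (∀ s, U s 0 = 0) ∧
      ∃ ρ : ℝ, 0 < ρ ∧ ((∀ q ∈ Bl ρ, U 1 (ψ q) = q) ∨ ∀ q ∈ Bl ρ, U 1 (ψ q) = refL q) := by
  obtain ⟨D, hD, hD1⟩ := gl_path hb
  obtain ⟨L, hL⟩ := exists_lift hD hδ
  obtain ⟨ρL, hρL, hLg⟩ := hL.germ
  set Ae : E ≃L[ℝ] E := (LinearEquiv.ofBijective (fderiv ℝ ψ 0 : E →ₗ[ℝ] E) hb).toContinuousLinearEquiv with hAe
  have hAe1 : ∀ v, Ae v = fderiv ℝ ψ 0 v := fun v => rfl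
  have hAe2 : ∀ v, fderiv ℝ ψ 0 (Ae.symm v) = v := fun v => by rw [← hAe1]; exact Ae.apply_symm_apply v
  have hψ0 : ContDiffAt ℝ ∞ ψ 0 := hs.self_of_nhds
  set r : E → E := fun q => Ae.symm (ψ q) - q with hr
  have hrs : ∀ᶠ q in 𝓝 (0 : E), ContDiffAt ℝ ∞ r q := by
    filter_upwards [hs] with q hq
    exact (Ae.symm.contDiff.contDiffAt.comp q hq).sub contDiffAt_id
  have hr0 : r 0 = 0 := by simp [hr, h0]
  have hrd : fderiv ℝ r 0 = 0 := by
    have h1 : HasFDerivAt ψ (fderiv ℝ ψ 0) 0 := (hψ0.differentiableAt (by simp)).hasFDerivAt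
    have h2 : HasFDerivAt r (((Ae.symm : E ≃L[ℝ] E) : E →L[ℝ] E).comp (fderiv ℝ ψ 0) - ContinuousLinearMap.id ℝ E) 0 :=
      (((Ae.symm : E ≃L[ℝ] E) : E →L[ℝ] E).hasFDerivAt.comp 0 h1).sub (hasFDerivAt_id 0)
    rw [h2.fderiv]
    refine ContinuousLinearMap.ext fun v => ?_
    show Ae.symm (fderiv ℝ ψ 0 v) - v = 0
    rw [← hAe1, Ae.symm_apply_apply, sub_self]
  obtain ⟨δ', hδ'0, hδ', M, hM1, hM2, hM3⟩ := ger_fam hrs hr0 hrd hδ
  have hMz : ∀ u, M u 0 = 0 := fun u => by rw [hM3, hr0]; simp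
  have hM0 : M 0 = Equiv.refl E := by
    ext1 q
    rw [hM3, Pool.Agent.CSG.stp_zero (by norm_num) le_rfl]
    simp
  have hMout : ∀ u, ∀ q : E, q ∉ {q : E | nr q ≤ (δ' / 2) ^ 2} → M u q = q := by
    intro u q hq
    have h1 : δ' ^ 2 / 4 ≤ nr q := by
      have h2 : ¬ nr q ≤ (δ' / 2) ^ 2 := hq
      nlinarith [not_le.mp h2]
    rw [hM3, bum_zero hδ'0 h1]
    simp
  have hCsub : {q : E | nr q ≤ (δ' / 2) ^ 2} ⊆ Bl δ := by
    intro q hq
    have h2 : nr q ≤ (δ' / 2) ^ 2 := hq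
    show nr q < δ ^ 2
    nlinarith
  have hMp : PushE (Bl δ) M := ⟨hM1, hM2, hM0, _, isCompact_Bl _, hCsub, hMout⟩
  have hMone : ∀ q : E, nr q ≤ δ' ^ 2 / 16 → M 1 q = Ae.symm (ψ q) := by
    intro q hq
    rw [hM3, bum_one hδ'0 hq, Pool.Agent.CSG.stp_one (by norm_num) le_rfl, one_smul, one_smul, hr]
    exact add_sub_cancel q _
  have hLz : ∀ s, L s 0 = 0 := fun s => by rw [hLg s 0 (zero_mem_Bl hρL)]; simp
  -- the small ball
  have hcont : ContinuousAt (fun q => nr (Ae.symm (ψ q))) 0 :=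
    (nr_smooth.continuous.comp Ae.symm.continuous).continuousAt.comp hψ0.continuousAt
  have h3 : ∀ᶠ q in 𝓝 (0 : E), nr (Ae.symm (ψ q)) < ρL ^ 2 := by
    have h4 : nr (Ae.symm (ψ 0)) < ρL ^ 2 := by
      rw [h0, map_zero, (nr_zero 0).mpr rfl]
      positivity
    exact hcont.eventually (gt_mem_nhds h4)
  obtain ⟨ρ1, hρ1, hsub1⟩ := exists_Bl h3
  have hfin : ∃ ρ : ℝ, 0 < ρ ∧ ∀ q ∈ Bl ρ, nr q ≤ δ' ^ 2 / 16 ∧ nr (Ae.symm (ψ q)) < ρL ^ 2 := by
    refine ⟨min ρ1 (δ' / 4), lt_min hρ1 (by positivity), fun q hq => ?_⟩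
    have h5 : nr q < (min ρ1 (δ' / 4)) ^ 2 := hq
    have h6 : 0 < min ρ1 (δ' / 4) := lt_min hρ1 (by positivity)
    have h7 := min_le_left ρ1 (δ' / 4)
    have h8 := min_le_right ρ1 (δ' / 4)
    constructor
    · nlinarith
    · apply hsub1
      show nr q ≤ ρ1 ^ 2
      nlinarith
  obtain ⟨ρ, hρ, hq⟩ := hfin
  rcases hD1 with hD1 | hD1
  · refine ⟨fun s => (L s).symm.trans (M s).symm, hL.push.inv.comp hMp.inv, fun s => ?_, ρ, hρ, Or.inl fun q hqρ => ?_⟩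
    · show (M s).symm ((L s).symm 0) = 0
      rw [Equiv.symm_apply_eq, Equiv.symm_apply_eq, hMz, hLz]
    · show (M 1).symm ((L 1).symm (ψ q)) = q
      rw [Equiv.symm_apply_eq, Equiv.symm_apply_eq, hMone q (hq q hqρ).1, hLg 1 _ (hq q hqρ).2, hD1, hAe2]
  · set M' : ℝ → Equiv.Perm E := fun s => gerR.trans ((M s).trans gerR) with hM'
    have hM'1 : ∀ s q, M' s q = refL (M s (refL q)) := fun s q => rfl
    have hM'p : PushE (Bl δ) M' := by
      refine ⟨?_, ?_, ?_, _, isCompact_Bl (δ' / 2), hCsub, fun u q hq' => ?_⟩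
      · exact refL.contDiff.comp (hM1.comp (contDiff_fst.prodMk (refL.contDiff.comp contDiff_snd)))
      · exact refL.contDiff.comp (hM2.comp (contDiff_fst.prodMk (refL.contDiff.comp contDiff_snd)))
      · ext1 q
        rw [hM'1, hM0]
        exact ger_refL_refL q
      · rw [hM'1, hMout u (refL q) (fun h4 => hq' (by
          have h5 : nr (refL q) ≤ (δ' / 2) ^ 2 := h4
          rwa [ger_nr_refL] at h5)), ger_refL_refL]
    refine ⟨fun s => (L s).symm.trans (M' s).symm, hL.push.inv.comp hM'p.inv, fun s => ?_, ρ, hρ, Or.inr fun q hqρ => ?_⟩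
    · show (M' s).symm ((L s).symm 0) = 0
      rw [Equiv.symm_apply_eq, Equiv.symm_apply_eq, hM'1, map_zero, hMz, map_zero, hLz]
    · show (M' 1).symm ((L 1).symm (ψ q)) = refL q
      rw [Equiv.symm_apply_eq, Equiv.symm_apply_eq, hM'1, ger_refL_refL, hMone q (hq q hqρ).1,
        hLg 1 _ (by show nr _ < ρL ^ 2; rw [ger_nr_refL]; exact (hq q hqρ).2), hD1]
      show _ = fderiv ℝ ψ 0 (refL (refL _))
      rw [ger_refL_refL, hAe2]

end Pool.Agent.NHP
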