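import Pool.Agent.NHP.Grp

/-!
# NHP/Tra: pushes of `E` transported by a chart (difficulty 2)

`V' s x = β (V s q)` for `x = β q`, `q ∈ O`, and `V' s x = x` for `x ∉ β '' O`; inverse with `(V s).symm`.  Smooth at `(s, β q)`: near this point `V' s x = β (V s (g x))`
with `g` of `Cht.inv`; smooth at `(s, x)`, `x ∉ β '' C` (`C` compact support in `O`; `β '' C` is compact, hence closed: `N` is Hausdorff): `V' s x = x` near it.
-/

open scoped Manifold ContDiff Topology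
open Set Filter
open Pool.Agent.CSG (stp)
open Pool.Agent.RSG (E3 ex Thick)
open Pool.Agent.KNT (Dom Str Str2 BalC bmp)

namespace Pool.Agent.NHP

variable {N : Type*} [TopologicalSpace N] [ChartedSpace E3 N] [T2Space N]

open Classical in
/-- transport of a map of `E` by a chart -/
noncomputable def Tra_f (O : Set E) (β : E → N) (g : N → E) (U : E → E) (x : N) : N :=
  if x ∈ β '' O then β (U (g x)) else x

omit [T2Space N] [TopologicalSpace N] [ChartedSpace E3 N] in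
theorem Tra_f_in {O : Set E} {β : E → N} {g : N → E} (hg : ∀ q ∈ O, g (β q) = q) (U : E → E) {q : E} (hq : q ∈ O) :
    Tra_f O β g U (β q) = β (U q) := by
  unfold Tra_f
  rw [if_pos (mem_image_of_mem β hq), hg q hq]

omit [T2Space N] [TopologicalSpace N] [ChartedSpace E3 N] in
theorem Tra_f_out {O : Set E} {β : E → N} {g : N → E} (U : E → E) {x : N} (hx : x ∉ β '' O) :
    Tra_f O β g U x = x := if_neg hx

omit [T2Space N] [TopologicalSpace N] [ChartedSpace E3 N] in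
theorem Tra_f_inv {O : Set E} {β : E → N} {g : N → E} (hg : ∀ q ∈ O, g (β q) = q) {U U' : E → E}
    (hU : ∀ q ∈ O, U q ∈ O) (hUU : ∀ q, U' (U q) = q) (x : N) :
    Tra_f O β g U' (Tra_f O β g U x) = x := by
  by_cases hx : x ∈ β '' O
  · obtain ⟨q, hq, rfl⟩ := hx
    rw [Tra_f_in hg U hq, Tra_f_in hg U' (hU q hq), hUU]
  · rw [Tra_f_out U hx, Tra_f_out U' hx]

theorem Tra_smooth {O : Set E} {β : E → N} (hβ : Cht O β) {g : N → E} (hg : ∀ q ∈ O, g (β q) = q)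
    (hgs : ∀ x ∈ β '' O, ContMDiffAt (𝓡 3) 𝓘(ℝ, ℂ × ℝ) ∞ g x) {U : ℝ → E → E}
    (hU : ContDiff ℝ ∞ fun q : ℝ × E => U q.1 q.2) (hUO : ∀ s, ∀ q ∈ O, U s q ∈ O) {C : Set E} (hC : IsCompact C)
    (hCO : C ⊆ O) (hUC : ∀ s, ∀ q ∉ C, U s q = q) :
    ContMDiff (𝓘(ℝ, ℝ).prod (𝓡 3)) (𝓡 3) ∞ fun q : ℝ × N => Tra_f O β g (U q.1) q.2 := by
  rintro ⟨s, x⟩
  by_cases hx : x ∈ β '' O
  · have hop : IsOpen (β '' O) := hβ.img hβ.opn subset_rfl
    have hgx : ContMDiffAt (𝓘(ℝ, ℝ).prod (𝓡 3)) 𝓘(ℝ, ℂ × ℝ) ∞ (fun q : ℝ × N => g q.2) (s, x) :=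
      ContMDiffAt.comp (s, x) (hgs x hx) contMDiffAt_snd
    have h1 : ContMDiffAt (𝓘(ℝ, ℝ).prod (𝓡 3)) 𝓘(ℝ, ℝ × (ℂ × ℝ)) ∞ (fun q : ℝ × N => (q.1, g q.2)) (s, x) :=
      ContMDiffAt.prodMk_space contMDiffAt_fst hgx
    have h2 : ContMDiffAt 𝓘(ℝ, ℝ × (ℂ × ℝ)) 𝓘(ℝ, ℂ × ℝ) ∞ (fun q : ℝ × E => U q.1 q.2) (s, g x) :=
      hU.contMDiff.contMDiffAt
    have h3 : ContMDiffAt (𝓘(ℝ, ℝ).prod (𝓡 3)) 𝓘(ℝ, ℂ × ℝ) ∞ (fun q : ℝ × N => U q.1 (g q.2)) (s, x) :=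
      ContMDiffAt.comp (s, x) h2 h1
    have hgO : g x ∈ O := by
      obtain ⟨q, hq, rfl⟩ := hx
      rw [hg q hq]
      exact hq
    have h4 : ContMDiffAt (𝓘(ℝ, ℝ).prod (𝓡 3)) (𝓡 3) ∞ (fun q : ℝ × N => β (U q.1 (g q.2))) (s, x) :=
      ContMDiffAt.comp (s, x) (hβ.loc (U s (g x)) (hUO s _ hgO)).contMDiffAt h3
    refine h4.congr_of_eventuallyEq ?_
    have h5 : ∀ᶠ q : ℝ × N in 𝓝 (s, x), q.2 ∈ β '' O := continuous_snd.continuousAt.eventually (hop.mem_nhds hx)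
    filter_upwards [h5] with q hq
    show Tra_f O β g (U q.1) q.2 = _
    unfold Tra_f
    rw [if_pos hq]
  · have hcl : IsClosed (β '' C) := (hC.image_of_continuousOn (hβ.contOn.mono hCO)).isClosed
    have hx' : x ∉ β '' C := fun h => hx (image_mono hCO h)
    have h5 : ∀ᶠ q : ℝ × N in 𝓝 (s, x), q.2 ∈ (β '' C)ᶜ :=
      continuous_snd.continuousAt.eventually (hcl.isOpen_compl.mem_nhds hx')
    have h6 : ContMDiffAt (𝓘(ℝ, ℝ).prod (𝓡 3)) (𝓡 3) ∞ (fun q : ℝ × N => q.2) (s, x) := contMDiffAt_snd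
    refine h6.congr_of_eventuallyEq ?_
    filter_upwards [h5] with q hq
    show Tra_f O β g (U q.1) q.2 = q.2
    by_cases hqO : q.2 ∈ β '' O
    · obtain ⟨p, hp, hpq⟩ := hqO
      have hpC : p ∉ C := fun h => hq ⟨p, h, hpq⟩
      rw [← hpq, Tra_f_in hg _ hp, hUC q.1 p hpC]
    · exact Tra_f_out _ hqO

theorem push_chart {O : Set E} {β : E → N} (hβ : Cht O β) {V : ℝ → Equiv.Perm E} (hV : PushE O V) :
    ∃ V' : ℝ → Equiv.Perm N, Push (β '' O) V' ∧ (∀ s, ∀ q ∈ O, V' s (β q) = β (V s q)) ∧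
      ∀ s, ∀ x, x ∉ β '' O → V' s x = x := by
  classical
  obtain ⟨g, hg, hgs⟩ := hβ.inv
  obtain ⟨C, hC1, hC2, hC3⟩ := hV.supp
  have hVO : ∀ s, ∀ q ∈ O, V s q ∈ O := fun s q hq => hV.mem s hq
  have hVO' : ∀ s, ∀ q ∈ O, (V s).symm q ∈ O := fun s q hq => hV.inv.mem s hq
  have hC3' : ∀ s, ∀ x ∉ C, (V s).symm x = x := fun s x hx => by rw [Equiv.symm_apply_eq, hC3 s x hx]
  let V' : ℝ → Equiv.Perm N := fun s =>
    { toFun := Tra_f O β g (V s)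
      invFun := Tra_f O β g (V s).symm
      left_inv := Tra_f_inv hg (hVO s) fun q => (V s).symm_apply_apply q
      right_inv := Tra_f_inv hg (hVO' s) fun q => (V s).apply_symm_apply q }
  have hin : ∀ s, ∀ q ∈ O, V' s (β q) = β (V s q) := fun s q hq => Tra_f_in hg _ hq
  have hout : ∀ s, ∀ x, x ∉ β '' O → V' s x = x := fun s x hx => Tra_f_out _ hx
  refine ⟨V', ⟨?_, ?_, ?_, β '' C, hC1.image_of_continuousOn (hβ.contOn.mono hC2), image_mono hC2, ?_⟩, hin, hout⟩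
  · exact Tra_smooth hβ hg hgs (U := fun s => V s) hV.smooth hVO hC1 hC2 hC3
  · exact Tra_smooth hβ hg hgs (U := fun s => (V s).symm) hV.smooth_symm hVO' hC1 hC2 hC3'
  · ext x
    show V' 0 x = x
    by_cases hx : x ∈ β '' O
    · obtain ⟨q, hq, rfl⟩ := hx
      rw [hin 0 q hq, hV.zero]
      rfl
    · exact hout 0 x hx
  · intro s x hx
    by_cases hx' : x ∈ β '' O
    · obtain ⟨q, hq, rfl⟩ := hx'
      rw [hin s q hq, hC3 s q fun h => hx ⟨q, h, rfl⟩]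
    · exact hout s x hx'

end Pool.Agent.NHP
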