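import Pool.Agent.NHP.Grp

/-!
# NHP/Gld: paths of linear maps and their lifts: definitions and elementary facts (difficulty 2)

`nr` is smooth (`‖w‖² = re² + im²`), `Bl δ` is open, bounded, the closed balls `{nr q ≤ δ²}` are compact; `bum` is smooth, `1` on `nr q ≤ δ²/16`, `0` for `nr q ≥ δ²/4`; scaling
`bum δ q = bum 1 (δ⁻¹ • q)` for `δ > 0`.
-/

open scoped Manifold ContDiff Topology
open Set Filter
open Pool.Agent.CSG (stp)
open Pool.Agent.RSG (E3 ex Thick)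
open Pool.Agent.KNT (Dom Str Str2 BalC bmp)

namespace Pool.Agent.NHP

/-- squared Euclidean norm -/
noncomputable def nr (q : E) : ℝ := ‖q.1‖ ^ 2 + q.2 ^ 2

/-- Euclidean balls -/
def Bl (δ : ℝ) : Set E := {q | nr q < δ ^ 2}

/-- bump function: `1` for `|q| ≤ δ/4`, `0` for `|q| ≥ δ/2` -/
noncomputable def bum (δ : ℝ) (q : E) : ℝ := 1 - stp (δ ^ 2 / 16) (δ ^ 2 / 4) (nr q)

/-- smooth path of invertible linear maps, starting at the identity, constant near the ends -/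
structure GLp (D : ℝ → E →L[ℝ] E) : Prop where
  smooth : ContDiff ℝ ∞ D
  bij : ∀ s, Function.Bijective (D s)
  start : ∀ s ≤ 1 / 8, D s = ContinuousLinearMap.id ℝ E
  stop : ∀ s, 7 / 8 ≤ s → D s = D 1

/-- the isotopy `L`, supported in the ball of radius `δ`, is linear near `0`, with derivative `D` -/
structure Lif (D : ℝ → E →L[ℝ] E) (δ : ℝ) (L : ℝ → Equiv.Perm E) : Prop where
  push : PushE (Bl δ) L
  germ : ∃ ρ : ℝ, 0 < ρ ∧ ∀ s, ∀ q ∈ Bl ρ, L s q = D s q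

/-- `D'` is a loop which is near the loop `D` -/
def NearR (ε : ℝ) (D D' : ℝ → E →L[ℝ] E) : Prop :=
  GLp D' ∧ D' 1 = ContinuousLinearMap.id ℝ E ∧ ∀ s v, ‖D' s v - D s v‖ ≤ ε * ‖D s v‖

/-- multiplication of `w` by `a` -/
noncomputable def mulL (a : ℂ) : E →L[ℝ] E :=
  (a • ContinuousLinearMap.fst ℝ ℂ ℝ).prod (ContinuousLinearMap.snd ℝ ℂ ℝ)

/-- the loop of rotations, `k` turns -/
noncomputable def rotL (k : ℤ) (s : ℝ) : E →L[ℝ] E := mulL (ex (k * stp (1 / 8) (7 / 8) s))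

/-- the reflection -/
noncomputable def refL : E →L[ℝ] E :=
  ((Complex.conjCLE : ℂ →L[ℝ] ℂ).comp (ContinuousLinearMap.fst ℝ ℂ ℝ)).prod (ContinuousLinearMap.snd ℝ ℂ ℝ)

theorem mulL_apply (a : ℂ) (q : E) : mulL a q = (a * q.1, q.2) := by
  simp [mulL]

theorem refL_apply (q : E) : refL q = (starRingEnd ℂ q.1, q.2) := by
  simp [refL]

theorem nr_smooth : ContDiff ℝ ∞ nr := by
  have h1 : ContDiff ℝ ∞ fun q : E => ‖q.1‖ ^ 2 := (contDiff_norm_sq ℝ).comp contDiff_fst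
  have h2 : ContDiff ℝ ∞ fun q : E => q.2 ^ 2 := contDiff_snd.pow 2
  exact h1.add h2

theorem nr_nonneg (q : E) : 0 ≤ nr q := by
  unfold nr
  positivity

theorem nr_zero (q : E) : nr q = 0 ↔ q = 0 := by
  unfold nr
  constructor
  · intro h
    have h1 : ‖q.1‖ ^ 2 = 0 := by nlinarith [sq_nonneg ‖q.1‖, sq_nonneg q.2]
    have h2 : q.2 ^ 2 = 0 := by nlinarith [sq_nonneg ‖q.1‖, sq_nonneg q.2]
    have h3 : q.1 = 0 := by
      rw [sq_eq_zero_iff, norm_eq_zero] at h1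
      exact h1
    have h4 : q.2 = 0 := by
      rw [sq_eq_zero_iff] at h2
      exact h2
    exact Prod.ext h3 h4
  · intro h
    subst h
    simp

theorem nr_smul (c : ℝ) (q : E) : nr (c • q) = c ^ 2 * nr q := by
  unfold nr
  rw [Prod.smul_fst, Prod.smul_snd, norm_smul, Real.norm_eq_abs, smul_eq_mul, mul_pow, mul_pow, sq_abs]
  ring

/-- comparison with the sup norm -/
theorem nr_le (q : E) : ‖q‖ ^ 2 ≤ nr q ∧ nr q ≤ 2 * ‖q‖ ^ 2 := by
  unfold nr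
  have h1 : ‖q.1‖ ≤ ‖q‖ := norm_fst_le q
  have h2 : ‖q.2‖ ≤ ‖q‖ := norm_snd_le q
  have h3 : ‖q‖ = max ‖q.1‖ ‖q.2‖ := Prod.norm_def q
  have h4 : q.2 ^ 2 = ‖q.2‖ ^ 2 := by rw [Real.norm_eq_abs, sq_abs]
  rw [h4]
  constructor
  · rcases max_cases ‖q.1‖ ‖q.2‖ with h | h
    · rw [h3, h.1]
      nlinarith [sq_nonneg ‖q.2‖]
    · rw [h3, h.1]
      nlinarith [sq_nonneg ‖q.1‖]
  · have h5 := pow_le_pow_left₀ (norm_nonneg _) h1 2
    have h6 := pow_le_pow_left₀ (norm_nonneg _) h2 2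
    linarith

theorem isOpen_Bl (δ : ℝ) : IsOpen (Bl δ) :=
  isOpen_lt nr_smooth.continuous continuous_const

theorem isCompact_Bl (δ : ℝ) : IsCompact {q : E | nr q ≤ δ ^ 2} := by
  apply Metric.isCompact_of_isClosed_isBounded
  · exact isClosed_le nr_smooth.continuous continuous_const
  · apply (Metric.isBounded_closedBall (x := (0 : E)) (r := |δ|)).subset
    intro q hq
    rw [mem_closedBall_zero_iff]
    have h : ‖q‖ ^ 2 ≤ |δ| ^ 2 := by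
      rw [sq_abs]
      exact (nr_le q).1.trans hq
    exact (pow_le_pow_iff_left₀ (norm_nonneg _) (abs_nonneg _) two_ne_zero).1 h

theorem zero_mem_Bl {δ : ℝ} (h : 0 < δ) : (0 : E) ∈ Bl δ := by
  change nr 0 < δ ^ 2
  rw [(nr_zero 0).2 rfl]
  positivity

theorem Bl_mono {δ δ' : ℝ} (h : 0 < δ) (h' : δ ≤ δ') : Bl δ ⊆ Bl δ' := by
  intro q hq
  exact lt_of_lt_of_le hq (pow_le_pow_left₀ h.le h' 2)

/-- the balls are a basis of neighbourhoods -/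
theorem exists_Bl {U : Set E} (hU : U ∈ 𝓝 (0 : E)) : ∃ ρ : ℝ, 0 < ρ ∧ {q : E | nr q ≤ ρ ^ 2} ⊆ U := by
  rw [Metric.mem_nhds_iff] at hU
  obtain ⟨ε, hε, h⟩ := hU
  refine ⟨ε / 2, by positivity, ?_⟩
  intro q hq
  apply h
  rw [mem_ball_zero_iff]
  have h1 : ‖q‖ ^ 2 ≤ (ε / 2) ^ 2 := (nr_le q).1.trans hq
  have h2 : ‖q‖ ≤ ε / 2 := (pow_le_pow_iff_left₀ (norm_nonneg _) (by positivity) two_ne_zero).1 h1
  linarith

theorem bum_smooth (δ : ℝ) : ContDiff ℝ ∞ (bum δ) :=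
  contDiff_const.sub ((CSG.stp_smooth _ _).comp nr_smooth)

theorem bum_mem (δ : ℝ) (q : E) : 0 ≤ bum δ q ∧ bum δ q ≤ 1 := by
  unfold bum
  have h1 := CSG.stp_nonneg (δ ^ 2 / 16) (δ ^ 2 / 4) (nr q)
  have h2 := CSG.stp_le_one (δ ^ 2 / 16) (δ ^ 2 / 4) (nr q)
  constructor <;> linarith

theorem gld_lt {δ : ℝ} (hδ : 0 < δ) : δ ^ 2 / 16 < δ ^ 2 / 4 := by
  have : 0 < δ ^ 2 := by positivity
  linarith

theorem bum_one {δ : ℝ} (hδ : 0 < δ) {q : E} (h : nr q ≤ δ ^ 2 / 16) : bum δ q = 1 := by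
  unfold bum
  rw [CSG.stp_zero (gld_lt hδ) h, sub_zero]

theorem bum_zero {δ : ℝ} (hδ : 0 < δ) {q : E} (h : δ ^ 2 / 4 ≤ nr q) : bum δ q = 0 := by
  unfold bum
  rw [CSG.stp_one (gld_lt hδ) h, sub_self]

theorem bum_smul {δ : ℝ} (hδ : 0 < δ) (q : E) : bum δ q = bum 1 (δ⁻¹ • q) := by
  unfold bum
  rw [nr_smul]
  unfold stp
  congr 2
  have h : δ ≠ 0 := hδ.ne'
  field_simp

/-- `|q| ‖d bum‖` is bounded independently of `δ` -/
theorem exists_bum_bound : ∃ C : ℝ, 0 < C ∧ ∀ δ : ℝ, 0 < δ → ∀ q : E, ‖q‖ * ‖fderiv ℝ (bum δ) q‖ ≤ C := by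
  have hc : Continuous fun p : E => ‖p‖ * ‖fderiv ℝ (bum 1) p‖ := by
    apply continuous_norm.mul
    exact ((bum_smooth 1).continuous_fderiv (by simp)).norm
  obtain ⟨C, hC⟩ := (isCompact_Bl 1).exists_bound_of_continuousOn hc.continuousOn
  have key : ∀ p : E, ‖p‖ * ‖fderiv ℝ (bum 1) p‖ ≤ |C| + 1 := by
    intro p
    rcases le_or_gt (nr p) (1 ^ 2) with h | h
    · have h1 := hC p h
      rw [Real.norm_eq_abs] at h1
      have h2 := le_abs_self (‖p‖ * ‖fderiv ℝ (bum 1) p‖)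
      have h3 := le_abs_self C
      linarith
    · have h1 : (fun q : E => bum 1 q) =ᶠ[𝓝 p] fun _ => (0 : ℝ) := by
        have h2 : {q : E | 1 ^ 2 < nr q} ∈ 𝓝 p :=
          (isOpen_lt continuous_const nr_smooth.continuous).mem_nhds (x := p) h
        filter_upwards [h2] with q hq
        apply bum_zero one_pos
        have h3 : (1 : ℝ) ^ 2 < nr q := hq
        norm_num at h3 ⊢
        linarith
      have h4 : fderiv ℝ (bum 1) p = 0 := by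
        have h5 := h1.fderiv_eq (𝕜 := ℝ)
        have h6 : fderiv ℝ (fun _ : E => (0 : ℝ)) p = 0 := by simp
        exact h5.trans h6
      rw [h4, norm_zero, mul_zero]
      positivity
  refine ⟨|C| + 1, by positivity, ?_⟩
  intro δ hδ q
  have h0 : bum δ = fun q => bum 1 (δ⁻¹ • q) := funext fun q => bum_smul hδ q
  have h1 : HasFDerivAt (bum δ) ((fderiv ℝ (bum 1) (δ⁻¹ • q)).comp (δ⁻¹ • ContinuousLinearMap.id ℝ E)) q := by
    rw [h0]
    have h2 : HasFDerivAt (bum 1) (fderiv ℝ (bum 1) (δ⁻¹ • q)) (δ⁻¹ • q) :=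
      ((bum_smooth 1).differentiable (by simp) _).hasFDerivAt
    exact h2.comp q ((hasFDerivAt_id q).const_smul δ⁻¹)
  have hi : (0 : ℝ) < δ⁻¹ := by positivity
  have h3 : ‖(fderiv ℝ (bum 1) (δ⁻¹ • q)).comp (δ⁻¹ • ContinuousLinearMap.id ℝ E)‖ ≤
      δ⁻¹ * ‖fderiv ℝ (bum 1) (δ⁻¹ • q)‖ := by
    rw [ContinuousLinearMap.comp_smul, norm_smul, ContinuousLinearMap.comp_id, Real.norm_of_nonneg hi.le]
  rw [h1.fderiv]
  have h4 := key (δ⁻¹ • q)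
  rw [norm_smul, Real.norm_of_nonneg hi.le] at h4
  calc ‖q‖ * ‖(fderiv ℝ (bum 1) (δ⁻¹ • q)).comp (δ⁻¹ • ContinuousLinearMap.id ℝ E)‖
      ≤ ‖q‖ * (δ⁻¹ * ‖fderiv ℝ (bum 1) (δ⁻¹ • q)‖) := mul_le_mul_of_nonneg_left h3 (norm_nonneg _)
    _ = δ⁻¹ * ‖q‖ * ‖fderiv ℝ (bum 1) (δ⁻¹ • q)‖ := by ring
    _ ≤ |C| + 1 := h4

end Pool.Agent.NHP
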