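import Pool.Agent.NHP.Tra

/-!
# NHP/TrL: transport of the relation `LEqO` by a chart (difficulty 2)

(1) `leqO_sub` by induction: a push of `O` maps `O` onto `O` (`PushE.mem` for `V` and its inverse) and is the identity outside; in `four`, `rib` both sides are `Z ∪` subsets of `O`
(`Str, Str2 ⊆ Dom`).
(2) transport by induction on `LEqO` (for all `Z`; the middle set of `trans` is contained in `O` by (1)): `diff`: `push_chart`, `V' 1 '' (Z ∪ β '' S) = Z ∪ β '' (V 1 '' S)`;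
`four`: `β ∘ b` is `Cht Dom`, `Z ∪ β '' (Z' ∪ b '' Str) = (Z ∪ β '' Z') ∪ (β ∘ b) '' Str`, disjoint since `β` is injective on `O`; `rib`: `TubesN (fun l => β ∘ b l)`.
-/

open scoped Manifold ContDiff Topology
open Set Filter
open Pool.Agent.CSG (stp)
open Pool.Agent.RSG (E3 ex Thick)
open Pool.Agent.KNT (Dom Str Str2 BalC bmp)

namespace Pool.Agent.NHP

theorem TrL_norm_ex (x : ℝ) : ‖ex x‖ = 1 := by
  unfold ex
  exact Complex.norm_exp_ofReal_mul_I _

theorem TrL_str_dom : Str ⊆ Dom := by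
  rintro q ⟨h | h, h2⟩
  · refine ⟨?_, h2⟩
    rw [h]; norm_num
  · refine ⟨?_, h2⟩
    rw [h, norm_neg]; norm_num

theorem TrL_str2_dom : Str2 ⊆ Dom := by
  rintro q ⟨h | h, h2⟩
  · refine ⟨?_, h2⟩
    rw [h, TrL_norm_ex]; norm_num
  · refine ⟨?_, h2⟩
    rw [h, norm_neg, TrL_norm_ex]; norm_num

theorem TrL_dom_open : IsOpen Dom := by
  have h1 : IsOpen {q : E | ‖q.1‖ < 4} := isOpen_lt continuous_fst.norm continuous_const
  have h2 : IsOpen {q : E | |q.2| < 1} := isOpen_lt continuous_snd.abs continuous_const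
  exact h1.inter h2

theorem TrL_bij {f : E →L[ℝ] E} (h : Function.Injective f) : Function.Bijective f :=
  ⟨h, (LinearMap.injective_iff_surjective (f := (f : E →ₗ[ℝ] E))).1 h⟩

theorem TrL_mem_iff {O : Set E} {V : ℝ → Equiv.Perm E} (h : PushE O V) (s : ℝ) (x : E) : V s x ∈ O ↔ x ∈ O := by
  constructor
  · intro hx
    by_contra hn
    rw [h.out s hn] at hx
    exact hn hx
  · exact h.mem s

theorem leqO_sub {O S S' : Set E} (h : LEqO O S S') : S ⊆ O ↔ S' ⊆ O := by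
  induction h with
  | refl S => exact Iff.rfl
  | symm _ ih => exact ih.symm
  | trans _ _ ih1 ih2 => exact ih1.trans ih2
  | diff S hV =>
    constructor
    · rintro h _ ⟨x, hx, rfl⟩
      exact hV.mem 1 (h hx)
    · intro h x hx
      exact (TrL_mem_iff hV 1 x).1 (h ⟨x, hx, rfl⟩)
  | @four Z b hb hbO hZ =>
    have h1 : b '' Str ⊆ O := (image_mono TrL_str_dom).trans hbO
    have h2 : b '' Str2 ⊆ O := (image_mono TrL_str2_dom).trans hbO
    rw [union_subset_iff, union_subset_iff]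
    exact ⟨fun h => ⟨h.1, h2⟩, fun h => ⟨h.1, h1⟩⟩
  | @rib Z b hb hbO hZ =>
    have h1 : b 0 '' Str ⊆ O := (image_mono TrL_str_dom).trans (hbO 0 ⟨le_refl _, zero_le_one⟩)
    have h2 : b 1 '' Str ⊆ O := (image_mono TrL_str_dom).trans (hbO 1 ⟨zero_le_one, le_refl _⟩)
    rw [union_subset_iff, union_subset_iff]
    exact ⟨fun h => ⟨h.1, h2⟩, fun h => ⟨h.1, h1⟩⟩

variable {N : Type*} [TopologicalSpace N] [ChartedSpace E3 N] [T2Space N]

omit [TopologicalSpace N] [ChartedSpace E3 N] [T2Space N] in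
/-- disjointness is transported by an injective map -/
theorem TrL_disj {O : Set E} {β : E → N} (hβ : InjOn β O) {Z : Set N} (hZ : Disjoint Z (β '' O)) {Z' D : Set E}
    (hZ' : Z' ⊆ O) (hD : D ⊆ O) (h : Disjoint Z' D) : Disjoint (Z ∪ β '' Z') (β '' D) := by
  rw [Set.disjoint_left]
  rintro _ (hx | ⟨y, hy, rfl⟩) ⟨z, hz, hz2⟩
  · exact Set.disjoint_left.1 hZ hx ⟨z, hD hz, hz2⟩
  · have : z = y := hβ (hD hz) (hZ' hy) hz2
    subst this
    exact Set.disjoint_left.1 h hy hz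

omit [T2Space N] in
/-- composition with a local diffeomorphism -/
theorem TrL_loc {O : Set E} {β : E → N} (hβ : Cht O β) {f : E → E} {q : E} (hq : q ∈ Dom) (hs : ∀ q ∈ Dom, ContDiffAt ℝ ∞ f q)
    (hi : ∀ q ∈ Dom, Function.Injective (fderiv ℝ f q)) (hm : ∀ q ∈ Dom, f q ∈ O) :
    IsLocalDiffeomorphAt 𝓘(ℝ, ℂ × ℝ) (𝓡 3) ∞ (fun q => β (f q)) q := by
  have hbij := TrL_bij (hi q hq)
  let e : E ≃L[ℝ] E := ContinuousLinearEquiv.ofBijective (fderiv ℝ f q) (LinearMap.ker_eq_bot.2 hbij.1)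
    (LinearMap.range_eq_top.2 hbij.2)
  have he : (e : E →L[ℝ] E) = fderiv ℝ f q := ContinuousLinearEquiv.coe_ofBijective _ _ _
  have hst : HasStrictFDerivAt f (e : E →L[ℝ] E) q := by
    rw [he]
    exact (hs q hq).hasStrictFDerivAt (by simp)
  let P := hst.toOpenPartialHomeomorph f
  have hPs : q ∈ P.source := hst.mem_toOpenPartialHomeomorph_source
  have hPi : InjOn f P.source := P.injOn
  have hopen : IsOpen (P.source ∩ Dom) := P.open_source.inter TrL_dom_open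
  have hc : Cht (P.source ∩ Dom) (fun q => β (f q)) := hβ.comp hopen (fun x hx => hs x hx.2)
    (fun x hx => TrL_bij (hi x hx.2)) (hPi.mono inter_subset_left) (fun x hx => hm x hx.2)
  exact hc.loc q ⟨hPs, hq⟩

theorem leqN_of_leqO {O : Set E} {β : E → N} (hβ : Cht O β) {Z : Set N} (hZ : Disjoint Z (β '' O)) {S S' : Set E}
    (hS : S ⊆ O) (h : LEqO O S S') : LEqN (Z ∪ β '' S) (Z ∪ β '' S') := by
  revert hS
  induction h with
  | refl S => exact fun _ => LEqN.refl _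
  | symm h ih => exact fun hS => (ih ((leqO_sub h).2 hS)).symm
  | trans h1 h2 ih1 ih2 => exact fun hS => (ih1 hS).trans (ih2 ((leqO_sub h1).1 hS))
  | @diff S V hV =>
    intro hS
    obtain ⟨V', hV', h1, h2⟩ := push_chart hβ hV
    have e : V' 1 '' (Z ∪ β '' S) = Z ∪ β '' (V 1 '' S) := by
      rw [image_union]
      congr 1
      · ext x
        constructor
        · rintro ⟨y, hy, rfl⟩
          rw [h2 1 y (fun h => Set.disjoint_left.1 hZ hy h)]
          exact hy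
        · intro hx
          exact ⟨x, hx, h2 1 x (fun h => Set.disjoint_left.1 hZ hx h)⟩
      · ext x
        constructor
        · rintro ⟨_, ⟨y, hy, rfl⟩, rfl⟩
          rw [h1 1 y (hS hy)]
          exact ⟨_, ⟨y, hy, rfl⟩, rfl⟩
        · rintro ⟨_, ⟨y, hy, rfl⟩, rfl⟩
          exact ⟨β y, ⟨y, hy, rfl⟩, h1 1 y (hS hy)⟩
    have h3 := LEqN.diff (Z ∪ β '' S) (hV'.mono (subset_univ _))
    rwa [e] at h3
  | @four Z' b hb hbO hZ' =>
    intro hS
    have hZO : Z' ⊆ O := subset_union_left.trans hS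
    have hm : ∀ q ∈ Dom, b q ∈ O := fun q hq => hbO ⟨q, hq, rfl⟩
    have hc : Cht Dom (fun q => β (b q)) := hβ.comp TrL_dom_open hb.smooth (fun q hq => TrL_bij (hb.imm q hq)) hb.inj hm
    have hd : Disjoint (Z ∪ β '' Z') ((fun q => β (b q)) '' Dom) := by
      have := TrL_disj hβ.inj hZ hZO hbO hZ'
      rwa [← image_comp] at this
    have h3 := LEqN.four hc hd
    have e : ∀ T : Set E, (Z ∪ β '' Z') ∪ (fun q => β (b q)) '' T = Z ∪ β '' (Z' ∪ b '' T) := by
      intro T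
      rw [image_union, ← image_comp, union_assoc]
      rfl
    rwa [e, e] at h3
  | @rib Z' b hb hbO hZ' =>
    intro hS
    have hZO : Z' ⊆ O := subset_union_left.trans hS
    have hm : ∀ l ∈ Icc (0 : ℝ) 1, ∀ q ∈ Dom, b l q ∈ O := fun l hl q hq => hbO l hl ⟨q, hq, rfl⟩
    have hz : (0 : ℝ) ∈ Icc (0 : ℝ) 1 := ⟨le_refl _, zero_le_one⟩
    have ho : (1 : ℝ) ∈ Icc (0 : ℝ) 1 := ⟨zero_le_one, le_refl _⟩
    have hfib : ∀ l ∈ Icc (0 : ℝ) 1, ∀ q ∈ Dom, ContDiffAt ℝ ∞ (b l) q := by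
      intro l hl q hq
      have h1 : ContDiffAt ℝ ∞ (fun p : ℝ × (ℂ × ℝ) => b p.1 p.2) ((fun q : E => (l, q)) q) := hb.smooth l hl q hq
      exact h1.comp q (contDiff_prodMk_right l).contDiffAt
    have hT : TubesN (fun l q => β (b l q)) := by
      refine ⟨?_, ?_, ?_, ?_, ?_, ?_⟩
      · intro l hl q hq
        have h1 := (hβ.loc (b l q) (hm l hl q hq)).contMDiffAt
        have h2 : ContMDiffAt 𝓘(ℝ, ℝ × (ℂ × ℝ)) 𝓘(ℝ, ℂ × ℝ) ∞ (fun p : ℝ × (ℂ × ℝ) => b p.1 p.2) (l, q) :=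
          (hb.smooth l hl q hq).contMDiffAt
        exact ContMDiffAt.comp (l, q) h1 h2
      · intro l hl q hq
        exact TrL_loc hβ hq (hfib l hl) (hb.imm l hl) (hm l hl)
      · intro l hl q hq hq2
        show β (b l q) = β (b 0 q)
        rw [hb.ends l hl q hq hq2]
      · intro q hq q' hq' he
        exact hb.inj0 hq hq' (hβ.inj (hm 0 hz q hq) (hm 0 hz q' hq') he)
      · intro q hq q' hq' he
        exact hb.inj1 hq hq' (hβ.inj (hm 1 ho q hq) (hm 1 ho q' hq') he)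
      · intro l hl q hq hq2 q' hq' hq'2 he
        exact hb.sep l hl q hq hq2 q' hq' hq'2 (hβ.inj (hm l hl q hq) (hm 0 hz q' hq') he)
    have hd : ∀ l ∈ Icc (0 : ℝ) 1, Disjoint (Z ∪ β '' Z') ((fun q => β (b l q)) '' Dom) := by
      intro l hl
      have := TrL_disj hβ.inj hZ hZO (hbO l hl) (hZ' l hl)
      rwa [← image_comp] at this
    have h3 := LEqN.rib hT hd
    have e : ∀ (l : ℝ) (T : Set E), (Z ∪ β '' Z') ∪ (fun q => β (b l q)) '' T = Z ∪ β '' (Z' ∪ b l '' T) := by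
      intro l T
      rw [image_union, ← image_comp, union_assoc]
      rfl
    rwa [e, e] at h3

end Pool.Agent.NHP
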