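import Pool.Agent.NHP.Gld

/-!
# NHP/Gla: loops of linear maps, step 1: fix the axis (difficulty 4)

`v₀ = (0, 1)`, `p s = D s v₀ ≠ 0`, smooth, `= v₀` for `s ≤ 1/8`, `s ≥ 7/8`.
(1) There is `w ≠ 0` with `p s ≠ -μ w` for all `s` and all `μ ≥ 0`: the set of the vectors `-μ p s` (`μ ∈ ℝ`, `s ∈ ℝ`) is the image of `ℝ²` under a smooth map to the 3-dimensional space `E`, its complement
is dense (`ContDiff.dense_compl_range_of_finrank_lt_finrank`), and contains some `w`.
(2) `χ s` smooth, `0` for `s ≤ 1/16` and `s ≥ 15/16`, `1` on `[1/8, 7/8]`; `q u s`, `u ∈ [0, 2]`: for `u ≤ 1`: `(1 - u χ s) p s + u χ s w`; for `1 ≤ u ≤ 2`: `(1 - (2 - u) χ s) v₀ + (2 - u) χ s w`.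
Continuous in `(u, s)` (at `u = 1`: if `χ s ≠ 1` then `p s = v₀`), smooth in `s`, never zero (`p s`, `v₀ = p 0` are not in `-ℝ≥0 w`), `q 0 = p`, `q 2 = v₀`, `q u s = v₀` for `s ≤ 1/16`, `s ≥ 15/16`.
CAREFUL with the collars `1/8`, `7/8` of `GLp`: use `χ` which is `0` for `s ≤ 1/8` and `s ≥ 7/8`; then at `u = 1` one has to pass from `(1 - χ) p + χ w` to `(1 - χ) v₀ + χ w`: insert the linear homotopy
`(1 - χ s) ((1 - t) p s + t v₀) + χ s w` : it is nonzero if `χ s > 0` and `p s` is near `v₀`, i.e. choose `χ = 1` outside a small neighbourhood of the ends `1/8`, `7/8` where `‖p s - v₀‖ < 1/2 |w₃|`..;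
simplest: take `w` near... choose `χ` such that `‖p s - v₀‖ ≤ η` where `χ s < 1`, with `η` = half the distance of `v₀` from the ray `-ℝ≥0 w`: then `(1 - t) p s + t v₀` is in the ball of radius `η` around `v₀`,
which does not meet the ray.
(3) Choose `0 = u₀ < .. < u_m = last` with `‖q u_{i+1} s - q u_i s‖ ≤ ε' ‖q u_i s‖`; `D_0 = D`, `D_{i+1} s v = D_i s v + ℓ (D_i s v) • (q u_{i+1} s - q u_i s)`, `ℓ y = ⟪q u_i s, y⟫ / |q u_i s|²` (Euclidean inner product of
`ℂ × ℝ`): smooth, invertible for small `ε'` (`1 + rank one` with trace `> -1`), near, `D_{i+1} s v₀ = q u_{i+1} s`; `= id` near the ends.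
-/

open scoped Manifold ContDiff Topology
open Set Filter
open Pool.Agent.CSG (stp)
open Pool.Agent.RSG (E3 ex Thick)
open Pool.Agent.KNT (Dom Str Str2 BalC bmp)

namespace Pool.Agent.NHP

section

/-- the axis vector -/
def Gla_v : E := (0, 1)

/-- Euclidean inner product -/
noncomputable def Gla_ip (a : E) : E →L[ℝ] ℝ :=
  a.1.re • (Complex.reCLM.comp (ContinuousLinearMap.fst ℝ ℂ ℝ)) +
    a.1.im • (Complex.imCLM.comp (ContinuousLinearMap.fst ℝ ℂ ℝ)) + a.2 • ContinuousLinearMap.snd ℝ ℂ ℝ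

theorem Gla_ip_apply (a y : E) : Gla_ip a y = a.1.re * y.1.re + a.1.im * y.1.im + a.2 * y.2 := by
  simp [Gla_ip]

theorem Gla_ip_self (a : E) : Gla_ip a a = nr a := by
  rw [Gla_ip_apply]
  unfold nr
  rw [Complex.sq_norm, Complex.normSq_apply]
  ring

theorem Gla_ip_smooth : ContDiff ℝ ∞ Gla_ip := by
  have h1 : ContDiff ℝ ∞ fun a : E => a.1.re := Complex.reCLM.contDiff.comp contDiff_fst
  have h2 : ContDiff ℝ ∞ fun a : E => a.1.im := Complex.imCLM.contDiff.comp contDiff_fst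
  exact ((h1.smul contDiff_const).add (h2.smul contDiff_const)).add (contDiff_snd.smul contDiff_const)

theorem Gla_ip_le (a y : E) : |Gla_ip a y| ≤ 3 * (‖a‖ * ‖y‖) := by
  rw [Gla_ip_apply]
  have hr : ∀ z : E, |z.1.re| ≤ ‖z‖ := fun z => (Complex.abs_re_le_norm z.1).trans (norm_fst_le z)
  have hi : ∀ z : E, |z.1.im| ≤ ‖z‖ := fun z => (Complex.abs_im_le_norm z.1).trans (norm_fst_le z)
  have hx : ∀ z : E, |z.2| ≤ ‖z‖ := fun z => norm_snd_le z
  have h1 : |a.1.re * y.1.re| ≤ ‖a‖ * ‖y‖ := by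
    rw [abs_mul]; exact mul_le_mul (hr a) (hr y) (abs_nonneg _) (norm_nonneg _)
  have h2 : |a.1.im * y.1.im| ≤ ‖a‖ * ‖y‖ := by
    rw [abs_mul]; exact mul_le_mul (hi a) (hi y) (abs_nonneg _) (norm_nonneg _)
  have h3 : |a.2 * y.2| ≤ ‖a‖ * ‖y‖ := by
    rw [abs_mul]; exact mul_le_mul (hx a) (hx y) (abs_nonneg _) (norm_nonneg _)
  calc |a.1.re * y.1.re + a.1.im * y.1.im + a.2 * y.2|
      ≤ |a.1.re * y.1.re + a.1.im * y.1.im| + |a.2 * y.2| := abs_add_le _ _
    _ ≤ |a.1.re * y.1.re| + |a.1.im * y.1.im| + |a.2 * y.2| := by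
      have := abs_add_le (a.1.re * y.1.re) (a.1.im * y.1.im)
      linarith
    _ ≤ 3 * (‖a‖ * ‖y‖) := by linarith

/-- the functional with value `1` at `a` -/
noncomputable def Gla_l (a : E) : E →L[ℝ] ℝ := (nr a)⁻¹ • Gla_ip a

theorem Gla_l_self {a : E} (ha : a ≠ 0) : Gla_l a a = 1 := by
  have h : nr a ≠ 0 := fun h => ha ((nr_zero a).mp h)
  show (nr a)⁻¹ * Gla_ip a a = 1
  rw [Gla_ip_self, inv_mul_cancel₀ h]

theorem Gla_l_le {a : E} (ha : a ≠ 0) (y : E) : |Gla_l a y| * ‖a‖ ≤ 3 * ‖y‖ := by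
  have hn : 0 < ‖a‖ := norm_pos_iff.mpr ha
  have h1 : ‖a‖ ^ 2 ≤ nr a := (nr_le a).1
  have h2 : 0 < nr a := lt_of_lt_of_le (by positivity) h1
  show |(nr a)⁻¹ * Gla_ip a y| * ‖a‖ ≤ 3 * ‖y‖
  rw [abs_mul, abs_inv, abs_of_pos h2]
  have h3 := Gla_ip_le a y
  calc (nr a)⁻¹ * |Gla_ip a y| * ‖a‖ ≤ (nr a)⁻¹ * (3 * (‖a‖ * ‖y‖)) * ‖a‖ := by gcongr
    _ = (nr a)⁻¹ * ‖a‖ ^ 2 * (3 * ‖y‖) := by ring
    _ ≤ 1 * (3 * ‖y‖) := by
      gcongr
      rw [inv_mul_le_iff₀ h2]
      linarith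
    _ = 3 * ‖y‖ := one_mul _

theorem Gla_inj (A : E →L[ℝ] E) (h : Function.Injective A) : Function.Bijective A :=
  ⟨h, (LinearMap.injective_iff_surjective (f := (A : E →ₗ[ℝ] E))).mp h⟩

/-- one step -/
theorem Gla_step {ε : ℝ} (hε : 0 < ε) {D : ℝ → E →L[ℝ] E} (hD : GLp D)
    (h1 : D 1 = ContinuousLinearMap.id ℝ E) {b : ℝ → E} (hb : ContDiff ℝ ∞ b)
    (hbs : ∀ s ≤ 1 / 8, b s = Gla_v) (hbe : ∀ s, 7 / 8 ≤ s → b s = Gla_v)
    (hn : ∀ s, 3 * ‖b s - D s Gla_v‖ ≤ min ε (1 / 2) * ‖D s Gla_v‖) :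
    ∃ D' : ℝ → E →L[ℝ] E, NearR ε D D' ∧ ∀ s, D' s Gla_v = b s := by
  have hv : Gla_v ≠ 0 := by simp [Gla_v]
  have hp : ∀ s, D s Gla_v ≠ 0 := by
    intro s h
    apply hv
    apply (hD.bij s).1
    rw [h, map_zero]
  have hps : ContDiff ℝ ∞ fun s => D s Gla_v := hD.smooth.clm_apply contDiff_const
  have hid : ∀ s, 7 / 8 ≤ s → D s = ContinuousLinearMap.id ℝ E := fun s hs => (hD.stop s hs).trans h1
  let D' : ℝ → E →L[ℝ] E := fun s =>
    D s + ((Gla_l (D s Gla_v)).comp (D s)).smulRight (b s - D s Gla_v)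
  have hD' : ∀ s v, D' s v = D s v + Gla_l (D s Gla_v) (D s v) • (b s - D s Gla_v) := fun s v => rfl
  have hls : ContDiff ℝ ∞ fun s => Gla_l (D s Gla_v) := by
    have h2 : ContDiff ℝ ∞ fun s => (nr (D s Gla_v))⁻¹ :=
      (nr_smooth.comp hps).inv (fun s h => hp s ((nr_zero _).mp h))
    exact h2.smul (Gla_ip_smooth.comp hps)
  have hsm : ContDiff ℝ ∞ D' :=
    hD.smooth.add ((hls.clm_comp hD.smooth).smulRight (hb.sub hps))
  have hsta : ∀ s ≤ 1 / 8, D' s = ContinuousLinearMap.id ℝ E := by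
    intro s hs
    refine ContinuousLinearMap.ext fun v => ?_
    rw [hD', hD.start s hs, hbs s hs]
    simp
  have hend : ∀ s, 7 / 8 ≤ s → D' s = ContinuousLinearMap.id ℝ E := by
    intro s hs
    refine ContinuousLinearMap.ext fun v => ?_
    rw [hD', hid s hs, hbe s hs]
    simp
  have hbd : ∀ s v, |Gla_l (D s Gla_v) (D s v)| * ‖b s - D s Gla_v‖ ≤ min ε (1 / 2) * ‖D s v‖ := by
    intro s v
    have h2 := Gla_l_le (hp s) (D s v)
    have h3 := hn s
    have h4 : 0 < ‖D s Gla_v‖ := norm_pos_iff.mpr (hp s)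
    have h5 : 0 ≤ |Gla_l (D s Gla_v) (D s v)| := abs_nonneg _
    have h6 : 0 ≤ min ε (1 / 2) := by positivity
    have h7 : |Gla_l (D s Gla_v) (D s v)| * (3 * ‖b s - D s Gla_v‖) ≤
        |Gla_l (D s Gla_v) (D s v)| * (min ε (1 / 2) * ‖D s Gla_v‖) :=
      mul_le_mul_of_nonneg_left h3 h5
    have h8 : min ε (1 / 2) * (|Gla_l (D s Gla_v) (D s v)| * ‖D s Gla_v‖) ≤
        min ε (1 / 2) * (3 * ‖D s v‖) := mul_le_mul_of_nonneg_left h2 h6
    nlinarith
  have hbij : ∀ s, Function.Bijective (D' s) := by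
    intro s
    apply Gla_inj
    intro x y hxy
    have h2 : D' s (x - y) = 0 := by rw [map_sub, hxy, sub_self]
    rw [hD'] at h2
    have h3 := hbd s (x - y)
    have h4 : ‖D s (x - y)‖ ≤ 1 / 2 * ‖D s (x - y)‖ := by
      have e : D s (x - y) = - (Gla_l (D s Gla_v) (D s (x - y)) • (b s - D s Gla_v)) :=
        eq_neg_of_add_eq_zero_left h2
      calc ‖D s (x - y)‖ = ‖- (Gla_l (D s Gla_v) (D s (x - y)) • (b s - D s Gla_v))‖ := by rw [← e]
        _ = |Gla_l (D s Gla_v) (D s (x - y))| * ‖b s - D s Gla_v‖ := by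
          rw [norm_neg, norm_smul, Real.norm_eq_abs]
        _ ≤ min ε (1 / 2) * ‖D s (x - y)‖ := h3
        _ ≤ 1 / 2 * ‖D s (x - y)‖ := by
          gcongr
          exact min_le_right _ _
    have h5 : ‖D s (x - y)‖ = 0 := by
      have := norm_nonneg (D s (x - y))
      linarith
    have h6 : D s (x - y) = 0 := norm_eq_zero.mp h5
    have h7 : x - y = 0 := (hD.bij s).1 (by rw [h6, map_zero])
    exact sub_eq_zero.mp h7
  refine ⟨D', ⟨⟨hsm, hbij, hsta, fun s hs => (hend s hs).trans (hend 1 (by norm_num)).symm⟩,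
    hend 1 (by norm_num), ?_⟩, ?_⟩
  · intro s v
    rw [hD', add_sub_cancel_left, norm_smul, Real.norm_eq_abs]
    refine (hbd s v).trans ?_
    gcongr
    exact min_le_left _ _
  · intro s
    rw [hD', Gla_l_self (hp s), one_smul]
    abel

/-- lifting a homotopy of the vector -/
theorem Gla_hom {ε : ℝ} (hε : 0 < ε) {q : ℝ → ℝ → E} (hc : Continuous fun p : ℝ × ℝ => q p.1 p.2)
    (hs : ∀ u, ContDiff ℝ ∞ (q u)) (h0 : ∀ u s, s ≤ 1 / 8 → q u s = Gla_v)
    (h1 : ∀ u s, 7 / 8 ≤ s → q u s = Gla_v) (hne : ∀ u ∈ Icc (0 : ℝ) 1, ∀ s, q u s ≠ 0)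
    {D : ℝ → E →L[ℝ] E} (hD : GLp D) (hD1 : D 1 = ContinuousLinearMap.id ℝ E)
    (hDq : ∀ s, D s Gla_v = q 0 s) : ∃ D' : ℝ → E →L[ℝ] E, Relation.ReflTransGen (NearR ε) D D' ∧
      GLp D' ∧ D' 1 = ContinuousLinearMap.id ℝ E ∧ ∀ s, D' s Gla_v = q 1 s := by
  have hK : IsCompact (Icc (0 : ℝ) 1 ×ˢ Icc (0 : ℝ) 1) := isCompact_Icc.prod isCompact_Icc
  have hKne : (Icc (0 : ℝ) 1 ×ˢ Icc (0 : ℝ) 1).Nonempty := ⟨(0, 0), by simp⟩
  obtain ⟨z0, hz0, hmin⟩ := hK.exists_isMinOn hKne (hc.norm.continuousOn)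
  set m := ‖q z0.1 z0.2‖ with hm
  have hm0 : 0 < m := norm_pos_iff.mpr (hne _ hz0.1 _)
  have hml : ∀ u ∈ Icc (0 : ℝ) 1, ∀ s, m ≤ ‖q u s‖ := by
    intro u hu s
    have hcl : ∀ s' ∈ Icc (0 : ℝ) 1, m ≤ ‖q u s'‖ := fun s' hs' => hmin (a := (u, s')) ⟨hu, hs'⟩
    by_cases hs0 : s ≤ 1 / 8
    · rw [h0 u s hs0, ← h0 u 0 (by norm_num)]
      exact hcl 0 (by simp)
    · by_cases hs1 : 7 / 8 ≤ s
      · rw [h1 u s hs1, ← h1 u 1 (by norm_num)]
        exact hcl 1 (by simp)
      · push Not at hs0 hs1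
        exact hcl s ⟨by linarith, by linarith⟩
  set η := min ε (1 / 2) * m / 3 with hη
  have hη0 : 0 < η := by positivity
  have huc := hK.uniformContinuousOn_of_continuous hc.continuousOn
  rw [Metric.uniformContinuousOn_iff] at huc
  obtain ⟨δ, hδ, hδ'⟩ := huc η hη0
  obtain ⟨n, hn⟩ := exists_nat_gt (1 / δ)
  have hn0 : (0 : ℝ) < n := lt_trans (by positivity) hn
  have hn1 : 1 / (n : ℝ) < δ := by
    rw [div_lt_iff₀ hn0]
    rw [div_lt_iff₀ hδ] at hn
    linarith
  have key : ∀ j : ℕ, j ≤ n → ∃ D' : ℝ → E →L[ℝ] E, Relation.ReflTransGen (NearR ε) D D' ∧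
      GLp D' ∧ D' 1 = ContinuousLinearMap.id ℝ E ∧ ∀ s, D' s Gla_v = q (j / n) s := by
    intro j
    induction j with
    | zero =>
      intro _
      refine ⟨D, Relation.ReflTransGen.refl, hD, hD1, ?_⟩
      intro s
      rw [hDq]
      simp
    | succ j ih =>
      intro hj
      obtain ⟨D', a1, a2, a3, a4⟩ := ih (by omega)
      have hj0 : (0 : ℝ) ≤ j := Nat.cast_nonneg _
      have hj1 : ((j : ℝ) + 1) ≤ n := by exact_mod_cast hj
      have hu : (j : ℝ) / n ∈ Icc (0 : ℝ) 1 := ⟨by positivity, by rw [div_le_one hn0]; linarith⟩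
      have hu' : ((j + 1 : ℕ) : ℝ) / n ∈ Icc (0 : ℝ) 1 := by
        push_cast
        exact ⟨by positivity, by rw [div_le_one hn0]; linarith⟩
      have hdist : dist (((j + 1 : ℕ) : ℝ) / n) ((j : ℝ) / n) < δ := by
        rw [Real.dist_eq]
        have : ((j + 1 : ℕ) : ℝ) / n - (j : ℝ) / n = 1 / n := by
          push_cast
          field_simp
          ring
        rw [this, abs_of_pos (by positivity)]
        exact hn1
      have hnear : ∀ s, ‖q (((j + 1 : ℕ) : ℝ) / n) s - q ((j : ℝ) / n) s‖ ≤ η := by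
        intro s
        by_cases hs0 : s ≤ 1 / 8
        · rw [h0 _ s hs0, h0 _ s hs0, sub_self, norm_zero]
          exact hη0.le
        · by_cases hs1 : 7 / 8 ≤ s
          · rw [h1 _ s hs1, h1 _ s hs1, sub_self, norm_zero]
            exact hη0.le
          · push Not at hs0 hs1
            have hsI : s ∈ Icc (0 : ℝ) 1 := ⟨by linarith, by linarith⟩
            have := hδ' (((j + 1 : ℕ) : ℝ) / n, s) ⟨hu', hsI⟩ ((j : ℝ) / n, s) ⟨hu, hsI⟩ (by
              rw [Prod.dist_eq]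
              simp only [dist_self]
              exact max_lt hdist hδ)
            rw [dist_eq_norm] at this
            exact this.le
      obtain ⟨D'', b1, b2⟩ := Gla_step hε a2 a3 (hs (((j + 1 : ℕ) : ℝ) / n)) (h0 _) (h1 _) (by
        intro s
        rw [a4]
        have c1 := hnear s
        have c2 := hml _ hu s
        have c3 : 0 ≤ min ε (1 / 2) := by positivity
        calc 3 * ‖q (((j + 1 : ℕ) : ℝ) / n) s - q ((j : ℝ) / n) s‖ ≤ 3 * η := by linarith
          _ = min ε (1 / 2) * m := by rw [hη]; ring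
          _ ≤ _ := mul_le_mul_of_nonneg_left c2 c3)
      exact ⟨D'', a1.tail b1, b1.1, b1.2.1, b2⟩
  obtain ⟨D', a1, a2, a3, a4⟩ := key n le_rfl
  refine ⟨D', a1, a2, a3, ?_⟩
  intro s
  rw [a4, div_self hn0.ne']

end

theorem loop_axis {ε : ℝ} (hε : 0 < ε) {D : ℝ → E →L[ℝ] E} (hD : GLp D) (h1 : D 1 = ContinuousLinearMap.id ℝ E) :
    ∃ D' : ℝ → E →L[ℝ] E, Relation.ReflTransGen (NearR ε) D D' ∧ GLp D' ∧ D' 1 = ContinuousLinearMap.id ℝ E ∧
      ∀ s, D' s (0, 1) = (0, 1) := by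
  have hv : Gla_v ≠ 0 := by simp [Gla_v]
  have hp : ∀ s, D s Gla_v ≠ 0 := by
    intro s h
    apply hv
    apply (hD.bij s).1
    rw [h, map_zero]
  have hps : ContDiff ℝ ∞ fun s => D s Gla_v := hD.smooth.clm_apply contDiff_const
  have hp0 : ∀ s ≤ 1 / 8, D s Gla_v = Gla_v := by
    intro s hs
    rw [hD.start s hs]
    rfl
  have hp1 : ∀ s, 7 / 8 ≤ s → D s Gla_v = Gla_v := by
    intro s hs
    rw [hD.stop s hs, h1]
    rfl
  -- a direction which is never parallel
  obtain ⟨w, hw⟩ : ∃ w : E, w ∉ range fun z : ℝ × ℝ => z.1 • D z.2 Gla_v := by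
    have hsm : ContDiff ℝ 1 fun z : ℝ × ℝ => z.1 • D z.2 Gla_v :=
      ((contDiff_fst.smul (hps.comp contDiff_snd)) : ContDiff ℝ ∞ _).of_le (by simp)
    have hd := hsm.dense_compl_range_of_finrank_lt_finrank (by
      rw [Module.finrank_prod, Module.finrank_prod, Module.finrank_self, Complex.finrank_real_complex]
      norm_num)
    exact hd.nonempty
  have hw' : ∀ (c s : ℝ), w ≠ c • D s Gla_v := fun c s h => hw ⟨(c, s), h.symm⟩
  have hind : ∀ (a c s : ℝ), a • D s Gla_v + c • w = 0 → a = 0 ∧ c = 0 := by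
    intro a c s h
    have hc : c = 0 := by
      by_contra hc
      apply hw' (-(a / c)) s
      have h2 : c • w = -(a • D s Gla_v) := eq_neg_of_add_eq_zero_right h
      have h3 : w = c⁻¹ • (c • w) := by rw [smul_smul, inv_mul_cancel₀ hc, one_smul]
      rw [h3, h2, smul_neg, smul_smul, neg_smul]
      congr 2
      field_simp
    subst hc
    rw [zero_smul, add_zero] at h
    exact ⟨(smul_eq_zero.mp h).resolve_right (hp s), rfl⟩
  have hindv : ∀ a c : ℝ, a • Gla_v + c • w = 0 → a = 0 ∧ c = 0 := by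
    intro a c h
    apply hind a c 0
    rw [hp0 0 (by norm_num)]
    exact h
  have hw1 : w.1 ≠ 0 := by
    intro h
    have h2 : w = w.2 • Gla_v := by
      ext1
      · simp [Gla_v, h]
      · simp [Gla_v]
    have := hindv (-w.2) 1 (by rw [one_smul, neg_smul, ← h2, neg_add_cancel])
    exact one_ne_zero this.2
  -- distance of the axis vector from the line
  set d0 := min (1 / 2 : ℝ) (‖w.1‖ / (2 * (|w.2| + 1))) with hd0
  have hd0p : 0 < d0 := by
    have : 0 < ‖w.1‖ := norm_pos_iff.mpr hw1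
    positivity
  have hdist : ∀ τ : ℝ, d0 ≤ ‖Gla_v + τ • w‖ := by
    intro τ
    have e1 : (Gla_v + τ • w).1 = τ • w.1 := by simp [Gla_v]
    have e2 : (Gla_v + τ • w).2 = 1 + τ * w.2 := by simp [Gla_v]
    have hx : 0 < 2 * (|w.2| + 1) := by positivity
    by_cases hτ : |τ| * (2 * (|w.2| + 1)) ≤ 1
    · refine (min_le_left _ _).trans ?_
      refine le_trans ?_ (norm_snd_le _)
      rw [e2, Real.norm_eq_abs]
      have h3 : |τ * w.2| ≤ 1 / 2 := by
        rw [abs_mul]
        have := abs_nonneg τ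
        have := abs_nonneg w.2
        nlinarith
      have h4 := abs_le.mp h3
      rw [abs_of_nonneg (by linarith [h4.1])]
      linarith [h4.1]
    · push Not at hτ
      refine (min_le_right _ _).trans ?_
      refine le_trans ?_ (norm_fst_le _)
      rw [e1, norm_smul, Real.norm_eq_abs, div_le_iff₀ hx]
      have := norm_nonneg w.1
      nlinarith
  -- bound of the vectors
  obtain ⟨M, hM⟩ := (isCompact_Icc (a := (0 : ℝ)) (b := 1)).exists_bound_of_continuousOn
    hps.continuous.continuousOn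
  have hv1 : ‖Gla_v‖ = 1 := by simp [Gla_v, Prod.norm_def]
  have hM1 : 1 ≤ M := by
    have := hM 0 (by simp)
    rw [hp0 0 (by norm_num), hv1] at this
    exact this
  have hMs : ∀ s, ‖D s Gla_v‖ ≤ M := by
    intro s
    by_cases hs0 : s ≤ 1 / 8
    · rw [hp0 s hs0, hv1]
      exact hM1
    · by_cases hs1 : 7 / 8 ≤ s
      · rw [hp1 s hs1, hv1]
        exact hM1
      · push Not at hs0 hs1
        exact hM s ⟨by linarith, by linarith⟩
  -- the neighbourhoods of the ends
  have hca : ∃ η > 0, ∀ s, |s - 1 / 8| < η → ‖D s Gla_v - Gla_v‖ < d0 := by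
    have := Metric.continuousAt_iff.mp (hps.continuous.continuousAt (x := 1 / 8)) d0 hd0p
    obtain ⟨η, hη, h⟩ := this
    refine ⟨η, hη, fun s hs => ?_⟩
    have h2 := h (x := s) (by rw [Real.dist_eq]; exact hs)
    rw [hp0 (1 / 8) le_rfl, dist_eq_norm] at h2
    exact h2
  have hcb : ∃ η > 0, ∀ s, |s - 7 / 8| < η → ‖D s Gla_v - Gla_v‖ < d0 := by
    have := Metric.continuousAt_iff.mp (hps.continuous.continuousAt (x := 7 / 8)) d0 hd0p
    obtain ⟨η, hη, h⟩ := this
    refine ⟨η, hη, fun s hs => ?_⟩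
    have h2 := h (x := s) (by rw [Real.dist_eq]; exact hs)
    rw [hp1 (7 / 8) le_rfl, dist_eq_norm] at h2
    exact h2
  obtain ⟨η1, hη1, hn1⟩ := hca
  obtain ⟨η2, hη2, hn2⟩ := hcb
  set η := min (1 / 8 : ℝ) (min (η1 / 2) (η2 / 2)) with hη
  have hη0 : 0 < η := by positivity
  have hηa : η ≤ 1 / 8 := min_le_left _ _
  have hηb : η ≤ η1 / 2 := (min_le_right _ _).trans (min_le_left _ _)
  have hηc : η ≤ η2 / 2 := (min_le_right _ _).trans (min_le_right _ _)
  have hnl : ∀ s, s ≤ 1 / 8 + η → ‖D s Gla_v - Gla_v‖ < d0 := by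
    intro s hs
    by_cases hs0 : s ≤ 1 / 8
    · rw [hp0 s hs0, sub_self, norm_zero]
      exact hd0p
    · push Not at hs0
      apply hn1
      rw [abs_of_pos (by linarith)]
      linarith
  have hnr : ∀ s, 7 / 8 - η ≤ s → ‖D s Gla_v - Gla_v‖ < d0 := by
    intro s hs
    by_cases hs0 : 7 / 8 ≤ s
    · rw [hp1 s hs0, sub_self, norm_zero]
      exact hd0p
    · push Not at hs0
      apply hn2
      rw [abs_of_neg (by linarith)]
      linarith
  -- the cut-off
  let f : ℝ → ℝ := fun s => stp (1 / 8) (1 / 8 + η) s * (1 - stp (7 / 8 - η) (7 / 8) s)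
  have hf : ContDiff ℝ ∞ f := (CSG.stp_smooth _ _).mul (contDiff_const.sub (CSG.stp_smooth _ _))
  have hf0 : ∀ s ≤ 1 / 8, f s = 0 := by
    intro s hs
    show stp (1 / 8) (1 / 8 + η) s * _ = 0
    rw [CSG.stp_zero (by linarith) hs, zero_mul]
  have hf1 : ∀ s, 7 / 8 ≤ s → f s = 0 := by
    intro s hs
    show _ * (1 - stp (7 / 8 - η) (7 / 8) s) = 0
    rw [CSG.stp_one (by linarith) hs, sub_self, mul_zero]
  have hfm : ∀ s, 1 / 8 + η ≤ s → s ≤ 7 / 8 - η → f s = 1 := by
    intro s hs hs'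
    show stp (1 / 8) (1 / 8 + η) s * (1 - stp (7 / 8 - η) (7 / 8) s) = 1
    rw [CSG.stp_one (by linarith) hs, CSG.stp_zero (by linarith) hs', sub_zero, mul_one]
  have hwn : 0 < ‖w‖ := norm_pos_iff.mpr (by
    intro h
    apply hw1
    rw [h]
    rfl)
  set R := (M + 1) / ‖w‖ with hR
  have hRw : R * ‖w‖ = M + 1 := div_mul_cancel₀ _ hwn.ne'
  have hR0 : 0 < R := by positivity
  -- stage A
  obtain ⟨D1, a1, a2, a3, a4⟩ := Gla_hom hε (q := fun u s => D s Gla_v + (u * R * f s) • w)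
    (by
      have e1 : Continuous fun p : ℝ × ℝ => D p.2 Gla_v := hps.continuous.comp continuous_snd
      have e2 : Continuous fun p : ℝ × ℝ => f p.2 := hf.continuous.comp continuous_snd
      exact e1.add (((continuous_fst.mul continuous_const).mul e2).smul continuous_const))
    (fun u => hps.add ((contDiff_const.mul hf).smul contDiff_const))
    (fun u s hs => by simp only [hp0 s hs, hf0 s hs, mul_zero, zero_smul, add_zero])
    (fun u s hs => by simp only [hp1 s hs, hf1 s hs, mul_zero, zero_smul, add_zero])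
    (by
      intro u _ s h
      have := hind 1 (u * R * f s) s (by rw [one_smul]; exact h)
      exact one_ne_zero this.1) hD h1 (fun s => by simp)
  -- stage B
  obtain ⟨D2, b1, b2, b3, b4⟩ := Gla_hom hε
    (q := fun u s => (Gla_v + (1 - u) • (D s Gla_v - Gla_v)) + (R * f s) • w)
    (by
      have e1 : Continuous fun p : ℝ × ℝ => D p.2 Gla_v := hps.continuous.comp continuous_snd
      have e2 : Continuous fun p : ℝ × ℝ => f p.2 := hf.continuous.comp continuous_snd
      exact (continuous_const.add ((continuous_const.sub continuous_fst).smul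
        (e1.sub continuous_const))).add ((continuous_const.mul e2).smul continuous_const))
    (by
      intro u
      have e1 : ContDiff ℝ ∞ fun s => (1 - u) • (D s Gla_v - Gla_v) :=
        (hps.sub contDiff_const).const_smul (1 - u)
      have e2 : ContDiff ℝ ∞ fun s => (R * f s) • w := (contDiff_const.mul hf).smul contDiff_const
      exact (contDiff_const.add e1).add e2)
    (fun u s hs => by simp only [hp0 s hs, hf0 s hs, mul_zero, zero_smul, add_zero, sub_self, smul_zero])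
    (fun u s hs => by simp only [hp1 s hs, hf1 s hs, mul_zero, zero_smul, add_zero, sub_self, smul_zero])
    (by
      intro u hu s h
      have hu1 : |1 - u| ≤ 1 := by
        rw [abs_of_nonneg (by linarith [hu.2])]
        linarith [hu.1]
      have hend : ‖D s Gla_v - Gla_v‖ < d0 → False := by
        intro hlt
        have e1 : Gla_v + (R * f s) • w = -((1 - u) • (D s Gla_v - Gla_v)) := by
          have : Gla_v + (1 - u) • (D s Gla_v - Gla_v) + (R * f s) • w =
              (Gla_v + (R * f s) • w) + (1 - u) • (D s Gla_v - Gla_v) := by abel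
          rw [this] at h
          exact eq_neg_of_add_eq_zero_left h
        have e2 := hdist (R * f s)
        rw [e1, norm_neg, norm_smul, Real.norm_eq_abs] at e2
        have e3 : |1 - u| * ‖D s Gla_v - Gla_v‖ ≤ 1 * ‖D s Gla_v - Gla_v‖ :=
          mul_le_mul_of_nonneg_right hu1 (norm_nonneg _)
        linarith
      by_cases hs0 : s ≤ 1 / 8 + η
      · exact hend (hnl s hs0)
      · by_cases hs1 : 7 / 8 - η ≤ s
        · exact hend (hnr s hs1)
        · push Not at hs0 hs1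
          rw [hfm s hs0.le hs1.le, mul_one] at h
          have e1 : R • w = -(u • Gla_v + (1 - u) • D s Gla_v) := by
            have : Gla_v + (1 - u) • (D s Gla_v - Gla_v) + R • w =
                R • w + (u • Gla_v + (1 - u) • D s Gla_v) := by
              rw [smul_sub, sub_smul 1 u Gla_v, one_smul]
              abel
            rw [this] at h
            exact eq_neg_of_add_eq_zero_left h
          have e2 : ‖R • w‖ = M + 1 := by
            rw [norm_smul, Real.norm_eq_abs, abs_of_pos hR0, hRw]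
          rw [e1, norm_neg] at e2
          have e3 : ‖u • Gla_v + (1 - u) • D s Gla_v‖ ≤ u * 1 + (1 - u) * M := by
            refine (norm_add_le _ _).trans ?_
            rw [norm_smul, norm_smul, Real.norm_eq_abs, Real.norm_eq_abs, abs_of_nonneg hu.1,
              abs_of_nonneg (by linarith [hu.2] : (0 : ℝ) ≤ 1 - u), hv1]
            have := mul_le_mul_of_nonneg_left (hMs s) (by linarith [hu.2] : (0 : ℝ) ≤ 1 - u)
            linarith
          have e4 : u * 1 + (1 - u) * M ≤ M := by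
            have := mul_nonneg hu.1 (by linarith : (0 : ℝ) ≤ M - 1)
            nlinarith
          linarith) a2 a3 (fun s => by
            rw [a4]
            simp)
  -- stage C
  obtain ⟨D3, c1, c2, c3, c4⟩ := Gla_hom hε
    (q := fun u s => Gla_v + ((1 - u) * (R * f s)) • w)
    (by
      have e2 : Continuous fun p : ℝ × ℝ => f p.2 := hf.continuous.comp continuous_snd
      exact continuous_const.add (((continuous_const.sub continuous_fst).mul
        (continuous_const.mul e2)).smul continuous_const))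
    (fun u => contDiff_const.add ((contDiff_const.mul (contDiff_const.mul hf)).smul contDiff_const))
    (fun u s hs => by simp only [hf0 s hs, mul_zero, zero_smul, add_zero])
    (fun u s hs => by simp only [hf1 s hs, mul_zero, zero_smul, add_zero])
    (by
      intro u _ s h
      have := hindv 1 ((1 - u) * (R * f s)) (by rw [one_smul]; exact h)
      exact one_ne_zero this.1) b2 b3 (fun s => by
        rw [b4]
        simp)
  refine ⟨D3, (a1.trans b1).trans c1, c2, c3, ?_⟩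
  intro s
  have := c4 s
  simpa [Gla_v] using this

end Pool.Agent.NHP
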