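import Pool.Agent.NHP.Glk

/-!
# NHP/Glb: loops of linear maps, step 2: complex multiplications (difficulty 3)

`D s (w, x) = (B s w, x + u s w)` with `u s : ℂ →L[ℝ] ℝ`, `B s : ℂ →L[ℝ] ℂ` bijective.  `B s w = a s w + c s conj w` with
`a s = (B s 1 - i B s i)/2`, `c s = (B s 1 + i B s i)/2`, smooth, `det (B s) = |a s|² - |c s|² ≠ 0`, and `> 0` for `s = 0`, so
`> 0` for all `s` (connectedness).  One homotopy `D_t = mulL a + (1 - t) (D - mulL a)` (determinant `|a|² - (1-t)² |c|² > 0`),
`chain_of_homotopy` once.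
-/

open scoped Manifold ContDiff Topology
open Set Filter
open Pool.Agent.CSG (stp)
open Pool.Agent.RSG (E3 ex Thick)
open Pool.Agent.KNT (Dom Str Str2 BalC bmp)

namespace Pool.Agent.NHP

theorem glb_mulL_eq (a : ℂ) : mulL a = (ContinuousLinearMap.inl ℝ ℂ ℝ).comp (a • ContinuousLinearMap.fst ℝ ℂ ℝ) +
    (ContinuousLinearMap.inr ℝ ℂ ℝ).comp (ContinuousLinearMap.snd ℝ ℂ ℝ) := by
  refine ContinuousLinearMap.ext fun q => ?_
  simp [mulL]

theorem glb_mulL_apply (a : ℂ) (q : E) : mulL a q = (a * q.1, q.2) := by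
  simp [mulL]

theorem glb_mulL_one : mulL 1 = ContinuousLinearMap.id ℝ E := by
  refine ContinuousLinearMap.ext fun q => ?_
  simp [mulL]

theorem glb_mulL_smooth {F : Type*} [NormedAddCommGroup F] [NormedSpace ℝ F] {a : F → ℂ} (ha : ContDiff ℝ ∞ a) :
    ContDiff ℝ ∞ fun s => mulL (a s) := by
  have h : (fun s => mulL (a s)) = fun s => (ContinuousLinearMap.inl ℝ ℂ ℝ).comp (a s • ContinuousLinearMap.fst ℝ ℂ ℝ) +
    (ContinuousLinearMap.inr ℝ ℂ ℝ).comp (ContinuousLinearMap.snd ℝ ℂ ℝ) := funext fun s => glb_mulL_eq (a s)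
  rw [h]
  exact (contDiff_const.clm_comp (ha.smul contDiff_const)).add contDiff_const

/-- the linear part of a map -/
noncomputable def glbA (D : ℝ → E →L[ℝ] E) (s : ℝ) : ℂ := ((D s (1, 0)).1 - Complex.I * (D s (Complex.I, 0)).1) / 2

/-- the antilinear part -/
noncomputable def glbC (D : ℝ → E →L[ℝ] E) (s : ℝ) : ℂ := ((D s (1, 0)).1 + Complex.I * (D s (Complex.I, 0)).1) / 2

theorem glb_app_smooth {D : ℝ → E →L[ℝ] E} (hD : ContDiff ℝ ∞ D) (v : E) : ContDiff ℝ ∞ fun s => (D s v).1 :=
  contDiff_fst.comp (hD.clm_apply contDiff_const)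

theorem glbA_smooth {D : ℝ → E →L[ℝ] E} (hD : ContDiff ℝ ∞ D) : ContDiff ℝ ∞ (glbA D) := by
  have h : glbA D = fun s => ((D s (1, 0)).1 - Complex.I * (D s (Complex.I, 0)).1) / 2 := rfl
  rw [h]
  exact ((glb_app_smooth hD _).sub (contDiff_const.mul (glb_app_smooth hD _))).div_const 2

theorem glbC_smooth {D : ℝ → E →L[ℝ] E} (hD : ContDiff ℝ ∞ D) : ContDiff ℝ ∞ (glbC D) := by
  have h : glbC D = fun s => ((D s (1, 0)).1 + Complex.I * (D s (Complex.I, 0)).1) / 2 := rfl
  rw [h]
  exact ((glb_app_smooth hD _).add (contDiff_const.mul (glb_app_smooth hD _))).div_const 2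

theorem glb_apply_one {D : ℝ → E →L[ℝ] E} (hax : ∀ s, D s (0, 1) = (0, 1)) (s : ℝ) (w : ℂ) (x : ℝ) :
    (D s (w, x)).1 = glbA D s * w + glbC D s * (starRingEnd ℂ) w ∧ (D s (w, x)).2 = x + (D s (w, 0)).2 := by
  have h1 : ((w, x) : E) = w.re • ((1, 0) : E) + w.im • ((Complex.I, 0) : E) + x • ((0, 1) : E) := by
    refine Prod.ext ?_ ?_
    · simp only [Prod.smul_mk, Prod.mk_add_mk, Complex.real_smul, mul_one, smul_zero, add_zero]
      exact (Complex.re_add_im w).symm
    · simp
  have h2 : ((w, (0 : ℝ)) : E) = w.re • ((1, 0) : E) + w.im • ((Complex.I, 0) : E) := by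
    refine Prod.ext ?_ ?_
    · simp only [Prod.smul_mk, Prod.mk_add_mk, Complex.real_smul, mul_one]
      exact (Complex.re_add_im w).symm
    · simp
  constructor
  · rw [h1, map_add, map_add, map_smul, map_smul, map_smul, hax]
    simp only [Prod.fst_add, Prod.smul_fst, smul_zero, add_zero, Complex.real_smul]
    unfold glbA glbC
    have hw : w = w.re + w.im * Complex.I := (Complex.re_add_im w).symm
    have hw' : (starRingEnd ℂ) w = w.re - w.im * Complex.I := by
      refine Complex.ext ?_ ?_ <;> simp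
    rw [hw']
    conv_rhs => rw [hw]
    simp only [Complex.add_re, Complex.ofReal_re, Complex.mul_re, Complex.I_re, mul_zero, Complex.ofReal_im,
      Complex.I_im, mul_one, sub_self, add_zero, Complex.add_im, Complex.mul_im, zero_add]
    linear_combination ((w.im : ℂ) * (D s (Complex.I, 0)).1) * Complex.I_sq
  · rw [h1, h2, map_add, map_add, map_smul, map_smul, map_smul, hax]
    simp only [Prod.snd_add, Prod.smul_snd, smul_eq_mul, mul_one]
    ring

theorem glb_adj (a c w : ℂ) (t : ℝ) : (starRingEnd ℂ) a * (a * w + t * c * (starRingEnd ℂ) w) -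
    t * c * (starRingEnd ℂ) (a * w + t * c * (starRingEnd ℂ) w) =
    ((Complex.normSq a - t ^ 2 * Complex.normSq c : ℝ) : ℂ) * w := by
  have h1 : (starRingEnd ℂ) a * a = (Complex.normSq a : ℂ) := Complex.normSq_eq_conj_mul_self.symm
  have h2 : (starRingEnd ℂ) c * c = (Complex.normSq c : ℂ) := Complex.normSq_eq_conj_mul_self.symm
  simp only [map_add, map_mul, Complex.conj_conj, Complex.conj_ofReal, Complex.ofReal_sub, Complex.ofReal_mul,
    Complex.ofReal_pow]
  linear_combination w * h1 - t ^ 2 * w * h2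

theorem glb_det_ne {D : ℝ → E →L[ℝ] E} (hD : GLp D) (hax : ∀ s, D s (0, 1) = (0, 1)) (s : ℝ) :
    Complex.normSq (glbA D s) - Complex.normSq (glbC D s) ≠ 0 := by
  intro h0
  have hinj := (hD.bij s).1
  set a := glbA D s with ha
  set c := glbC D s with hc
  -- the kernel of the planar part is trivial
  have key : ∀ w : ℂ, a * w + c * (starRingEnd ℂ) w = 0 → w = 0 := by
    intro w hw
    have h1 := glb_apply_one hax s w (-(D s (w, 0)).2)
    have h2 : D s (w, -(D s (w, 0)).2) = 0 := by
      refine Prod.ext ?_ ?_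
      · rw [h1.1]
        exact hw
      · rw [h1.2]
        simp
    have h3 : ((w, -(D s (w, 0)).2) : E) = 0 := hinj (by rw [h2, map_zero])
    exact congrArg Prod.fst h3
  have h4 : ∀ z : ℂ, (starRingEnd ℂ) a * z - c * (starRingEnd ℂ) z = 0 := by
    intro z
    apply key
    have h1 : (starRingEnd ℂ) a * a = (Complex.normSq a : ℂ) := Complex.normSq_eq_conj_mul_self.symm
    have h2 : (starRingEnd ℂ) c * c = (Complex.normSq c : ℂ) := Complex.normSq_eq_conj_mul_self.symm
    have h3 : (Complex.normSq a : ℂ) - Complex.normSq c = 0 := by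
      rw [← Complex.ofReal_sub, h0, Complex.ofReal_zero]
    simp only [map_sub, map_mul, Complex.conj_conj]
    linear_combination z * h1 - z * h2 + z * h3
  have h5 := h4 1
  have h6 := h4 Complex.I
  rw [map_one, mul_one, mul_one] at h5
  rw [Complex.conj_I] at h6
  have h7 : ((starRingEnd ℂ) a + c) * Complex.I = 0 := by linear_combination h6
  have h8 : (starRingEnd ℂ) a + c = 0 := by
    rcases mul_eq_zero.1 h7 with h | h
    · exact h
    · exact absurd h Complex.I_ne_zero
  have h9 : c = 0 := by linear_combination (h8 - h5) / 2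
  have h10 : (starRingEnd ℂ) a = 0 := by linear_combination (h8 + h5) / 2
  have h11 : a = 0 := by
    have := congrArg (starRingEnd ℂ) h10
    simpa using this
  have h12 := key 1 (by rw [h11, h9]; simp)
  exact one_ne_zero h12

theorem glbA_id {D : ℝ → E →L[ℝ] E} {s : ℝ} (h : D s = ContinuousLinearMap.id ℝ E) : glbA D s = 1 := by
  unfold glbA
  rw [h]
  simp only [ContinuousLinearMap.id_apply]
  rw [Complex.I_mul_I]
  norm_num

theorem glbC_id {D : ℝ → E →L[ℝ] E} {s : ℝ} (h : D s = ContinuousLinearMap.id ℝ E) : glbC D s = 0 := by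
  unfold glbC
  rw [h]
  simp only [ContinuousLinearMap.id_apply]
  rw [Complex.I_mul_I]
  norm_num

theorem glb_det_pos {D : ℝ → E →L[ℝ] E} (hD : GLp D) (hax : ∀ s, D s (0, 1) = (0, 1)) (s : ℝ) :
    0 < Complex.normSq (glbA D s) - Complex.normSq (glbC D s) := by
  by_contra hneg
  have hc : Continuous fun s => Complex.normSq (glbA D s) - Complex.normSq (glbC D s) :=
    (Complex.continuous_normSq.comp (glbA_smooth hD.smooth).continuous).sub
      (Complex.continuous_normSq.comp (glbC_smooth hD.smooth).continuous)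
  have h0 : (0 : ℝ) ≤ Complex.normSq (glbA D 0) - Complex.normSq (glbC D 0) := by
    have h := hD.start 0 (by norm_num)
    rw [glbA_id h, glbC_id h]
    simp
  obtain ⟨z, hz⟩ := mem_range_of_exists_le_of_exists_ge hc ⟨s, not_lt.1 hneg⟩ ⟨0, h0⟩
  exact glb_det_ne hD hax z hz

theorem loop_mul {ε : ℝ} (hε : 0 < ε) {D : ℝ → E →L[ℝ] E} (hD : GLp D) (h1 : D 1 = ContinuousLinearMap.id ℝ E)
    (hax : ∀ s, D s (0, 1) = (0, 1)) : ∃ a : ℝ → ℂ, ContDiff ℝ ∞ a ∧ (∀ s, a s ≠ 0) ∧ (∀ s ≤ 1 / 8, a s = 1) ∧
      (∀ s, 7 / 8 ≤ s → a s = 1) ∧ Relation.ReflTransGen (NearR ε) D fun s => mulL (a s) := by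
  have hs : ∀ s ≤ 1 / 8, glbA D s = 1 := fun s h => glbA_id (hD.start s h)
  have he : ∀ s, 7 / 8 ≤ s → glbA D s = 1 := fun s h => glbA_id ((hD.stop s h).trans h1)
  refine ⟨glbA D, glbA_smooth hD.smooth, ?_, hs, he, ?_⟩
  · intro s h
    have h2 := glb_det_pos hD hax s
    rw [h, map_zero] at h2
    have h3 := Complex.normSq_nonneg (glbC D s)
    linarith
  set H : ℝ → ℝ → E →L[ℝ] E := fun u s => mulL (glbA D s) + (1 - u) • (D s - mulL (glbA D s)) with hH
  have hid : ∀ u s, D s = ContinuousLinearMap.id ℝ E → H u s = ContinuousLinearMap.id ℝ E := by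
    intro u s h
    simp only [hH]
    rw [glbA_id h, h, glb_mulL_one, sub_self, smul_zero, add_zero]
  have hc : Continuous fun p : ℝ × ℝ => H p.1 p.2 := by
    have hm : Continuous fun p : ℝ × ℝ => mulL (glbA D p.2) :=
      (glb_mulL_smooth (glbA_smooth hD.smooth)).continuous.comp continuous_snd
    have hd : Continuous fun p : ℝ × ℝ => D p.2 := hD.smooth.continuous.comp continuous_snd
    exact hm.add ((continuous_const.sub continuous_fst).smul (hd.sub hm))
  have hgl : ∀ u ∈ Icc (0 : ℝ) 1, GLp (H u) ∧ H u 1 = ContinuousLinearMap.id ℝ E := by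
    intro u hu
    refine ⟨⟨?_, ?_, ?_, ?_⟩, hid u 1 h1⟩
    · have hm := glb_mulL_smooth (glbA_smooth hD.smooth)
      exact hm.add ((hD.smooth.sub hm).const_smul (1 - u))
    · intro s
      have hinj : Function.Injective (H u s : E → E) := by
        rw [injective_iff_map_eq_zero]
        intro q hq
        have e1 := glb_apply_one hax s q.1 q.2
        have e2 := glb_mulL_apply (glbA D s) q
        have e3 : H u s q = mulL (glbA D s) q + (1 - u) • (D s q - mulL (glbA D s) q) := rfl
        rw [e3, e2] at hq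
        have q1 := congrArg Prod.fst hq
        have q2 := congrArg Prod.snd hq
        simp only [Prod.fst_add, Prod.snd_add, Prod.smul_fst, Prod.smul_snd, Prod.fst_sub, Prod.snd_sub,
          Prod.fst_zero, Prod.snd_zero, Complex.real_smul, smul_eq_mul] at q1 q2
        rw [e1.1] at q1
        rw [e1.2] at q2
        have hk : glbA D s * q.1 + ((1 - u : ℝ) : ℂ) * glbC D s * (starRingEnd ℂ) q.1 = 0 := by
          linear_combination q1
        have hadj := glb_adj (glbA D s) (glbC D s) q.1 (1 - u)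
        rw [hk, map_zero, mul_zero, mul_zero, sub_zero] at hadj
        have hdet : Complex.normSq (glbA D s) - (1 - u) ^ 2 * Complex.normSq (glbC D s) ≠ 0 := by
          have p1 := glb_det_pos hD hax s
          have p2 := Complex.normSq_nonneg (glbC D s)
          have p3 : (1 - u) ^ 2 ≤ 1 := by
            have := hu.1
            have := hu.2
            nlinarith
          have p4 : (1 - u) ^ 2 * Complex.normSq (glbC D s) ≤ 1 * Complex.normSq (glbC D s) :=
            mul_le_mul_of_nonneg_right p3 p2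
          intro h
          linarith
        have hw : q.1 = 0 := by
          rcases mul_eq_zero.1 hadj.symm with h | h
          · exact absurd (Complex.ofReal_eq_zero.1 h) hdet
          · exact h
        have hx : q.2 = 0 := by
          rw [hw] at q2
          have : D s ((0 : ℂ), (0 : ℝ)) = 0 := map_zero (D s)
          rw [this] at q2
          simp only [Prod.snd_zero, add_zero, sub_self, mul_zero] at q2
          exact q2
        exact Prod.ext hw hx
      have hsur : Function.Surjective (H u s : E → E) :=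
        (LinearMap.injective_iff_surjective (f := (H u s : E →ₗ[ℝ] E))).1 hinj
      exact ⟨hinj, hsur⟩
    · intro s h
      exact hid u s (hD.start s h)
    · intro s h
      rw [hid u s ((hD.stop s h).trans h1), hid u 1 h1]
  have hch := chain_of_homotopy hε hc hgl
  have e0 : H 0 = D := by
    funext s
    simp only [hH, sub_zero, one_smul, add_sub_cancel]
  have e1 : H 1 = fun s => mulL (glbA D s) := by
    funext s
    refine ContinuousLinearMap.ext fun q => ?_
    show mulL (glbA D s) q + (1 - 1 : ℝ) • (D s q - mulL (glbA D s) q) = mulL (glbA D s) q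
    rw [sub_self, zero_smul, add_zero]
  rw [e0, e1] at hch
  exact hch

end Pool.Agent.NHP
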