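import Pool.Agent.NHP.Glk

/-!
# NHP/Glc: loops of linear maps, step 3: winding number (difficulty 3)

A smooth logarithm: `Λ : ℝ → ℂ` smooth with `a s = exp (Λ s)`, `Λ s = 0` for `s ≤ 1/8` (`Λ s = ∫₀ˢ a'/a`; `(a exp (-Λ))' = 0`).  For `s ≥ 7/8` `Λ` is constant, `exp Λ = 1`, so `Λ = 2πi k`.
Homotopy: `exp ((1 - t) Λ s + t 2πi k stp (1/8) (7/8) s)` = `1` near both ends.  `chain_of_homotopy`.
-/

open scoped Manifold ContDiff Topology
open Set Filter
open Pool.Agent.CSG (stp)
open Pool.Agent.RSG (E3 ex Thick)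
open Pool.Agent.KNT (Dom Str Str2 BalC bmp)

namespace Pool.Agent.NHP

theorem glc_one : mulL 1 = ContinuousLinearMap.id ℝ E := by
  refine ContinuousLinearMap.ext fun q => ?_
  rw [mulL_apply]
  simp

theorem glc_bij {c : ℂ} (hc : c ≠ 0) : Function.Bijective (mulL c) := by
  rw [Function.bijective_iff_has_inverse]
  refine ⟨mulL c⁻¹, fun q => ?_, fun q => ?_⟩
  · rw [mulL_apply, mulL_apply]
    ext1
    · show c⁻¹ * (c * q.1) = q.1
      rw [← mul_assoc, inv_mul_cancel₀ hc, one_mul]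
    · rfl
  · rw [mulL_apply, mulL_apply]
    ext1
    · show c * (c⁻¹ * q.1) = q.1
      rw [← mul_assoc, mul_inv_cancel₀ hc, one_mul]
    · rfl

theorem glc_smooth {c : ℝ → ℂ} (hc : ContDiff ℝ ∞ c) : ContDiff ℝ ∞ fun s => mulL (c s) := by
  rw [contDiff_clm_apply_iff]
  intro q
  simp only [mulL_apply]
  exact (hc.mul contDiff_const).prodMk contDiff_const

theorem glc_cont {X : Type*} [TopologicalSpace X] {c : X → ℂ} (hc : Continuous c) : Continuous fun s => mulL (c s) := by
  rw [continuous_clm_apply]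
  intro q
  simp only [mulL_apply]
  exact (hc.mul continuous_const).prodMk continuous_const

/-- a smooth logarithm -/
theorem glc_log {a : ℝ → ℂ} (ha : ContDiff ℝ ∞ a) (h0 : ∀ s, a s ≠ 0) (hs : ∀ s ≤ 1 / 8, a s = 1)
    (he : ∀ s, 7 / 8 ≤ s → a s = 1) : ∃ L : ℝ → ℂ, ContDiff ℝ ∞ L ∧ (∀ s, Complex.exp (L s) = a s) ∧
      (∀ s ≤ 1 / 8, L s = 0) ∧ ∀ s, 7 / 8 ≤ s → L s = L (7 / 8) := by
  have hda : ContDiff ℝ ∞ (deriv a) := (contDiff_infty_iff_deriv.1 ha).2
  have had : Differentiable ℝ a := (contDiff_infty_iff_deriv.1 ha).1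
  have hf : ContDiff ℝ ∞ fun s => deriv a s / a s := by
    simp only [div_eq_mul_inv]
    exact hda.mul (ha.inv h0)
  have hfc : Continuous fun s => deriv a s / a s := hf.continuous
  have hL : ∀ s, HasDerivAt (fun s => ∫ t in (0 : ℝ)..s, deriv a t / a t) (deriv a s / a s) s := fun s =>
    intervalIntegral.integral_hasDerivAt_right (hfc.intervalIntegrable _ _)
      hfc.aestronglyMeasurable.stronglyMeasurableAtFilter hfc.continuousAt
  have hz1 : ∀ s ≤ (1 / 8 : ℝ), deriv a s / a s = 0 := by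
    have hcl : IsClosed {s : ℝ | deriv a s / a s = 0} := isClosed_eq hfc continuous_const
    have hsub : Iio (1 / 8 : ℝ) ⊆ {s : ℝ | deriv a s / a s = 0} := by
      intro s hs'
      have : a =ᶠ[𝓝 s] fun _ => (1 : ℂ) := by
        filter_upwards [Iio_mem_nhds hs'] with t ht
        exact hs t ht.le
      show deriv a s / a s = 0
      rw [this.deriv_eq]
      simp
    intro s hs'
    have h2 : s ∈ closure (Iio (1 / 8 : ℝ)) := by
      rw [closure_Iio]
      exact hs'
    exact (hcl.closure_subset_iff.2 hsub) h2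
  have hz2 : ∀ s, (7 / 8 : ℝ) ≤ s → deriv a s / a s = 0 := by
    have hcl : IsClosed {s : ℝ | deriv a s / a s = 0} := isClosed_eq hfc continuous_const
    have hsub : Ioi (7 / 8 : ℝ) ⊆ {s : ℝ | deriv a s / a s = 0} := by
      intro s hs'
      have : a =ᶠ[𝓝 s] fun _ => (1 : ℂ) := by
        filter_upwards [Ioi_mem_nhds hs'] with t ht
        exact he t (le_of_lt ht)
      show deriv a s / a s = 0
      rw [this.deriv_eq]
      simp
    intro s hs'
    have h2 : s ∈ closure (Ioi (7 / 8 : ℝ)) := by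
      rw [closure_Ioi]
      exact hs'
    exact (hcl.closure_subset_iff.2 hsub) h2
  refine ⟨fun s => ∫ t in (0 : ℝ)..s, deriv a t / a t, ?_, ?_, ?_, ?_⟩
  · rw [contDiff_infty_iff_deriv]
    refine ⟨fun s => (hL s).differentiableAt, ?_⟩
    have : deriv (fun s => ∫ t in (0 : ℝ)..s, deriv a t / a t) = fun s => deriv a s / a s := by
      funext s
      exact (hL s).deriv
    rw [this]
    exact hf
  · have hconst : ∀ s, a s * Complex.exp (-∫ t in (0 : ℝ)..s, deriv a t / a t) = 1 := by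
      intro s
      have hd : ∀ s, HasDerivAt (fun s => a s * Complex.exp (-∫ t in (0 : ℝ)..s, deriv a t / a t)) 0 s := by
        intro s
        have h1 := (had s).hasDerivAt.mul ((hL s).neg.cexp)
        have h2 : deriv a s * Complex.exp (-∫ t in (0 : ℝ)..s, deriv a t / a t) +
            a s * (Complex.exp (-∫ t in (0 : ℝ)..s, deriv a t / a t) * -(deriv a s / a s)) = 0 := by
          have := h0 s
          field_simp
          ring
        rw [← h2]
        exact h1
      have h3 := is_const_of_deriv_eq_zero (fun s => (hd s).differentiableAt) (fun s => (hd s).deriv) s 0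
      simp only [intervalIntegral.integral_same, neg_zero, Complex.exp_zero, mul_one] at h3
      rw [h3]
      exact hs 0 (by norm_num)
    intro s
    have h4 := hconst s
    rw [Complex.exp_neg] at h4
    have h5 := Complex.exp_ne_zero (∫ t in (0 : ℝ)..s, deriv a t / a t)
    exact ((mul_inv_eq_one₀ h5).1 h4).symm
  · intro s hs'
    show (∫ t in (0 : ℝ)..s, deriv a t / a t) = 0
    have : (∫ t in (0 : ℝ)..s, deriv a t / a t) = ∫ t in (0 : ℝ)..s, (0 : ℂ) := by
      apply intervalIntegral.integral_congr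
      intro t ht
      have h6 : t ≤ max 0 s := ht.2
      exact hz1 t (h6.trans (max_le (by norm_num) hs'))
    rw [this]
    simp
  · intro s hs'
    show (∫ t in (0 : ℝ)..s, deriv a t / a t) = ∫ t in (0 : ℝ)..(7 / 8 : ℝ), deriv a t / a t
    rw [← intervalIntegral.integral_add_adjacent_intervals (hfc.intervalIntegrable 0 (7 / 8 : ℝ)) (hfc.intervalIntegrable (7 / 8 : ℝ) s)]
    have : (∫ t in (7 / 8 : ℝ)..s, deriv a t / a t) = ∫ t in (7 / 8 : ℝ)..s, (0 : ℂ) := by
      apply intervalIntegral.integral_congr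
      intro t ht
      have h6 : min (7 / 8 : ℝ) s ≤ t := ht.1
      exact hz2 t ((le_min le_rfl hs').trans h6)
    rw [this]
    simp

theorem loop_wind {ε : ℝ} (hε : 0 < ε) {a : ℝ → ℂ} (ha : ContDiff ℝ ∞ a) (h0 : ∀ s, a s ≠ 0) (hs : ∀ s ≤ 1 / 8, a s = 1)
    (he : ∀ s, 7 / 8 ≤ s → a s = 1) : ∃ k : ℤ, Relation.ReflTransGen (NearR ε) (fun s => mulL (a s)) (rotL k) := by
  obtain ⟨L, hLs, hLe, hL0, hL1⟩ := glc_log ha h0 hs he
  have h7 : Complex.exp (L (7 / 8)) = 1 := by
    rw [hLe]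
    exact he _ le_rfl
  obtain ⟨k, hk⟩ := Complex.exp_eq_one_iff.1 h7
  refine ⟨k, ?_⟩
  set c : ℝ → ℝ → ℂ := fun u s => Complex.exp ((1 - u : ℝ) * L s + (u : ℝ) * (((2 * Real.pi * (k * stp (1 / 8) (7 / 8) s) : ℝ) : ℂ) * Complex.I)) with hc
  have hst0 : ∀ s ≤ (1 / 8 : ℝ), stp (1 / 8) (7 / 8) s = 0 := fun s h => CSG.stp_zero (by norm_num) h
  have hst1 : ∀ s, (7 / 8 : ℝ) ≤ s → stp (1 / 8) (7 / 8) s = 1 := fun s h => CSG.stp_one (by norm_num) h
  have hcs : ∀ u, ContDiff ℝ ∞ (c u) := by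
    intro u
    rw [hc]
    have h8 : ContDiff ℝ ∞ fun s : ℝ => (((2 * Real.pi * (k * stp (1 / 8) (7 / 8) s) : ℝ) : ℂ)) :=
      Complex.ofRealCLM.contDiff.comp (contDiff_const.mul (contDiff_const.mul (CSG.stp_smooth _ _)))
    exact ((contDiff_const.mul hLs).add (contDiff_const.mul (h8.mul contDiff_const))).cexp
  have hcc : Continuous fun p : ℝ × ℝ => c p.1 p.2 := by
    rw [hc]
    have h8 : Continuous fun p : ℝ × ℝ => (((2 * Real.pi * (k * stp (1 / 8) (7 / 8) p.2) : ℝ) : ℂ)) :=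
      Complex.continuous_ofReal.comp (continuous_const.mul (continuous_const.mul ((CSG.stp_smooth _ _).continuous.comp continuous_snd)))
    have h9 : Continuous fun p : ℝ × ℝ => L p.2 := hLs.continuous.comp continuous_snd
    have h10 : Continuous fun p : ℝ × ℝ => ((1 - p.1 : ℝ) : ℂ) :=
      Complex.continuous_ofReal.comp (continuous_const.sub continuous_fst)
    have h11 : Continuous fun p : ℝ × ℝ => ((p.1 : ℝ) : ℂ) := Complex.continuous_ofReal.comp continuous_fst
    exact Complex.continuous_exp.comp ((h10.mul h9).add (h11.mul (h8.mul continuous_const)))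
  have hc0 : ∀ u, ∀ s ≤ (1 / 8 : ℝ), c u s = 1 := by
    intro u s h
    simp only [hc, hL0 s h, hst0 s h]
    simp
  have hc1 : ∀ u, ∀ s, (7 / 8 : ℝ) ≤ s → c u s = 1 := by
    intro u s h
    have h12 : ((1 - u : ℝ) : ℂ) * L s + (u : ℝ) * (((2 * Real.pi * (k * stp (1 / 8) (7 / 8) s) : ℝ) : ℂ) * Complex.I) =
        k * (2 * Real.pi * Complex.I) := by
      rw [hL1 s h, hk, hst1 s h]
      push_cast
      ring
    simp only [hc]
    rw [h12]
    exact Complex.exp_eq_one_iff.2 ⟨k, rfl⟩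
  have key := chain_of_homotopy hε (D := fun u s => mulL (c u s)) (glc_cont hcc) (by
    intro u _
    refine ⟨⟨glc_smooth (hcs u), fun s => glc_bij (Complex.exp_ne_zero _), ?_, ?_⟩, ?_⟩
    · intro s h
      show mulL (c u s) = _
      rw [hc0 u s h, glc_one]
    · intro s h
      show mulL (c u s) = mulL (c u 1)
      rw [hc1 u s h, hc1 u 1 (by norm_num)]
    · show mulL (c u 1) = _
      rw [hc1 u 1 (by norm_num), glc_one])
  have e0 : (fun s => mulL (c 0 s)) = fun s => mulL (a s) := by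
    funext s
    rw [← hLe s]
    simp [hc]
  have e1 : (fun s => mulL (c 1 s)) = rotL k := by
    funext s
    show _ = mulL (Complex.exp ((2 * Real.pi * (k * stp (1 / 8) (7 / 8) s) : ℝ) * Complex.I))
    simp [hc]
  rw [← e0, ← e1]
  exact key

end Pool.Agent.NHP
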