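import Pool.Agent.NHP.Nea

open scoped Manifold ContDiff Topology
open Set Filter
open Pool.Agent.CSG (stp)
open Pool.Agent.RSG (E3 ex Thick)
open Pool.Agent.KNT (Dom Str Str2 BalC bmp)

namespace Pool.Agent.NHP

theorem gln_inv {A : E →L[ℝ] E} (h : Function.Bijective A) :
    (∀ v, A.inverse (A v) = v) ∧ (∀ v, A (A.inverse v) = v) ∧
      ContDiffAt ℝ ∞ (ContinuousLinearMap.inverse : (E →L[ℝ] E) → (E →L[ℝ] E)) A := by
  have hk : LinearMap.ker A.toLinearMap = ⊥ := LinearMap.ker_eq_bot.2 h.1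
  have hr : LinearMap.range A.toLinearMap = ⊤ := LinearMap.range_eq_top.2 h.2
  have he : ((ContinuousLinearEquiv.ofBijective A hk hr : E ≃L[ℝ] E) : E →L[ℝ] E) = A :=
    ContinuousLinearEquiv.coe_ofBijective A hk hr
  generalize ContinuousLinearEquiv.ofBijective A hk hr = e at he
  subst he
  refine ⟨fun v => ?_, fun v => ?_, contDiffAt_map_inverse e⟩
  · rw [ContinuousLinearMap.inverse_equiv]; simp
  · rw [ContinuousLinearMap.inverse_equiv]; simp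

theorem gln_step {ε₀ : ℝ} (hnear : ∀ (A : ℝ → E →L[ℝ] E), ContDiff ℝ ∞ A →
    (∀ s, ‖A s - ContinuousLinearMap.id ℝ E‖ ≤ ε₀) → ∀ δ : ℝ, 0 < δ → ∃ L : ℝ → Equiv.Perm E,
      ContDiff ℝ ∞ (fun p : ℝ × E => L p.1 p.2) ∧ ContDiff ℝ ∞ (fun p : ℝ × E => (L p.1).symm p.2) ∧
      ∀ s q, L s q = q + bum δ q • (A s q - q)) (hε : 0 < ε₀)
    {D D' : ℝ → E →L[ℝ] E} (hD : ContDiff ℝ ∞ D) (hD' : ContDiff ℝ ∞ D') (hb : ∀ s, Function.Bijective (D s))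
    (h0 : D' 0 = D 0) {B : ℝ} (hB : 0 < B) (hDB : ∀ s, ‖D s‖ ≤ B)
    (hn : ∀ s v, ‖D' s v - D s v‖ ≤ ε₀ * ‖D s v‖) {δ : ℝ} (hδ : 0 < δ) {L : ℝ → Equiv.Perm E}
    (hL : PushE (Bl δ) L) (hg : ∃ ρ : ℝ, 0 < ρ ∧ ∀ s, ∀ q ∈ Bl ρ, L s q = D s q) :
    ∃ L' : ℝ → Equiv.Perm E, PushE (Bl δ) L' ∧ (∃ ρ : ℝ, 0 < ρ ∧ ∀ s, ∀ q ∈ Bl ρ, L' s q = D' s q) ∧
      ∀ s, D' s = D s → L' s = L s := by
  set A : ℝ → E →L[ℝ] E := fun s => (D' s).comp (D s).inverse with hA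
  have hAs : ContDiff ℝ ∞ A := by
    refine ContDiff.clm_comp hD' ?_
    rw [contDiff_iff_contDiffAt]
    intro s
    exact (gln_inv (hb s)).2.2.comp s hD.contDiffAt
  have hAD : ∀ s v, A s (D s v) = D' s v := by
    intro s v
    simp only [hA, ContinuousLinearMap.comp_apply, (gln_inv (hb s)).1]
  have hAn : ∀ s, ‖A s - ContinuousLinearMap.id ℝ E‖ ≤ ε₀ := by
    intro s
    refine ContinuousLinearMap.opNorm_le_bound _ hε.le fun v => ?_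
    obtain ⟨u, rfl⟩ := (hb s).2 v
    have := hn s u
    simpa [hAD] using this
  obtain ⟨M, hM1, hM2, hM3⟩ := hnear A hAs hAn δ hδ
  have hMid : ∀ s, D' s = D s → M s = Equiv.refl E := by
    intro s hs
    ext1 q
    obtain ⟨u, rfl⟩ := (hb s).2 q
    rw [hM3, hAD, hs]
    simp
  obtain ⟨ρ, hρ, hρL⟩ := hg
  obtain ⟨C, hC, hCO, hCL⟩ := hL.supp
  refine ⟨fun s => (L s).trans (M s), ⟨?_, ?_, ?_, ?_⟩, ?_, ?_⟩
  · exact hM1.comp (contDiff_fst.prodMk hL.smooth)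
  · exact hL.smooth_symm.comp (contDiff_fst.prodMk hM2)
  · show (L 0).trans (M 0) = _
    rw [hMid 0 h0, hL.zero]
    rfl
  · refine ⟨C ∪ {q : E | nr q ≤ (δ / 2) ^ 2}, hC.union (isCompact_Bl (δ / 2)), ?_, ?_⟩
    · refine union_subset hCO fun q hq => ?_
      have hq' : nr q ≤ (δ / 2) ^ 2 := hq
      show nr q < δ ^ 2
      nlinarith [sq_pos_of_pos hδ]
    · intro s x hx
      rw [mem_union, not_or] at hx
      have hx2 : ¬ nr x ≤ (δ / 2) ^ 2 := hx.2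
      show M s (L s x) = x
      rw [hCL s x hx.1, hM3, bum_zero hδ (by nlinarith [not_le.1 hx2])]
      simp
  · refine ⟨min ρ (δ / (8 * B)), lt_min hρ (by positivity), fun s q hq => ?_⟩
    have h1 : q ∈ Bl ρ := Bl_mono (lt_min hρ (by positivity)) (min_le_left _ _) hq
    have h2 : q ∈ Bl (δ / (8 * B)) := Bl_mono (lt_min hρ (by positivity)) (min_le_right _ _) hq
    have h3 : nr q < (δ / (8 * B)) ^ 2 := h2
    show M s (L s q) = D' s q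
    rw [hρL s q h1, hM3, hAD]
    have h4 : nr (D s q) ≤ δ ^ 2 / 16 := by
      have h5 := (nr_le (D s q)).2
      have h6 := (nr_le q).1
      have h7 : ‖D s q‖ ≤ B * ‖q‖ := (D s).le_of_opNorm_le (hDB s) q
      have h8 : ‖D s q‖ ^ 2 ≤ (B * ‖q‖) ^ 2 := pow_le_pow_left₀ (norm_nonneg _) h7 2
      have h9 : B ^ 2 * (δ / (8 * B)) ^ 2 = δ ^ 2 / 64 := by
        field_simp
        norm_num
      have h10 : B ^ 2 * ‖q‖ ^ 2 ≤ B ^ 2 * (δ / (8 * B)) ^ 2 :=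
        mul_le_mul_of_nonneg_left (h6.trans h3.le) (sq_nonneg B)
      nlinarith [sq_nonneg δ]
    rw [bum_one hδ h4]
    simp
  · intro s hs
    show (L s).trans (M s) = L s
    rw [hMid s hs]
    rfl

theorem gln_bdd {D : ℝ → E →L[ℝ] E} (hD : GLp D) : ∃ B : ℝ, 0 < B ∧ ∀ s, ‖D s‖ ≤ B := by
  obtain ⟨B, hB⟩ := (isCompact_Icc (a := (0 : ℝ)) (b := 1)).exists_bound_of_continuousOn
    (f := D) hD.smooth.continuous.continuousOn
  refine ⟨max B 1, by positivity, fun s => ?_⟩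
  rcases le_total s (1 / 8) with h | h
  · rw [hD.start s h, ← hD.start 0 (by norm_num)]
    exact (hB 0 ⟨le_rfl, by norm_num⟩).trans (le_max_left _ _)
  · rcases le_total s (7 / 8) with h' | h'
    · exact (hB s ⟨by linarith, by linarith⟩).trans (le_max_left _ _)
    · rw [hD.stop s h']
      exact (hB 1 ⟨by norm_num, le_rfl⟩).trans (le_max_left _ _)

theorem lift_near : ∃ ε₀ : ℝ, 0 < ε₀ ∧ ∀ D D' : ℝ → E →L[ℝ] E, GLp D → D 1 = ContinuousLinearMap.id ℝ E → NearR ε₀ D D' →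
    ∀ (δ : ℝ) (L : ℝ → Equiv.Perm E), 0 < δ → Lif D δ L → ∃ L' : ℝ → Equiv.Perm E, Lif D' δ L' ∧ L' 1 = L 1 := by
  obtain ⟨ε₀, hε, hnear⟩ := near_lin
  refine ⟨ε₀, hε, fun D D' hD hD1 hD' δ L hδ hL => ?_⟩
  obtain ⟨B, hB, hDB⟩ := gln_bdd hD
  obtain ⟨L', h1, h2, h3⟩ := gln_step hnear hε hD.smooth hD'.1.smooth hD.bij
    (by rw [hD'.1.start 0 (by norm_num), hD.start 0 (by norm_num)]) hB hDB hD'.2.2 hδ hL.push hL.germ
  exact ⟨L', ⟨h1, h2⟩, h3 1 (by rw [hD'.2.1, hD1])⟩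

end Pool.Agent.NHP
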