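import Pool.Agent.NHP.SmH

/-!
# NHP/Emh: homotopic smooth paths are related by elementary changes (difficulty 3)

`H` from `exists_smooth_homotopy`.  Lebesgue number for `[0, 1] × [0, 1]` and the charts `exists_chart`: `n ≥ 16` such that for all `k, j < n` there is `β` with `β '' ball 0 2 ⊆ Y` and
`H (s, t) ∈ β '' ball 0 1` for `s ∈ [k/n, (k+1)/n]`, `t ∈ [j/n, (j+2)/n]`.
`c_{k,j} t = H (k/n + (1 - stp (j/n) ((j+1)/n) t) / n, t)`: `SPth`; `c_{k,0} = H (k/n, ·)` (`t ≤ 1/n ≤ 1/8`: constant), `c_{k,n} = H ((k+1)/n, ·)` (`t ≥ 1`: constant).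
`c_{k,j}` and `c_{k,j+1}` agree off `(j/n, (j+2)/n)`: `EMv` with `a = j/n`, `b = (j+2)/n` if `0 < a` and `b < 1`; otherwise the two paths are equal (constant part).
-/

open scoped Manifold ContDiff Topology
open Set Filter
open Pool.Agent.CSG (stp)
open Pool.Agent.RSG (E3 ex Thick)
open Pool.Agent.KNT (Dom Str Str2 BalC bmp)

namespace Pool.Agent.NHP

variable {N : Type*} [TopologicalSpace N] [ChartedSpace E3 N] [IsManifold (𝓡 3) ∞ N] [T2Space N]

theorem ele_of_homotopic {Y : Set N} (hY : IsOpen Y) {y y' : Y} {c c' : ℝ → N} (hc : SPth Y y y' c) (hc' : SPth Y y y' c')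
    {γ γ' : Path y y'} (hγ : Rep c γ) (hγ' : Rep c' γ') (h : γ.Homotopic γ') :
    Relation.ReflTransGen (fun a b => SPth Y y y' b ∧ EMv Y a b) c c' := by
  classical
  obtain ⟨H, hHs, hH0, hH1, hlo, hhi, hHY⟩ := exists_smooth_homotopy hY hc hc' hγ hγ' h
  have hch : ∀ p : ℝ × ℝ, ∃ β : E → N, Cht (Metric.ball 0 2) β ∧
      β '' Metric.ball 0 2 ⊆ Y ∧ β 0 = H p := fun p => exists_chart hY (hHY p)
  choose β hβ1 hβ2 hβ3 using hch
  have hβo : ∀ p, IsOpen (β p '' Metric.ball (0 : E) 1) := fun p =>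
    ((hβ1 p).mono Metric.isOpen_ball (Metric.ball_subset_ball (by norm_num))).img
      Metric.isOpen_ball subset_rfl
  have hI : IsCompact (Icc (0 : ℝ) 1 ×ˢ Icc (0 : ℝ) 1) := isCompact_Icc.prod isCompact_Icc
  obtain ⟨δ, hδ, hδ2⟩ := lebesgue_number_lemma_of_metric (c := fun p : ℝ × ℝ =>
    H ⁻¹' (β p '' Metric.ball (0 : E) 1)) hI (fun p => (hβo p).preimage hHs.continuous) (by
      intro p _
      exact mem_iUnion.2 ⟨p, 0, Metric.mem_ball_self one_pos, hβ3 p⟩)
  obtain ⟨n, hn1, hn2⟩ : ∃ n : ℕ, 16 ≤ n ∧ 2 / (n : ℝ) < δ := by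
    obtain ⟨m, hm⟩ := exists_nat_gt (2 / δ)
    refine ⟨m + 16, by omega, ?_⟩
    have h1 : (0 : ℝ) < ((m + 16 : ℕ) : ℝ) := by positivity
    rw [div_lt_iff₀ h1]
    rw [div_lt_iff₀ hδ] at hm
    push_cast
    nlinarith
  have hn0 : (0 : ℝ) < n := by
    have : (16 : ℝ) ≤ n := by exact_mod_cast hn1
    linarith
  have hn16 : (16 : ℝ) ≤ n := by exact_mod_cast hn1
  have hinv : 1 / (n : ℝ) ≤ 1 / 16 := one_div_le_one_div_of_le (by norm_num) hn16
  have hbox : ∀ k j : ℕ, k ≤ n → j ≤ n → ∃ b : E → N, Cht (Metric.ball 0 2) b ∧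
      b '' Metric.ball 0 2 ⊆ Y ∧ ∀ s t : ℝ, (k : ℝ) / n ≤ s → s ≤ (k : ℝ) / n + 1 / n →
        (j : ℝ) / n ≤ t → t ≤ ((j : ℝ) + 2) / n → H (s, t) ∈ b '' Metric.ball 0 1 := by
    intro k j hk hj
    have h1 : (((k : ℝ) / n, (j : ℝ) / n) : ℝ × ℝ) ∈ Icc (0 : ℝ) 1 ×ˢ Icc (0 : ℝ) 1 := by
      have hk' : (k : ℝ) ≤ n := by exact_mod_cast hk
      have hj' : (j : ℝ) ≤ n := by exact_mod_cast hj
      exact ⟨⟨by positivity, (div_le_one hn0).2 hk'⟩, ⟨by positivity, (div_le_one hn0).2 hj'⟩⟩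
    obtain ⟨p, hp⟩ := hδ2 _ h1
    refine ⟨β p, hβ1 p, hβ2 p, ?_⟩
    intro s t h2 h3 h4 h5
    refine hp ?_
    rw [Metric.mem_ball, Prod.dist_eq, max_lt_iff]
    have h6 : 1 / (n : ℝ) ≤ 2 / n := by
      rw [div_le_div_iff_of_pos_right hn0]
      norm_num
    have h7 : ((j : ℝ) + 2) / n = (j : ℝ) / n + 2 / n := by ring
    constructor
    · rw [Real.dist_eq, abs_lt]
      constructor <;> dsimp only <;> linarith
    · rw [Real.dist_eq, abs_lt]
      constructor <;> dsimp only <;> linarith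
  obtain ⟨cc, hcc⟩ : ∃ cc : ℕ → ℕ → ℝ → N, cc = fun (k j : ℕ) (t : ℝ) =>
      H ((k : ℝ) / n + (1 - stp ((j : ℝ) / n) (((j : ℝ) + 1) / n) t) / n, t) := ⟨_, rfl⟩
  have hccv : ∀ k j t, cc k j t =
      H ((k : ℝ) / n + (1 - stp ((j : ℝ) / n) (((j : ℝ) + 1) / n) t) / n, t) := by
    intro k j t
    rw [hcc]
  have hlt : ∀ j : ℕ, (j : ℝ) / n < ((j : ℝ) + 1) / n := by
    intro j
    rw [div_lt_div_iff_of_pos_right hn0]
    linarith
  have hS : ∀ k j, SPth Y y y' (cc k j) := by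
    intro k j
    refine ⟨?_, ?_, ?_, ?_⟩
    · rw [hcc]
      have h1 : ContDiff ℝ ∞ fun t : ℝ =>
          (((k : ℝ) / n + (1 - stp ((j : ℝ) / n) (((j : ℝ) + 1) / n) t) / n, t) : ℝ × ℝ) :=
        (contDiff_const.add ((contDiff_const.sub (CSG.stp_smooth _ _)).div_const _)).prodMk
          contDiff_id
      exact ContMDiff.comp (g := H) hHs h1.contMDiff
    · intro t ht
      rw [hccv]
      exact hlo _ t ht
    · intro t ht
      rw [hccv]
      exact hhi _ t ht
    · intro t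
      rw [hccv]
      exact hHY _
  -- two consecutive paths agree off a short interval
  have hagree : ∀ k j : ℕ, ∀ t ∉ Ioo ((j : ℝ) / n) (((j : ℝ) + 2) / n),
      cc k (j + 1) t = cc k j t := by
    intro k j t ht
    have e1 : ((j + 1 : ℕ) : ℝ) / n = ((j : ℝ) + 1) / n := by push_cast; ring
    have e2 : (((j + 1 : ℕ) : ℝ) + 1) / n = ((j : ℝ) + 2) / n := by push_cast; ring
    have h1 : ((j : ℝ) + 1) / n < ((j : ℝ) + 2) / n := by
      rw [div_lt_div_iff_of_pos_right hn0]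
      linarith
    have h0 := hlt j
    rw [hccv, hccv, e1, e2]
    rcases le_or_gt t ((j : ℝ) / n) with h2 | h2
    · rw [CSG.stp_zero h1 (by linarith), CSG.stp_zero h0 h2]
    · have h3 : ((j : ℝ) + 2) / n ≤ t := by
        by_contra hcon
        exact ht ⟨h2, not_le.1 hcon⟩
      rw [CSG.stp_one h1 h3, CSG.stp_one h0 (by linarith)]
  have hmem : ∀ k j j' : ℕ, ∀ b : E → N, (∀ s t : ℝ, (k : ℝ) / n ≤ s → s ≤ (k : ℝ) / n + 1 / n →
      (j : ℝ) / n ≤ t → t ≤ ((j : ℝ) + 2) / n → H (s, t) ∈ b '' Metric.ball 0 1) →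
      ∀ t ∈ Icc ((j : ℝ) / n) (((j : ℝ) + 2) / n), cc k j' t ∈ b '' Metric.ball 0 1 := by
    intro k j j' b hb t ht
    rw [hccv]
    have h1 := CSG.stp_nonneg ((j' : ℝ) / n) (((j' : ℝ) + 1) / n) t
    have h2 := CSG.stp_le_one ((j' : ℝ) / n) (((j' : ℝ) + 1) / n) t
    have h3 : 0 ≤ (1 - stp ((j' : ℝ) / n) (((j' : ℝ) + 1) / n) t) / n :=
      div_nonneg (by linarith) hn0.le
    have h4 : (1 - stp ((j' : ℝ) / n) (((j' : ℝ) + 1) / n) t) / n ≤ 1 / n := by
      rw [div_le_div_iff_of_pos_right hn0]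
      linarith
    exact hb _ _ (by linarith) (by linarith) ht.1 ht.2
  have hstep : ∀ k j : ℕ, k ≤ n → j ≤ n →
      Relation.ReflTransGen (fun a b => SPth Y y y' b ∧ EMv Y a b) (cc k j) (cc k (j + 1)) := by
    intro k j hk hj
    by_cases hj1 : 0 < j ∧ j + 2 < n
    · obtain ⟨b, hb1, hb2, hb3⟩ := hbox k j hk hj
      refine Relation.ReflTransGen.single ⟨hS k (j + 1), b, (j : ℝ) / n, ((j : ℝ) + 2) / n, hb1,
        hb2, ?_, ?_, ?_, hagree k j, ?_⟩
      · have : (0 : ℝ) < j := by exact_mod_cast hj1.1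
        positivity
      · rw [div_lt_div_iff_of_pos_right hn0]
        linarith
      · rw [div_lt_one hn0]
        exact_mod_cast hj1.2
      · intro t ht
        exact ⟨hmem k j j b hb3 t ht, hmem k j (j + 1) b hb3 t ht⟩
    · have h1 : cc k j = cc k (j + 1) := by
        funext t
        by_cases ht : t ∈ Ioo ((j : ℝ) / n) (((j : ℝ) + 2) / n)
        · have h2 : (j : ℝ) / n < t := ht.1
          have h3 : t < ((j : ℝ) + 2) / n := ht.2
          have h7 : ((j : ℝ) + 2) / n = (j : ℝ) / n + 2 * (1 / n) := by ring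
          by_cases hj0 : 0 < j
          · have h4 : n ≤ j + 2 := by
              by_contra hcon
              exact hj1 ⟨hj0, by omega⟩
            have h5 : (n : ℝ) ≤ j + 2 := by exact_mod_cast h4
            have h6 : 1 ≤ ((j : ℝ) + 2) / n := (one_le_div hn0).2 h5
            have h8 : 7 / 8 ≤ t := by linarith
            rw [(hS k j).stop t h8, (hS k (j + 1)).stop t h8]
          · have h4 : j = 0 := by omega
            have h8 : t ≤ 1 / 8 := by
              rw [h7, h4, Nat.cast_zero, zero_div] at h3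
              linarith
            rw [(hS k j).start t h8, (hS k (j + 1)).start t h8]
        · exact (hagree k j t ht).symm
      rw [h1]
  have hcc0 : ∀ k : ℕ, cc k 0 = fun t => H ((k : ℝ) / n, t) := by
    intro k
    funext t
    rw [hccv]
    rcases le_or_gt t (1 / 8) with h1 | h1
    · rw [hlo _ t h1, hlo _ t h1]
    · have h2 : (((0 : ℕ) : ℝ) + 1) / n ≤ t := by
        rw [Nat.cast_zero, zero_add]
        linarith
      rw [CSG.stp_one (hlt 0) h2, sub_self, zero_div, add_zero]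
  have hccn : ∀ k : ℕ, cc k n = fun t => H (((k + 1 : ℕ) : ℝ) / n, t) := by
    intro k
    funext t
    rw [hccv]
    have hnn : (n : ℝ) / n = 1 := div_self hn0.ne'
    rcases le_or_gt t 1 with h1 | h1
    · rw [CSG.stp_zero (hlt n) (by rw [hnn]; exact h1), sub_zero]
      congr 2
      push_cast
      ring
    · rw [hhi _ t (by linarith), hhi _ t (by linarith)]
  have hrow : ∀ k : ℕ, k ≤ n → ∀ m : ℕ, m ≤ n →
      Relation.ReflTransGen (fun a b => SPth Y y y' b ∧ EMv Y a b) (cc k 0) (cc k m) := by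
    intro k hk m
    induction m with
    | zero => intro _; exact Relation.ReflTransGen.refl
    | succ m ih =>
      intro hm
      exact (ih (by omega)).trans (hstep k m hk (by omega))
  have hcol : ∀ k : ℕ, k ≤ n → Relation.ReflTransGen (fun a b => SPth Y y y' b ∧ EMv Y a b)
      (fun t => H (((0 : ℕ) : ℝ) / n, t)) (fun t => H ((k : ℝ) / n, t)) := by
    intro k
    induction k with
    | zero => intro _; exact Relation.ReflTransGen.refl
    | succ k ih =>
      intro hk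
      have h1 := hrow k (by omega) n le_rfl
      rw [hcc0, hccn] at h1
      exact (ih (by omega)).trans h1
  have hfin := hcol n le_rfl
  have e0 : (fun t => H (((0 : ℕ) : ℝ) / n, t)) = c := by
    funext t
    rw [Nat.cast_zero, zero_div]
    exact hH0 t
  have e1 : (fun t => H ((n : ℝ) / n, t)) = c' := by
    funext t
    rw [div_self hn0.ne']
    exact hH1 t
  rw [e0, e1] at hfin
  exact hfin

end Pool.Agent.NHP
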