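import Pool.Agent.NHP.Fol
import Pool.Agent.NHP.Emh

/-!
# NHP/Lft: a push with null-homotopic trace can be replaced by a push which fixes the point (difficulty 2)

`W s = V (stp (1/8) (7/8) s)`: `Push Y W` (`Push.rep`), `W 1 = V 1`, `c t = W t r` is `SPth Y r r` (smooth: composition of `V.smooth` with `t ↦ (φ t, r)`), and `Rep c (Path.refl r)` (`follows_rep`).
`c' = fun _ => r` is `SPth`, `Rep c' (Path.refl r)`.  `ele_of_homotopic` and induction with `ele_push` (head induction: every path of the chain is `SPth`).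
-/

open scoped Manifold ContDiff Topology
open Set Filter
open Pool.Agent.CSG (stp)
open Pool.Agent.RSG (E3 ex Thick)
open Pool.Agent.KNT (Dom Str Str2 BalC bmp)

namespace Pool.Agent.NHP

variable {N : Type*} [TopologicalSpace N] [ChartedSpace E3 N] [IsManifold (𝓡 3) ∞ N] [T2Space N]

theorem fix_trace {Y : Set N} (hY : IsOpen Y) {r : Y} {V : ℝ → Equiv.Perm N} (hV : Push Y V) (h : Follows V (Path.refl r)) :
    ∃ V' : ℝ → Equiv.Perm N, Push Y V' ∧ V' 1 = V 1 ∧ ∀ s, V' s (r : N) = r := by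
  have h8 : (1 / 8 : ℝ) < 7 / 8 := by norm_num
  have hs0 : stp (1 / 8) (7 / 8) 0 = 0 := Pool.Agent.CSG.stp_zero h8 (by norm_num)
  have hs1 : stp (1 / 8) (7 / 8) 1 = 1 := Pool.Agent.CSG.stp_one h8 (by norm_num)
  have hsm : ContDiff ℝ ∞ (stp (1 / 8) (7 / 8)) := Pool.Agent.CSG.stp_smooth _ _
  have hW : Push Y fun s => V (stp (1 / 8) (7 / 8) s) := hV.rep hsm hs0
  have hc : SPth Y (r : N) (r : N) fun t => V (stp (1 / 8) (7 / 8) t) (r : N) := by
    refine ⟨?_, ?_, ?_, ?_⟩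
    · have h1 : ContMDiff 𝓘(ℝ, ℝ) (𝓘(ℝ, ℝ).prod (𝓡 3)) ∞ fun t : ℝ => (t, (r : N)) :=
        contMDiff_id.prodMk contMDiff_const
      exact hW.smooth.comp h1
    · intro t ht
      show V (stp (1 / 8) (7 / 8) t) (r : N) = r
      rw [Pool.Agent.CSG.stp_zero h8 ht, hV.zero]
      rfl
    · intro t ht
      show V (stp (1 / 8) (7 / 8) t) (r : N) = r
      rw [Pool.Agent.CSG.stp_one h8 ht]
      exact h.endpt
    · intro t
      exact hW.mem t r.2
  have hc' : SPth Y (r : N) (r : N) fun _ => (r : N) :=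
    ⟨contMDiff_const, fun _ _ => rfl, fun _ _ => rfl, fun _ => r.2⟩
  have hr : Rep (fun t => V (stp (1 / 8) (7 / 8) t) (r : N)) (Path.refl r) :=
    follows_rep hV hsm.continuous hs0 hs1 h
  have hr' : Rep (fun _ => (r : N)) (Path.refl r) := ⟨Path.refl r, fun _ => rfl, Path.Homotopic.refl _⟩
  have hR := ele_of_homotopic hY hc hc' hr hr' (Path.Homotopic.refl _)
  have key : ∀ b : ℝ → N, Relation.ReflTransGen (fun a b => SPth Y (r : N) (r : N) b ∧ EMv Y a b)
      (fun t => V (stp (1 / 8) (7 / 8) t) (r : N)) b → SPth Y (r : N) (r : N) b ∧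
        ∃ V' : ℝ → Equiv.Perm N, Push Y V' ∧ (∀ t, V' t (r : N) = b t) ∧ V' 1 = V 1 := by
    intro b hb
    induction hb with
    | refl => exact ⟨hc, fun s => V (stp (1 / 8) (7 / 8) s), hW, fun _ => rfl, by show V (stp (1 / 8) (7 / 8) 1) = V 1; rw [hs1]⟩
    | tail _ hst ih =>
      obtain ⟨h1, V', h2, h3, h4⟩ := ih
      obtain ⟨V'', h5, h6, h7⟩ := ele_push h2 h1 hst.1 hst.2 h3
      exact ⟨hst.1, V'', h5, h6, h7.trans h4⟩
  obtain ⟨_, V', h1, h2, h3⟩ := key _ hR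
  exact ⟨V', h1, h3, h2⟩

end Pool.Agent.NHP
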