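import Pool.Agent.NHP.Gld

/-!
# NHP/Rot: the exact lift of the loop of rotations (difficulty 2)

`rotP k δ s (w, x) = (ex (k * stp (1/8) (7/8) s * bum δ (w, x)) * w, x)`: it preserves `nr`, hence `bum`, so the inverse is the same with `-k`; smooth; `= id` where `bum = 0` (`nr ≥ δ²/4`) and for
`s = 0`; `= rotL k s` where `bum = 1`.
-/

open scoped Manifold ContDiff Topology
open Set Filter
open Pool.Agent.CSG (stp)
open Pool.Agent.RSG (E3 ex Thick)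
open Pool.Agent.KNT (Dom Str Str2 BalC bmp)

namespace Pool.Agent.NHP

theorem Rot_norm_ex (x : ℝ) : ‖ex x‖ = 1 := by
  unfold ex
  exact Complex.norm_exp_ofReal_mul_I _

theorem Rot_ex_add (x y : ℝ) : ex (x + y) = ex x * ex y := by
  unfold ex
  rw [← Complex.exp_add]
  congr 1
  push_cast
  ring

theorem Rot_ex_zero : ex 0 = 1 := by
  unfold ex
  simp

theorem Rot_ex_neg_mul (x : ℝ) : ex (-x) * ex x = 1 := by
  rw [← Rot_ex_add, neg_add_cancel, Rot_ex_zero]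

theorem Rot_ex_int (k : ℤ) : ex (k : ℝ) = 1 := by
  unfold ex
  rw [Complex.exp_eq_one_iff]
  refine ⟨k, ?_⟩
  push_cast
  ring

theorem Rot_ex_smooth : ContDiff ℝ ∞ ex := by
  unfold ex
  exact ((Complex.ofRealCLM.contDiff.comp (contDiff_const.mul contDiff_id)).mul contDiff_const).cexp

theorem Rot_nr (a : ℂ) (ha : ‖a‖ = 1) (q : E) : nr (a * q.1, q.2) = nr q := by
  unfold nr
  rw [norm_mul, ha, one_mul]

theorem Rot_bum (δ : ℝ) (a : ℂ) (ha : ‖a‖ = 1) (q : E) : bum δ (a * q.1, q.2) = bum δ q := by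
  unfold bum
  rw [Rot_nr a ha]

/-- rotation of the concentric spheres -/
noncomputable def rotP (k : ℤ) (δ s : ℝ) : Equiv.Perm E where
  toFun q := (ex (k * stp (1 / 8) (7 / 8) s * bum δ q) * q.1, q.2)
  invFun q := (ex (-(k * stp (1 / 8) (7 / 8) s * bum δ q)) * q.1, q.2)
  left_inv q := by
    show (ex (-(k * stp (1 / 8) (7 / 8) s * bum δ (ex (k * stp (1 / 8) (7 / 8) s * bum δ q) * q.1, q.2))) *
      (ex (k * stp (1 / 8) (7 / 8) s * bum δ q) * q.1), q.2) = q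
    rw [Rot_bum δ _ (Rot_norm_ex _), ← mul_assoc, Rot_ex_neg_mul, one_mul]
  right_inv q := by
    show (ex (k * stp (1 / 8) (7 / 8) s * bum δ (ex (-(k * stp (1 / 8) (7 / 8) s * bum δ q)) * q.1, q.2)) *
      (ex (-(k * stp (1 / 8) (7 / 8) s * bum δ q)) * q.1), q.2) = q
    rw [Rot_bum δ _ (Rot_norm_ex _), ← mul_assoc, mul_comm (ex _) (ex _), Rot_ex_neg_mul, one_mul]

theorem rotP_apply (k : ℤ) (δ s : ℝ) (q : E) :
    rotP k δ s q = (ex (k * stp (1 / 8) (7 / 8) s * bum δ q) * q.1, q.2) := rfl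

theorem Rot_symm_apply (k : ℤ) (δ s : ℝ) (q : E) :
    (rotP k δ s).symm q = (ex (-(k * stp (1 / 8) (7 / 8) s * bum δ q)) * q.1, q.2) := rfl

theorem Rot_stp_smooth : ContDiff ℝ ∞ fun q : ℝ × E => stp (1 / 8) (7 / 8) q.1 :=
  (Pool.Agent.CSG.stp_smooth _ _).comp contDiff_fst

theorem Rot_arg_smooth (k : ℤ) (δ : ℝ) : ContDiff ℝ ∞ fun q : ℝ × E => k * stp (1 / 8) (7 / 8) q.1 * bum δ q.2 :=
  (contDiff_const.mul Rot_stp_smooth).mul ((bum_smooth δ).comp contDiff_snd)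

theorem rotP_lif (k : ℤ) {δ : ℝ} (hδ : 0 < δ) : Lif (rotL k) δ (rotP k δ) := by
  have h8 : (1 / 8 : ℝ) < 7 / 8 := by norm_num
  refine ⟨⟨?_, ?_, ?_, ?_⟩, ?_⟩
  · have h1 : ContDiff ℝ ∞ fun q : ℝ × E => ex (k * stp (1 / 8) (7 / 8) q.1 * bum δ q.2) :=
      Rot_ex_smooth.comp (Rot_arg_smooth k δ)
    have h2 : ContDiff ℝ ∞ fun q : ℝ × E => q.2.1 := contDiff_fst.comp contDiff_snd
    have h3 : ContDiff ℝ ∞ fun q : ℝ × E => q.2.2 := contDiff_snd.comp contDiff_snd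
    exact (h1.mul h2).prodMk h3
  · have h1 : ContDiff ℝ ∞ fun q : ℝ × E => ex (-(k * stp (1 / 8) (7 / 8) q.1 * bum δ q.2)) :=
      Rot_ex_smooth.comp (Rot_arg_smooth k δ).neg
    have h2 : ContDiff ℝ ∞ fun q : ℝ × E => q.2.1 := contDiff_fst.comp contDiff_snd
    have h3 : ContDiff ℝ ∞ fun q : ℝ × E => q.2.2 := contDiff_snd.comp contDiff_snd
    exact (h1.mul h2).prodMk h3
  · ext q : 1
    rw [rotP_apply, Pool.Agent.CSG.stp_zero h8 (by norm_num), mul_zero, zero_mul, Rot_ex_zero, one_mul]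
    rfl
  · refine ⟨{q : E | nr q ≤ (δ / 2) ^ 2}, isCompact_Bl _, ?_, ?_⟩
    · intro q hq
      have hq' : nr q ≤ (δ / 2) ^ 2 := hq
      show nr q < δ ^ 2
      have : (δ / 2) ^ 2 < δ ^ 2 := by nlinarith
      linarith
    · intro s q hq
      have hq' : (δ / 2) ^ 2 < nr q := not_le.1 hq
      have h0 : bum δ q = 0 := bum_zero hδ (by nlinarith)
      rw [rotP_apply, h0, mul_zero, Rot_ex_zero, one_mul]
  · refine ⟨δ / 4, by linarith, ?_⟩
    intro s q hq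
    have hq' : nr q < (δ / 4) ^ 2 := hq
    have h1 : bum δ q = 1 := bum_one hδ (by nlinarith)
    rw [rotP_apply, h1, mul_one]
    unfold rotL
    rw [mulL_apply]

theorem Rot_det (a : ℂ) (ha : ‖a‖ = 1) : Function.Bijective (mulL a) := by
  have h0 : a ≠ 0 := by
    intro h
    rw [h, norm_zero] at ha
    norm_num at ha
  constructor
  · intro p q h
    rw [mulL_apply, mulL_apply] at h
    have h1 := congrArg Prod.fst h
    have h2 := congrArg Prod.snd h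
    exact Prod.ext (mul_left_cancel₀ h0 h1) h2
  · intro q
    refine ⟨(a⁻¹ * q.1, q.2), ?_⟩
    rw [mulL_apply]
    show (a * (a⁻¹ * q.1), q.2) = q
    rw [← mul_assoc, mul_inv_cancel₀ h0, one_mul]

theorem Rot_mulL_one : mulL 1 = ContinuousLinearMap.id ℝ E := by
  refine ContinuousLinearMap.ext fun q => ?_
  rw [mulL_apply, one_mul]
  rfl

theorem Rot_mulL_smooth : ContDiff ℝ ∞ mulL := by
  have h : mulL = fun a : ℂ => (ContinuousLinearMap.prodₗᵢ ℝ : (E →L[ℝ] ℂ) × (E →L[ℝ] ℝ) ≃ₗᵢ[ℝ] (E →L[ℝ] E))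
      (a • ContinuousLinearMap.fst ℝ ℂ ℝ, ContinuousLinearMap.snd ℝ ℂ ℝ) := by
    funext a
    rfl
  rw [h]
  refine (ContinuousLinearMap.prodₗᵢ ℝ : (E →L[ℝ] ℂ) × (E →L[ℝ] ℝ) ≃ₗᵢ[ℝ] (E →L[ℝ] E)).contDiff.comp ?_
  have h1 : ContDiff ℝ ∞ fun a : ℂ => a • ContinuousLinearMap.fst ℝ ℂ ℝ := contDiff_id.smul contDiff_const
  have h2 : ContDiff ℝ ∞ fun _ : ℂ => ContinuousLinearMap.snd ℝ ℂ ℝ := contDiff_const
  exact h1.prodMk h2

theorem rotL_glp (k : ℤ) : GLp (rotL k) ∧ rotL k 1 = ContinuousLinearMap.id ℝ E := by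
  have h8 : (1 / 8 : ℝ) < 7 / 8 := by norm_num
  have h1 : ∀ s : ℝ, 7 / 8 ≤ s → rotL k s = ContinuousLinearMap.id ℝ E := by
    intro s hs
    unfold rotL
    rw [Pool.Agent.CSG.stp_one h8 hs, mul_one, Rot_ex_int, Rot_mulL_one]
  refine ⟨⟨?_, ?_, ?_, ?_⟩, h1 1 (by norm_num)⟩
  · exact Rot_mulL_smooth.comp (Rot_ex_smooth.comp (contDiff_const.mul (Pool.Agent.CSG.stp_smooth _ _)))
  · intro s
    exact Rot_det _ (Rot_norm_ex _)
  · intro s hs
    unfold rotL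
    rw [Pool.Agent.CSG.stp_zero h8 hs, mul_zero, Rot_ex_zero, Rot_mulL_one]
  · intro s hs
    rw [h1 s hs, h1 1 (by norm_num)]

end Pool.Agent.NHP
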