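import Pool.Agent.NHP.Nlc
import Pool.Agent.NHP.Lft
import Pool.Agent.NHP.Gll
import Pool.Agent.NHP.Gln
import Pool.Agent.NHP.Gla
import Pool.Agent.NHP.Glb
import Pool.Agent.NHP.Glc
import Pool.Agent.NHP.Rot

/-!
# NHP/Lfn: THE LIFTING LEMMA (difficulty 3, assembly)

`fix_trace` gives `V'` with `V' 1 = V 1`, `V' s r = r`; replace it by `s ↦ V' (stp (1/8) (7/8) s)` (collars).  `lin_germ` gives `D`.  Let `ε₀` be from `lift_near`.  `loop_axis`, `loop_mul`, `loop_wind` give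
`ReflTransGen (NearR ε₀) D (rotL k)`.  `L` from `exists_lift`; induction along the chain with `lift_near` (all members of the chain are `GLp` loops, by `NearR`; the first by hypothesis): a lift `L'` of `rotL k` with
`L' 1 = L 1`.  `lift_unique` for `rotL k`: `rotP k δ 1 q = W₂ 1 (L' 1 q)`.  `lin_germ` for `L`: `V 1 x = W₁ 1 (LN 1 x)`.  Transport `W₂` and `rotP k δ` by `β` (`push_chart`): `W₂N`, `R`; `R 1 = W₂N 1 ∘ LN 1` on `β '' Bl δ` and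
both sides are the identity elsewhere.  `W s = W₁ s ∘ (W₂N s)⁻¹`.
-/

open scoped Manifold ContDiff Topology
open Set Filter
open Pool.Agent.CSG (stp)
open Pool.Agent.RSG (E3 ex Thick)
open Pool.Agent.KNT (Dom Str Str2 BalC bmp)

namespace Pool.Agent.NHP

variable {N : Type*} [TopologicalSpace N] [ChartedSpace E3 N] [IsManifold (𝓡 3) ∞ N] [T2Space N]

theorem lifting {Y : Set N} (hY : IsOpen Y) {r : Y} {V : ℝ → Equiv.Perm N} (hV : Push Y V) (h : Follows V (Path.refl r))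
    {β : E → N} {δ₀ : ℝ} (hδ₀ : 0 < δ₀) (hβ : Cht (Bl δ₀) β) (hβY : β '' Bl δ₀ ⊆ Y) (h0 : β 0 = r)
    (h1 : ∃ ρ : ℝ, 0 < ρ ∧ ∀ q ∈ Bl ρ, V 1 (β q) = β q) {δ : ℝ} (hδ : 0 < δ) (hδ' : δ ≤ δ₀) :
    ∃ (W R : ℝ → Equiv.Perm N) (k : ℤ), Push Y W ∧ Push (β '' Bl δ) R ∧
      (∃ ρ : ℝ, 0 < ρ ∧ ∀ s, ∀ q ∈ Bl ρ, W s (β q) = β q) ∧ (∀ s, ∀ q ∈ Bl δ, R s (β q) = β (rotP k δ s q)) ∧
      ∀ x, V 1 x = W 1 (R 1 x) := by
  obtain ⟨V', hV', hV1, hVr⟩ := fix_trace hY hV h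
  have hst0 : ∀ s ≤ (1 / 8 : ℝ), stp (1 / 8) (7 / 8) s = 0 := fun s h => CSG.stp_zero (by norm_num) h
  have hst1 : ∀ s, (7 / 8 : ℝ) ≤ s → stp (1 / 8) (7 / 8) s = 1 := fun s h => CSG.stp_one (by norm_num) h
  have hV2 : Push Y fun s => V' (stp (1 / 8) (7 / 8) s) :=
    hV'.rep (CSG.stp_smooth _ _) (hst0 0 (by norm_num))
  have hV21 : V' (stp (1 / 8) (7 / 8) 1) = V 1 := by
    rw [hst1 1 (by norm_num), hV1]
  obtain ⟨D, hD, hD1, hG⟩ := lin_germ hV2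
    (by
      intro s hs
      show V' (stp (1 / 8) (7 / 8) s) = _
      rw [hst0 s hs, hV'.zero])
    (by
      intro s hs
      show V' (stp (1 / 8) (7 / 8) s) = V' (stp (1 / 8) (7 / 8) 1)
      rw [hst1 s hs, hst1 1 (by norm_num)])
    hδ₀ hβ hβY
    (by
      intro s
      show V' (stp (1 / 8) (7 / 8) s) (β 0) = β 0
      rw [h0]
      exact hVr _)
    (by
      obtain ⟨ρ, hρ, hρ1⟩ := h1
      refine ⟨ρ, hρ, fun q hq => ?_⟩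
      show V' (stp (1 / 8) (7 / 8) 1) (β q) = β q
      rw [hV21]
      exact hρ1 q hq)
  obtain ⟨ε₀, hε₀, hnear⟩ := lift_near
  obtain ⟨D₁, hc1, hD₁, hD₁1, hax⟩ := loop_axis hε₀ hD hD1
  obtain ⟨a, ha, ha0, has, hae, hc2⟩ := loop_mul hε₀ hD₁ hD₁1 hax
  obtain ⟨k, hc3⟩ := loop_wind hε₀ ha ha0 has hae
  have hchain : Relation.ReflTransGen (NearR ε₀) D (rotL k) := (hc1.trans hc2).trans hc3
  obtain ⟨L, hL⟩ := exists_lift hD hδ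
  have hind : ∀ D' : ℝ → E →L[ℝ] E, Relation.ReflTransGen (NearR ε₀) D D' →
      GLp D' ∧ D' 1 = ContinuousLinearMap.id ℝ E ∧ ∃ L' : ℝ → Equiv.Perm E, Lif D' δ L' ∧ L' 1 = L 1 := by
    intro D' hDD'
    induction hDD' with
    | refl => exact ⟨hD, hD1, L, hL, rfl⟩
    | tail _ hbc ih =>
      obtain ⟨hb, hb1, L', hL', hL'1⟩ := ih
      obtain ⟨L'', hL'', hL''1⟩ := hnear _ _ hb hb1 hbc δ L' hδ hL'
      exact ⟨hbc.1, hbc.2.1, L'', hL'', hL''1.trans hL'1⟩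
  obtain ⟨-, -, L', hL', hL'1⟩ := hind _ hchain
  obtain ⟨W₂, hW₂, ⟨ρ₂, hρ₂, hgW₂⟩, hW₂1⟩ := lift_unique (rotL_glp k).1 hδ hL' (rotP_lif k hδ)
  obtain ⟨W₁, LN, hW₁, hLN, ⟨ρ₁, hρ₁, hgW₁⟩, hLNβ, hVW₁⟩ := hG δ hδ hδ' L hL
  have hBl : Bl δ ⊆ Bl δ₀ := Bl_mono hδ hδ'
  have hβδ : Cht (Bl δ) β := hβ.mono (isOpen_Bl δ) hBl
  obtain ⟨W₂N, hW₂N, hW₂Nβ, hW₂No⟩ := push_chart hβδ hW₂
  obtain ⟨R, hR, hRβ, hRo⟩ := push_chart hβδ (rotP_lif k hδ).push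
  have hR1 : ∀ x, R 1 x = W₂N 1 (LN 1 x) := by
    intro x
    by_cases hx : x ∈ β '' Bl δ
    · obtain ⟨q, hq, rfl⟩ := hx
      rw [hRβ 1 q hq, hLNβ 1 q hq, hW₂Nβ 1 _ (hL.push.mem 1 hq), hW₂1 q, hL'1]
    · rw [hRo 1 x hx, hLN.out 1 hx, hW₂No 1 x hx]
  have hsub : β '' Bl δ ⊆ Y := (image_mono hBl).trans hβY
  refine ⟨fun s => (W₂N s).symm.trans (W₁ s), R, k, (hW₂N.mono hsub).inv.comp hW₁, hR, ?_, hRβ, ?_⟩
  · refine ⟨min (min ρ₁ ρ₂) δ, lt_min (lt_min hρ₁ hρ₂) hδ, fun s q hq => ?_⟩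
    have hpos : 0 < min (min ρ₁ ρ₂) δ := lt_min (lt_min hρ₁ hρ₂) hδ
    have hq1 : q ∈ Bl ρ₁ := Bl_mono hpos ((min_le_left _ _).trans (min_le_left _ _)) hq
    have hq2 : q ∈ Bl ρ₂ := Bl_mono hpos ((min_le_left _ _).trans (min_le_right _ _)) hq
    have hq3 : q ∈ Bl δ := Bl_mono hpos (min_le_right _ _) hq
    show W₁ s ((W₂N s).symm (β q)) = β q
    have h4 : (W₂N s).symm (β q) = β q := by
      rw [Equiv.symm_apply_eq, hW₂Nβ s q hq3, hgW₂ s q hq2]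
    rw [h4, hgW₁ s q hq1]
  · intro x
    show V 1 x = W₁ 1 ((W₂N 1).symm (R 1 x))
    rw [hR1 x, Equiv.symm_apply_apply, ← hVW₁ x]
    show V 1 x = V' (stp (1 / 8) (7 / 8) 1) x
    rw [hV21]

end Pool.Agent.NHP
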