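import Pool.Agent.NHP.Defs
import Pool.Agent.ISO.Small

/-!
# NHP/Sma: small perturbations of the identity, with parameters (difficulty 2)

For fixed `p`: `ISO.small_perm` (`‖fderiv (G (p, ·))‖ ≤ 1/2`).  The inverse is smooth in `(p, x)`: `Φ (p, x) = (p, x + G (p, x))` is a smooth bijection of `P × E` with bijective
derivative everywhere (block triangular, `1 + D` invertible since `‖D‖ ≤ 1/2`), so its inverse is smooth (inverse function theorem: as in `ISO.small_perm`;
`ContDiffAt.toOpenPartialHomeomorph` / `contDiffAt_symm` at each point, continuity of the inverse: `Φ` is open).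
-/

open scoped Manifold ContDiff Topology
open Set Filter
open Pool.Agent.CSG (stp)
open Pool.Agent.RSG (E3 ex Thick)
open Pool.Agent.KNT (Dom Str Str2 BalC bmp)

namespace Pool.Agent.NHP

theorem small_fam {P : Type*} [NormedAddCommGroup P] [NormedSpace ℝ P] [FiniteDimensional ℝ P] {G : P × E → E}
    (hG : ContDiff ℝ ∞ G) (h : ∀ q : P × E, ‖(fderiv ℝ G q).comp (ContinuousLinearMap.inr ℝ P E)‖ ≤ 1 / 2) :
    ∃ F : P → Equiv.Perm E, ContDiff ℝ ∞ (fun q : P × E => F q.1 q.2) ∧ ContDiff ℝ ∞ (fun q : P × E => (F q.1).symm q.2) ∧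
      ∀ p x, F p x = x + G (p, x) := by
  have hn : (∞ : WithTop ℕ∞) ≠ 0 := by simp
  have : CompleteSpace P := FiniteDimensional.complete ℝ P
  have hD : ∀ p x, HasFDerivAt (fun y => G (p, y)) ((fderiv ℝ G (p, x)).comp (ContinuousLinearMap.inr ℝ P E)) x := by
    intro p x
    have h1 : HasFDerivAt G (fderiv ℝ G (p, x)) (p, x) := (hG.differentiable hn (p, x)).hasFDerivAt
    exact HasFDerivAt.comp x h1 (hasFDerivAt_prodMk_right p x)
  have h1 : ∀ p, ∃ F : Equiv.Perm E, ContDiff ℝ ∞ F ∧ ContDiff ℝ ∞ F.symm ∧ ∀ x, F x = x + G (p, x) := by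
    intro p
    have hGp : ContDiff ℝ ∞ (fun y => G (p, y)) := hG.comp (contDiff_const.prodMk contDiff_id)
    apply ISO.small_perm hGp
    intro x
    rw [(hD p x).fderiv]
    exact h (p, x)
  choose F hF hFs hFx using h1
  have hsm : ContDiff ℝ ∞ (fun q : P × E => F q.1 q.2) := by
    have : (fun q : P × E => F q.1 q.2) = fun q => q.2 + G q := by
      ext1 q
      exact hFx q.1 q.2
    rw [this]
    exact contDiff_snd.add hG
  let e0 : (P × E) ≃ (P × E) :=
    { toFun := fun q => (q.1, F q.1 q.2)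
      invFun := fun q => (q.1, (F q.1).symm q.2)
      left_inv := fun q => by simp
      right_inv := fun q => by simp }
  have he0 : ContDiff ℝ ∞ (e0 : P × E → P × E) := contDiff_fst.prodMk hsm
  have hu : ∀ q : P × E, ∃ f' : (P × E) ≃L[ℝ] (P × E), HasStrictFDerivAt e0 (f' : (P × E) →L[ℝ] (P × E)) q := by
    intro q
    have h2 : ‖-((fderiv ℝ G q).comp (ContinuousLinearMap.inr ℝ P E))‖ < 1 := by
      rw [norm_neg]
      exact lt_of_le_of_lt (h q) (by norm_num)
    let u := Units.oneSub (-((fderiv ℝ G q).comp (ContinuousLinearMap.inr ℝ P E))) h2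
    let f' : (P × E) ≃L[ℝ] (P × E) := ContinuousLinearEquiv.skewProd (ContinuousLinearEquiv.refl ℝ P)
      (ContinuousLinearEquiv.unitsEquiv ℝ E u) ((fderiv ℝ G q).comp (ContinuousLinearMap.inl ℝ P E))
    refine ⟨f', ?_⟩
    have h3 : HasStrictFDerivAt (e0 : P × E → P × E) (fderiv ℝ e0 q) q :=
      he0.contDiffAt.hasStrictFDerivAt hn
    have h4 : HasFDerivAt (e0 : P × E → P × E)
        ((ContinuousLinearMap.fst ℝ P E).prod (ContinuousLinearMap.snd ℝ P E + fderiv ℝ G q)) q := by
      have h5 : (e0 : P × E → P × E) = fun q => (q.1, q.2 + G q) := by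
        ext1 q
        show (q.1, F q.1 q.2) = _
        rw [hFx]
      rw [h5]
      exact hasFDerivAt_fst.prodMk (hasFDerivAt_snd.add (hG.differentiable hn q).hasFDerivAt)
    have h6 : (f' : (P × E) →L[ℝ] (P × E)) = fderiv ℝ e0 q := by
      rw [h4.fderiv]
      apply ContinuousLinearMap.ext
      intro v
      have h7 : ∀ w : E, (ContinuousLinearEquiv.unitsEquiv ℝ E u) w =
          w + fderiv ℝ G q (0, w) := by
        intro w
        show ((u : E →L[ℝ] E)) w = _
        have : (u : E →L[ℝ] E) = 1 - (-((fderiv ℝ G q).comp (ContinuousLinearMap.inr ℝ P E))) := rfl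
        rw [this]
        simp
      have h8 : fderiv ℝ G q v = fderiv ℝ G q (v.1, 0) + fderiv ℝ G q (0, v.2) := by
        rw [← map_add]; simp
      show (f' v) = _
      have h9 : f' v = (v.1, (ContinuousLinearEquiv.unitsEquiv ℝ E u) v.2 + fderiv ℝ G q (v.1, 0)) := rfl
      rw [h9, h7]
      refine Prod.ext rfl ?_
      show v.2 + fderiv ℝ G q (0, v.2) + fderiv ℝ G q (v.1, 0) = v.2 + fderiv ℝ G q v
      rw [h8]
      abel
    rw [h6]
    exact h3
  choose f' hf' using hu
  have hopen : IsOpenMap (e0 : P × E → P × E) := by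
    apply IsOpenMap.of_nhds_le
    intro q
    rw [(hf' q).map_nhds_eq_of_equiv]
  let e : (P × E) ≃ₜ (P × E) := e0.toHomeomorphOfContinuousOpen he0.continuous hopen
  have hes : ContDiff ℝ ∞ (e.symm : P × E → P × E) :=
    e.contDiff_symm (f₀' := f') (fun q => (hf' q).hasFDerivAt) he0
  refine ⟨F, hsm, ?_, hFx⟩
  have : (fun q : P × E => (F q.1).symm q.2) = fun q => (e.symm q).2 := rfl
  rw [this]
  exact contDiff_snd.comp hes

end Pool.Agent.NHP
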