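import Pool.Agent.NHP.Gld
import Pool.Agent.NHP.Sma

/-!
# NHP/Nea: cutting off linear maps near the identity (difficulty 2)

`small_fam` with `P = ℝ`, `G (s, q) = bum δ q • (A s q - q)`: the partial derivative in `q` is `v ↦ (d bum v) • (A s q - q) + bum δ q • (A s v - v)`, of norm `≤ ‖d bum‖ ε₀ ‖q‖ + ε₀ ≤ (C + 1) ε₀`
(`exists_bum_bound`): take `ε₀ = 1 / (2 (C + 1))`.
-/

open scoped Manifold ContDiff Topology
open Set Filter
open Pool.Agent.CSG (stp)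
open Pool.Agent.RSG (E3 ex Thick)
open Pool.Agent.KNT (Dom Str Str2 BalC bmp)

namespace Pool.Agent.NHP

theorem nea_deriv {C : ℝ} (hC : ∀ δ : ℝ, 0 < δ → ∀ q : E, ‖q‖ * ‖fderiv ℝ (bum δ) q‖ ≤ C) {ε₀ : ℝ} (hε : 0 ≤ ε₀)
    (B : E →L[ℝ] E) (hB : ‖B‖ ≤ ε₀) {δ : ℝ} (hδ : 0 < δ) (q : E) :
    HasFDerivAt (fun q : E => bum δ q • B q) (bum δ q • B + (fderiv ℝ (bum δ) q).smulRight (B q)) q ∧
      ‖bum δ q • B + (fderiv ℝ (bum δ) q).smulRight (B q)‖ ≤ (C + 1) * ε₀ := by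
  constructor
  · have h1 : HasFDerivAt (bum δ) (fderiv ℝ (bum δ) q) q :=
      ((bum_smooth δ).differentiable (by simp) _).hasFDerivAt
    exact h1.smul B.hasFDerivAt
  · have h2 := bum_mem δ q
    have h3 : ‖bum δ q • B‖ ≤ ε₀ := by
      rw [norm_smul, Real.norm_of_nonneg h2.1]
      calc bum δ q * ‖B‖ ≤ 1 * ‖B‖ := mul_le_mul_of_nonneg_right h2.2 (norm_nonneg _)
        _ ≤ ε₀ := by rw [one_mul]; exact hB
    have h4 : ‖(fderiv ℝ (bum δ) q).smulRight (B q)‖ ≤ C * ε₀ := by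
      rw [ContinuousLinearMap.norm_smulRight_apply]
      have h5 : ‖B q‖ ≤ ε₀ * ‖q‖ := (B.le_opNorm q).trans (mul_le_mul_of_nonneg_right hB (norm_nonneg _))
      calc ‖fderiv ℝ (bum δ) q‖ * ‖B q‖ ≤ ‖fderiv ℝ (bum δ) q‖ * (ε₀ * ‖q‖) :=
            mul_le_mul_of_nonneg_left h5 (norm_nonneg _)
        _ = (‖q‖ * ‖fderiv ℝ (bum δ) q‖) * ε₀ := by ring
        _ ≤ C * ε₀ := mul_le_mul_of_nonneg_right (hC δ hδ q) hε
    calc ‖bum δ q • B + (fderiv ℝ (bum δ) q).smulRight (B q)‖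
        ≤ ‖bum δ q • B‖ + ‖(fderiv ℝ (bum δ) q).smulRight (B q)‖ := norm_add_le _ _
      _ ≤ (C + 1) * ε₀ := by linarith

theorem near_lin : ∃ ε₀ : ℝ, 0 < ε₀ ∧ ∀ (A : ℝ → E →L[ℝ] E), ContDiff ℝ ∞ A →
    (∀ s, ‖A s - ContinuousLinearMap.id ℝ E‖ ≤ ε₀) → ∀ δ : ℝ, 0 < δ → ∃ L : ℝ → Equiv.Perm E,
      ContDiff ℝ ∞ (fun p : ℝ × E => L p.1 p.2) ∧ ContDiff ℝ ∞ (fun p : ℝ × E => (L p.1).symm p.2) ∧
      ∀ s q, L s q = q + bum δ q • (A s q - q) := by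
  obtain ⟨C, hC0, hC⟩ := exists_bum_bound
  refine ⟨1 / (2 * (C + 1)), by positivity, ?_⟩
  intro A hA hs δ hδ
  have hG : ContDiff ℝ ∞ fun p : ℝ × E => bum δ p.2 • (A p.1 - ContinuousLinearMap.id ℝ E) p.2 := by
    apply ((bum_smooth δ).comp contDiff_snd).smul
    exact ((hA.comp contDiff_fst).sub contDiff_const).clm_apply contDiff_snd
  have hle : ∀ p : ℝ × E, ‖(fderiv ℝ (fun p : ℝ × E => bum δ p.2 • (A p.1 - ContinuousLinearMap.id ℝ E) p.2) p).comp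
      (ContinuousLinearMap.inr ℝ ℝ E)‖ ≤ 1 / 2 := by
    rintro ⟨s, q⟩
    obtain ⟨h1, h2⟩ := nea_deriv hC (ε₀ := 1 / (2 * (C + 1))) (by positivity) (A s - ContinuousLinearMap.id ℝ E) (hs s) hδ q
    have h3 : HasFDerivAt (fun p : ℝ × E => bum δ p.2 • (A p.1 - ContinuousLinearMap.id ℝ E) p.2)
        (fderiv ℝ (fun p : ℝ × E => bum δ p.2 • (A p.1 - ContinuousLinearMap.id ℝ E) p.2) (s, q)) (s, q) :=
      (hG.differentiable (by simp) _).hasFDerivAt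
    have h4 := h3.comp q (hasFDerivAt_prodMk_right s q)
    have h5 := h4.unique h1
    rw [h5]
    refine h2.trans ?_
    have h6 : C + 1 ≠ 0 := by positivity
    field_simp
    exact le_refl _
  obtain ⟨L, h1, h2, h3⟩ := small_fam hG hle
  refine ⟨L, h1, h2, ?_⟩
  intro s q
  rw [h3]
  rfl

end Pool.Agent.NHP
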