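import Mathlib
import Pool.Agent.NHP.Sma
import Pool.Agent.NHP.Grp
import Pool.Agent.ISO.Fam

/-!
# NHP/Cps: isotopy extension, push version

`core_push`: `ISO.core_fam` (for `Λ = 0`), with a compactly supported ISOTOPY (`PushE`) instead of a diffeomorphism:
a smooth family `k s : J → E` of embeddings of a compact set `J` of parameters (a subset of a finite dimensional space `F`,
e.g. a union of intervals of `ℝ` for several arcs), constant off `J₁` and with values in `O` on `J₁`, is induced by a push of `O`.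
-/

open scoped Manifold ContDiff Topology
open Set Filter
open Pool.Agent.CSG (stp stp_smooth stp_zero stp_one stp_nonneg stp_le_one)
open Pool.Agent.RSG (E3 ex Thick)
open Pool.Agent.KNT (Dom Str Str2 BalC bmp)

namespace Pool.Agent.NHP

variable {F : Type*} [NormedAddCommGroup F] [NormedSpace ℝ F] [FiniteDimensional ℝ F]

theorem cps_lat : ISO.Lat (⊥ : AddSubgroup E) := by
  intro R
  refine (Set.finite_singleton (0 : E)).subset ?_
  rintro m ⟨hm, -⟩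
  exact (AddSubgroup.mem_bot.1 hm)

/-- a small vector field gives a push -/
theorem cps_small {O C : Set E} {G : E → E} (hG : ContDiff ℝ ∞ G) (hC : IsCompact C) (hCO : C ⊆ O)
    (hs : ∀ x ∉ C, G x = 0) (hb : ∀ x, ‖fderiv ℝ G x‖ ≤ 1 / 2) :
    ∃ V : ℝ → Equiv.Perm E, PushE O V ∧ ∀ x, V 1 x = x + G x := by
  have hGs : ContDiff ℝ ∞ fun q : ℝ × E => stp 0 1 q.1 • G q.2 :=
    ((stp_smooth 0 1).comp contDiff_fst).smul (hG.comp contDiff_snd)
  have hbs : ∀ q : ℝ × E, ‖(fderiv ℝ (fun q : ℝ × E => stp 0 1 q.1 • G q.2) q).comp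
      (ContinuousLinearMap.inr ℝ ℝ E)‖ ≤ 1 / 2 := by
    rintro ⟨s, x⟩
    have h1 : HasFDerivAt (fun y : E => (fun q : ℝ × E => stp 0 1 q.1 • G q.2) (s, y))
        ((fderiv ℝ (fun q : ℝ × E => stp 0 1 q.1 • G q.2) (s, x)).comp (ContinuousLinearMap.inr ℝ ℝ E)) x :=
      HasFDerivAt.comp x (hGs.differentiable (by simp) (s, x)).hasFDerivAt (hasFDerivAt_prodMk_right s x)
    have h2 : HasFDerivAt (fun y : E => stp 0 1 s • G y) (stp 0 1 s • fderiv ℝ G x) x :=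
      (hG.differentiable (by simp) x).hasFDerivAt.fun_const_smul (stp 0 1 s)
    rw [h1.unique h2, norm_smul, Real.norm_eq_abs, abs_of_nonneg (stp_nonneg 0 1 s)]
    calc stp 0 1 s * ‖fderiv ℝ G x‖ ≤ 1 * (1 / 2) :=
          mul_le_mul (stp_le_one 0 1 s) (hb x) (norm_nonneg _) zero_le_one
      _ = 1 / 2 := one_mul _
  obtain ⟨V, hV, hV', hVx⟩ := small_fam hGs hbs
  refine ⟨V, ⟨hV, hV', ?_, C, hC, hCO, ?_⟩, ?_⟩
  · ext1 x
    rw [hVx]
    simp only
    rw [stp_zero zero_lt_one le_rfl, zero_smul, add_zero]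
    rfl
  · intro s x hx
    rw [hVx]
    simp only
    rw [hs x hx, smul_zero, add_zero]
  · intro x
    rw [hVx]
    simp only
    rw [stp_one zero_lt_one le_rfl, one_smul]

/-- One small step of an isotopy. -/
theorem cps_step {O : Set E} (hO : IsOpen O) {k : ℝ → F → E}
    (hk : ContDiff ℝ ∞ fun q : ℝ × F => k q.1 q.2) {J : Set F} (hJc : IsCompact J) (s₀ : ℝ)
    (himm : ∀ l ∈ J, ∀ v, fderiv ℝ (k s₀) l v = 0 → v = 0)
    (hinj : ∀ l ∈ J, ∀ l' ∈ J, k s₀ l = k s₀ l' → l = l')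
    {J₁ : Set F} (hJ₁ : IsCompact J₁) (hJO : ∀ l ∈ J₁, k s₀ l ∈ O)
    (hJ : ∀ l ∈ J, (∀ s, k s l = k s₀ l) ∨ l ∈ J₁) :
    ∀ᶠ s in 𝓝 s₀, ∃ V : ℝ → Equiv.Perm E, PushE O V ∧ ∀ l ∈ J, V 1 (k s₀ l) = k s l := by
  have hk0 : ContDiff ℝ ∞ (k s₀) := by
    have : k s₀ = (fun q : ℝ × F => k q.1 q.2) ∘ fun l => (s₀, l) := rfl
    rw [this]
    exact hk.comp (contDiff_const.prodMk contDiff_id)
  obtain ⟨G, C, g1, -, g3, g4, g5, g6⟩ := ISO.Fam_field cps_lat hO hk0 (J := J)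
    (f := fun q : ℝ × F => k q.1 q.2 - k s₀ q.2)
    (hk.sub (hk0.comp contDiff_snd)) himm
    (by
      intro l₀ hl₀
      refine ⟨J, hJc, Subset.rfl, fun l hl => ⟨l, hl, ⟨0, AddSubgroup.zero_mem _, by rw [add_zero]⟩, fun s => rfl⟩, ?_⟩
      intro l₁ hl₁ m hm he
      rw [AddSubgroup.mem_bot.1 hm, add_zero] at he
      exact hinj l₁ hl₁ l₀ hl₀ he)
    hJ₁ hJO
    (by
      intro l hl
      rcases hJ l hl with h | h
      · left
        intro s
        show k s l - k s₀ l = 0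
        rw [h s, sub_self]
      · right
        exact ⟨l, h, 0, AddSubgroup.zero_mem _, by rw [add_zero]⟩)
  -- the difference
  obtain ⟨K, hK⟩ : ∃ K : ℝ × E → E, K = fun q => G q - G (s₀, q.2) := ⟨_, rfl⟩
  have hKs : ContDiff ℝ ∞ K := by
    rw [hK]
    exact g1.sub (g1.comp (contDiff_const.prodMk contDiff_snd))
  have hK0 : ∀ x, K (s₀, x) = 0 := fun x => by rw [hK]; simp
  have hKC : ∀ s, ∀ x ∉ C, K (s, x) = 0 := by
    intro s x hx
    have h5 : ∀ s, G (s, x) = 0 := fun s => g5 s x fun m hm => by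
      rw [AddSubgroup.mem_bot.1 hm, add_zero]
      exact hx
    rw [hK]
    show G (s, x) - G (s₀, x) = 0
    rw [h5, h5, sub_self]
  have hn : (∞ : WithTop ℕ∞) ≠ 0 := by simp
  let D : ℝ × E → (E →L[ℝ] E) := fun q => (fderiv ℝ K q).comp (ContinuousLinearMap.inr ℝ ℝ E)
  have hDc : Continuous D := by
    have h1 : Continuous (fderiv ℝ K) := hKs.continuous_fderiv hn
    exact h1.clm_comp continuous_const
  have hD : ∀ s x, HasFDerivAt (fun y => K (s, y)) (D (s, x)) x := by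
    intro s x
    have h1 : HasFDerivAt K (fderiv ℝ K (s, x)) (s, x) := (hKs.differentiable hn (s, x)).hasFDerivAt
    exact HasFDerivAt.comp x h1 (hasFDerivAt_prodMk_right s x)
  have hD0 : ∀ x, D (s₀, x) = 0 := by
    intro x
    have h1 : HasFDerivAt (fun y : E => K (s₀, y)) (0 : E →L[ℝ] E) x := by
      have : (fun y : E => K (s₀, y)) = fun _ => (0 : E) := funext hK0
      rw [this]
      exact hasFDerivAt_const _ _
    exact (hD s₀ x).unique h1
  have h1 : ∀ᶠ s in 𝓝 s₀, ∀ x ∈ C, ‖D (s, x)‖ < 1 / 2 := by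
    refine g3.eventually_forall_of_forall_eventually ?_
    intro x _
    have h2 : ContinuousAt (fun q : ℝ × E => ‖D q‖) (s₀, x) := hDc.norm.continuousAt
    have h3 : ‖D (s₀, x)‖ < 1 / 2 := by rw [hD0, norm_zero]; norm_num
    exact h2.eventually (gt_mem_nhds h3)
  filter_upwards [h1] with s hs
  have h2 : ∀ x, ‖fderiv ℝ (fun y => K (s, y)) x‖ ≤ 1 / 2 := by
    intro x
    by_cases hx : x ∈ C
    · rw [(hD s x).fderiv]
      exact (hs x hx).le
    · have h3 : Cᶜ ∈ 𝓝 x := g3.isClosed.isOpen_compl.mem_nhds hx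
      have h4 : (fun y => K (s, y)) =ᶠ[𝓝 x] fun _ => (0 : E) := by
        filter_upwards [h3] with y hy
        exact hKC s y hy
      rw [h4.fderiv_eq]
      simp
  have hKss : ContDiff ℝ ∞ fun y => K (s, y) := hKs.comp (contDiff_const.prodMk contDiff_id)
  obtain ⟨V, f1, f2⟩ := cps_small hKss g3 g4 (hKC s) h2
  refine ⟨V, f1, ?_⟩
  intro l hl
  rw [f2, hK]
  show k s₀ l + (G (s, k s₀ l) - G (s₀, k s₀ l)) = k s l
  rw [g6 s l hl, g6 s₀ l hl]
  simp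

theorem cps_steps {O : Set E} (hO : IsOpen O) {k : ℝ → F → E}
    (hk : ContDiff ℝ ∞ fun q : ℝ × F => k q.1 q.2) {J : Set F} (hJc : IsCompact J)
    (himm : ∀ s, ∀ l ∈ J, ∀ v, fderiv ℝ (k s) l v = 0 → v = 0)
    (hinj : ∀ s, ∀ l ∈ J, ∀ l' ∈ J, k s l = k s l' → l = l')
    {J₁ : Set F} (hJ₁ : IsCompact J₁) (hJO : ∀ s, ∀ l ∈ J₁, k s l ∈ O)
    (hJ : ∀ l ∈ J, (∀ s s', k s l = k s' l) ∨ l ∈ J₁) (s s' : ℝ) :
    ∃ V : ℝ → Equiv.Perm E, PushE O V ∧ ∀ l ∈ J, V 1 (k s l) = k s' l := by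
  refine isPreconnected_univ.induction₂
    (fun s s' => ∃ V : ℝ → Equiv.Perm E, PushE O V ∧ ∀ l ∈ J, V 1 (k s l) = k s' l) ?_ ?_ ?_
    (mem_univ s) (mem_univ s')
  · intro s₀ _
    rw [nhdsWithin_univ]
    refine cps_step hO hk hJc s₀ (himm s₀) (hinj s₀) hJ₁ (hJO s₀) ?_
    intro l hl
    rcases hJ l hl with h | h
    · left; exact fun s => h s s₀
    · right; exact h
  · rintro s₁ s₂ s₃ - - - ⟨V, f1, f2⟩ ⟨W, g1, g2⟩
    refine ⟨fun s => (V s).trans (W s), f1.comp g1, ?_⟩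
    intro l hl
    rw [Equiv.trans_apply, f2 l hl, g2 l hl]
  · rintro s₁ s₂ - - ⟨V, f1, f2⟩
    refine ⟨fun s => (V s).symm, f1.inv, ?_⟩
    intro l hl
    rw [Equiv.symm_apply_eq, f2 l hl]

/-- **Isotopy extension, push version.** -/
theorem core_push {O : Set E} (hO : IsOpen O) {k : ℝ → F → E}
    {U J J₁ : Set F} (hU : IsOpen U) (hJ : IsCompact J) (hJU : J ⊆ U) (hJ₁ : IsCompact J₁) (hJ₁J : J₁ ⊆ J)
    (hk : ∀ s ∈ Icc (0 : ℝ) 1, ∀ y ∈ U, ContDiffAt ℝ ∞ (fun q : ℝ × F => k q.1 q.2) (s, y))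
    (hend : ∀ s ∈ Icc (0 : ℝ) 1, ∀ y ∈ J, y ∉ J₁ → k s y = k 0 y)
    (hkO : ∀ s ∈ Icc (0 : ℝ) 1, ∀ y ∈ J₁, k s y ∈ O)
    (himm : ∀ s ∈ Icc (0 : ℝ) 1, ∀ y ∈ J, ∀ v, fderiv ℝ (k s) y v = 0 → v = 0)
    (hinj : ∀ s ∈ Icc (0 : ℝ) 1, ∀ y ∈ J, ∀ y' ∈ J, k s y = k s y' → y = y') :
    ∃ V : ℝ → Equiv.Perm E, PushE O V ∧ ∀ y ∈ J, V 1 (k 0 y) = k 1 y := by
  have hσ : ∀ s, Real.smoothTransition s ∈ Icc (0 : ℝ) 1 := fun s =>
    ⟨Real.smoothTransition.nonneg s, Real.smoothTransition.le_one s⟩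
  obtain ⟨K, hK, hK1, hK2⟩ := exists_compact_between hJ hU hJU
  obtain ⟨χ, C, c1, c2, c3, c4, c5, -⟩ := ISO.exists_cut hU hK hK2
  have hχ : ∀ l ∈ J, χ l = 1 := fun l hl => c5 l (interior_subset (hK1 hl))
  let k' : ℝ → F → E := fun s l => χ l • k (Real.smoothTransition s) l
  have hk'e : ∀ s, ∀ l ∈ J, k' s l = k (Real.smoothTransition s) l := by
    intro s l hl
    simp only [k', hχ l hl, one_smul]
  have hk' : ContDiff ℝ ∞ fun q : ℝ × F => k' q.1 q.2 := ISO.Fam_cut hk c1 c2.isClosed c3 c4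
  have hder : ∀ s, ∀ l ∈ J, fderiv ℝ (k' s) l = fderiv ℝ (k (Real.smoothTransition s)) l := by
    intro s l hl
    apply Filter.EventuallyEq.fderiv_eq
    filter_upwards [mem_interior_iff_mem_nhds.1 (hK1 hl)] with y hy
    simp only [k']
    rw [c5 y hy, one_smul]
  obtain ⟨V, f1, f2⟩ := cps_steps hO hk' hJ (J₁ := J₁)
    (fun s l hl => by rw [hder s l hl]; exact himm _ (hσ s) l hl)
    (fun s l hl l' hl' he => by
      rw [hk'e s l hl, hk'e s l' hl'] at he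
      exact hinj _ (hσ s) l hl l' hl' he)
    hJ₁
    (fun s l hl => by rw [hk'e s l (hJ₁J hl)]; exact hkO _ (hσ s) l hl)
    (fun l hl => by
      by_cases hc : l ∈ J₁
      · right; exact hc
      · left
        intro s s'
        rw [hk'e s l hl, hk'e s' l hl, hend _ (hσ s) l hl hc, hend _ (hσ s') l hl hc]) 0 1
  refine ⟨V, f1, ?_⟩
  intro l hl
  have e1 := f2 l hl
  rw [hk'e 0 l hl, hk'e 1 l hl, Real.smoothTransition.zero, Real.smoothTransition.one] at e1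
  exact e1

end Pool.Agent.NHP
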