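import Pool.Agent.NHP.The
import Pool.Agent.NHP.Tra

/-!
# NHP/Ele: elementary changes of paths, and of the trace of a push (difficulty 3)

`ele_push`: let `β, a, b` be as in `EMv`, `Θ` from `exists_theta` with `r = 1`, `R = 2`.  `g` inverse of `β` (`Cht.inv`).  `{t | c t ∈ β '' ball 0 1 ∧ c' t ∈ β '' ball 0 1}` is open and contains
`[a, b]`; `χ : ℝ → ℝ` smooth, `χ = 1` on `[a, b]`, support in this set; `f t = χ t • g (c t)`, `f' t = χ t • g (c' t)`: smooth, `f = f'` for `t ∉ (a, b)`, norm `< 1` for `t ∈ [a, b]`.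
`fun t => Θ (f t) (f' t)` is `PushE (ball 0 2)` (at `t = 0`: `f 0 = f' 0`), transported by `push_chart` to `U`.  `V' t = (V t).trans (U t)`: for `t ∈ [a, b]`
`U t (c t) = β (Θ (f t) (f' t) (f t)) = β (f' t) = c' t`; for `t ∉ (a, b)` `U t = id` (points off `β '' ball 0 2` are fixed by `push_chart`), in particular `V' 1 = V 1`.
-/

open scoped Manifold ContDiff Topology
open Set Filter
open Pool.Agent.CSG (stp)
open Pool.Agent.RSG (E3 ex Thick)
open Pool.Agent.KNT (Dom Str Str2 BalC bmp)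

namespace Pool.Agent.NHP

/-- smooth path in `Y` which is constant near the ends -/
structure SPth {N : Type*} [TopologicalSpace N] [ChartedSpace E3 N] (Y : Set N) (y y' : N) (c : ℝ → N) : Prop where
  smooth : ContMDiff 𝓘(ℝ, ℝ) (𝓡 3) ∞ c
  start : ∀ t ≤ 1 / 8, c t = y
  stop : ∀ t, 7 / 8 ≤ t → c t = y'
  mem : ∀ t, c t ∈ Y

/-- elementary change of a path, inside a ball of `Y` -/
def EMv {N : Type*} [TopologicalSpace N] [ChartedSpace E3 N] (Y : Set N) (c c' : ℝ → N) : Prop :=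
  ∃ (β : E → N) (a b : ℝ), Cht (Metric.ball 0 2) β ∧ β '' Metric.ball 0 2 ⊆ Y ∧ 0 < a ∧ a < b ∧ b < 1 ∧
    (∀ t ∉ Ioo a b, c' t = c t) ∧ ∀ t ∈ Icc a b, c t ∈ β '' Metric.ball 0 1 ∧ c' t ∈ β '' Metric.ball 0 1

variable {N : Type*} [TopologicalSpace N] [ChartedSpace E3 N] [T2Space N]

theorem ele_push {Y : Set N} {V : ℝ → Equiv.Perm N} (hV : Push Y V) {y y' : N} {c c' : ℝ → N} (hc : SPth Y y y' c)
    (hc' : SPth Y y y' c') (h : EMv Y c c') (hVc : ∀ t, V t y = c t) :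
    ∃ V' : ℝ → Equiv.Perm N, Push Y V' ∧ (∀ t, V' t y = c' t) ∧ V' 1 = V 1 := by
  obtain ⟨β, a, b, hβ, hβY, ha, hab, hb, hoff, hon⟩ := h
  obtain ⟨Θ, hΘ1, hΘ2, hΘid, hΘmv, C, hC, hCR, hCfix⟩ := exists_theta (r := 1) (R := 2) one_pos one_lt_two
  obtain ⟨g, hg1, hg2⟩ := hβ.inv
  have hsub : Metric.ball (0 : E) 1 ⊆ Metric.ball (0 : E) 2 := Metric.ball_subset_ball one_le_two
  have hopn : IsOpen (β '' Metric.ball (0 : E) 1) := hβ.img Metric.isOpen_ball hsub
  set W : Set ℝ := {t | c t ∈ β '' Metric.ball (0 : E) 1 ∧ c' t ∈ β '' Metric.ball (0 : E) 1} with hW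
  have hWo : IsOpen W := (hopn.preimage hc.smooth.continuous).inter (hopn.preimage hc'.smooth.continuous)
  have hIW : Icc a b ⊆ W := fun t ht => hon t ht
  obtain ⟨χ, hχ0, hχ1, hχ⟩ := exists_contMDiffMap_zero_one_nhds_of_isClosed (n := (⊤ : ℕ∞)) 𝓘(ℝ, ℝ)
    (s := Wᶜ) (t := Icc a b) hWo.isClosed_compl isClosed_Icc (disjoint_compl_left_iff_subset.mpr hIW)
  have hχs : ContDiff ℝ ∞ (χ : ℝ → ℝ) := χ.contMDiff.contDiff
  have hχ1' : ∀ t ∈ Icc a b, χ t = 1 := fun t ht => (eventually_nhdsSet_iff_forall.mp hχ1 t ht).self_of_nhds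
  -- the cut off lifts
  have lift : ∀ {d : ℝ → N}, ContMDiff 𝓘(ℝ, ℝ) (𝓡 3) ∞ d → (∀ t ∈ W, d t ∈ β '' Metric.ball (0 : E) 1) →
      ContDiff ℝ ∞ (fun t => χ t • g (d t)) ∧ ∀ t, ‖χ t • g (d t)‖ < 1 := by
    intro d hd hdW
    constructor
    · rw [contDiff_iff_contDiffAt]
      intro t
      by_cases ht : t ∈ W
      · refine ContDiffAt.smul hχs.contDiffAt ?_
        have h1 : ContMDiffAt (𝓡 3) 𝓘(ℝ, ℂ × ℝ) ∞ g (d t) := hg2 _ (image_mono hsub (hdW t ht))
        have h2 : ContMDiffAt 𝓘(ℝ, ℝ) 𝓘(ℝ, ℂ × ℝ) ∞ (g ∘ d) t := h1.comp t hd.contMDiffAt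
        exact h2.contDiffAt
      · have h1 : ∀ᶠ s in 𝓝 t, χ s = 0 := eventually_nhdsSet_iff_forall.mp hχ0 t ht
        have h2 : (fun s => χ s • g (d s)) =ᶠ[𝓝 t] fun _ => (0 : E) := by
          filter_upwards [h1] with s hs
          rw [hs, zero_smul]
        exact contDiffAt_const.congr_of_eventuallyEq h2
    · intro t
      by_cases ht : t ∈ W
      · obtain ⟨p, hp, hpe⟩ := hdW t ht
        rw [← hpe, hg1 p (hsub hp), norm_smul, Real.norm_eq_abs, abs_of_nonneg (hχ t).1]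
        have h1 : ‖p‖ < 1 := by simpa using hp
        calc χ t * ‖p‖ ≤ 1 * ‖p‖ := mul_le_mul_of_nonneg_right (hχ t).2 (norm_nonneg _)
          _ < 1 := by rw [one_mul]; exact h1
      · have h1 : χ t = 0 := (eventually_nhdsSet_iff_forall.mp hχ0 t ht).self_of_nhds
        rw [h1, zero_smul, norm_zero]
        exact one_pos
  obtain ⟨hf, hfn⟩ := lift hc.smooth (fun t ht => ht.1)
  obtain ⟨hf', hfn'⟩ := lift hc'.smooth (fun t ht => ht.2)
  set f : ℝ → E := fun t => χ t • g (c t) with hfdef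
  set f' : ℝ → E := fun t => χ t • g (c' t) with hfdef'
  have heq : ∀ t ∉ Ioo a b, f' t = f t := by
    intro t ht
    simp only [hfdef, hfdef', hoff t ht]
  have hpe : PushE (Metric.ball (0 : E) 2) fun t => Θ (f t) (f' t) := by
    refine ⟨?_, ?_, ?_, ?_⟩
    · have h1 : ContDiff ℝ ∞ fun q : ℝ × E => (((f q.1, f' q.1), q.2) : (E × E) × E) :=
        ((hf.comp contDiff_fst).prodMk (hf'.comp contDiff_fst)).prodMk contDiff_snd
      exact hΘ1.comp h1
    · have h1 : ContDiff ℝ ∞ fun q : ℝ × E => (((f q.1, f' q.1), q.2) : (E × E) × E) :=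
        ((hf.comp contDiff_fst).prodMk (hf'.comp contDiff_fst)).prodMk contDiff_snd
      exact hΘ2.comp h1
    · show Θ (f 0) (f' 0) = Equiv.refl E
      rw [heq 0 (fun h => absurd h.1 (not_lt.mpr ha.le))]
      exact hΘid _
    · exact ⟨C, hC, hCR, fun s x hx => hCfix _ _ x hx⟩
  obtain ⟨U, hU, hU1, hU2⟩ := push_chart hβ hpe
  have hUid : ∀ t ∉ Ioo a b, ∀ x, U t x = x := by
    intro t ht x
    by_cases hx : x ∈ β '' Metric.ball (0 : E) 2
    · obtain ⟨q, hq, rfl⟩ := hx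
      rw [hU1 t q hq, heq t ht, hΘid]
      rfl
    · exact hU2 t x hx
  refine ⟨fun t => (V t).trans (U t), hV.comp (hU.mono hβY), ?_, ?_⟩
  · intro t
    show U t (V t y) = c' t
    rw [hVc t]
    by_cases ht : t ∈ Ioo a b
    · have htI : t ∈ Icc a b := Ioo_subset_Icc_self ht
      obtain ⟨⟨p, hp, hpc⟩, ⟨p', hp', hpc'⟩⟩ := hon t htI
      have h1 : f t = p := by
        simp only [hfdef]
        rw [hχ1' t htI, one_smul, ← hpc, hg1 p (hsub hp)]
      have h2 : f' t = p' := by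
        simp only [hfdef']
        rw [hχ1' t htI, one_smul, ← hpc', hg1 p' (hsub hp')]
      rw [← hpc, hU1 t p (hsub hp)]
      show β (Θ (f t) (f' t) p) = c' t
      have h3 := hΘmv (f t) (f' t) (hfn t) (hfn' t)
      rw [h1, h2] at h3 ⊢
      rw [h3, hpc']
    · rw [hUid t ht, hoff t ht]
  · apply Equiv.ext
    intro x
    show U 1 (V 1 x) = V 1 x
    exact hUid 1 (fun h => absurd h.2 (not_lt.mpr hb.le)) _

end Pool.Agent.NHP
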