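import Pool.Agent.NHP.Gld

/-!
# NHP/Glk: a continuous homotopy of loops gives a chain of near loops (difficulty 2)

On the compact `[0, 1] × [0, 1]` (outside, the loops are the identity) `D` is uniformly continuous and `‖(D u s)⁻¹‖` is bounded by `M`: `‖D u' s v - D u s v‖ ≤ ‖D u' s - D u s‖ M ‖D u s v‖`.
Take `u_i = i / n`.
-/

open scoped Manifold ContDiff Topology
open Set Filter
open Pool.Agent.CSG (stp)
open Pool.Agent.RSG (E3 ex Thick)
open Pool.Agent.KNT (Dom Str Str2 BalC bmp)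

namespace Pool.Agent.NHP

theorem glk_lower {D : ℝ → ℝ → E →L[ℝ] E} (hc : Continuous fun p : ℝ × ℝ => D p.1 p.2)
    (hD : ∀ u ∈ Icc (0 : ℝ) 1, GLp (D u) ∧ D u 1 = ContinuousLinearMap.id ℝ E) :
    ∃ m : ℝ, 0 < m ∧ ∀ u ∈ Icc (0 : ℝ) 1, ∀ s ∈ Icc (0 : ℝ) 1, ∀ v : E, m * ‖v‖ ≤ ‖D u s v‖ := by
  have hK : IsCompact ((Icc (0 : ℝ) 1 ×ˢ Icc (0 : ℝ) 1) ×ˢ Metric.sphere (0 : E) 1) :=
    (isCompact_Icc.prod isCompact_Icc).prod (isCompact_sphere (0 : E) 1)
  have hf : Continuous fun p : (ℝ × ℝ) × E => ‖D p.1.1 p.1.2 p.2‖ :=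
    ((hc.comp continuous_fst).clm_apply continuous_snd).norm
  have hne : ((Icc (0 : ℝ) 1 ×ˢ Icc (0 : ℝ) 1) ×ˢ Metric.sphere (0 : E) 1).Nonempty := by
    refine ⟨((0, 0), (0, 1)), ⟨⟨by simp, by simp⟩, ?_⟩⟩
    rw [mem_sphere_zero_iff_norm, Prod.norm_def]
    simp
  obtain ⟨p, hp, hmin⟩ := hK.exists_isMinOn hne hf.continuousOn
  obtain ⟨⟨hp1, hp2⟩, hp3⟩ := hp
  have hpos : 0 < ‖D p.1.1 p.1.2 p.2‖ := by
    rw [norm_pos_iff]
    intro h0
    have h1 := ((hD p.1.1 hp1).1.bij p.1.2).1 (h0.trans (map_zero _).symm)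
    rw [h1, mem_sphere_zero_iff_norm, norm_zero] at hp3
    exact zero_ne_one hp3
  refine ⟨‖D p.1.1 p.1.2 p.2‖, hpos, ?_⟩
  intro u hu s hs v
  rcases eq_or_ne v 0 with h0 | h0
  · subst h0
    simp
  · have hv : 0 < ‖v‖ := norm_pos_iff.2 h0
    have h1 : ‖(‖v‖⁻¹ • v : E)‖ = 1 := by
      rw [norm_smul, norm_inv, norm_norm, inv_mul_cancel₀ hv.ne']
    have h2 := hmin (show ((u, s), (‖v‖⁻¹ • v : E)) ∈ (Icc (0 : ℝ) 1 ×ˢ Icc (0 : ℝ) 1) ×ˢ Metric.sphere (0 : E) 1 from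
      ⟨⟨hu, hs⟩, by rw [mem_sphere_zero_iff_norm]; exact h1⟩)
    have h3 : ‖D p.1.1 p.1.2 p.2‖ ≤ ‖D u s (‖v‖⁻¹ • v)‖ := h2
    rw [map_smul, norm_smul, norm_inv, norm_norm] at h3
    calc ‖D p.1.1 p.1.2 p.2‖ * ‖v‖ ≤ ‖v‖⁻¹ * ‖D u s v‖ * ‖v‖ := mul_le_mul_of_nonneg_right h3 hv.le
      _ = ‖D u s v‖ := by field_simp

theorem chain_of_homotopy {ε : ℝ} (hε : 0 < ε) {D : ℝ → ℝ → E →L[ℝ] E} (hc : Continuous fun p : ℝ × ℝ => D p.1 p.2)
    (hD : ∀ u ∈ Icc (0 : ℝ) 1, GLp (D u) ∧ D u 1 = ContinuousLinearMap.id ℝ E) :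
    Relation.ReflTransGen (NearR ε) (D 0) (D 1) := by
  obtain ⟨m, hm, hlow⟩ := glk_lower hc hD
  have hK : IsCompact (Icc (0 : ℝ) 1 ×ˢ Icc (0 : ℝ) 1) := isCompact_Icc.prod isCompact_Icc
  have huc := hK.uniformContinuousOn_of_continuous hc.continuousOn
  rw [Metric.uniformContinuousOn_iff] at huc
  obtain ⟨δ, hδ, hδ'⟩ := huc (ε * m) (by positivity)
  have step : ∀ u ∈ Icc (0 : ℝ) 1, ∀ u' ∈ Icc (0 : ℝ) 1, |u - u'| < δ → NearR ε (D u) (D u') := by
    intro u hu u' hu' hd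
    refine ⟨(hD u' hu').1, (hD u' hu').2, ?_⟩
    intro s v
    have hout : ∀ s : ℝ, s ∉ Icc (0 : ℝ) 1 → ∀ u ∈ Icc (0 : ℝ) 1, D u s = ContinuousLinearMap.id ℝ E := by
      intro s hs u hu
      rcases lt_or_ge s 0 with h | h
      · exact (hD u hu).1.start s (by linarith)
      · have h1 : 1 < s := by
          by_contra h2
          exact hs ⟨h, not_lt.1 h2⟩
        rw [(hD u hu).1.stop s (by linarith), (hD u hu).2]
    by_cases hs : s ∈ Icc (0 : ℝ) 1
    · have h1 : dist (D u' s) (D u s) < ε * m := by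
        apply hδ' (u', s) ⟨hu', hs⟩ (u, s) ⟨hu, hs⟩
        rw [Prod.dist_eq, max_lt_iff]
        constructor
        · change dist u' u < δ
          rw [Real.dist_eq, abs_sub_comm]
          exact hd
        · change dist s s < δ
          rw [dist_self]
          exact hδ
      rw [dist_eq_norm] at h1
      calc ‖D u' s v - D u s v‖ = ‖(D u' s - D u s) v‖ := rfl
        _ ≤ ‖D u' s - D u s‖ * ‖v‖ := ContinuousLinearMap.le_opNorm _ _
        _ ≤ ε * m * ‖v‖ := mul_le_mul_of_nonneg_right h1.le (norm_nonneg _)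
        _ = ε * (m * ‖v‖) := by ring
        _ ≤ ε * ‖D u s v‖ := mul_le_mul_of_nonneg_left (hlow u hu s hs v) hε.le
    · rw [hout s hs u hu, hout s hs u' hu', sub_self, norm_zero]
      positivity
  obtain ⟨n, hn⟩ := exists_nat_one_div_lt hδ
  have hn0 : (0 : ℝ) < n + 1 := by positivity
  have key : ∀ k : ℕ, k ≤ n + 1 → Relation.ReflTransGen (NearR ε) (D 0) (D ((k : ℝ) / (n + 1))) := by
    intro k
    induction k with
    | zero =>
      intro _
      rw [Nat.cast_zero, zero_div]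
    | succ k ih =>
      intro hk
      refine (ih (by omega)).tail ?_
      have hk' : ((k : ℝ) + 1) ≤ n + 1 := by exact_mod_cast hk
      apply step
      · constructor
        · positivity
        · rw [div_le_one hn0]
          linarith
      · constructor
        · positivity
        · rw [div_le_one hn0]
          push_cast
          exact hk'
      · have h1 : (k : ℝ) / (n + 1) - ((k + 1 : ℕ) : ℝ) / (n + 1) = -(1 / ((n : ℝ) + 1)) := by
          push_cast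
          field_simp
          ring
        rw [h1, abs_neg, abs_of_pos (by positivity)]
        exact hn
  have h := key (n + 1) le_rfl
  have h1 : ((n + 1 : ℕ) : ℝ) / (n + 1) = 1 := by
    push_cast
    exact div_self hn0.ne'
  rw [h1] at h
  exact h

end Pool.Agent.NHP
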