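import Pool.Agent.NHP.Gld

/-!
# NHP/Glq: every invertible linear map is connected to the identity, up to the reflection (difficulty 3)

Identify `E` with `ℝ³` (a basis) and use `Matrix.diagonal_transvection_induction_of_det_ne_zero`.
-/

open scoped Manifold ContDiff Topology
open Set Filter
open Pool.Agent.CSG (stp)
open Pool.Agent.RSG (E3 ex Thick)
open Pool.Agent.KNT (Dom Str Str2 BalC bmp)

namespace Pool.Agent.NHP

/-- coordinates -/
noncomputable def Glq_cv : E ≃ₗ[ℝ] (Fin 3 → ℝ) where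
  toFun q := ![q.1.re, q.1.im, q.2]
  map_add' p q := by
    ext i; fin_cases i <;> simp
  map_smul' c q := by
    ext i; fin_cases i <;> simp
  invFun v := (⟨v 0, v 1⟩, v 2)
  left_inv q := by simp
  right_inv v := by
    ext i; fin_cases i <;> simp

/-- the linear map with matrix `M` -/
noncomputable def Glq_mt (M : Matrix (Fin 3) (Fin 3) ℝ) : E →L[ℝ] E :=
  LinearMap.toContinuousLinearMap
    (Glq_cv.symm.toLinearMap ∘ₗ Matrix.toLin' M ∘ₗ Glq_cv.toLinearMap)

theorem Glq_mt_apply (M : Matrix (Fin 3) (Fin 3) ℝ) (q : E) :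
    Glq_mt M q = Glq_cv.symm (M.mulVec (Glq_cv q)) := by
  simp [Glq_mt]

theorem Glq_mt_mul (M M' : Matrix (Fin 3) (Fin 3) ℝ) :
    Glq_mt (M * M') = (Glq_mt M).comp (Glq_mt M') := by
  refine ContinuousLinearMap.ext fun q => ?_
  simp [Glq_mt_apply, Matrix.mulVec_mulVec]

theorem Glq_mt_one : Glq_mt 1 = ContinuousLinearMap.id ℝ E := by
  refine ContinuousLinearMap.ext fun q => ?_
  simp [Glq_mt_apply]

theorem Glq_mt_lin (M : Matrix (Fin 3) (Fin 3) ℝ) (t : ℝ) :
    ContinuousLinearMap.id ℝ E + t • (Glq_mt M - ContinuousLinearMap.id ℝ E) =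
      Glq_mt (1 + t • (M - 1)) := by
  rw [← Glq_mt_one]
  refine ContinuousLinearMap.ext fun q => ?_
  simp [Glq_mt_apply, Matrix.add_mulVec, Matrix.smul_mulVec, Matrix.sub_mulVec, map_add, map_sub,
    map_smul]

theorem Glq_mt_bij {M : Matrix (Fin 3) (Fin 3) ℝ} (h : M.det ≠ 0) : Function.Bijective (Glq_mt M) := by
  rw [Function.bijective_iff_has_inverse]
  refine ⟨Glq_mt M⁻¹, fun q => ?_, fun q => ?_⟩
  · have h1 := congrArg (fun A : E →L[ℝ] E => A q)
      ((Glq_mt_mul M⁻¹ M).symm.trans (by rw [Matrix.nonsing_inv_mul _ (isUnit_iff_ne_zero.2 h), Glq_mt_one]))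
    simpa using h1
  · have h1 := congrArg (fun A : E →L[ℝ] E => A q)
      ((Glq_mt_mul M M⁻¹).symm.trans (by rw [Matrix.mul_nonsing_inv _ (isUnit_iff_ne_zero.2 h), Glq_mt_one]))
    simpa using h1

theorem Glq_refL_comp : refL.comp refL = ContinuousLinearMap.id ℝ E := by
  refine ContinuousLinearMap.ext fun q => ?_
  simp [refL_apply]

theorem Glq_refL_bij : Function.Bijective refL := by
  rw [Function.bijective_iff_has_inverse]
  refine ⟨refL, fun q => ?_, fun q => ?_⟩ <;> simp [refL_apply]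

theorem Glq_comp {D D' : ℝ → E →L[ℝ] E} (h : GLp D) (h' : GLp D') : GLp fun s => (D s).comp (D' s) where
  smooth := h.smooth.clm_comp h'.smooth
  bij s := by
    have := (h.bij s).comp (h'.bij s)
    exact this
  start s hs := by
    simp only [h.start s hs, h'.start s hs, ContinuousLinearMap.id_comp]
  stop s hs := by
    simp only [h.stop s hs, h'.stop s hs]

theorem Glq_conj {D : ℝ → E →L[ℝ] E} (h : GLp D) : GLp fun s => (refL.comp (D s)).comp refL where
  smooth := (contDiff_const.clm_comp h.smooth).clm_comp contDiff_const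
  bij s := by
    have := (Glq_refL_bij.comp (h.bij s)).comp Glq_refL_bij
    exact this
  start s hs := by
    simp only [h.start s hs, ContinuousLinearMap.comp_id, Glq_refL_comp]
  stop s hs := by
    simp only [h.stop s hs]

/-- the conclusion -/
def Glq_S (A : E →L[ℝ] E) : Prop := ∃ D : ℝ → E →L[ℝ] E, GLp D ∧ (D 1 = A ∨ D 1 = A.comp refL)

theorem Glq_S_comp {A A' : E →L[ℝ] E} (h : Glq_S A) (h' : Glq_S A') : Glq_S (A.comp A') := by
  obtain ⟨D, hD, h1⟩ := h
  obtain ⟨D', hD', h2⟩ := h'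
  rcases h1 with h1 | h1
  · refine ⟨_, Glq_comp hD hD', ?_⟩
    rcases h2 with h2 | h2
    · left; simp only [h1, h2]
    · right; simp only [h1, h2, ContinuousLinearMap.comp_assoc]
  · refine ⟨_, Glq_comp hD (Glq_conj hD'), ?_⟩
    have e : ∀ B : E →L[ℝ] E, refL.comp (refL.comp B) = B := fun B => by
      rw [← ContinuousLinearMap.comp_assoc, Glq_refL_comp, ContinuousLinearMap.id_comp]
    rcases h2 with h2 | h2
    · right
      simp only [h1, h2, ContinuousLinearMap.comp_assoc, e]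
    · left
      simp only [h1, h2, ContinuousLinearMap.comp_assoc, e, Glq_refL_comp, ContinuousLinearMap.comp_id]

theorem Glq_seg {M : Matrix (Fin 3) (Fin 3) ℝ} (h : ∀ t : ℝ, 0 ≤ t → t ≤ 1 → (1 + t • (M - 1)).det ≠ 0) :
    Glq_S (Glq_mt M) := by
  refine ⟨fun s => ContinuousLinearMap.id ℝ E + stp (1 / 8) (7 / 8) s •
    (Glq_mt M - ContinuousLinearMap.id ℝ E), ?_, Or.inl ?_⟩
  · constructor
    · exact contDiff_const.add ((CSG.stp_smooth _ _).smul contDiff_const)
    · intro s
      show Function.Bijective (ContinuousLinearMap.id ℝ E + stp (1 / 8) (7 / 8) s •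
        (Glq_mt M - ContinuousLinearMap.id ℝ E))
      rw [Glq_mt_lin]
      exact Glq_mt_bij (h _ (CSG.stp_nonneg _ _ _) (CSG.stp_le_one _ _ _))
    · intro s hs
      show ContinuousLinearMap.id ℝ E + stp (1 / 8) (7 / 8) s •
        (Glq_mt M - ContinuousLinearMap.id ℝ E) = _
      rw [CSG.stp_zero (by norm_num : (1 / 8 : ℝ) < 7 / 8) hs]
      refine ContinuousLinearMap.ext fun q => ?_
      simp
    · intro s hs
      show ContinuousLinearMap.id ℝ E + stp (1 / 8) (7 / 8) s •
        (Glq_mt M - ContinuousLinearMap.id ℝ E) = ContinuousLinearMap.id ℝ E + stp (1 / 8) (7 / 8) 1 •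
        (Glq_mt M - ContinuousLinearMap.id ℝ E)
      rw [CSG.stp_one (by norm_num : (1 / 8 : ℝ) < 7 / 8) hs,
        CSG.stp_one (by norm_num : (1 / 8 : ℝ) < 7 / 8) (by norm_num : (7 / 8 : ℝ) ≤ 1)]
  · show ContinuousLinearMap.id ℝ E + stp (1 / 8) (7 / 8) 1 •
        (Glq_mt M - ContinuousLinearMap.id ℝ E) = _
    rw [CSG.stp_one (by norm_num : (1 / 8 : ℝ) < 7 / 8) (by norm_num : (7 / 8 : ℝ) ≤ 1),
      one_smul, add_sub_cancel]

theorem Glq_trans {i j : Fin 3} (hij : i ≠ j) (c : ℝ) : Glq_S (Glq_mt (Matrix.transvection i j c)) := by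
  apply Glq_seg
  intro t _ _
  have : (1 : Matrix (Fin 3) (Fin 3) ℝ) + t • (Matrix.transvection i j c - 1) =
      Matrix.transvection i j (t * c) := by
    rw [Matrix.transvection, Matrix.transvection, add_sub_cancel_left, Matrix.smul_single, smul_eq_mul]
  rw [this, Matrix.det_transvection_of_ne _ _ hij]
  exact one_ne_zero

theorem Glq_pos {d : Fin 3 → ℝ} (hd : ∀ i, 0 < d i) : Glq_S (Glq_mt (Matrix.diagonal d)) := by
  apply Glq_seg
  intro t h0 h1
  have : (1 : Matrix (Fin 3) (Fin 3) ℝ) + t • (Matrix.diagonal d - 1) =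
      Matrix.diagonal fun i => 1 + t * (d i - 1) := by
    ext i j
    by_cases hij : i = j
    · subst hij; simp
    · simp [hij, Matrix.one_apply_ne hij]
  rw [this, Matrix.det_diagonal]
  refine Finset.prod_ne_zero_iff.2 fun i _ => ne_of_gt ?_
  have := hd i
  rcases h1.lt_or_eq with h | h
  · nlinarith [mul_nonneg h0 this.le]
  · subst h; linarith

theorem Glq_refL_S : Glq_S refL := by
  refine ⟨fun _ => ContinuousLinearMap.id ℝ E, ?_, Or.inr Glq_refL_comp.symm⟩
  exact ⟨contDiff_const, fun _ => Function.bijective_id, fun _ _ => rfl, fun _ _ => rfl⟩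

theorem Glq_refL_mt : Glq_mt (Matrix.diagonal ![1, -1, 1]) = refL := by
  refine ContinuousLinearMap.ext fun q => ?_
  rw [Glq_mt_apply, refL_apply]
  apply Glq_cv.injective
  rw [LinearEquiv.apply_symm_apply]
  ext i
  fin_cases i <;> simp [Glq_cv, Matrix.mulVec_diagonal]

theorem Glq_mul {M M' : Matrix (Fin 3) (Fin 3) ℝ} (h : Glq_S (Glq_mt M)) (h' : Glq_S (Glq_mt M')) :
    Glq_S (Glq_mt (M * M')) := by
  rw [Glq_mt_mul]
  exact Glq_S_comp h h'

theorem Glq_m1 : Glq_S (Glq_mt (Matrix.diagonal ![1, -1, 1])) := by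
  rw [Glq_refL_mt]
  exact Glq_refL_S

theorem Glq_J {i j : Fin 3} (hij : i ≠ j) : Glq_S (Glq_mt (Matrix.transvection i j (-1) *
    Matrix.transvection j i 1 * Matrix.transvection i j (-1))) :=
  Glq_mul (Glq_mul (Glq_trans hij _) (Glq_trans hij.symm _)) (Glq_trans hij _)

theorem Glq_r01 : Glq_S (Glq_mt (Matrix.diagonal ![-1, -1, 1])) := by
  have h := Glq_mul (Glq_J (by decide : (0 : Fin 3) ≠ 1)) (Glq_J (by decide : (0 : Fin 3) ≠ 1))
  convert h using 2
  ext i j
  fin_cases i <;> fin_cases j <;>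
    simp [Matrix.transvection, Matrix.mul_apply, Fin.sum_univ_three, Matrix.one_apply, Matrix.single,
      Matrix.diagonal]

theorem Glq_r12 : Glq_S (Glq_mt (Matrix.diagonal ![1, -1, -1])) := by
  have h := Glq_mul (Glq_J (by decide : (1 : Fin 3) ≠ 2)) (Glq_J (by decide : (1 : Fin 3) ≠ 2))
  convert h using 2
  ext i j
  fin_cases i <;> fin_cases j <;>
    simp [Matrix.transvection, Matrix.mul_apply, Fin.sum_univ_three, Matrix.one_apply, Matrix.single,
      Matrix.diagonal]

theorem Glq_m0 : Glq_S (Glq_mt (Matrix.diagonal ![-1, 1, 1])) := by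
  have h := Glq_mul Glq_r01 Glq_m1
  rw [Matrix.diagonal_mul_diagonal] at h
  convert h using 2
  refine congrArg Matrix.diagonal ?_
  ext i
  fin_cases i <;> simp

theorem Glq_m2 : Glq_S (Glq_mt (Matrix.diagonal ![1, 1, -1])) := by
  have h := Glq_mul Glq_r12 Glq_m1
  rw [Matrix.diagonal_mul_diagonal] at h
  convert h using 2
  refine congrArg Matrix.diagonal ?_
  ext i
  fin_cases i <;> simp

theorem Glq_id : Glq_S (Glq_mt (Matrix.diagonal ![1, 1, 1])) :=
  Glq_pos fun i => by fin_cases i <;> simp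

theorem Glq_sgn {s : Fin 3 → ℝ} (hs : ∀ i, s i = 1 ∨ s i = -1) : Glq_S (Glq_mt (Matrix.diagonal s)) := by
  have h0 : Glq_S (Glq_mt (Matrix.diagonal ![s 0, 1, 1])) := by
    rcases hs 0 with h | h <;> rw [h]
    · exact Glq_id
    · exact Glq_m0
  have h1 : Glq_S (Glq_mt (Matrix.diagonal ![1, s 1, 1])) := by
    rcases hs 1 with h | h <;> rw [h]
    · exact Glq_id
    · exact Glq_m1
  have h2 : Glq_S (Glq_mt (Matrix.diagonal ![1, 1, s 2])) := by
    rcases hs 2 with h | h <;> rw [h]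
    · exact Glq_id
    · exact Glq_m2
  have h := Glq_mul (Glq_mul h0 h1) h2
  rw [Matrix.diagonal_mul_diagonal, Matrix.diagonal_mul_diagonal] at h
  convert h using 2
  refine congrArg Matrix.diagonal ?_
  ext i
  fin_cases i <;> simp

theorem Glq_diag {d : Fin 3 → ℝ} (hd : ∀ i, d i ≠ 0) : Glq_S (Glq_mt (Matrix.diagonal d)) := by
  have h1 : Glq_S (Glq_mt (Matrix.diagonal fun i => |d i|)) := Glq_pos fun i => abs_pos.2 (hd i)
  have h2 : Glq_S (Glq_mt (Matrix.diagonal fun i => if 0 < d i then (1 : ℝ) else -1)) :=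
    Glq_sgn fun i => by
      by_cases h : 0 < d i
      · left; simp [h]
      · right; simp [h]
  have h := Glq_mul h1 h2
  rw [Matrix.diagonal_mul_diagonal] at h
  convert h using 2
  refine congrArg Matrix.diagonal ?_
  ext i
  by_cases hi : 0 < d i
  · simp [hi, abs_of_pos hi]
  · have : d i < 0 := lt_of_le_of_ne (not_lt.1 hi) (hd i)
    simp [hi, abs_of_neg this]

theorem Glq_all {M : Matrix (Fin 3) (Fin 3) ℝ} (h : M.det ≠ 0) : Glq_S (Glq_mt M) := by
  refine Matrix.diagonal_transvection_induction_of_det_ne_zero (fun M => Glq_S (Glq_mt M)) M h ?_ ?_ ?_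
  · intro d hd
    rw [Matrix.det_diagonal] at hd
    exact Glq_diag fun i => Finset.prod_ne_zero_iff.1 hd i (Finset.mem_univ i)
  · intro t
    exact Glq_trans t.hij _
  · intro A B _ _ hA hB
    exact Glq_mul hA hB

theorem gl_path {A : E →L[ℝ] E} (hA : Function.Bijective A) :
    ∃ D : ℝ → E →L[ℝ] E, GLp D ∧ (D 1 = A ∨ D 1 = A.comp refL) := by
  let f : (Fin 3 → ℝ) ≃ₗ[ℝ] (Fin 3 → ℝ) :=
    (Glq_cv.symm.trans (LinearEquiv.ofBijective A.toLinearMap hA)).trans Glq_cv
  have hdet : (LinearMap.toMatrix' f.toLinearMap).det ≠ 0 := by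
    rw [LinearMap.det_toMatrix']
    exact (LinearEquiv.isUnit_det' f).ne_zero
  have e : Glq_mt (LinearMap.toMatrix' f.toLinearMap) = A := by
    refine ContinuousLinearMap.ext fun q => ?_
    rw [Glq_mt_apply, ← Matrix.toLin'_apply, Matrix.toLin'_toMatrix']
    simp [f]
  have h := Glq_all hdet
  rw [e] at h
  exact h

end Pool.Agent.NHP
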