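import Pool.Agent.NHP.Uni
import Pool.Agent.NHP.Tra
import Pool.Agent.NHP.Nea

/-!
# NHP/Nlc: a push which fixes a point: comparison with a lift of its derivative (difficulty 4)

`g` the inverse of `β` (`Cht.inv`).  `v s q = g (V s (β q))`, smooth near `[0, 1] × {0}` (jointly), `v s 0 = 0`.  `D s = fderiv (v s) 0`: `GLp` (smooth in `s`; bijective: `V s` is a local diffeomorphism; collars from
`hs`, `he`), `D 1 = id` (`h1`).
Cut-off of the nonlinear part: `G (s, q) = bum δ' q • ((D s)⁻¹ (v s q) - q)` (extended by `0` where `bum δ' = 0`; smooth for small `δ'`); `(D s)⁻¹ (v s q) - q` vanishes at `q = 0` to first order, uniformly in `s ∈ [0, 1]`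
(constant in `s` outside): for `δ'` small the partial derivative in `q` is `≤ 1/2` (`‖d bum‖ O(|q|²) + O(|q|)`, `exists_bum_bound`), `small_fam` gives `M s q = q + G (s, q)`, `PushE (Bl δ')`; `M 1 = id` if `δ'` is so
small that `v 1 = id` on `Bl δ'`; `M 0 = id`.  Near `0`: `D s (M s q) = v s q`.
Given `L` (`Lif D δ L`, `δ ≤ δ₁ = δ₀`) and its transport `LN`; `MN` the transport of `M` (`push_chart`).  `W s = (LN s).symm.trans ((MN s).symm.trans (V s))`, i.e. `W s = V s ∘ (MN s)⁻¹ ∘ (LN s)⁻¹`: `Push Y`.  Near `β 0`: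
`LN s (MN s (β q)) = β (L s (M s q)) = β (D s (M s q)) = β (v s q) = V s (β q)` for `q` in a ball independent of `s`; so `W s = id` near `β 0` (uniformly: `q' = v s q` covers a ball independent of `s`).
`W 1 = V 1 ∘ (LN 1)⁻¹`.
-/

open scoped Manifold ContDiff Topology
open Set Filter
open Pool.Agent.CSG (stp)
open Pool.Agent.RSG (E3 ex Thick)
open Pool.Agent.KNT (Dom Str Str2 BalC bmp)

namespace Pool.Agent.NHP

section
variable {N : Type*} [TopologicalSpace N] [ChartedSpace E3 N]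

/-- clamp to `[0, 1]` -/
noncomputable def Nlc_k (s : ℝ) : ℝ := max 0 (min 1 s)

theorem Nlc_k_mem (s : ℝ) : Nlc_k s ∈ Icc (0 : ℝ) 1 :=
  ⟨le_max_left _ _, max_le zero_le_one (min_le_left _ _)⟩

theorem Nlc_tube {O : Set (ℝ × E)} (hO : IsOpen O) (h0 : ∀ s, (s, (0 : E)) ∈ O)
    (hk : ∀ s q, (Nlc_k s, q) ∈ O → (s, q) ∈ O) :
    ∃ ρ : ℝ, 0 < ρ ∧ ∀ (s : ℝ) (q : E), ‖q‖ < ρ → (s, q) ∈ O := by
  obtain ⟨u, v, hu, hv, hu1, hv1, huv⟩ := generalized_tube_lemma (isCompact_Icc (a := (0 : ℝ)) (b := 1))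
    (isCompact_singleton (x := (0 : E))) hO (by
      rintro ⟨s, q⟩ ⟨_, hq⟩
      have hq' : q = 0 := hq
      rw [hq']
      exact h0 s)
  obtain ⟨ρ, hρ, hρv⟩ := Metric.isOpen_iff.mp hv 0 (hv1 rfl)
  refine ⟨ρ, hρ, fun s q hq => hk s q (huv ⟨hu1 (Nlc_k_mem s), hρv ?_⟩)⟩
  rw [mem_ball_zero_iff]
  exact hq

/-- the isotopy in the chart -/
def Nlc_F (g : N → E) (β : E → N) (V : ℝ → Equiv.Perm N) (z : ℝ × E) : E := g (V z.1 (β z.2))

/-- the good points -/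
def Nlc_U (δ₀ : ℝ) (β : E → N) (V : ℝ → Equiv.Perm N) : Set (ℝ × E) :=
  {z | z.2 ∈ Bl δ₀ ∧ V z.1 (β z.2) ∈ β '' Bl δ₀}

theorem Nlc_open {Y : Set N} {V : ℝ → Equiv.Perm N} (hV : Push Y V) {δ₀ : ℝ} {β : E → N}
    (hβ : Cht (Bl δ₀) β) : IsOpen (Nlc_U δ₀ β V) := by
  have h1 : IsOpen {z : ℝ × E | z.2 ∈ Bl δ₀} := (isOpen_Bl δ₀).preimage continuous_snd
  have h2 : ContinuousOn (fun z : ℝ × E => V z.1 (β z.2)) {z : ℝ × E | z.2 ∈ Bl δ₀} := by
    have h3 : ContinuousOn (fun z : ℝ × E => (z.1, β z.2)) {z : ℝ × E | z.2 ∈ Bl δ₀} :=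
      continuousOn_fst.prodMk (hβ.contOn.comp continuousOn_snd fun z hz => hz)
    exact hV.cont.comp_continuousOn h3
  exact h2.isOpen_inter_preimage h1 (hβ.img (isOpen_Bl δ₀) Subset.rfl)

theorem Nlc_smooth {Y : Set N} {V : ℝ → Equiv.Perm N} (hV : Push Y V) {δ₀ : ℝ} {β : E → N}
    (hβ : Cht (Bl δ₀) β) {g : N → E}
    (hg : ∀ x ∈ β '' Bl δ₀, ContMDiffAt (𝓡 3) 𝓘(ℝ, ℂ × ℝ) ∞ g x) {z : ℝ × E} (hz : z ∈ Nlc_U δ₀ β V) :
    ContDiffAt ℝ ∞ (Nlc_F g β V) z := by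
  have h1 : ContMDiffAt 𝓘(ℝ, ℝ × (ℂ × ℝ)) (𝓡 3) ∞ (fun z : ℝ × E => β z.2) z := by
    have e1 : ContMDiffAt 𝓘(ℝ, ℝ × (ℂ × ℝ)) 𝓘(ℝ, ℂ × ℝ) ∞ (fun z : ℝ × E => z.2) z :=
      contDiff_snd.contMDiff.contMDiffAt
    exact (hβ.loc z.2 hz.1).contMDiffAt.comp z e1
  have h2 : ContMDiffAt 𝓘(ℝ, ℝ × (ℂ × ℝ)) (𝓘(ℝ, ℝ).prod (𝓡 3)) ∞ (fun z : ℝ × E => (z.1, β z.2)) z := by
    have e1 : ContMDiffAt 𝓘(ℝ, ℝ × (ℂ × ℝ)) 𝓘(ℝ, ℝ) ∞ (fun z : ℝ × E => z.1) z :=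
      contDiff_fst.contMDiff.contMDiffAt
    exact e1.prodMk h1
  have h3 : ContMDiffAt 𝓘(ℝ, ℝ × (ℂ × ℝ)) (𝓡 3) ∞ (fun z : ℝ × E => V z.1 (β z.2)) z :=
    (hV.smooth.contMDiffAt (x := (z.1, β z.2))).comp z h2
  have h4 : ContMDiffAt 𝓘(ℝ, ℝ × (ℂ × ℝ)) 𝓘(ℝ, ℂ × ℝ) ∞ (Nlc_F g β V) z :=
    (hg _ hz.2).comp z h3
  exact contMDiffAt_iff_contDiffAt.mp h4

/-- the derivative at the fixed point -/
noncomputable def Nlc_D (g : N → E) (β : E → N) (V : ℝ → Equiv.Perm N) (s : ℝ) : E →L[ℝ] E :=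
  fderiv ℝ (fun q => Nlc_F g β V (s, q)) 0

theorem Nlc_zeroU {V : ℝ → Equiv.Perm N} {δ₀ : ℝ} (hδ₀ : 0 < δ₀) {β : E → N}
    (hr : ∀ s, V s (β 0) = β 0) (s : ℝ) : (s, (0 : E)) ∈ Nlc_U δ₀ β V := by
  refine ⟨zero_mem_Bl hδ₀, ?_⟩
  show V s (β 0) ∈ _
  rw [hr]
  exact ⟨0, zero_mem_Bl hδ₀, rfl⟩

/-- partial derivative -/
theorem Nlc_part {H : ℝ × E → E} {s : ℝ} {q : E} (h : ContDiffAt ℝ ∞ H (s, q)) :
    HasFDerivAt (fun q' => H (s, q')) ((fderiv ℝ H (s, q)).comp (ContinuousLinearMap.inr ℝ ℝ E)) q := by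
  have h1 : HasFDerivAt H (fderiv ℝ H (s, q)) (s, q) := (h.differentiableAt (by simp)).hasFDerivAt
  have h2 : HasFDerivAt (fun q' : E => (s, q')) (ContinuousLinearMap.inr ℝ ℝ E) q :=
    hasFDerivAt_prodMk_right s q
  exact h1.comp q h2

theorem Nlc_D_smooth {Y : Set N} {V : ℝ → Equiv.Perm N} (hV : Push Y V) {δ₀ : ℝ} (hδ₀ : 0 < δ₀) {β : E → N}
    (hβ : Cht (Bl δ₀) β) (hr : ∀ s, V s (β 0) = β 0) {g : N → E}
    (hg : ∀ x ∈ β '' Bl δ₀, ContMDiffAt (𝓡 3) 𝓘(ℝ, ℂ × ℝ) ∞ g x) : ContDiff ℝ ∞ (Nlc_D g β V) := by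
  rw [contDiff_iff_contDiffAt]
  intro s
  have h0 : ∀ s, ContDiffAt ℝ ∞ (Nlc_F g β V) (s, 0) := fun s =>
    Nlc_smooth hV hβ hg (Nlc_zeroU hδ₀ hr s)
  have h1 : Nlc_D g β V = fun s => (fderiv ℝ (Nlc_F g β V) (s, 0)).comp (ContinuousLinearMap.inr ℝ ℝ E) := by
    funext s
    exact (Nlc_part (h0 s)).fderiv
  rw [h1]
  have h2 : ContDiffAt ℝ ∞ (fderiv ℝ (Nlc_F g β V)) (s, 0) :=
    (h0 s).fderiv_right (by simp)
  have h3 : ContDiffAt ℝ ∞ (fun s : ℝ => fderiv ℝ (Nlc_F g β V) (s, (0 : E))) s :=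
    h2.comp s (contDiffAt_id.prodMk contDiffAt_const)
  exact h3.clm_comp contDiffAt_const

theorem Nlc_DD {Y : Set N} {V V' : ℝ → Equiv.Perm N} (hV : Push Y V) (hV' : Push Y V')
    (hVV : ∀ s x, V' s (V s x) = x) {δ₀ : ℝ} (hδ₀ : 0 < δ₀) {β : E → N}
    (hβ : Cht (Bl δ₀) β) (hr : ∀ s, V s (β 0) = β 0) (hr' : ∀ s, V' s (β 0) = β 0) {g : N → E}
    (hgβ : ∀ q ∈ Bl δ₀, g (β q) = q)
    (hg : ∀ x ∈ β '' Bl δ₀, ContMDiffAt (𝓡 3) 𝓘(ℝ, ℂ × ℝ) ∞ g x) (s : ℝ) (q : E) :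
    Nlc_D g β V' s (Nlc_D g β V s q) = q := by
  have h0 : HasFDerivAt (fun q => Nlc_F g β V (s, q)) (Nlc_D g β V s) 0 :=
    (Nlc_part (Nlc_smooth hV hβ hg (Nlc_zeroU hδ₀ hr s))).differentiableAt.hasFDerivAt
  have h0' : HasFDerivAt (fun q => Nlc_F g β V' (s, q)) (Nlc_D g β V' s) (Nlc_F g β V (s, 0)) := by
    have e : Nlc_F g β V (s, 0) = 0 := by
      show g (V s (β 0)) = 0
      rw [hr, hgβ 0 (zero_mem_Bl hδ₀)]
    rw [e]
    exact (Nlc_part (Nlc_smooth hV' hβ hg (Nlc_zeroU hδ₀ hr' s))).differentiableAt.hasFDerivAt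
  have h1 := h0'.comp (0 : E) h0
  have h2 : HasFDerivAt (fun q : E => q) (ContinuousLinearMap.id ℝ E) 0 := hasFDerivAt_id 0
  have h3 : (fun q => Nlc_F g β V' (s, q)) ∘ (fun q => Nlc_F g β V (s, q)) =ᶠ[𝓝 (0 : E)] fun q => q := by
    have hU : IsOpen {q : E | (s, q) ∈ Nlc_U δ₀ β V} :=
      (Nlc_open hV hβ).preimage (continuous_const.prodMk continuous_id)
    filter_upwards [hU.mem_nhds (Nlc_zeroU hδ₀ hr s : (0 : E) ∈ {q : E | (s, q) ∈ Nlc_U δ₀ β V})] with q hq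
    obtain ⟨hq1, p, hp, hpe⟩ := hq
    have hpe' : β p = V s (β q) := hpe
    show g (V' s (β (g (V s (β q))))) = q
    rw [← hpe', hgβ p hp, hpe', hVV, hgβ q hq1]
  have h4 := h1.congr_of_eventuallyEq h3.symm
  have h5 := h4.unique h2
  have h6 := congrArg (fun A : E →L[ℝ] E => A q) h5
  exact h6

end

section
/-- cut-off of the nonlinear part -/
theorem Nlc_M {U : Set (ℝ × E)} (hU : IsOpen U) {H : ℝ × E → E} (hH : ∀ z ∈ U, ContDiffAt ℝ ∞ H z)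
    (h0U : ∀ s, (s, (0 : E)) ∈ U) (hk : ∀ s q, (Nlc_k s, q) ∈ U → (s, q) ∈ U)
    (hHk : ∀ s q, H (s, q) = H (Nlc_k s, q)) (hH0 : ∀ s, H (s, 0) = 0)
    (hdH : ∀ s, fderiv ℝ (fun q => H (s, q)) 0 = 0) :
    ∃ ρ : ℝ, 0 < ρ ∧ ∀ δ' : ℝ, 0 < δ' → δ' ≤ ρ → ∃ M : ℝ → Equiv.Perm E,
      ContDiff ℝ ∞ (fun z : ℝ × E => M z.1 z.2) ∧ ContDiff ℝ ∞ (fun z : ℝ × E => (M z.1).symm z.2) ∧
        ∀ s q, M s q = q + bum δ' q • H (s, q) := by
  obtain ⟨C, hC, hCb⟩ := exists_bum_bound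
  set ε := 1 / (2 * (1 + C)) with hε
  have hε0 : 0 < ε := by positivity
  set P : ℝ × E → E →L[ℝ] E := fun z => (fderiv ℝ H z).comp (ContinuousLinearMap.inr ℝ ℝ E) with hP
  have hPd : ∀ s q, (s, q) ∈ U → HasFDerivAt (fun q' => H (s, q')) (P (s, q)) q := fun s q hz =>
    Nlc_part (hH _ hz)
  have hPc : ContinuousOn P U := by
    intro z hz
    have h1 : ContDiffAt ℝ ∞ (fderiv ℝ H) z := (hH z hz).fderiv_right (by simp)
    exact (h1.clm_comp contDiffAt_const).continuousAt.continuousWithinAt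
  have hO : IsOpen (U ∩ P ⁻¹' (Metric.ball 0 ε)) := hPc.isOpen_inter_preimage hU Metric.isOpen_ball
  obtain ⟨ρ, hρ, hρO⟩ := Nlc_tube hO (by
    intro s
    refine ⟨h0U s, ?_⟩
    have e1 := (hPd s 0 (h0U s)).fderiv
    rw [hdH] at e1
    show P (s, 0) ∈ Metric.ball 0 ε
    rw [← e1]
    exact Metric.mem_ball_self hε0) (by
    rintro s q ⟨hz, hz'⟩
    refine ⟨hk s q hz, ?_⟩
    have e1 := (hPd s q (hk s q hz)).fderiv
    have e2 := (hPd (Nlc_k s) q hz).fderiv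
    have e3 : (fun q' => H (s, q')) = fun q' => H (Nlc_k s, q') := by
      funext q'
      exact hHk s q'
    rw [e3, e2] at e1
    show P (s, q) ∈ Metric.ball 0 ε
    rw [← e1]
    exact hz')
  -- bounds
  have hPb : ∀ s q, ‖q‖ < ρ → ‖P (s, q)‖ ≤ ε := by
    intro s q hq
    have := (hρO s q hq).2
    have h2 : P (s, q) ∈ Metric.ball 0 ε := this
    rw [mem_ball_zero_iff] at h2
    exact h2.le
  have hHb : ∀ s q, ‖q‖ < ρ → ‖H (s, q)‖ ≤ ε * ‖q‖ := by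
    intro s q hq
    have h1 := (convex_ball (0 : E) ρ).norm_image_sub_le_of_norm_hasFDerivWithin_le
      (f := fun q' => H (s, q')) (f' := fun q' => P (s, q')) (C := ε) (x := 0) (y := q)
      (fun x hx => (hPd s x (hρO s x (mem_ball_zero_iff.mp hx)).1).hasFDerivWithinAt)
      (fun x hx => hPb s x (mem_ball_zero_iff.mp hx)) (Metric.mem_ball_self hρ) (mem_ball_zero_iff.mpr hq)
    simp only [hH0, sub_zero] at h1
    exact h1
  refine ⟨ρ, hρ, fun δ' hδ' hδρ => ?_⟩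
  have hin : ∀ q : E, nr q < δ' ^ 2 → ‖q‖ < ρ := by
    intro q hq
    have h1 := (nr_le q).1
    have h2 : ‖q‖ ^ 2 < δ' ^ 2 := lt_of_le_of_lt h1 hq
    have h3 : ‖q‖ < δ' := lt_of_pow_lt_pow_left₀ 2 hδ'.le h2
    linarith
  have hmem : ∀ z : ℝ × E, nr z.2 < δ' ^ 2 → z ∈ U := fun z hz => (hρO z.1 z.2 (hin _ hz)).1
  set G : ℝ × E → E := fun z => bum δ' z.2 • H z with hG
  have hbs : ContDiff ℝ ∞ fun z : ℝ × E => bum δ' z.2 := (bum_smooth δ').comp contDiff_snd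
  have hnc : Continuous fun z : ℝ × E => nr z.2 := nr_smooth.continuous.comp continuous_snd
  have hfar : ∀ z : ℝ × E, δ' ^ 2 / 4 < nr z.2 → G =ᶠ[𝓝 z] fun _ => 0 := by
    intro z hz
    have ho : IsOpen {z : ℝ × E | δ' ^ 2 / 4 < nr z.2} := isOpen_lt continuous_const hnc
    filter_upwards [ho.mem_nhds hz] with z' hz'
    show bum δ' z'.2 • H z' = 0
    rw [bum_zero hδ' (le_of_lt hz'), zero_smul]
  have hδ2 : δ' ^ 2 / 4 < δ' ^ 2 := by
    have : 0 < δ' ^ 2 := by positivity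
    linarith
  have hGs : ContDiff ℝ ∞ G := by
    rw [contDiff_iff_contDiffAt]
    intro z
    by_cases hz : nr z.2 < δ' ^ 2
    · exact hbs.contDiffAt.smul (hH z (hmem z hz))
    · push Not at hz
      exact contDiffAt_const.congr_of_eventuallyEq (hfar z (by linarith))
  have hGb : ∀ z : ℝ × E, ‖(fderiv ℝ G z).comp (ContinuousLinearMap.inr ℝ ℝ E)‖ ≤ 1 / 2 := by
    rintro ⟨s, q⟩
    by_cases hz : nr q < δ' ^ 2
    · have h1 := (Nlc_part (s := s) (q := q) hGs.contDiffAt)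
      have h2 : HasFDerivAt (bum δ') (fderiv ℝ (bum δ') q) q :=
        ((bum_smooth δ').differentiable (by simp) q).hasFDerivAt
      have h3 := h2.smul (hPd s q (hmem (s, q) hz))
      have h4 := h1.unique h3
      rw [h4]
      have hq := hin q hz
      have hb := bum_mem δ' q
      have e1 : ‖bum δ' q • P (s, q)‖ ≤ ε := by
        rw [norm_smul, Real.norm_eq_abs, abs_of_nonneg hb.1]
        have := hPb s q hq
        calc bum δ' q * ‖P (s, q)‖ ≤ 1 * ε := mul_le_mul hb.2 this (norm_nonneg _) zero_le_one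
          _ = ε := one_mul _
      have e2 : ‖(fderiv ℝ (bum δ') q).smulRight (H (s, q))‖ ≤ C * ε := by
        rw [ContinuousLinearMap.norm_smulRight_apply]
        calc ‖fderiv ℝ (bum δ') q‖ * ‖H (s, q)‖ ≤ ‖fderiv ℝ (bum δ') q‖ * (ε * ‖q‖) :=
              mul_le_mul_of_nonneg_left (hHb s q hq) (norm_nonneg _)
          _ = (‖q‖ * ‖fderiv ℝ (bum δ') q‖) * ε := by ring
          _ ≤ C * ε := mul_le_mul_of_nonneg_right (hCb δ' hδ' q) hε0.le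
      refine (norm_add_le _ _).trans ?_
      refine (add_le_add e1 e2).trans ?_
      have : ε + C * ε = 1 / 2 := by
        rw [hε]
        have : (1 + C) ≠ 0 := by positivity
        field_simp
      rw [this]
    · push Not at hz
      have h1 : fderiv ℝ G (s, q) = 0 := by
        rw [(hfar (s, q) (by linarith)).fderiv_eq]
        exact fderiv_const_apply _
      rw [h1, ContinuousLinearMap.zero_comp, norm_zero]
      norm_num
  obtain ⟨M, hM1, hM2, hM3⟩ := small_fam hGs hGb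
  exact ⟨M, hM1, hM2, hM3⟩

end

variable {N : Type*} [TopologicalSpace N] [ChartedSpace E3 N] [IsManifold (𝓡 3) ∞ N] [T2Space N]

theorem lin_germ {Y : Set N} {V : ℝ → Equiv.Perm N} (hV : Push Y V) (hs : ∀ s ≤ 1 / 8, V s = Equiv.refl N)
    (he : ∀ s, 7 / 8 ≤ s → V s = V 1) {β : E → N} {δ₀ : ℝ} (hδ₀ : 0 < δ₀) (hβ : Cht (Bl δ₀) β) (hβY : β '' Bl δ₀ ⊆ Y)
    (hr : ∀ s, V s (β 0) = β 0) (h1 : ∃ ρ : ℝ, 0 < ρ ∧ ∀ q ∈ Bl ρ, V 1 (β q) = β q) :
    ∃ D : ℝ → E →L[ℝ] E, GLp D ∧ D 1 = ContinuousLinearMap.id ℝ E ∧ ∀ δ : ℝ, 0 < δ → δ ≤ δ₀ → ∀ L : ℝ → Equiv.Perm E, Lif D δ L →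
      ∃ (W LN : ℝ → Equiv.Perm N), Push Y W ∧ Push (β '' Bl δ) LN ∧ (∃ ρ : ℝ, 0 < ρ ∧ ∀ s, ∀ q ∈ Bl ρ, W s (β q) = β q) ∧
        (∀ s, ∀ q ∈ Bl δ, LN s (β q) = β (L s q)) ∧ ∀ x, V 1 x = W 1 (LN 1 x) := by
  obtain ⟨g, hgβ, hg⟩ := hβ.inv
  obtain ⟨ρ₁, hρ₁, hV1⟩ := h1
  have hV' : Push Y fun s => (V s).symm := hV.inv
  have hr' : ∀ s, (V s).symm (β 0) = β 0 := fun s => by
    rw [Equiv.symm_apply_eq, hr]
  have hVk : ∀ s, V s = V (Nlc_k s) := by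
    intro s
    unfold Nlc_k
    rcases le_total s 0 with h | h
    · rw [min_eq_right (h.trans zero_le_one), max_eq_left h, hs s (by linarith), hs 0 (by norm_num)]
    · rcases le_total s 1 with h' | h'
      · rw [min_eq_right h', max_eq_right h]
      · rw [min_eq_left h', max_eq_right zero_le_one]
        exact he s (by linarith)
  have hbj : ∀ s q, Nlc_D g β (fun s => (V s).symm) s (Nlc_D g β V s q) = q :=
    Nlc_DD hV hV' (fun s x => (V s).symm_apply_apply x) hδ₀ hβ hr hr' hgβ hg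
  have hbj' : ∀ s q, Nlc_D g β V s (Nlc_D g β (fun s => (V s).symm) s q) = q :=
    Nlc_DD hV' hV (fun s x => (V s).apply_symm_apply x) hδ₀ hβ hr' hr hgβ hg
  set D := Nlc_D g β V with hDdef
  set D' := Nlc_D g β (fun s => (V s).symm) with hD'def
  have hDs : ContDiff ℝ ∞ D := Nlc_D_smooth hV hδ₀ hβ hr hg
  have hDs' : ContDiff ℝ ∞ D' := Nlc_D_smooth hV' hδ₀ hβ hr' hg
  -- identity germs
  have hid : ∀ (s ρ : ℝ), 0 < ρ → (∀ q ∈ Bl ρ, V s (β q) = β q) → D s = ContinuousLinearMap.id ℝ E := by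
    intro s ρ hρ hq
    have h2 : (fun q => Nlc_F g β V (s, q)) =ᶠ[𝓝 (0 : E)] fun q => q := by
      filter_upwards [(isOpen_Bl ρ).mem_nhds (zero_mem_Bl hρ), (isOpen_Bl δ₀).mem_nhds (zero_mem_Bl hδ₀)]
        with q hq1 hq2
      show g (V s (β q)) = q
      rw [hq q hq1, hgβ q hq2]
    show fderiv ℝ (fun q => Nlc_F g β V (s, q)) 0 = _
    rw [h2.fderiv_eq]
    exact fderiv_fun_id
  have hDk : ∀ s, D s = D (Nlc_k s) := by
    intro s
    show fderiv ℝ (fun q => g (V s (β q))) 0 = fderiv ℝ (fun q => g (V (Nlc_k s) (β q))) 0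
    rw [← hVk s]
  have hDk' : ∀ s, D' s = D' (Nlc_k s) := by
    intro s
    show fderiv ℝ (fun q => g ((V s).symm (β q))) 0 = fderiv ℝ (fun q => g ((V (Nlc_k s)).symm (β q))) 0
    rw [← hVk s]
  have hD1 : D 1 = ContinuousLinearMap.id ℝ E := hid 1 ρ₁ hρ₁ hV1
  have hDst : ∀ s ≤ 1 / 8, D s = ContinuousLinearMap.id ℝ E := by
    intro s hs'
    refine hid s 1 one_pos ?_
    intro q _
    rw [hs s hs']
    rfl
  have hDsp : ∀ s, 7 / 8 ≤ s → D s = D 1 := by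
    intro s hs'
    show fderiv ℝ (fun q => g (V s (β q))) 0 = fderiv ℝ (fun q => g (V 1 (β q))) 0
    rw [he s hs']
  have hGL : GLp D := by
    refine ⟨hDs, fun s => ⟨?_, ?_⟩, hDst, hDsp⟩
    · exact Function.LeftInverse.injective (hbj s)
    · exact Function.RightInverse.surjective (hbj' s)
  -- the nonlinear part
  let H : ℝ × E → E := fun z => D' z.1 (Nlc_F g β V z) - z.2
  have hF0 : ∀ s, Nlc_F g β V (s, 0) = 0 := by
    intro s
    show g (V s (β 0)) = 0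
    rw [hr, hgβ 0 (zero_mem_Bl hδ₀)]
  have hUk : ∀ s q, (Nlc_k s, q) ∈ Nlc_U δ₀ β V → (s, q) ∈ Nlc_U δ₀ β V := by
    rintro s q ⟨a, b⟩
    refine ⟨a, ?_⟩
    show V s (β q) ∈ _
    rw [hVk s]
    exact b
  have hHsm : ∀ z ∈ Nlc_U δ₀ β V, ContDiffAt ℝ ∞ H z := by
    intro z hz
    have e1 := Nlc_smooth hV hβ hg hz
    have e2 : ContDiffAt ℝ ∞ (fun z : ℝ × E => D' z.1) z := (hDs'.comp contDiff_fst).contDiffAt
    exact (e2.clm_apply e1).sub contDiffAt_snd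
  obtain ⟨ρ₂, hρ₂, hM⟩ := Nlc_M (H := H) (Nlc_open hV hβ) hHsm (Nlc_zeroU hδ₀ hr) hUk
    (by
      intro s q
      show D' s (g (V s (β q))) - q = D' (Nlc_k s) (g (V (Nlc_k s) (β q))) - q
      rw [← hVk s, ← hDk' s])
    (by
      intro s
      show D' s (Nlc_F g β V (s, 0)) - 0 = 0
      rw [hF0, map_zero, sub_zero])
    (by
      intro s
      have e1 : HasFDerivAt (fun q => Nlc_F g β V (s, q)) (D s) 0 :=
        (Nlc_part (Nlc_smooth hV hβ hg (Nlc_zeroU hδ₀ hr s))).differentiableAt.hasFDerivAt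
      have e2 : HasFDerivAt (fun q => H (s, q)) ((D' s).comp (D s) - ContinuousLinearMap.id ℝ E) 0 :=
        ((D' s).hasFDerivAt.comp (0 : E) e1).sub (hasFDerivAt_id 0)
      rw [e2.fderiv]
      refine ContinuousLinearMap.ext fun v => ?_
      show D' s (D s v) - v = 0
      rw [hbj, sub_self])
  set δ' := min ρ₂ (min δ₀ ρ₁) with hδ'
  have hδ'0 : 0 < δ' := by positivity
  have hδ'2 : δ' ≤ ρ₂ := min_le_left _ _
  have hδ'δ : δ' ≤ δ₀ := (min_le_right _ _).trans (min_le_left _ _)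
  have hδ'1 : δ' ≤ ρ₁ := (min_le_right _ _).trans (min_le_right _ _)
  obtain ⟨M, hM1, hM2, hM3⟩ := hM δ' hδ'0 hδ'2
  have hsup : ∀ q, bum δ' q ≠ 0 → q ∈ Bl δ' := by
    intro q hq
    by_contra hn
    apply hq
    apply bum_zero hδ'0
    have hn' : δ' ^ 2 ≤ nr q := not_lt.mp hn
    have : 0 < δ' ^ 2 := by positivity
    linarith
  have hMid : ∀ s, D' s = ContinuousLinearMap.id ℝ E → (∀ q ∈ Bl δ', V s (β q) = β q) →
      M s = Equiv.refl E := by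
    intro s hD hVs
    ext1 q
    rw [hM3]
    by_cases hb : bum δ' q = 0
    · rw [hb, zero_smul, add_zero]
      rfl
    · have hq := hsup q hb
      have : H (s, q) = 0 := by
        show D' s (g (V s (β q))) - q = 0
        rw [hVs q hq, hgβ q (Bl_mono hδ'0 hδ'δ hq), hD]
        exact sub_self q
      rw [this, smul_zero, add_zero]
      rfl
  have hD'id : ∀ s, D s = ContinuousLinearMap.id ℝ E → D' s = ContinuousLinearMap.id ℝ E := by
    intro s h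
    refine ContinuousLinearMap.ext fun v => ?_
    have := hbj s v
    rw [h] at this
    exact this
  have hM0 : M 0 = Equiv.refl E := hMid 0 (hD'id 0 (hDst 0 (by norm_num))) (fun q _ => by
    rw [hs 0 (by norm_num)]
    rfl)
  have hMone : M 1 = Equiv.refl E := hMid 1 (hD'id 1 hD1) (fun q hq => hV1 q (Bl_mono hδ'0 hδ'1 hq))
  have hMP : PushE (Bl δ') M := by
    refine ⟨hM1, hM2, hM0, {q : E | nr q ≤ (δ' / 2) ^ 2}, isCompact_Bl (δ' / 2), ?_, ?_⟩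
    · intro q hq
      have hq' : nr q ≤ (δ' / 2) ^ 2 := hq
      show nr q < δ' ^ 2
      have : 0 < δ' ^ 2 := by positivity
      nlinarith
    · intro s q hq
      have hq' : ¬ nr q ≤ (δ' / 2) ^ 2 := hq
      push Not at hq'
      rw [hM3, bum_zero hδ'0 (by nlinarith), zero_smul, add_zero]
  obtain ⟨MN, hMN1, hMN2, hMN3⟩ := push_chart (hβ.mono (isOpen_Bl δ') (Bl_mono hδ'0 hδ'δ)) hMP
  have hMNone : ∀ x, MN 1 x = x := by
    intro x
    by_cases hx : x ∈ β '' Bl δ'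
    · obtain ⟨q, hq, rfl⟩ := hx
      rw [hMN2 1 q hq, hMone]
      rfl
    · exact hMN3 1 x hx
  refine ⟨D, hGL, hD1, ?_⟩
  intro δ hδ hδδ L hL
  obtain ⟨LN, hLN1, hLN2, hLN3⟩ := push_chart (hβ.mono (isOpen_Bl δ) (Bl_mono hδ hδδ)) hL.push
  obtain ⟨ρL, hρL, hLg⟩ := hL.germ
  have hLY : Push Y LN := hLN1.mono ((image_mono (Bl_mono hδ hδδ)).trans hβY)
  have hMY : Push Y MN := hMN1.mono ((image_mono (Bl_mono hδ'0 hδ'δ)).trans hβY)
  refine ⟨fun s => (LN s).symm.trans ((MN s).symm.trans (V s)), LN,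
    (hLY.inv).comp ((hMY.inv).comp hV), hLN1, ?_, hLN2, ?_⟩
  · -- the germ
    have hU' := Nlc_open hV' hβ
    have hFc : ContinuousOn (Nlc_F g β (fun s => (V s).symm)) (Nlc_U δ₀ β (fun s => (V s).symm)) :=
      fun z hz => (Nlc_smooth hV' hβ hg hz).continuousAt.continuousWithinAt
    have hO1 := hFc.isOpen_inter_preimage hU' (isOpen_Bl (δ' / 4))
    have hDc : Continuous fun z : ℝ × E => D' z.1 z.2 :=
      ((hDs'.comp contDiff_fst).clm_apply contDiff_snd).continuous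
    have hO2 : IsOpen ((fun z : ℝ × E => D' z.1 z.2) ⁻¹' (Bl (min δ ρL))) := (isOpen_Bl _).preimage hDc
    have hmin : 0 < min δ ρL := lt_min hδ hρL
    have hd4 : 0 < δ' / 4 := by positivity
    obtain ⟨ρ, hρ, hρO⟩ := Nlc_tube (hO1.inter hO2) (by
      intro s
      refine ⟨⟨Nlc_zeroU hδ₀ hr' s, ?_⟩, ?_⟩
      · show g ((V s).symm (β 0)) ∈ Bl (δ' / 4)
        rw [hr' s, hgβ 0 (zero_mem_Bl hδ₀)]
        exact zero_mem_Bl hd4
      · show D' s 0 ∈ Bl (min δ ρL)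
        rw [map_zero]
        exact zero_mem_Bl hmin) (by
      rintro s q ⟨⟨⟨a1, a2⟩, a3⟩, a4⟩
      refine ⟨⟨⟨a1, ?_⟩, ?_⟩, ?_⟩
      · show (V s).symm (β q) ∈ _
        rw [hVk s]
        exact a2
      · show g ((V s).symm (β q)) ∈ Bl (δ' / 4)
        rw [hVk s]
        exact a3
      · show D' s q ∈ Bl (min δ ρL)
        rw [hDk' s]
        exact a4)
    refine ⟨ρ, hρ, ?_⟩
    intro s q hq
    have hqn : ‖q‖ < ρ := by
      have e1 := (nr_le q).1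
      have e2 : ‖q‖ ^ 2 < ρ ^ 2 := lt_of_le_of_lt e1 hq
      exact lt_of_pow_lt_pow_left₀ 2 hρ.le e2
    obtain ⟨⟨⟨a1, a2⟩, a3⟩, a4⟩ := hρO s q hqn
    obtain ⟨p, hp, hpe⟩ := a2
    have hpe' : β p = (V s).symm (β q) := hpe
    have hgp : g ((V s).symm (β q)) = p := by rw [← hpe', hgβ p hp]
    have hpb : p ∈ Bl (δ' / 4) := by
      have : g ((V s).symm (β q)) ∈ Bl (δ' / 4) := a3
      rwa [hgp] at this
    have hpδ' : p ∈ Bl δ' := Bl_mono hd4 (by linarith) hpb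
    have hMp : M s p = D' s q := by
      rw [hM3, bum_one hδ'0 (by
        have : nr p < (δ' / 4) ^ 2 := hpb
        nlinarith), one_smul]
      show p + (D' s (g (V s (β p))) - p) = D' s q
      rw [hpe', Equiv.apply_symm_apply, hgβ q a1]
      abel
    have hLq : LN s (β (D' s q)) = β q := by
      have b1 : D' s q ∈ Bl (min δ ρL) := a4
      rw [hLN2 s _ (Bl_mono hmin (min_le_left _ _) b1), hLg s _ (Bl_mono hmin (min_le_right _ _) b1), hbj']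
    show V s ((MN s).symm ((LN s).symm (β q))) = β q
    have c1 : (LN s).symm (β q) = β (D' s q) := by rw [Equiv.symm_apply_eq, hLq]
    have c2 : (MN s).symm (β (D' s q)) = β p := by
      rw [Equiv.symm_apply_eq, hMN2 s p hpδ', hMp]
    rw [c1, c2, hpe', Equiv.apply_symm_apply]
  · intro x
    show V 1 x = V 1 ((MN 1).symm ((LN 1).symm (LN 1 x)))
    rw [Equiv.symm_apply_apply]
    have : (MN 1).symm x = x := by rw [Equiv.symm_apply_eq, hMNone]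
    rw [this]

end Pool.Agent.NHP
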