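import Pool.Agent.NHP.Ele

/-!
# NHP/Smo: smoothing a map of the plane near a compact set which is mapped into a chart (difficulty 3)

`g` inverse of `β`.  The open set `W = {p ∈ U | H p ∈ β '' ball 0 1}` contains `Q`.  Choose compact `Q ⊆ interior Q' ⊆ Q' ⊆ interior Q'' ⊆ Q'' ⊆ W` (`exists_compact_between`), `χ` smooth,
`χ = 1` on `Q'`, support in `Q''`.  `f = g ∘ H` is continuous on `W`.  For every continuous positive `ε` on the plane there is a smooth `f'` with `‖f' p - f p‖ < ε p` on `Q''`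
(`exists_contMDiffOn_forall_mem_convex_of_local_const` / smooth partition of unity; extend `f` from `Q''` by Tietze or take the convex sets `t p = ball (f p) ε` for `p ∈ W`, `univ`
otherwise).  `H' p = β (f p + χ p • (f' p - f p))` on `W`, `H' = H` off `Q''`.  Choose `ε` small (compactness of `Q''`) such that `H' p ∈ β '' ball 0 1` and such that for all `i`
`H' p ∈ O i` for `p ∈ Q'' ∩ P i`: the set of `(p, v)`, `p ∈ Q'' ∩ P i`, `v ∈ E` with `β v ∈ O i`, is open near the compact graph of `f`.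
Smooth on `A ∪ interior Q'`: on `interior Q'` it is `β ∘ f'`; at points of `A ∩ W` both `f` and `f'` are smooth; at points of `A` off `Q''` it is `H`.
-/

open scoped Manifold ContDiff Topology
open Set Filter
open Pool.Agent.CSG (stp)
open Pool.Agent.RSG (E3 ex Thick)
open Pool.Agent.KNT (Dom Str Str2 BalC bmp)

namespace Pool.Agent.NHP

variable {N : Type*} [TopologicalSpace N] [ChartedSpace E3 N] [T2Space N]

theorem smooth_step {ι : Type*} [Finite ι] {P : ι → Set (ℝ × ℝ)} {O : ι → Set N} (hP : ∀ i, IsCompact (P i)) (hO : ∀ i, IsOpen (O i))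
    {H : ℝ × ℝ → N} (hH : Continuous H) (hHO : ∀ i, ∀ p ∈ P i, H p ∈ O i) {A : Set (ℝ × ℝ)} (hA : IsOpen A)
    (hs : ∀ p ∈ A, ContMDiffAt 𝓘(ℝ, ℝ × ℝ) (𝓡 3) ∞ H p) {Q U : Set (ℝ × ℝ)} (hQ : IsCompact Q) (hU : IsOpen U) (hQU : Q ⊆ U)
    {β : E → N} (hβ : Cht (Metric.ball 0 1) β) (hQβ : ∀ p ∈ Q, H p ∈ β '' Metric.ball 0 1) :
    ∃ (H' : ℝ × ℝ → N) (A' : Set (ℝ × ℝ)), Continuous H' ∧ (∀ i, ∀ p ∈ P i, H' p ∈ O i) ∧ IsOpen A' ∧ A ⊆ A' ∧ Q ⊆ A' ∧
      (∀ p ∈ A', ContMDiffAt 𝓘(ℝ, ℝ × ℝ) (𝓡 3) ∞ H' p) ∧ ∀ p ∉ U, H' p = H p := by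
  classical
  have hB : IsOpen (β '' Metric.ball (0 : E) 1) := hβ.img Metric.isOpen_ball subset_rfl
  obtain ⟨g, hg1, hg2⟩ := hβ.inv
  have hβg : ∀ x ∈ β '' Metric.ball (0 : E) 1, β (g x) = x ∧ g x ∈ Metric.ball (0 : E) 1 := by
    rintro x ⟨q, hq, rfl⟩
    rw [hg1 q hq]
    exact ⟨rfl, hq⟩
  obtain ⟨W, hW⟩ : ∃ W : Set (ℝ × ℝ), W = U ∩ H ⁻¹' (β '' Metric.ball 0 1) := ⟨_, rfl⟩
  have hWo : IsOpen W := by
    rw [hW]
    exact hU.inter (hB.preimage hH)
  have hWU : W ⊆ U := by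
    rw [hW]
    exact inter_subset_left
  have hWβ : ∀ p ∈ W, H p ∈ β '' Metric.ball (0 : E) 1 := by
    rw [hW]
    exact fun p hp => hp.2
  have hQW : Q ⊆ W := by
    rw [hW]
    exact fun p hp => ⟨hQU hp, hQβ p hp⟩
  obtain ⟨K1, hK1c, hQK1, hK1W⟩ := exists_compact_between hQ hWo hQW
  obtain ⟨K2, hK2c, hK12, hK2W⟩ := exists_compact_between hK1c hWo hK1W
  obtain ⟨χ, hχ1, hχ0, hχm⟩ := exists_contMDiffMap_one_nhds_of_subset_interior (n := (⊤ : ℕ∞))
    𝓘(ℝ, ℝ × ℝ) hQ.isClosed hQK1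
  obtain ⟨χ', hχ1', hχ0', hχm'⟩ := exists_contMDiffMap_one_nhds_of_subset_interior (n := (⊤ : ℕ∞))
    𝓘(ℝ, ℝ × ℝ) hK1c.isClosed hK12
  obtain ⟨f, hf⟩ : ∃ f : ℝ × ℝ → E, f = fun p => g (H p) := ⟨_, rfl⟩
  have hfc : ∀ p ∈ W, ContinuousAt f p := by
    intro p hp
    rw [hf]
    exact ContinuousAt.comp (f := H) (g := g) (hg2 (H p) (hWβ p hp)).continuousAt hH.continuousAt
  have hfβ : ∀ p ∈ W, β (f p) = H p := by
    intro p hp
    rw [hf]
    exact (hβg _ (hWβ p hp)).1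
  have hfb : ∀ p ∈ W, f p ∈ Metric.ball (0 : E) 1 := by
    intro p hp
    rw [hf]
    exact (hβg _ (hWβ p hp)).2
  -- continuous extension
  have hf1c : Continuous fun p => χ' p • f p := by
    rw [continuous_iff_continuousAt]
    intro p
    by_cases hp : p ∈ W
    · exact (χ'.contMDiff.continuous.continuousAt).smul (hfc p hp)
    · have hpK : p ∉ K2 := fun h => hp (hK2W h)
      have h1 : ∀ᶠ x in 𝓝 p, χ' x • f x = 0 := by
        filter_upwards [hK2c.isClosed.isOpen_compl.mem_nhds hpK] with x hx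
        rw [hχ0' x hx, zero_smul]
      exact (continuousAt_const (y := (0 : E))).congr (h1.mono fun x hx => hx.symm)
  -- the sizes
  have hfK1 : ContinuousOn f K1 := fun p hp => (hfc p (hK1W hp)).continuousWithinAt
  obtain ⟨δa, hδa, hδa2⟩ := (hK1c.image_of_continuousOn hfK1).exists_thickening_subset_open
    (Metric.isOpen_ball (x := (0 : E)) (ε := 1)) (by
      rintro _ ⟨p, hp, rfl⟩
      exact hfb p (hK1W hp))
  have hδi : ∀ i, ∃ δ > 0, ∀ p ∈ K1 ∩ P i, ∀ v : E, dist v (f p) < δ → β v ∈ O i := by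
    intro i
    have h1 : IsCompact (f '' (K1 ∩ P i)) :=
      (hK1c.inter (hP i)).image_of_continuousOn (hfK1.mono inter_subset_left)
    have h2 : IsOpen (Metric.ball (0 : E) 1 ∩ β ⁻¹' O i) :=
      hβ.contOn.isOpen_inter_preimage Metric.isOpen_ball (hO i)
    obtain ⟨δ, hδ, hδ2⟩ := h1.exists_thickening_subset_open h2 (by
      rintro _ ⟨p, hp, rfl⟩
      refine ⟨hfb p (hK1W hp.1), ?_⟩
      show β (f p) ∈ O i
      rw [hfβ p (hK1W hp.1)]
      exact hHO i p hp.2)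
    refine ⟨δ, hδ, ?_⟩
    intro p hp v hv
    exact (hδ2 (Metric.mem_thickening_iff.2 ⟨f p, ⟨p, hp, rfl⟩, hv⟩)).2
  choose δi hδi1 hδi2 using hδi
  obtain ⟨δ, hδ1, hδ2⟩ : ∃ δ : ℝ, δ ∈ Ioo 0 δa ∧ ∀ i, δ ∈ Ioo 0 (δi i) := by
    have h1 : ∀ᶠ δ in 𝓝[>] (0 : ℝ), δ ∈ Ioo 0 δa := Ioo_mem_nhdsGT hδa
    have h2 : ∀ᶠ δ in 𝓝[>] (0 : ℝ), ∀ i, δ ∈ Ioo 0 (δi i) :=
      eventually_all.2 fun i => Ioo_mem_nhdsGT (hδi1 i)
    exact (h1.and h2).exists
  obtain ⟨f', hf's, hf'd, _⟩ := hf1c.exists_contDiff_approx (⊤ : ℕ∞) (ε := fun _ => δ)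
    continuous_const (fun _ => hδ1.1)
  obtain ⟨v, hv⟩ : ∃ v : ℝ × ℝ → E, v = fun p => f p + χ p • (f' p - f p) := ⟨_, rfl⟩
  have hvK : ∀ p ∈ K1, dist (v p) (f p) < δ := by
    intro p hp
    have h1 : χ' p = 1 := hχ1'.self_of_nhdsSet p hp
    have h2 := hf'd p
    rw [h1, one_smul, dist_eq_norm] at h2
    rw [dist_eq_norm, hv]
    show ‖f p + χ p • (f' p - f p) - f p‖ < δ
    rw [add_sub_cancel_left, norm_smul]
    have h3 : ‖χ p‖ ≤ 1 := by
      rw [Real.norm_eq_abs, abs_of_nonneg (hχm p).1]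
      exact (hχm p).2
    calc ‖χ p‖ * ‖f' p - f p‖ ≤ 1 * ‖f' p - f p‖ :=
          mul_le_mul_of_nonneg_right h3 (norm_nonneg _)
      _ < δ := by rw [one_mul]; exact h2
  have hvn : ∀ p ∉ K1, v p = f p := by
    intro p hp
    rw [hv]
    show f p + χ p • (f' p - f p) = f p
    rw [hχ0 p hp, zero_smul, add_zero]
  have hvb : ∀ p ∈ W, v p ∈ Metric.ball (0 : E) 1 := by
    intro p hp
    by_cases hpK : p ∈ K1
    · exact hδa2 (Metric.mem_thickening_iff.2 ⟨f p, ⟨p, hpK, rfl⟩, (hvK p hpK).trans hδ1.2⟩)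
    · rw [hvn p hpK]
      exact hfb p hp
  obtain ⟨H', hH'⟩ : ∃ H' : ℝ × ℝ → N, H' = fun p => if p ∈ W then β (v p) else H p := ⟨_, rfl⟩
  have hH'W : ∀ p ∈ W, H' p = β (v p) := fun p hp => by rw [hH']; exact if_pos hp
  have hH'n : ∀ p ∉ K1, H' p = H p := by
    intro p hp
    by_cases hpW : p ∈ W
    · rw [hH'W p hpW, hvn p hp, hfβ p hpW]
    · rw [hH']
      exact if_neg hpW
  have hevW : ∀ p ∈ W, H' =ᶠ[𝓝 p] fun x => β (v x) := fun p hp =>
    eventually_of_mem (hWo.mem_nhds hp) hH'W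
  have hevn : ∀ p ∉ K1, H' =ᶠ[𝓝 p] H := fun p hp =>
    eventually_of_mem (hK1c.isClosed.isOpen_compl.mem_nhds hp) (fun x hx => hH'n x hx)
  have hβs : ∀ q ∈ Metric.ball (0 : E) 1, ContMDiffAt 𝓘(ℝ, ℂ × ℝ) (𝓡 3) ∞ β q :=
    fun q hq => (hβ.loc q hq).contMDiffAt
  have hχs : ∀ p, ContDiffAt ℝ ∞ χ p := fun p => χ.contMDiff.contDiff.contDiffAt
  refine ⟨H', A ∪ interior {p | χ p = 1}, ?_, ?_, hA.union isOpen_interior, subset_union_left,
    ?_, ?_, ?_⟩
  · -- continuity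
    rw [continuous_iff_continuousAt]
    intro p
    by_cases hp : p ∈ K1
    · have hpW := hK1W hp
      refine ContinuousAt.congr ?_ (hevW p hpW).symm
      refine ContinuousAt.comp (f := v) (g := β) (hβs _ (hvb p hpW)).continuousAt ?_
      rw [hv]
      exact (hfc p hpW).add ((hχs p).continuousAt.smul (hf's.continuous.continuousAt.sub
        (hfc p hpW)))
    · exact hH.continuousAt.congr (hevn p hp).symm
  · intro i p hp
    by_cases hpK : p ∈ K1
    · rw [hH'W p (hK1W hpK)]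
      exact hδi2 i p ⟨hpK, hp⟩ _ ((hvK p hpK).trans (hδ2 i).2)
    · rw [hH'n p hpK]
      exact hHO i p hp
  · -- `Q` is in the new set
    intro p hp
    refine Or.inr (mem_interior_iff_mem_nhds.2 ?_)
    exact (eventually_nhdsSet_iff_forall.1 hχ1) p hp
  · rintro p (hp | hp)
    · by_cases hpK : p ∈ K1
      · have hpW := hK1W hpK
        have hfs : ContDiffAt ℝ ∞ f p := by
          rw [← contMDiffAt_iff_contDiffAt, hf]
          exact ContMDiffAt.comp (g := g) (f := H) p (hg2 (H p) (hWβ p hpW)) (hs p hp)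
        have hvs : ContDiffAt ℝ ∞ v p := by
          rw [hv]
          exact hfs.add ((hχs p).smul (hf's.contDiffAt.sub hfs))
        refine ContMDiffAt.congr_of_eventuallyEq ?_ (hevW p hpW)
        exact ContMDiffAt.comp (g := β) (f := v) p (hβs _ (hvb p hpW))
          (contMDiffAt_iff_contDiffAt.2 hvs)
      · exact (hs p hp).congr_of_eventuallyEq (hevn p hpK)
    · have hpn := mem_interior_iff_mem_nhds.1 hp
      have hp1' : p ∈ {p : ℝ × ℝ | χ p = 1} := interior_subset hp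
      have hp1 : χ p = 1 := hp1'
      have hpK : p ∈ K1 := by
        by_contra hcon
        rw [hχ0 p hcon] at hp1
        exact zero_ne_one hp1
      have hpW := hK1W hpK
      have h1 : H' =ᶠ[𝓝 p] fun x => β (f' x) := by
        filter_upwards [hevW p hpW, hpn] with x hx1 hx2
        rw [hx1, hv]
        show β (f x + χ x • (f' x - f x)) = β (f' x)
        rw [show χ x = 1 from hx2, one_smul, add_sub_cancel]
      refine ContMDiffAt.congr_of_eventuallyEq ?_ h1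
      have h2 : f' p = v p := by
        rw [hv]
        show f' p = f p + χ p • (f' p - f p)
        rw [hp1, one_smul, add_sub_cancel]
      refine ContMDiffAt.comp (g := β) (f := f') p ?_ (contMDiffAt_iff_contDiffAt.2 hf's.contDiffAt)
      rw [h2]
      exact hβs _ (hvb p hpW)
  · intro p hp
    refine hH'n p fun h => hp (hWU (hK1W h))

end Pool.Agent.NHP
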