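import Pool.Agent.NHP.Sma

/-!
# NHP/The: moving points in a ball (difficulty 3)

`r < R' < R`.  `ρ : E → ℝ` smooth, `ρ = 1` on `ball 0 R'`, compact support in `ball 0 R`; `η : E → E` smooth, `η x = x` for `‖x‖ ≤ r`, `‖η x‖ ≤ R'' < R'` for all `x` (`η x = χ x • x`,
`χ` a bump function with values in `[0, 1]`, `χ = 1` on `closedBall 0 r`, `0` off `ball 0 R''`).  `n` large: `S v q = q + ρ q • v` satisfies the hypothesis of `small_fam` for
`‖v‖ ≤ R'' / n` (`P = E`, `v = η x / n`).  `T x = (S (η x / n)) ^ n` (n-fold composition): `T x 0 = η x` (`ρ = 1` on the segment), `T x = id` off the support of `ρ`.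
`Θ x y = (T x).symm.trans (T y)`.
-/

open scoped Manifold ContDiff Topology
open Set Filter
open Pool.Agent.CSG (stp)
open Pool.Agent.RSG (E3 ex Thick)
open Pool.Agent.KNT (Dom Str Str2 BalC bmp)

namespace Pool.Agent.NHP

/-- the `k`-fold composition -/
def theItr (F : E → Equiv.Perm E) : ℕ → E → Equiv.Perm E
  | 0, _ => Equiv.refl E
  | k + 1, x => (theItr F k x).trans (F x)

theorem theItr_succ (F : E → Equiv.Perm E) (k : ℕ) (x q : E) :
    theItr F (k + 1) x q = F x (theItr F k x q) := rfl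

theorem theItr_symm_succ (F : E → Equiv.Perm E) (k : ℕ) (x q : E) :
    (theItr F (k + 1) x).symm q = (theItr F k x).symm ((F x).symm q) := rfl

theorem theItr_contDiff {F : E → Equiv.Perm E} (h : ContDiff ℝ ∞ (fun q : E × E => F q.1 q.2)) (k : ℕ) :
    ContDiff ℝ ∞ (fun q : E × E => theItr F k q.1 q.2) := by
  induction k with
  | zero => exact contDiff_snd
  | succ k ih => exact h.comp (contDiff_fst.prodMk ih)

theorem theItr_symm_contDiff {F : E → Equiv.Perm E} (h : ContDiff ℝ ∞ (fun q : E × E => (F q.1).symm q.2))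
    (k : ℕ) : ContDiff ℝ ∞ (fun q : E × E => (theItr F k q.1).symm q.2) := by
  induction k with
  | zero => exact contDiff_snd
  | succ k ih => exact ih.comp (contDiff_fst.prodMk h)

theorem exists_theta {r R : ℝ} (hr : 0 < r) (hR : r < R) : ∃ Θ : E → E → Equiv.Perm E,
    ContDiff ℝ ∞ (fun p : (E × E) × E => Θ p.1.1 p.1.2 p.2) ∧
    ContDiff ℝ ∞ (fun p : (E × E) × E => (Θ p.1.1 p.1.2).symm p.2) ∧ (∀ x, Θ x x = Equiv.refl E) ∧
    (∀ x y, ‖x‖ < r → ‖y‖ < r → Θ x y x = y) ∧
    ∃ C : Set E, IsCompact C ∧ C ⊆ Metric.ball 0 R ∧ ∀ x y, ∀ q ∉ C, Θ x y q = q := by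
  have hn : (∞ : WithTop ℕ∞) ≠ 0 := by simp
  obtain ⟨R1, h1, h1'⟩ := exists_between hR
  obtain ⟨R2, h2, h2'⟩ := exists_between h1'
  obtain ⟨R3, h3, h3'⟩ := exists_between h2'
  have hR1 : 0 < R1 := hr.trans h1
  have hR2 : 0 < R2 := hR1.trans h2
  let χ : ContDiffBump (0 : E) := ⟨r, R1, hr, h1⟩
  let ρ : ContDiffBump (0 : E) := ⟨R2, R3, hR2, h3⟩
  have hχ : ContDiff ℝ ∞ (χ : E → ℝ) := χ.contDiff
  have hρ : ContDiff ℝ ∞ (ρ : E → ℝ) := ρ.contDiff
  have hη : ContDiff ℝ ∞ (fun x : E => χ x • x) := hχ.smul contDiff_id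
  have hηr : ∀ x : E, ‖x‖ < r → χ x • x = x := by
    intro x hx
    have : χ x = 1 := χ.one_of_mem_closedBall (by
      rw [mem_closedBall_zero_iff]; exact hx.le)
    rw [this, one_smul]
  have hηb : ∀ x : E, ‖χ x • x‖ ≤ R1 := by
    intro x
    by_cases hx : ‖x‖ < R1
    · rw [norm_smul, Real.norm_eq_abs, abs_of_nonneg χ.nonneg]
      calc χ x * ‖x‖ ≤ 1 * ‖x‖ := mul_le_mul_of_nonneg_right χ.le_one (norm_nonneg _)
        _ ≤ R1 := by rw [one_mul]; exact hx.le
    · have : χ x = 0 := by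
        apply χ.zero_of_le_dist
        rw [dist_zero_right]
        exact not_lt.1 hx
      rw [this, zero_smul, norm_zero]
      exact hR1.le
  -- bound of the derivative
  obtain ⟨K, hK⟩ : ∃ K : ℝ, ∀ q : E, ‖fderiv ℝ ρ q‖ ≤ K := by
    have hc : Continuous (fderiv ℝ ρ) := hρ.continuous_fderiv hn
    have hs : HasCompactSupport (fderiv ℝ ρ) := ρ.hasCompactSupport.fderiv ℝ
    obtain ⟨K, hK⟩ := hc.bounded_above_of_compact_support hs
    exact ⟨K, hK⟩
  have hK0 : 0 ≤ K := (norm_nonneg _).trans (hK 0)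
  obtain ⟨n, hn1⟩ := exists_nat_gt (2 * (K * R1))
  have hnpos : (0 : ℝ) < n := lt_of_le_of_lt (by positivity) hn1
  let G : E × E → E := fun q => ρ q.2 • ((1 / (n : ℝ)) • (χ q.1 • q.1))
  have hG : ContDiff ℝ ∞ G := by
    have g1 : ContDiff ℝ ∞ (fun q : E × E => ρ q.2) := hρ.comp contDiff_snd
    have g2 : ContDiff ℝ ∞ (fun q : E × E => χ q.1 • q.1) := hη.comp contDiff_fst
    exact g1.smul (g2.const_smul (1 / (n : ℝ)))
  have hGb : ∀ q : E × E, ‖(fderiv ℝ G q).comp (ContinuousLinearMap.inr ℝ E E)‖ ≤ 1 / 2 := by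
    rintro ⟨x, y⟩
    have e1 : HasFDerivAt (fun z => G (x, z)) ((fderiv ℝ G (x, y)).comp (ContinuousLinearMap.inr ℝ E E)) y :=
      HasFDerivAt.comp y (hG.differentiable hn (x, y)).hasFDerivAt (hasFDerivAt_prodMk_right x y)
    have e2 : HasFDerivAt (fun z => G (x, z)) ((fderiv ℝ ρ y).smulRight ((1 / (n : ℝ)) • (χ x • x))) y :=
      ((hρ.differentiable hn y).hasFDerivAt).smul_const ((1 / (n : ℝ)) • (χ x • x))
    rw [e1.unique e2, ContinuousLinearMap.norm_smulRight_apply]
    rw [norm_smul (1 / (n : ℝ)), Real.norm_eq_abs, abs_of_nonneg (by positivity)]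
    have e3 : ‖fderiv ℝ ρ y‖ * ‖χ x • x‖ ≤ K * R1 :=
      mul_le_mul (hK y) (hηb x) (norm_nonneg _) hK0
    have e4 : ‖fderiv ℝ ρ y‖ * (1 / (n : ℝ) * ‖χ x • x‖) = (‖fderiv ℝ ρ y‖ * ‖χ x • x‖) / n := by
      field_simp
    rw [e4, div_le_iff₀ hnpos]
    linarith
  obtain ⟨F, hF, hFs, hFx⟩ := small_fam hG hGb
  have hFx' : ∀ x q, F x q = q + ρ q • ((1 / (n : ℝ)) • (χ x • x)) := hFx
  -- the orbit of `0`
  have horb : ∀ x : E, ∀ k : ℕ, k ≤ n → theItr F k x 0 = ((k : ℝ) / n) • (χ x • x) := by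
    intro x k
    induction k with
    | zero => intro _; simp [theItr]
    | succ k ih =>
      intro hk
      rw [theItr_succ, ih (by omega), hFx']
      have e1 : ρ (((k : ℝ) / n) • (χ x • x)) = 1 := by
        apply ρ.one_of_mem_closedBall
        rw [mem_closedBall_zero_iff, norm_smul, Real.norm_eq_abs, abs_of_nonneg (by positivity)]
        have e2 : (k : ℝ) / n ≤ 1 := by
          rw [div_le_one hnpos]
          exact_mod_cast (by omega : k ≤ n)
        have e3 : (k : ℝ) / n * ‖χ x • x‖ ≤ 1 * R1 :=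
          mul_le_mul e2 (hηb x) (norm_nonneg _) zero_le_one
        show (k : ℝ) / n * ‖χ x • x‖ ≤ R2
        linarith
      rw [e1, one_smul, ← add_smul]
      congr 1
      push_cast
      ring
  have hT : ∀ x : E, theItr F n x 0 = χ x • x := by
    intro x
    rw [horb x n le_rfl, div_self hnpos.ne', one_smul]
  have hoff : ∀ x q : E, q ∉ Metric.closedBall (0 : E) R3 → F x q = q := by
    intro x q hq
    have e1 : ρ q = 0 := by
      apply ρ.zero_of_le_dist
      rw [Metric.mem_closedBall, not_le] at hq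
      exact hq.le
    rw [hFx', e1, zero_smul, add_zero]
  have hoffn : ∀ (k : ℕ) (x q : E), q ∉ Metric.closedBall (0 : E) R3 → theItr F k x q = q := by
    intro k x q hq
    induction k with
    | zero => rfl
    | succ k ih => rw [theItr_succ, ih, hoff x q hq]
  refine ⟨fun x y => (theItr F n x).symm.trans (theItr F n y), ?_, ?_, ?_, ?_,
    Metric.closedBall 0 R3, isCompact_closedBall _ _, Metric.closedBall_subset_ball h3', ?_⟩
  · have a1 := theItr_contDiff hF n
    have a2 := theItr_symm_contDiff hFs n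
    have a3 : ContDiff ℝ ∞ (fun p : (E × E) × E => (theItr F n p.1.1).symm p.2) :=
      a2.comp ((contDiff_fst.comp contDiff_fst).prodMk contDiff_snd)
    exact a1.comp ((contDiff_snd.comp contDiff_fst).prodMk a3)
  · have a1 := theItr_contDiff hF n
    have a2 := theItr_symm_contDiff hFs n
    have a3 : ContDiff ℝ ∞ (fun p : (E × E) × E => (theItr F n p.1.2).symm p.2) :=
      a2.comp ((contDiff_snd.comp contDiff_fst).prodMk contDiff_snd)
    exact a1.comp ((contDiff_fst.comp contDiff_fst).prodMk a3)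
  · intro x
    exact Equiv.symm_trans_self _
  · intro x y hx hy
    have e1 : (theItr F n x).symm x = 0 := by
      rw [Equiv.symm_apply_eq, hT, hηr x hx]
    show theItr F n y ((theItr F n x).symm x) = y
    rw [e1, hT, hηr y hy]
  · intro x y q hq
    have e1 : (theItr F n x).symm q = q := by
      rw [Equiv.symm_apply_eq, hoffn n x q hq]
    show theItr F n y ((theItr F n x).symm q) = q
    rw [e1, hoffn n y q hq]

end Pool.Agent.NHP
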