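import Pool.Agent.NHP.Gld

/-!
# NHP/Uni: two lifts of the same path (difficulty 2)

`W s = (L s).symm.trans (L' s)`.  Near `0`: `q ∈ Bl ρ` small; `q = L s q'` with `q' = (D s)⁻¹ q` (`‖(D s)⁻¹‖` is bounded: continuous in `s`, constant outside `[1/8, 7/8]`), so `(L s).symm q = (D s)⁻¹ q`, `L' s` of
it is `q`.
-/

open scoped Manifold ContDiff Topology
open Set Filter
open Pool.Agent.CSG (stp)
open Pool.Agent.RSG (E3 ex Thick)
open Pool.Agent.KNT (Dom Str Str2 BalC bmp)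

namespace Pool.Agent.NHP

theorem Uni_bound {D : ℝ → E →L[ℝ] E} (hD : GLp D) :
    ∃ c : ℝ, 0 < c ∧ ∀ s v, c * ‖v‖ ≤ ‖D s v‖ := by
  have hcont : Continuous fun p : ℝ × E => ‖D p.1 p.2‖ := by
    have h1 : Continuous D := hD.smooth.continuous
    exact ((h1.comp continuous_fst).clm_apply continuous_snd).norm
  have hK : IsCompact (Icc (1 / 8 : ℝ) (7 / 8) ×ˢ Metric.sphere (0 : E) 1) :=
    isCompact_Icc.prod (isCompact_sphere _ _)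
  have hne : (Icc (1 / 8 : ℝ) (7 / 8) ×ˢ Metric.sphere (0 : E) 1).Nonempty := by
    refine ⟨(1 / 8, ((0 : ℂ), (1 : ℝ))), ⟨⟨le_refl _, by norm_num⟩, ?_⟩⟩
    simp [Prod.norm_def]
  obtain ⟨p, hp, hmin⟩ := hK.exists_isMinOn hne hcont.continuousOn
  have hp2 : ‖p.2‖ = 1 := by simpa using hp.2
  have hpos : 0 < ‖D p.1 p.2‖ := by
    rw [norm_pos_iff]
    intro h0
    have h1 : p.2 = 0 := (hD.bij p.1).1 (by rw [h0, map_zero])
    rw [h1, norm_zero] at hp2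
    exact zero_ne_one hp2
  have hunit : ∀ s ∈ Icc (1 / 8 : ℝ) (7 / 8), ∀ v : E, ‖D p.1 p.2‖ * ‖v‖ ≤ ‖D s v‖ := by
    intro s hs v
    rcases eq_or_ne v 0 with rfl | hv
    · simp
    · have hv' : 0 < ‖v‖ := norm_pos_iff.2 hv
      have h1 : ((‖v‖)⁻¹ • v) ∈ Metric.sphere (0 : E) 1 := by
        rw [mem_sphere_zero_iff_norm, norm_smul, norm_inv, norm_norm]
        exact inv_mul_cancel₀ hv'.ne'
      have h2 : ‖D p.1 p.2‖ ≤ ‖D s ((‖v‖)⁻¹ • v)‖ :=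
        hmin (a := (s, (‖v‖)⁻¹ • v)) ⟨hs, h1⟩
      rw [map_smul, norm_smul, norm_inv, norm_norm] at h2
      have h3 := mul_le_mul_of_nonneg_right h2 hv'.le
      rwa [mul_comm (‖v‖)⁻¹, mul_assoc, inv_mul_cancel₀ hv'.ne', mul_one] at h3
  refine ⟨‖D p.1 p.2‖, hpos, fun s v => ?_⟩
  rcases le_total s (1 / 8) with h | h
  · rw [hD.start s h, ← hD.start (1 / 8) le_rfl]
    exact hunit _ ⟨le_rfl, by norm_num⟩ v
  · rcases le_total s (7 / 8) with h' | h'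
    · exact hunit s ⟨h, h'⟩ v
    · rw [hD.stop s h', ← hD.stop (7 / 8) le_rfl]
      exact hunit _ ⟨by norm_num, le_rfl⟩ v

theorem lift_unique {D : ℝ → E →L[ℝ] E} (hD : GLp D) {δ : ℝ} (hδ : 0 < δ) {L L' : ℝ → Equiv.Perm E} (hL : Lif D δ L) (hL' : Lif D δ L') :
    ∃ W : ℝ → Equiv.Perm E, PushE (Bl δ) W ∧ (∃ ρ : ℝ, 0 < ρ ∧ ∀ s, ∀ q ∈ Bl ρ, W s q = q) ∧ ∀ q, L' 1 q = W 1 (L 1 q) := by
  obtain ⟨⟨h1, h2, h3, C, hC, hCO, hfix⟩, ρ₁, hρ₁, hg₁⟩ := hL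
  obtain ⟨⟨h1', h2', h3', C', hC', hCO', hfix'⟩, ρ₂, hρ₂, hg₂⟩ := hL'
  refine ⟨fun s => (L s).symm.trans (L' s), ⟨?_, ?_, ?_, ?_⟩, ?_, ?_⟩
  · show ContDiff ℝ ∞ fun q : ℝ × E => L' q.1 ((L q.1).symm q.2)
    exact h1'.comp (contDiff_fst.prodMk h2)
  · show ContDiff ℝ ∞ fun q : ℝ × E => L q.1 ((L' q.1).symm q.2)
    exact h1.comp (contDiff_fst.prodMk h2')
  · simp only [h3, h3']
    rfl
  · refine ⟨C ∪ C', hC.union hC', union_subset hCO hCO', fun s x hx => ?_⟩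
    rw [mem_union, not_or] at hx
    have e1 : (L s).symm x = x := by
      rw [Equiv.symm_apply_eq]; exact (hfix s x hx.1).symm
    show L' s ((L s).symm x) = x
    rw [e1, hfix' s x hx.2]
  · obtain ⟨c, hc, hb⟩ := Uni_bound hD
    have hm : 0 < min ρ₁ ρ₂ := lt_min hρ₁ hρ₂
    refine ⟨c * min ρ₁ ρ₂ / 2, by positivity, fun s q hq => ?_⟩
    obtain ⟨q', hq'⟩ := (hD.bij s).2 q
    have hq0 : nr q < (c * min ρ₁ ρ₂ / 2) ^ 2 := hq
    have e1 : c * ‖q'‖ ≤ ‖q‖ := by rw [← hq']; exact hb s q'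
    have e2 := (nr_le q).1
    have e3 := (nr_le q').2
    have e4 : c ^ 2 * ‖q'‖ ^ 2 ≤ ‖q‖ ^ 2 := by
      have := pow_le_pow_left₀ (by positivity) e1 2
      rwa [mul_pow] at this
    have e5 : nr q' < (min ρ₁ ρ₂) ^ 2 := by
      have hc2 : 0 < c ^ 2 := by positivity
      have e6 : c ^ 2 * nr q' < c ^ 2 * (min ρ₁ ρ₂) ^ 2 := by
        have e7 : c ^ 2 * nr q' ≤ 2 * (c ^ 2 * ‖q'‖ ^ 2) := by nlinarith
        have e8 : 0 < c ^ 2 * (min ρ₁ ρ₂) ^ 2 := by positivity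
        have e9 : (c * min ρ₁ ρ₂ / 2) ^ 2 = c ^ 2 * (min ρ₁ ρ₂) ^ 2 / 4 := by ring
        rw [e9] at hq0
        linarith
      exact lt_of_mul_lt_mul_left e6 hc2.le
    have m1 : q' ∈ Bl ρ₁ := by
      show nr q' < ρ₁ ^ 2
      exact e5.trans_le (pow_le_pow_left₀ hm.le (min_le_left _ _) 2)
    have m2 : q' ∈ Bl ρ₂ := by
      show nr q' < ρ₂ ^ 2
      exact e5.trans_le (pow_le_pow_left₀ hm.le (min_le_right _ _) 2)
    have e10 : (L s).symm q = q' := by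
      rw [Equiv.symm_apply_eq, hg₁ s q' m1, hq']
    show L' s ((L s).symm q) = q
    rw [e10, hg₂ s q' m2, hq']
  · intro q
    show L' 1 q = L' 1 ((L 1).symm (L 1 q))
    rw [Equiv.symm_apply_apply]

end Pool.Agent.NHP
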